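import Pool.Agent.R196.PP.PiecesM

/-!
Pieces P11a, P11b, P11c of the project for MP_68f671_pr.
-/

namespace Pool.Agent.R273.PP11

open MeasureTheory ProbabilityTheory Filter Topology
open scoped ENNReal BigOperators RealInnerProductSpace
open Pool.Agent.R196.PP

/-! ### P11a -/

lemma toMeasure_unif_bind {α β : Type*} [Fintype α] [Nonempty α] [MeasurableSpace β]
    (f : α → PMF β) :
    ((PMF.uniformOfFintype α).bind f).toMeasure =
      ∑ a, (Fintype.card α : ℝ≥0∞)⁻¹ • (f a).toMeasure := by
  ext s hs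
  rw [PMF.toMeasure_bind_apply _ _ _ hs, tsum_fintype]
  simp [Measure.finsetSum_apply]

lemma integral_walkLaw (ω : Conf 2) (F : (Fin 2 → ℤ) → ℂ) (C : ℝ) (hF : ∀ x, ‖F x‖ ≤ C) :
    ∀ (n : ℕ) (v : Fin 2 → ℤ), ∫ x, F x ∂((walkLaw ω n v).toMeasure) = EV (nx4 ω) F n v := by
  intro n
  induction n with
  | zero =>
    intro v
    simp only [walkLaw, EV, PMF.toMeasure_pure]
    exact integral_dirac _ _
  | succ n ih =>
    intro v
    have hint : ∀ w : Fin 2 → ℤ, Integrable F ((walkLaw ω n w).toMeasure) := by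
      intro w
      refine Integrable.of_bound (C := C) ?_ (Eventually.of_forall hF)
      exact (Measurable.of_discrete (f := F)).aestronglyMeasurable
    simp only [walkLaw, EV]
    rw [toMeasure_unif_bind, integral_finsetSum_measure]
    · simp only [integral_smul_measure, ih]
      rw [Fintype.sum_prod_type, Fin.sum_univ_two, Fintype.sum_bool, Fintype.sum_bool,
        Fin.sum_univ_four]
      have hc : ((Fintype.card (Fin 2 × Bool) : ℝ≥0∞)⁻¹).toReal = (1 / 4 : ℝ) := by
        simp
      rw [hc]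
      simp only [nx4, dirs]
      simp only [Matrix.cons_val_zero, Matrix.cons_val_one, Matrix.cons_val]
      simp only [Complex.real_smul]
      push_cast
      ring
    · intro e _
      refine (hint _).smul_measure ?_
      simp

theorem P11a_holds : P11a := by
  intro ω n t
  have hmap : ((scaledLaw ω n : ProbabilityMeasure (EuclideanSpace ℝ (Fin 2))) :
      Measure (EuclideanSpace ℝ (Fin 2))) = ((walkLaw ω n 0).toMeasure).map (rescale 2 n) := rfl
  rw [charFun_apply, hmap, integral_map (Measurable.of_discrete (f := rescale 2 n)).aemeasurable]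
  · rw [← integral_walkLaw ω _ 1 _ n 0]
    · congr 1
      funext x
      congr 1
      rw [mul_comm]
      congr 2
      simp only [rescale]
      rw [PiLp.inner_apply, Fin.sum_univ_two]
      simp
      ring
    · intro x
      rw [mul_comm, Complex.norm_exp_ofReal_mul_I]
  · apply Continuous.aestronglyMeasurable
    fun_prop

/-! ### P11b -/

lemma toPQ_add (x y : Fin 2 → ℤ) : toPQ (x + y) = toPQ x + toPQ y := by
  simp only [toPQ, Pi.add_apply]
  ext <;> simp <;> ring

lemma toPQ_smul (k : ℤ) (x : Fin 2 → ℤ) : toPQ (k • x) = k • toPQ x := by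
  simp only [toPQ, Pi.smul_apply]
  ext <;> simp <;> ring

lemma toPQ_dir (e : Fin 4) : toPQ (dirVec (dirs e)) = stp e := by
  fin_cases e <;> simp [toPQ, dirVec, dirs, stp]

lemma gap_eq_gp (s : Scales) (u : Ph) (x : Fin 2 → ℤ) (e : Fin 4) :
    gap (confOf s u) x (dirs e) = gp (envB s u) (toPQ x) e := by
  unfold gap gp
  congr 1
  ext k
  simp only [confOf, decide_eq_true_eq, toPQ_add, toPQ_smul, toPQ_dir]

lemma nx4_eq (s : Scales) (u : Ph) (x : Fin 2 → ℤ) (e : Fin 4) :
    toPQ (nx4 (confOf s u) x e) = nb (envB s u) (toPQ x) e := by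
  simp only [nx4, nextPt, nb, toPQ_add, toPQ_smul, toPQ_dir, gap_eq_gp]

theorem P11b_holds : P11b := by
  intro s u F n
  induction n with
  | zero => intro x; rfl
  | succ n ih =>
    intro x
    simp only [EV, ih, nx4_eq]


/-! ### P11c -/

/-- a function with countable range and measurable fibres -/
def CD {α : Type*} (f : Conf 2 → α) : Prop :=
  (Set.range f).Countable ∧ ∀ a, MeasurableSet (f ⁻¹' {a})

lemma CD.preimage {α : Type*} {f : Conf 2 → α} (h : CD f) (S : Set α) :
    MeasurableSet (f ⁻¹' S) := by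
  have : f ⁻¹' S = ⋃ a ∈ (Set.range f ∩ S), f ⁻¹' {a} := by
    ext x
    simp
  rw [this]
  exact MeasurableSet.biUnion (h.1.mono Set.inter_subset_left) fun a _ => h.2 a

lemma CD.comp {α β : Type*} {f : Conf 2 → α} (h : CD f) (g : α → β) :
    CD (fun ω => g (f ω)) := by
  refine ⟨?_, ?_⟩
  · have : Set.range (fun ω => g (f ω)) = g '' Set.range f := by
      rw [← Set.range_comp]; rfl
    rw [this]
    exact h.1.image g
  · intro b
    exact h.preimage (g ⁻¹' {b})

lemma CD.pi {ι α : Type*} [Finite ι] {f : ι → Conf 2 → α} (h : ∀ i, CD (f i)) :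
    CD (fun ω => fun i => f i ω) := by
  refine ⟨?_, ?_⟩
  · have : Set.range (fun ω => fun i => f i ω) ⊆ Set.pi Set.univ (fun i => Set.range (f i)) := by
      rintro _ ⟨ω, rfl⟩ i _
      exact ⟨ω, rfl⟩
    exact (Set.countable_univ_pi fun i => (h i).1).mono this
  · intro a
    have : (fun ω => fun i => f i ω) ⁻¹' {a} = ⋂ i, (f i) ⁻¹' {a i} := by
      ext ω
      simp [funext_iff]
    rw [this]
    exact MeasurableSet.iInter fun i => (h i).2 _

/-- piecewise: a function chosen by a countable-range index -/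
lemma CD.choose {ι α : Type*} [Countable ι] {g : Conf 2 → ι} (hg : CD g)
    {f : ι → Conf 2 → α} (h : ∀ i, CD (f i)) : CD (fun ω => f (g ω) ω) := by
  refine ⟨?_, ?_⟩
  · have : Set.range (fun ω => f (g ω) ω) ⊆ ⋃ i, Set.range (f i) := by
      rintro _ ⟨ω, rfl⟩
      exact Set.mem_iUnion.2 ⟨g ω, ω, rfl⟩
    exact (Set.countable_iUnion fun i => (h i).1).mono this
  · intro a
    have : (fun ω => f (g ω) ω) ⁻¹' {a} = ⋃ i, (g ⁻¹' {i} ∩ (f i) ⁻¹' {a}) := by
      ext ω
      simp
    rw [this]
    exact MeasurableSet.iUnion fun i => (hg.2 i).inter ((h i).2 a)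

lemma measurable_coord (x : Fin 2 → ℤ) (b : Bool) : MeasurableSet {ω : Conf 2 | ω x = b} := by
  have : {ω : Conf 2 | ω x = b} = (fun ω : Conf 2 => ω x) ⁻¹' {b} := by
    ext ω; simp
  rw [this]
  exact (measurable_pi_apply x) (measurableSet_singleton b)

lemma gap_CD (v : Fin 2 → ℤ) (e : Fin 2 × Bool) : CD (fun ω : Conf 2 => gap ω v e) := by
  refine ⟨Set.to_countable _, ?_⟩
  intro k
  -- `gap = k` iff `k` is least, or `k = 0` and the set is empty
  have : (fun ω : Conf 2 => gap ω v e) ⁻¹' {k} =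
      {ω : Conf 2 | (k = 0 ∧ ∀ j : ℕ, 1 ≤ j → ω (v + (j : ℤ) • dirVec e) = false) ∨
        (1 ≤ k ∧ ω (v + (k : ℤ) • dirVec e) = true ∧
          ∀ j : ℕ, 1 ≤ j → j < k → ω (v + (j : ℤ) • dirVec e) = false)} := by
    ext ω
    simp only [Set.mem_preimage, Set.mem_singleton_iff, gap]
    constructor
    · intro h
      by_cases hne : {k : ℕ | 1 ≤ k ∧ ω (v + (k : ℤ) • dirVec e) = true}.Nonempty
      · right
        have hm := Nat.sInf_mem hne
        rw [h] at hm
        refine ⟨hm.1, hm.2, ?_⟩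
        intro j hj hjk
        by_contra hb
        have hb' : ω (v + (j : ℤ) • dirVec e) = true := by simpa using hb
        have := Nat.sInf_le (s := {k : ℕ | 1 ≤ k ∧ ω (v + (k : ℤ) • dirVec e) = true}) ⟨hj, hb'⟩
        omega
      · left
        rw [Set.not_nonempty_iff_eq_empty] at hne
        rw [hne, Nat.sInf_empty] at h
        refine ⟨h.symm, ?_⟩
        intro j hj
        by_contra hb
        have hb' : ω (v + (j : ℤ) • dirVec e) = true := by simpa using hb
        have : j ∈ {k : ℕ | 1 ≤ k ∧ ω (v + (k : ℤ) • dirVec e) = true} := ⟨hj, hb'⟩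
        rw [hne] at this
        exact this
    · rintro (⟨h0, h⟩ | ⟨h1, h2, h3⟩)
      · have : {k : ℕ | 1 ≤ k ∧ ω (v + (k : ℤ) • dirVec e) = true} = ∅ := by
          ext j
          simp only [Set.mem_ofPred_eq, Set.mem_empty_iff_false, iff_false, not_and]
          intro hj
          rw [h j hj]
          simp
        rw [this, Nat.sInf_empty, h0]
      · apply le_antisymm
        · exact Nat.sInf_le ⟨h1, h2⟩
        · have hm := Nat.sInf_mem (s := {k : ℕ | 1 ≤ k ∧ ω (v + (k : ℤ) • dirVec e) = true})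
            ⟨k, h1, h2⟩
          by_contra hlt
          push Not at hlt
          have := h3 _ hm.1 hlt
          rw [hm.2] at this
          exact absurd this (by simp)
  rw [this]
  have hm : ∀ (j : ℕ) (b : Bool), Measurable fun ω : Conf 2 => (ω (v + (j : ℤ) • dirVec e) = b) := by
    intro j b
    exact measurableSet_setOfPred.1 (measurable_coord _ b)
  refine measurableSet_setOfPred.2 ?_
  refine Measurable.or (Measurable.and measurable_const (Measurable.forall fun j =>
    Measurable.imp measurable_const (hm j false))) ?_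
  refine Measurable.and measurable_const (Measurable.and (hm k true) (Measurable.forall fun j =>
    Measurable.imp measurable_const (Measurable.imp measurable_const (hm j false))))

lemma walkLaw_CD : ∀ (n : ℕ) (v : Fin 2 → ℤ), CD (fun ω : Conf 2 => walkLaw ω n v) := by
  intro n
  induction n with
  | zero =>
    intro v
    simp only [walkLaw]
    refine ⟨?_, ?_⟩
    · exact (Set.countable_singleton (PMF.pure v)).mono (by rintro _ ⟨ω, rfl⟩; rfl)
    · intro a
      by_cases h : PMF.pure v = a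
      · have : (fun _ : Conf 2 => PMF.pure v) ⁻¹' {a} = Set.univ := by
          ext; simp [h]
        rw [this]; exact MeasurableSet.univ
      · have : (fun _ : Conf 2 => PMF.pure v) ⁻¹' {a} = ∅ := by
          ext; simp [h]
        rw [this]; exact MeasurableSet.empty
  | succ n ih =>
    intro v
    have hg : CD (fun ω : Conf 2 => fun e : Fin 2 × Bool => gap ω v e) := CD.pi fun e => gap_CD v e
    have hf : ∀ g : (Fin 2 × Bool → ℕ), CD (fun ω : Conf 2 => fun e : Fin 2 × Bool =>
        walkLaw ω n (v + (g e : ℤ) • dirVec e)) := fun g => CD.pi fun e => ih _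
    have h := CD.choose hg hf
    exact h.comp (fun q : (Fin 2 × Bool → PMF (Fin 2 → ℤ)) => (PMF.uniformOfFintype (Fin 2 × Bool)).bind q)


lemma scaledLaw_CD (n : ℕ) : CD (fun ω : Conf 2 => scaledLaw ω n) :=
  (walkLaw_CD n 0).comp (fun q : PMF (Fin 2 → ℤ) =>
    (⟨(q.toMeasure).map (rescale 2 n),
      Measure.isProbabilityMeasure_map (Measurable.of_discrete (f := rescale 2 n)).aemeasurable⟩ :
      ProbabilityMeasure (EuclideanSpace ℝ (Fin 2))))

lemma measurableSet_tendsto_scaledLaw (γ : ProbabilityMeasure (EuclideanSpace ℝ (Fin 2))) :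
    MeasurableSet {ω : Conf 2 | Tendsto (fun n : ℕ => scaledLaw ω n) atTop (𝓝 γ)} := by
  obtain ⟨U, hU⟩ := (𝓝 γ).exists_antitone_basis
  have : {ω : Conf 2 | Tendsto (fun n : ℕ => scaledLaw ω n) atTop (𝓝 γ)} =
      ⋂ k : ℕ, ⋃ N : ℕ, ⋂ n : ℕ, ⋂ _ : N ≤ n, (fun ω : Conf 2 => scaledLaw ω n) ⁻¹' (U k) := by
    ext ω
    simp only [Set.mem_ofPred_eq, Set.mem_iInter, Set.mem_iUnion, Set.mem_preimage]
    rw [hU.1.tendsto_right_iff]
    simp only [forall_true_left, eventually_atTop]
  rw [this]
  refine MeasurableSet.iInter fun k => MeasurableSet.iUnion fun N => MeasurableSet.iInter fun n =>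
    MeasurableSet.iInter fun _ => ?_
  exact (scaledLaw_CD n).preimage (U k)

/-- the covariance matrix in the original coordinates -/
noncomputable def covD (σ11 σ12 σ22 : ℝ) : Matrix (Fin 2) (Fin 2) ℝ :=
  !![(σ11 + 2 * σ12 + σ22) / 4, (σ11 - σ22) / 4; (σ11 - σ22) / 4, (σ11 - 2 * σ12 + σ22) / 4]

lemma covD_quad (σ11 σ12 σ22 : ℝ) (t : Fin 2 → ℝ) :
    t ⬝ᵥ (covD σ11 σ12 σ22).mulVec t =
      ((t 0 + t 1) / 2) ^ 2 * σ11 + 2 * ((t 0 + t 1) / 2) * ((t 0 - t 1) / 2) * σ12 +
        ((t 0 - t 1) / 2) ^ 2 * σ22 := by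
  simp only [covD, Matrix.mulVec, dotProduct, Fin.sum_univ_two, Matrix.of_apply,
    Matrix.cons_val', Matrix.cons_val_zero, Matrix.cons_val_one, Matrix.cons_val_fin_one]
  ring

lemma covD_posSemidef (σ11 σ12 σ22 : ℝ)
    (h : ∀ a b : ℝ, 0 ≤ a ^ 2 * σ11 + 2 * a * b * σ12 + b ^ 2 * σ22) :
    (covD σ11 σ12 σ22).PosSemidef := by
  refine Matrix.PosSemidef.of_dotProduct_mulVec_nonneg ?_ ?_
  · ext i j
    fin_cases i <;> fin_cases j <;> simp [covD]
  · intro t
    have := h ((t 0 + t 1) / 2) ((t 0 - t 1) / 2)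
    rw [show star t = t from by ext; simp, covD_quad]
    exact this

theorem P11c_holds (h9b : P9b) : P11c := by
  intro s σ11 σ12 σ22 hpos hconv
  refine ⟨covD σ11 σ12 σ22, covD_posSemidef _ _ _ hpos, ?_⟩
  set γ : ProbabilityMeasure (EuclideanSpace ℝ (Fin 2)) :=
    ⟨multivariateGaussian 0 (covD σ11 σ12 σ22), inferInstance⟩ with hγ
  have hm := h9b s
  have hmeas0 : MeasurableSet (Om0 2) := measurable_coord 0 true
  have key : ∀ᵐ ω ∂(Qm s), ω ∈ Om0 2 → Tendsto (fun n : ℕ => scaledLaw ω n) atTop (𝓝 γ) := by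
    unfold Qm
    rw [ae_map_iff hm.aemeasurable]
    · filter_upwards [hconv] with u hu h0
      have h0' : (0 : Pt) ∈ envB s u := by
        have : confOf s u 0 = true := h0
        simp only [confOf, decide_eq_true_eq] at this
        have hz : toPQ 0 = 0 := by simp [toPQ]
        rwa [hz] at this
      have hu' := hu h0'
      rw [ProbabilityMeasure.tendsto_iff_tendsto_charFun]
      intro t
      have h1 := hu' ((t 0 + t 1) / 2) ((t 0 - t 1) / 2)
      have h2 : charFun ((γ : ProbabilityMeasure (EuclideanSpace ℝ (Fin 2))) :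
          Measure (EuclideanSpace ℝ (Fin 2))) t =
          ((Real.exp (-(((t 0 + t 1) / 2) ^ 2 * σ11 + 2 * ((t 0 + t 1) / 2) * ((t 0 - t 1) / 2) * σ12 +
            ((t 0 - t 1) / 2) ^ 2 * σ22) / 2) : ℝ) : ℂ) := by
        have : ((γ : ProbabilityMeasure (EuclideanSpace ℝ (Fin 2))) :
          Measure (EuclideanSpace ℝ (Fin 2))) = multivariateGaussian 0 (covD σ11 σ12 σ22) := rfl
        rw [this, charFun_multivariateGaussian (covD_posSemidef _ _ _ hpos), covD_quad]
        rw [inner_zero_right]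
        push_cast
        congr 1
        ring
      rw [h2]
      refine h1.congr fun n => ?_
      rw [P11a_holds (confOf s u) n t]
      have h3 := P11b_holds s u (fun v => Complex.exp (Complex.I *
        (((√(n : ℝ))⁻¹ * ((t 0 + t 1) / 2 * v.1 + (t 0 - t 1) / 2 * v.2) : ℝ) : ℂ))) n 0
      have hz : toPQ 0 = 0 := by simp [toPQ]
      rw [hz] at h3
      rw [← h3]
      congr 1
      funext x
      congr 3
      simp only [toPQ]
      push_cast
      ring
    · have : {ω : Conf 2 | ω ∈ Om0 2 → Tendsto (fun n : ℕ => scaledLaw ω n) atTop (𝓝 γ)} =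
          (Om0 2)ᶜ ∪ {ω : Conf 2 | Tendsto (fun n : ℕ => scaledLaw ω n) atTop (𝓝 γ)} := by
        ext ω
        simp only [Set.mem_ofPred_eq, Set.mem_union, Set.mem_compl_iff]
        tauto
      rw [this]
      exact hmeas0.compl.union (measurableSet_tendsto_scaledLaw γ)
  unfold ProbabilityTheory.cond
  exact Measure.ae_smul_measure ((ae_restrict_iff' hmeas0).2 key) _

end Pool.Agent.R273.PP11
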