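import Mathlib
import Pool.Agent.H312Gat.A4

set_option autoImplicit false
set_option linter.unusedSectionVars false

namespace R273Bl

open H312Gat Set Filter Topology ENNReal

/-- the nonprincipal ultrafilter -/
noncomputable abbrev UU : Filter ℕ := ((Filter.hyperfilter ℕ : Ultrafilter ℕ) : Filter ℕ)

lemma UU_le : UU ≤ atTop := by
  rw [← Nat.cofinite_eq_atTop]
  exact Filter.hyperfilter_le_cofinite

lemma UU_ge (N : ℕ) : ∀ᶠ n in UU, N ≤ n := UU_le (eventually_ge_atTop N)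

variable {p : ℝ≥0∞} [Fact (1 ≤ p)] [hpt : Fact (p ≠ ⊤)]

/-- small along far pairs -/
def PS (S : LP p → ℝ) : Prop := ∀ t : ℝ, 0 < t → t ≤ 1 / 2 → ∀ τ > 0,
  ∀ᶠ m in UU, ∀ᶠ n in UU, |S (t • (e n - e m))| ≤ τ

lemma ps_zero : PS (fun _ : LP p => (0:ℝ)) := by
  intro t _ _ τ hτ
  filter_upwards with m
  filter_upwards with n
  simpa using hτ.le

lemma ps_add {S T : LP p → ℝ} (hS : PS S) (hT : PS T) : PS (fun c => S c + T c) := by
  intro t h0 h1 τ hτ
  filter_upwards [hS t h0 h1 (τ / 2) (half_pos hτ), hT t h0 h1 (τ / 2) (half_pos hτ)] with m hm hm'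
  filter_upwards [hm, hm'] with n hn hn'
  have := abs_add_le (S (t • (e n - e m))) (T (t • (e n - e m)))
  linarith

lemma ps_mul {S : LP p → ℝ} (a : ℝ) (hS : PS S) : PS (fun c => a * S c) := by
  intro t h0 h1 τ hτ
  filter_upwards [hS t h0 h1 (τ / (|a| + 1)) (by positivity)] with m hm
  filter_upwards [hm] with n hn
  rw [abs_mul]
  calc |a| * |S (t • (e n - e m))| ≤ |a| * (τ / (|a| + 1)) := by gcongr
    _ ≤ (|a| + 1) * (τ / (|a| + 1)) := by gcongr; linarith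
    _ = τ := by field_simp

lemma ps_sum {ι : Type*} (s : Finset ι) (S : ι → LP p → ℝ) (h : ∀ i ∈ s, PS (S i)) :
    PS (fun c => ∑ i ∈ s, S i c) := by
  classical
  induction s using Finset.induction_on with
  | empty => simpa using ps_zero
  | insert a s ha ih =>
    simp only [Finset.sum_insert ha]
    exact ps_add (h a (Finset.mem_insert_self _ _)) (ih fun i hi => h i (Finset.mem_insert_of_mem hi))

lemma pair_CT {N n m : ℕ} (hn : N ≤ n) (hm : N ≤ m) (t : ℝ) : t • (e n - e m : LP p) ∈ CT N := by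
  have h1 : (e n - e m : LP p) = e n + -(e m) := sub_eq_add_neg _ _
  rw [h1]
  exact Tl_sub_CT _ (Tl_smul _ (Tl_add (e_Tl hn) (Tl_neg (e_Tl hm))))

lemma pair_Tl {N n m : ℕ} (hn : N ≤ n) (hm : N ≤ m) (t : ℝ) : t • (e n - e m : LP p) ∈ Tl N := by
  have h1 : (e n - e m : LP p) = e n + -(e m) := sub_eq_add_neg _ _
  rw [h1]
  exact Tl_smul _ (Tl_add (e_Tl hn) (Tl_neg (e_Tl hm)))

lemma pair_norm {n m : ℕ} {t : ℝ} (h0 : 0 < t) : ‖t • (e n - e m : LP p)‖ ≤ 2 * t := by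
  rw [norm_smul, Real.norm_eq_abs, abs_of_pos h0]
  have h1 : ‖(e n - e m : LP p)‖ ≤ 2 := by
    have := norm_sub_le (e n : LP p) (e m)
    rw [e_norm, e_norm] at this
    linarith
  nlinarith

lemma pair_norm1 {n m : ℕ} {t : ℝ} (h0 : 0 < t) (h1 : t ≤ 1 / 2) : ‖t • (e n - e m : LP p)‖ ≤ 1 := by
  have := pair_norm (p := p) (n := n) (m := m) h0
  linarith

lemma ps_of_tail {S : LP p → ℝ} (h : ∀ τ > 0, ∃ N, ∀ c ∈ CT N, ‖c‖ ≤ 1 → |S c| ≤ τ) : PS S := by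
  intro t h0 h1 τ hτ
  obtain ⟨N, hN⟩ := h τ hτ
  filter_upwards [UU_ge N] with m hm
  filter_upwards [UU_ge N] with n hn
  exact hN _ (pair_CT hn hm t) (pair_norm1 h0 h1)

lemma ps_dg_lt {k : ℕ} (hk : 1 ≤ k) (hkp : (k:ℝ) < p.toReal) (M : ML p k) : PS (dg M) := by
  refine ps_of_tail fun τ hτ => ?_
  obtain ⟨N, hN⟩ := tail_small k hk hkp M τ hτ
  refine ⟨N, fun c hc hc1 => le_trans (hN c hc) ?_⟩
  have := pow_le_one₀ (n := k) (norm_nonneg c) hc1
  nlinarith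

lemma exists_lim {a : ℕ → ℝ} {K : ℝ} (h : ∀ n, |a n| ≤ K) : ∃ l, |l| ≤ K ∧ Tendsto a UU (𝓝 l) := by
  have hc : IsCompact (Icc (-K) K) := isCompact_Icc
  have hm : Icc (-K) K ∈ ((Filter.hyperfilter ℕ : Ultrafilter ℕ).map a : Ultrafilter ℝ) := by
    rw [Ultrafilter.mem_map]
    exact Filter.univ_mem' fun n => abs_le.1 (h n)
  obtain ⟨l, hl, hle⟩ := hc.ultrafilter_le_nhds' _ hm
  exact ⟨l, abs_le.2 hl, hle⟩

lemma ps_cub {P : LP p → ℝ} (hP : Cub P) : PS P := by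
  intro t h0 h1 τ hτ
  obtain ⟨K, hK0, hK⟩ := hP.lip 1
  have hb : ∀ n, |P (t • e n)| ≤ K := by
    intro n
    have hn : ‖t • (e n : LP p)‖ ≤ 1 := by
      rw [norm_smul, e_norm, Real.norm_eq_abs, abs_of_pos h0]; linarith
    have := hK (t • e n) 0 hn (by simp)
    rw [hP.zero, sub_zero, sub_zero] at this
    exact this.trans (mul_le_of_le_one_right hK0 hn)
  obtain ⟨l, -, hl⟩ := exists_lim hb
  have hev : ∀ᶠ n in UU, |P (t • e n) - l| < τ / 3 := by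
    have := (Metric.tendsto_nhds.1 hl) (τ / 3) (by positivity)
    simpa only [Real.dist_eq] using this
  filter_upwards [hev] with m hm
  obtain ⟨N, hN⟩ := hP.cr (-(t • e m)) (τ / 3) (by positivity)
  filter_upwards [hev, UU_ge N] with n hn hn2
  have h2 : t • (e n - e m : LP p) = -(t • e m) + t • e n := by
    rw [smul_sub]; abel
  have h3 := hN (t • e n) (Tl_sub_CT _ (Tl_smul _ (e_Tl hn2))) (by
    rw [norm_smul, e_norm, Real.norm_eq_abs, abs_of_pos h0]; linarith)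
  rw [h2]
  rw [hP.odd] at h3
  have h4 := abs_lt.1 hm
  have h5 := abs_lt.1 hn
  have h6 := abs_le.1 h3
  rw [abs_le]
  constructor <;> linarith [h4.1, h4.2, h5.1, h5.2, h6.1, h6.2]

/-- `nu` is Lipschitz on bounded sets -/
lemma nu_lip (R : ℝ) : ∃ K : ℝ, 0 ≤ K ∧ ∀ u v : LP p, ‖u‖ ≤ R → ‖v‖ ≤ R → |nu u - nu v| ≤ K * ‖u - v‖ := by
  refine ⟨p.toReal * (max R 0) ^ (p.toReal - 1), ?_, ?_⟩
  · have := pr_pos (p := p)
    positivity
  intro u v hu hv
  have hpr := pr_pos (p := p)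
  have hp1 := pr1 (p := p)
  have hd : ∀ x ∈ Icc 0 (max R 0), HasDerivWithinAt (fun x : ℝ => x ^ p.toReal)
      (p.toReal * x ^ (p.toReal - 1)) (Icc 0 (max R 0)) x := fun x _ =>
    (Real.hasDerivAt_rpow_const (Or.inr hp1)).hasDerivWithinAt
  have hb : ∀ x ∈ Icc 0 (max R 0), ‖p.toReal * x ^ (p.toReal - 1)‖ ≤
      p.toReal * (max R 0) ^ (p.toReal - 1) := by
    intro x hx
    rw [norm_mul, Real.norm_eq_abs, Real.norm_eq_abs, abs_of_pos hpr,
      abs_of_nonneg (Real.rpow_nonneg hx.1 _)]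
    have := Real.rpow_le_rpow hx.1 hx.2 (sub_nonneg.2 hp1)
    gcongr
  have h := (convex_Icc (0:ℝ) (max R 0)).norm_image_sub_le_of_norm_hasDerivWithin_le hd hb
    (x := ‖v‖) (y := ‖u‖) ⟨norm_nonneg _, le_max_of_le_left hv⟩ ⟨norm_nonneg _, le_max_of_le_left hu⟩
  rw [Real.norm_eq_abs, Real.norm_eq_abs] at h
  rw [nu_def, nu_def]
  refine h.trans ?_
  have h2 := abs_norm_sub_norm_le u v
  have h3 : 0 ≤ p.toReal * (max R 0) ^ (p.toReal - 1) := by positivity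
  gcongr

lemma nu_cross (x : LP p) {τ : ℝ} (hτ : 0 < τ) : ∃ N, ∀ c ∈ CT N, ‖c‖ ≤ 1 →
    |nu (x + c) - nu x - nu c| ≤ τ := by
  obtain ⟨K, hK0, hK⟩ := nu_lip (p := p) (‖x‖ + 2)
  have hx : x ∈ closure (Tl 0 : Set (LP p)) := Tl_dense 0 fun i hi => absurd hi (Nat.not_lt_zero _)
  obtain ⟨b, hb, hxb⟩ := Metric.mem_closure_iff.1 hx (min 1 (τ / (2 * K + 1)))
    (lt_min one_pos (by positivity))
  rw [dist_eq_norm] at hxb
  have hxb1 : ‖x - b‖ < 1 := lt_of_lt_of_le hxb (min_le_left _ _)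
  have hxb2 : ‖x - b‖ < τ / (2 * K + 1) := lt_of_lt_of_le hxb (min_le_right _ _)
  obtain ⟨M, -, hM⟩ := Tl_Blw hb
  refine ⟨M, fun c hc hc1 => ?_⟩
  have hbn : ‖b‖ ≤ ‖x‖ + 1 := by
    have : b = x - (x - b) := by abel
    calc ‖b‖ = ‖x - (x - b)‖ := by rw [← this]
      _ ≤ ‖x‖ + ‖x - b‖ := norm_sub_le _ _
      _ ≤ _ := by linarith
  have h1 := hK (x + c) (b + c) (by have := norm_add_le x c; linarith)
    (by have := norm_add_le b c; linarith)
  have h2 := hK b x (by linarith) (by linarith)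
  rw [add_sub_add_right_eq_sub] at h1
  rw [norm_sub_rev] at h2
  rw [nu_add hM hc] at h1
  have h3 : 2 * (K * ‖x - b‖) ≤ τ := by
    have : K * ‖x - b‖ ≤ K * (τ / (2 * K + 1)) := by gcongr
    have h4 : 2 * (K * (τ / (2 * K + 1))) ≤ τ := by
      rw [← mul_div_assoc, ← mul_div_assoc, div_le_iff₀ (by positivity)]
      nlinarith
    linarith
  have h5 := abs_le.1 h1
  have h6 := abs_le.1 h2
  rw [abs_le]
  constructor <;> linarith [h5.1, h5.2, h6.1, h6.2]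

lemma nu_pair {n m : ℕ} (hnm : m < n) {t : ℝ} (ht : 0 < t) :
    nu (t • (e n - e m) : LP p) = 2 * t ^ p.toReal := by
  have hb : (-(e m) : LP p) ∈ Blw (m + 1) := fun i hi => by
    rw [lp.coeFn_neg, Pi.neg_apply, e_apply, if_neg (by omega), neg_zero]
  have hw : (e n : LP p) ∈ CT (m + 1) := Tl_sub_CT _ (e_Tl hnm)
  rw [nu_smul, abs_of_pos ht]
  have h1 : (e n - e m : LP p) = -(e m) + e n := by abel
  rw [h1, nu_add hb hw, nu_def, nu_def, norm_neg, e_norm, e_norm, Real.one_rpow]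
  ring

lemma pair_apply {n m : ℕ} (t : ℝ) (i : ℕ) : (t • (e n - e m) : LP p) i =
    t * ((if i = n then 1 else 0) - (if i = m then 1 else 0)) := by
  rw [lp.coeFn_smul, Pi.smul_apply, lp.coeFn_sub, Pi.sub_apply, e_apply, e_apply, smul_eq_mul]

end R273Bl
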