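import Mathlib
import Pool.Agent.R273.Bl1

set_option autoImplicit false
set_option linter.unusedSectionVars false

namespace R273Bl

open H312Gat Set Filter Topology ENNReal

/-- Taylor's formula with Peano remainder -/
theorem taylor_peano {E F : Type*} [NormedAddCommGroup E] [NormedSpace ℝ E] [NormedAddCommGroup F]
    [NormedSpace ℝ F] [CompleteSpace F] {f : E → F} {n : ℕ} (hn : 1 ≤ n) (hf : ContDiff ℝ n f)
    (x : E) {ε : ℝ} (hε : 0 < ε) : ∃ r > 0, ∀ c : E, ‖c‖ ≤ r →
    ‖f (x + c) - ∑ k ∈ Finset.range (n + 1), (k.factorial : ℝ)⁻¹ •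
      iteratedFDeriv ℝ k f x (fun _ => c)‖ ≤ ε * ‖c‖ ^ n := by
  obtain ⟨m, rfl⟩ : ∃ m, n = m + 1 := ⟨n - 1, by omega⟩
  have hcont : Continuous (iteratedFDeriv ℝ (m + 1) f) :=
    hf.continuous_iteratedFDeriv (by exact_mod_cast le_rfl)
  obtain ⟨r, hr, hr2⟩ := Metric.continuousAt_iff.1 (hcont.continuousAt (x := x)) ε hε
  refine ⟨r / 2, by positivity, fun c hc => ?_⟩
  have hT := map_add_eq_sum_add_integral_iteratedFDeriv (f := f) (x := x) (y := c) (n := m)
    (fun t _ => by exact_mod_cast hf.contDiffAt)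
  have hcc : Continuous fun t : ℝ => iteratedFDeriv ℝ (m + 1) f (x + t • c) (fun _ => c) := by
    have h1 : Continuous fun t : ℝ => iteratedFDeriv ℝ (m + 1) f (x + t • c) :=
      hcont.comp (by fun_prop)
    have h2 : Continuous fun A : ContinuousMultilinearMap ℝ (fun _ : Fin (m + 1) => E) F =>
        A (fun _ => c) := (ContinuousMultilinearMap.apply ℝ (fun _ : Fin (m + 1) => E) F
          (fun _ => c)).continuous
    exact h2.comp h1
  have hint : ∫ t in (0:ℝ)..1, (1 - t) ^ m • iteratedFDeriv ℝ (m + 1) f x (fun _ => c) =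
      ((m:ℝ) + 1)⁻¹ • iteratedFDeriv ℝ (m + 1) f x (fun _ => c) := by
    rw [intervalIntegral.integral_smul_const]
    congr 1
    have := intervalIntegral.integral_comp_sub_left (a := 0) (b := 1) (fun t : ℝ => t ^ m) 1
    rw [this]
    simp
  have hfac : ((m + 1).factorial : ℝ)⁻¹ = (m.factorial : ℝ)⁻¹ * ((m:ℝ) + 1)⁻¹ := by
    rw [Nat.factorial_succ]
    push_cast
    rw [mul_inv, mul_comm]
  rw [Finset.sum_range_succ, hT, hfac, mul_smul, ← hint, add_sub_add_left_eq_sub, ← smul_sub,
    ← intervalIntegral.integral_sub]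
  · rw [norm_smul]
    have h1 : ‖(m.factorial : ℝ)⁻¹‖ ≤ 1 := by
      rw [norm_inv, Real.norm_natCast]
      exact inv_le_one_of_one_le₀ (by exact_mod_cast Nat.one_le_iff_ne_zero.2 (Nat.factorial_ne_zero m))
    have h2 : ‖∫ t in (0:ℝ)..1, ((1 - t) ^ m • iteratedFDeriv ℝ (m + 1) f (x + t • c) (fun _ => c) -
        (1 - t) ^ m • iteratedFDeriv ℝ (m + 1) f x (fun _ => c))‖ ≤ (ε * ‖c‖ ^ (m + 1)) * |1 - 0| := by
      apply intervalIntegral.norm_integral_le_of_norm_le_const
      intro t ht
      rw [uIoc_of_le zero_le_one] at ht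
      rw [← smul_sub, norm_smul]
      have h3 : ‖(1 - t) ^ m‖ ≤ 1 := by
        rw [norm_pow, Real.norm_eq_abs, abs_of_nonneg (by linarith [ht.2])]
        exact pow_le_one₀ (by linarith [ht.2]) (by linarith [ht.1])
      have h4 : ‖iteratedFDeriv ℝ (m + 1) f (x + t • c) (fun _ => c) -
          iteratedFDeriv ℝ (m + 1) f x (fun _ => c)‖ ≤ ε * ‖c‖ ^ (m + 1) := by
        have h5 : ‖iteratedFDeriv ℝ (m + 1) f (x + t • c) - iteratedFDeriv ℝ (m + 1) f x‖ ≤ ε := by
          have := hr2 (x := x + t • c) (by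
            rw [dist_eq_norm, add_sub_cancel_left, norm_smul, Real.norm_eq_abs, abs_of_pos ht.1]
            have : t * ‖c‖ ≤ 1 * ‖c‖ := by gcongr; exact ht.2
            linarith)
          rw [dist_eq_norm] at this
          exact this.le
        have h6 := (iteratedFDeriv ℝ (m + 1) f (x + t • c) - iteratedFDeriv ℝ (m + 1) f x).le_opNorm
          (fun _ => c)
        rw [Finset.prod_const, Finset.card_univ, Fintype.card_fin] at h6
        refine le_trans h6 ?_
        gcongr
      calc ‖(1 - t) ^ m‖ * _ ≤ 1 * (ε * ‖c‖ ^ (m + 1)) := by gcongr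
        _ = _ := one_mul _
    rw [sub_zero, abs_one, mul_one] at h2
    calc _ ≤ 1 * (ε * ‖c‖ ^ (m + 1)) := by gcongr
      _ = _ := one_mul _
  · exact (Continuous.smul (by fun_prop) hcc).intervalIntegrable _ _
  · exact (Continuous.smul (by fun_prop) continuous_const).intervalIntegrable _ _

variable {p : ℝ≥0∞} [Fact (1 ≤ p)] [hpt : Fact (p ≠ ⊤)]

lemma coord_le (x : LP p) (i : ℕ) : |x i| ≤ ‖x‖ :=
  lp.norm_apply_le_norm (p_ne_zero (hpt := hpt)) x i

/-- coordinate functionals -/
noncomputable def cf (i : ℕ) : LP p →L[ℝ] ℝ :=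
  LinearMap.mkContinuous
    { toFun := fun x => x i
      map_add' := fun x y => by rw [lp.coeFn_add, Pi.add_apply]
      map_smul' := fun t x => by rw [lp.coeFn_smul, Pi.smul_apply, RingHom.id_apply] } 1
    (fun x => by rw [one_mul]; exact coord_le x i)

lemma cf_apply (i : ℕ) (x : LP p) : cf i x = x i := rfl

lemma diag_le (T : LP p →L[ℝ] LP p) (n : ℕ) : |(T (e n)) n| ≤ ‖T‖ := by
  have h1 := coord_le (T (e n)) n
  have h2 := T.le_opNorm (e n)
  rw [e_norm, mul_one] at h2
  exact h1.trans h2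

/-- the diagonal limit -/
noncomputable def Lam : (LP p →L[ℝ] LP p) →L[ℝ] ℝ :=
  LinearMap.mkContinuous
    { toFun := fun T => (exists_lim (diag_le T)).choose
      map_add' := fun S T => by
        have h1 := (exists_lim (diag_le S)).choose_spec.2
        have h2 := (exists_lim (diag_le T)).choose_spec.2
        have h3 := (exists_lim (diag_le (S + T))).choose_spec.2
        refine tendsto_nhds_unique h3 ((h1.add h2).congr fun n => ?_)
        rw [add_apply, lp.coeFn_add, Pi.add_apply]
      map_smul' := fun t T => by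
        have h2 := (exists_lim (diag_le T)).choose_spec.2
        have h3 := (exists_lim (diag_le (t • T))).choose_spec.2
        refine tendsto_nhds_unique h3 ((h2.const_mul t).congr fun n => ?_)
        rw [smul_apply, lp.coeFn_smul, Pi.smul_apply, smul_eq_mul] } 1
    (fun T => by rw [one_mul]; exact (exists_lim (diag_le T)).choose_spec.1)

lemma Lam_spec (T : LP p →L[ℝ] LP p) : Tendsto (fun n => (T (e n)) n) UU (𝓝 (Lam T)) :=
  (exists_lim (diag_le T)).choose_spec.2

lemma Lam_id : Lam (ContinuousLinearMap.id ℝ (LP p)) = 1 := by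
  have h := Lam_spec (ContinuousLinearMap.id ℝ (LP p))
  refine tendsto_nhds_unique h (tendsto_const_nhds.congr fun n => ?_)
  rw [ContinuousLinearMap.id_apply, e_apply, if_pos rfl]

/-- coordinates of a fixed vector tend to zero -/
lemma coord_tendsto (x : LP p) : Tendsto (fun n => x n) UU (𝓝 0) := by
  have h1 : Tendsto (fun n => |x n| ^ p.toReal) atTop (𝓝 0) := (nu_summ x).tendsto_atTop_zero
  have h2 : Tendsto (fun n => (|x n| ^ p.toReal) ^ (1 / p.toReal)) atTop (𝓝 0) := by
    have := h1.rpow_const (p := 1 / p.toReal) (Or.inr (by have := pr_pos (p := p); positivity))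
    rwa [Real.zero_rpow (by have := pr_pos (p := p); positivity)] at this
  have h3 : Tendsto (fun n => |x n|) atTop (𝓝 0) := by
    refine h2.congr fun n => ?_
    rw [← Real.rpow_mul (abs_nonneg _), mul_one_div_cancel (pr_pos (p := p)).ne', Real.rpow_one]
  exact (tendsto_zero_iff_abs_tendsto_zero _).2 (h3.mono_left UU_le)

end R273Bl
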