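import Mathlib
import Pool.Agent.R273.Bl2

set_option autoImplicit false
set_option linter.unusedSectionVars false

namespace R273Bl

open H312Gat Set Filter Topology ENNReal

variable {p : ℝ≥0∞} [Fact (1 ≤ p)] [hpt : Fact (p ≠ ⊤)]
variable {F : Type*} [NormedAddCommGroup F] [NormedSpace ℝ F]

/-- the Taylor terms of degrees `1 ≤ k ≤ p` -/
noncomputable def ZT (n : ℕ) (f : LP p → F) (x c : LP p) : F :=
  ∑ k ∈ (Finset.range (n + 1)).filter (fun k : ℕ => 1 ≤ k ∧ (k:ℝ) ≤ p.toReal),
    (k.factorial : ℝ)⁻¹ • iteratedFDeriv ℝ k f x (fun _ => c)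

lemma ps_ZT (hodd : ∀ k : ℕ, (k:ℝ) = p.toReal → Odd k) (n : ℕ) (f : LP p → F) (x : LP p)
    (l : F →L[ℝ] ℝ) : PS (fun c => l (ZT n f x c)) := by
  have h : (fun c => l (ZT n f x c)) = fun c =>
      ∑ k ∈ (Finset.range (n + 1)).filter (fun k : ℕ => 1 ≤ k ∧ (k:ℝ) ≤ p.toReal),
        (k.factorial : ℝ)⁻¹ * dg (l.compContinuousMultilinearMap (iteratedFDeriv ℝ k f x)) c := by
    ext c
    rw [ZT, map_sum]
    refine Finset.sum_congr rfl fun k _ => ?_
    rw [map_smul, smul_eq_mul, dg_def]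
    rfl
  rw [h]
  refine ps_sum _ _ fun k hk => ps_mul _ ?_
  obtain ⟨-, hk1, hk2⟩ := Finset.mem_filter.1 hk
  rcases lt_or_eq_of_le hk2 with hlt | heq
  · exact ps_dg_lt hk1 hlt _
  · exact ps_cub (cub_dg heq (hodd k heq) _)

lemma rem_ZT [CompleteSpace F] {n : ℕ} (hn1 : 1 ≤ n) (hpn : p.toReal ≤ n) (hnp : (n:ℝ) < p.toReal + 1)
    {f : LP p → F} (hf : ContDiff ℝ n f) (x : LP p) {ε : ℝ} (hε : 0 < ε) :
    ∃ r > 0, ∀ c : LP p, ‖c‖ ≤ r → ‖f (x + c) - f x - ZT n f x c‖ ≤ ε * nu c := by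
  have hpr := pr_pos (p := p)
  obtain ⟨r, hr, hT⟩ := taylor_peano hn1 hf x (half_pos hε)
  -- splitting of the Taylor polynomial
  have hsplit : ∀ c : LP p, ∑ k ∈ Finset.range (n + 1), (k.factorial : ℝ)⁻¹ •
      iteratedFDeriv ℝ k f x (fun _ => c) = f x + ZT n f x c +
      (if (n:ℝ) ≤ p.toReal then 0 else (n.factorial : ℝ)⁻¹ • iteratedFDeriv ℝ n f x (fun _ => c)) := by
    intro c
    have h0 : Finset.range (n + 1) = insert 0 ((Finset.range (n + 1)).filter (fun k => 1 ≤ k)) := by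
      ext k
      simp only [Finset.mem_range, Finset.mem_insert, Finset.mem_filter]
      omega
    have h1 : (Finset.range (n + 1)).filter (fun k : ℕ => 1 ≤ k ∧ (k:ℝ) ≤ p.toReal) =
        if (n:ℝ) ≤ p.toReal then (Finset.range (n + 1)).filter (fun k => 1 ≤ k)
        else (Finset.range n).filter (fun k => 1 ≤ k) := by
      split_ifs with hle
      · ext k
        simp only [Finset.mem_range, Finset.mem_filter]
        constructor
        · rintro ⟨h1, h2, h3⟩
          exact ⟨h1, h2⟩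
        · rintro ⟨h1, h2⟩
          refine ⟨h1, h2, ?_⟩
          have : (k:ℝ) ≤ n := by exact_mod_cast Nat.lt_succ_iff.1 h1
          linarith
      · ext k
        simp only [Finset.mem_range, Finset.mem_filter]
        constructor
        · rintro ⟨h1, h2, h3⟩
          refine ⟨?_, h2⟩
          rcases Nat.lt_succ_iff_lt_or_eq.1 h1 with h | h
          · exact h
          · exact absurd (h ▸ h3) hle
        · rintro ⟨h1, h2⟩
          refine ⟨by omega, h2, ?_⟩
          have : (k:ℝ) + 1 ≤ n := by exact_mod_cast h1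
          linarith
    rw [ZT, h1]
    split_ifs with hle
    · rw [h0, Finset.sum_insert (by simp), add_zero]
      congr 1
      · simp
      · rw [← h0]
    · have h2 : Finset.range (n + 1) = insert 0 (insert n ((Finset.range n).filter (fun k => 1 ≤ k))) := by
        ext k
        simp only [Finset.mem_range, Finset.mem_insert, Finset.mem_filter]
        omega
      rw [h2, Finset.sum_insert (by simp; omega), Finset.sum_insert (by simp)]
      have h3 : ((Nat.factorial 0 : ℕ) : ℝ)⁻¹ • iteratedFDeriv ℝ 0 f x (fun _ => c) = f x := by simp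
      rw [h3]
      abel
  have hpow : ∀ c : LP p, ‖c‖ ≤ 1 → ‖c‖ ^ n ≤ nu c := by
    intro c hc
    rcases eq_or_lt_of_le (norm_nonneg c) with h | h
    · rw [nu_def, ← h, Real.zero_rpow hpr.ne', zero_pow (by omega)]
    · rw [nu_def, ← Real.rpow_natCast]
      exact Real.rpow_le_rpow_of_exponent_ge h hc hpn
  by_cases hle : (n:ℝ) ≤ p.toReal
  · refine ⟨min r 1, lt_min hr one_pos, fun c hc => ?_⟩
    have h1 := hT c (le_trans hc (min_le_left _ _))
    rw [hsplit c, if_pos hle, add_zero, ← sub_sub] at h1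
    refine h1.trans ?_
    have h2 := hpow c (le_trans hc (min_le_right _ _))
    have h3 := nu_nonneg c
    nlinarith
  · push Not at hle
    set A : ℝ := ‖iteratedFDeriv ℝ n f x‖ with hA
    have hA0 : 0 ≤ A := norm_nonneg _
    set s : ℝ := (n:ℝ) - p.toReal with hs
    have hs0 : 0 < s := by linarith
    set r2 : ℝ := (ε / (2 * (A + 1))) ^ (1 / s) with hr2
    have hr20 : 0 < r2 := by positivity
    refine ⟨min r (min 1 r2), lt_min hr (lt_min one_pos hr20), fun c hc => ?_⟩
    have h1 := hT c (le_trans hc (min_le_left _ _))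
    have hc1 : ‖c‖ ≤ 1 := le_trans hc (le_trans (min_le_right _ _) (min_le_left _ _))
    have hc2 : ‖c‖ ≤ r2 := le_trans hc (le_trans (min_le_right _ _) (min_le_right _ _))
    rw [hsplit c, if_neg (not_le.2 hle)] at h1
    have h2 := hpow c hc1
    have h3 := nu_nonneg c
    have h4 : ‖(n.factorial : ℝ)⁻¹ • iteratedFDeriv ℝ n f x (fun _ => c)‖ ≤ ε / 2 * nu c := by
      rw [norm_smul]
      have h5 : ‖(n.factorial : ℝ)⁻¹‖ ≤ 1 := by
        rw [norm_inv, Real.norm_natCast]
        exact inv_le_one_of_one_le₀ (by exact_mod_cast Nat.one_le_iff_ne_zero.2 (Nat.factorial_ne_zero n))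
      have h6 := (iteratedFDeriv ℝ n f x).le_opNorm (fun _ => c)
      rw [Finset.prod_const, Finset.card_univ, Fintype.card_fin, ← hA] at h6
      have h7 : A * ‖c‖ ^ n ≤ ε / 2 * nu c := by
        rcases eq_or_lt_of_le (norm_nonneg c) with h | h
        · rw [nu_def, ← h, Real.zero_rpow hpr.ne', zero_pow (by omega), mul_zero, mul_zero]
        · have h8 : ‖c‖ ^ n = ‖c‖ ^ s * nu c := by
            rw [nu_def, ← Real.rpow_add h, hs, sub_add_cancel, Real.rpow_natCast]
          have h9 : ‖c‖ ^ s ≤ ε / (2 * (A + 1)) := by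
            have := Real.rpow_le_rpow (norm_nonneg c) hc2 hs0.le
            rwa [hr2, ← Real.rpow_mul (by positivity), one_div_mul_cancel hs0.ne', Real.rpow_one] at this
          rw [h8]
          calc A * (‖c‖ ^ s * nu c) ≤ (A + 1) * (ε / (2 * (A + 1)) * nu c) := by
                gcongr; linarith
            _ = ε / 2 * nu c := by field_simp
      calc ‖(n.factorial : ℝ)⁻¹‖ * _ ≤ 1 * (A * ‖c‖ ^ n) := by gcongr
        _ = A * ‖c‖ ^ n := one_mul _
        _ ≤ _ := h7
    have h10 : f (x + c) - f x - ZT n f x c = (f (x + c) - (f x + ZT n f x c +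
        (n.factorial : ℝ)⁻¹ • iteratedFDeriv ℝ n f x (fun _ => c))) +
        (n.factorial : ℝ)⁻¹ • iteratedFDeriv ℝ n f x (fun _ => c) := by abel
    rw [h10]
    refine (norm_add_le _ _).trans ?_
    have h11 : ε / 2 * ‖c‖ ^ n ≤ ε / 2 * nu c := by gcongr
    linarith

/-- along far pairs a smooth function changes by less than `ε t^p` -/
lemma small_change (hodd : ∀ k : ℕ, (k:ℝ) = p.toReal → Odd k) {n : ℕ} (hn1 : 1 ≤ n)
    (hpn : p.toReal ≤ n) (hnp : (n:ℝ) < p.toReal + 1) {f : LP p → ℝ} (hf : ContDiff ℝ n f)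
    (x : LP p) {ε : ℝ} (hε : 0 < ε) : ∃ r > 0, ∀ t : ℝ, 0 < t → t ≤ r →
    ∀ᶠ m in UU, ∀ᶠ j in UU, |f (x + t • (e j - e m)) - f x| ≤ ε * t ^ p.toReal := by
  obtain ⟨r, hr, hR⟩ := rem_ZT hn1 hpn hnp hf x (ε := ε / 4) (by positivity)
  refine ⟨min (r / 2) (1 / 2), lt_min (by positivity) (by norm_num), fun t ht htr => ?_⟩
  have ht1 : t ≤ r / 2 := le_trans htr (min_le_left _ _)
  have ht2 : t ≤ 1 / 2 := le_trans htr (min_le_right _ _)
  have htp : 0 < t ^ p.toReal := Real.rpow_pos_of_pos ht _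
  filter_upwards [ps_ZT hodd n f x (ContinuousLinearMap.id ℝ ℝ) t ht ht2 (ε / 2 * t ^ p.toReal)
    (by positivity)] with m hm
  filter_upwards [hm, UU_ge (m + 1)] with j hj hjm
  rw [ContinuousLinearMap.id_apply] at hj
  have h1 := hR (t • (e j - e m)) (le_trans (pair_norm ht) (by linarith))
  rw [nu_pair hjm ht, Real.norm_eq_abs] at h1
  have h2 := abs_le.1 h1
  have h3 := abs_le.1 hj
  rw [abs_le]
  constructor <;> linarith [h2.1, h2.2, h3.1, h3.2]

end R273Bl
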