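import Mathlib
import Pool.Agent.R273.Bl3

set_option autoImplicit false
set_option linter.unusedSectionVars false

namespace R273Bl

open H312Gat Set Filter Topology ENNReal

variable {p : ℝ≥0∞} [Fact (1 ≤ p)] [hpt : Fact (p ≠ ⊤)]

lemma ev_finset {s : Finset ℕ} {P : ℕ → ℕ → ℕ → Prop}
    (h : ∀ i ∈ s, ∀ᶠ m in UU, ∀ᶠ j in UU, P i m j) :
    ∀ᶠ m in UU, ∀ᶠ j in UU, ∀ i ∈ s, P i m j := by
  have h1 : ∀ᶠ m in UU, ∀ i ∈ s, ∀ᶠ j in UU, P i m j := by
    rw [Filter.eventually_all_finset]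
    exact h
  filter_upwards [h1] with m hm
  rw [Filter.eventually_all_finset]
  exact hm

/-- growth of `nu ∘ H` along far pairs -/
lemma growth (hodd : ∀ k : ℕ, (k:ℝ) = p.toReal → Odd k) {n : ℕ} (hn1 : 1 ≤ n)
    (hpn : p.toReal ≤ n) (hnp : (n:ℝ) < p.toReal + 1) {H : LP p → LP p} (hH : ContDiff ℝ n H)
    {M : ℝ} (hM : ∀ x, ‖H x‖ ≤ M) (x : LP p) (hx : 1 / 2 ≤ Lam (fderiv ℝ H x)) :
    ∃ r > 0, ∀ t : ℝ, 0 < t → t ≤ r → ∀ᶠ m in UU, ∀ᶠ j in UU,
      nu (H x) + (1 / 4) ^ p.toReal / 2 * t ^ p.toReal ≤ nu (H (x + t • (e j - e m))) := by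
  have hpr := pr_pos (p := p)
  have hp1 := pr1 (p := p)
  obtain ⟨K, hK0, hK⟩ := nu_lip (p := p) (M + 1)
  set q : ℝ := (1 / 4) ^ p.toReal with hq
  have hq0 : 0 < q := by positivity
  have hε0 : 0 < min (q / (16 * (K + 1))) (1 / 32) := lt_min (by positivity) (by norm_num)
  obtain ⟨r1, hr1, hR⟩ := rem_ZT hn1 hpn hnp hH x hε0
  have hdiff : HasFDerivAt H (fderiv ℝ H x) x :=
    (hH.differentiable (by
      have : (1 : WithTop ℕ∞) ≤ (n : WithTop ℕ∞) := by exact_mod_cast hn1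
      intro h0
      rw [h0] at this
      simp at this) x).hasFDerivAt
  set L := fderiv ℝ H x with hL
  obtain ⟨r2, hr2, hD⟩ : ∃ r2 > 0, ∀ c : LP p, ‖c‖ ≤ r2 → ‖H (x + c) - H x - L c‖ ≤ 1 / 32 * ‖c‖ := by
    have h1 := (hasFDerivAt_iff_isLittleO_nhds_zero.1 hdiff).def (c := 1 / 32) (by norm_num)
    obtain ⟨r2, hr2, h2⟩ := Metric.eventually_nhds_iff.1 h1
    refine ⟨r2 / 2, by positivity, fun c hc => h2 ?_⟩
    rw [dist_zero_right]
    linarith
  refine ⟨min (min (r1 / 2) (r2 / 2)) (1 / 2), lt_min (lt_min (by positivity) (by positivity))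
    (by norm_num), fun t ht htr => ?_⟩
  have ht1 : t ≤ r1 / 2 := le_trans htr (le_trans (min_le_left _ _) (min_le_left _ _))
  have ht2 : t ≤ r2 / 2 := le_trans htr (le_trans (min_le_left _ _) (min_le_right _ _))
  have ht3 : t ≤ 1 / 2 := le_trans htr (min_le_right _ _)
  have htp : 0 < t ^ p.toReal := Real.rpow_pos_of_pos ht _
  have htt : t ^ p.toReal ≤ t := by
    calc t ^ p.toReal ≤ t ^ (1:ℝ) := Real.rpow_le_rpow_of_exponent_ge ht (by linarith) hp1
      _ = t := Real.rpow_one t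
  set y := H x with hy
  set σ : ℝ := q * t ^ p.toReal / 16 with hσ
  have hσ0 : 0 < σ := by positivity
  -- the tail of y
  obtain ⟨N0, hN0⟩ : ∃ N0 : ℕ, nu y - σ < ∑ i ∈ Finset.range N0, |y i| ^ p.toReal := by
    have h1 := (nu_summ y).hasSum.tendsto_sum_nat
    rw [← nu_sum] at h1
    exact (h1.eventually (lt_mem_nhds (by linarith))).exists
  -- old coordinates
  have hold : ∀ i ∈ Finset.range N0, ∀ᶠ m in UU, ∀ᶠ j in UU,
      |y i| ^ p.toReal - σ / (N0 + 1) ≤ |y i + (ZT n H x (t • (e j - e m)) : LP p) i| ^ p.toReal := by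
    intro i _
    have hc : Continuous fun a : ℝ => |y i + a| ^ p.toReal :=
      (continuous_const.add continuous_id).abs.rpow_const fun _ => Or.inr hpr.le
    have h1 : ∀ᶠ a in 𝓝 (0:ℝ), |y i| ^ p.toReal - σ / (N0 + 1) < |y i + a| ^ p.toReal := by
      apply hc.continuousAt.eventually (lt_mem_nhds _)
      show |y i| ^ p.toReal - σ / (N0 + 1) < |y i + 0| ^ p.toReal
      rw [add_zero]
      have : 0 < σ / (N0 + 1) := by positivity
      linarith
    obtain ⟨τ, hτ, h2⟩ := Metric.eventually_nhds_iff.1 h1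
    filter_upwards [ps_ZT hodd n H x (cf i) t ht ht3 (τ / 2) (by positivity)] with m hm
    filter_upwards [hm] with j hj
    rw [cf_apply] at hj
    refine (h2 ?_).le
    rw [Real.dist_eq, sub_zero]
    linarith
  filter_upwards [ev_finset hold] with m hm
  have hcy : ∀ᶠ j in UU, |y j| < t / 32 := by
    have := (Metric.tendsto_nhds.1 (coord_tendsto y)) (t / 32) (by positivity)
    simpa only [Real.dist_eq, sub_zero] using this
  have hcm : ∀ᶠ j in UU, |(L (e m)) j| < 1 / 32 := by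
    have := (Metric.tendsto_nhds.1 (coord_tendsto (L (e m)))) (1 / 32) (by positivity)
    simpa only [Real.dist_eq, sub_zero] using this
  have hcd : ∀ᶠ j in UU, |(L (e j)) j - Lam L| < 1 / 32 := by
    have := (Metric.tendsto_nhds.1 (Lam_spec L)) (1 / 32) (by positivity)
    simpa only [Real.dist_eq] using this
  filter_upwards [hm, hcy, hcm, hcd, UU_ge (m + 1), UU_ge N0] with j hj1 hj2 hj3 hj4 hj5 hj6
  set c : LP p := t • (e j - e m) with hc
  have hcn : ‖c‖ ≤ 2 * t := pair_norm ht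
  set v := H (x + c) with hv
  set u := y + ZT n H x c with hu
  have hvu : ‖v - u‖ ≤ min (q / (16 * (K + 1))) (1 / 32) * (2 * t ^ p.toReal) := by
    have h1 := hR c (by linarith)
    rw [nu_pair hj5 ht] at h1
    rw [hu, ← sub_sub]
    exact h1
  have hvu1 : ‖v - u‖ ≤ q / (16 * (K + 1)) * (2 * t ^ p.toReal) := hvu.trans (by
    gcongr; exact min_le_left _ _)
  have hvu2 : ‖v - u‖ ≤ 1 / 32 * (2 * t ^ p.toReal) := hvu.trans (by
    gcongr; exact min_le_right _ _)
  have hvn : ‖v‖ ≤ M + 1 := by have := hM (x + c); linarith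
  have hun : ‖u‖ ≤ M + 1 := by
    have h1 : u = v - (v - u) := by abel
    calc ‖u‖ = ‖v - (v - u)‖ := by rw [← h1]
      _ ≤ ‖v‖ + ‖v - u‖ := norm_sub_le _ _
      _ ≤ M + 1 := by have := hM (x + c); linarith
  -- comparison of v and u
  have h1 : nu u - q * t ^ p.toReal / 8 ≤ nu v := by
    have h2 := hK v u hvn hun
    have h3 : K * ‖v - u‖ ≤ q * t ^ p.toReal / 8 := by
      calc K * ‖v - u‖ ≤ (K + 1) * (q / (16 * (K + 1)) * (2 * t ^ p.toReal)) := by
            gcongr; linarith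
        _ = q * t ^ p.toReal / 8 := by field_simp; ring
    have h4 := (abs_le.1 h2).1
    linarith
  -- the new coordinate
  have hnew : t / 4 ≤ |u j| := by
    have h2 : |(v - u : LP p) j| ≤ t / 16 := (coord_le _ _).trans (hvu2.trans (by linarith))
    have h3 : |(v - y - L c : LP p) j| ≤ t / 16 := (coord_le _ _).trans
      ((hD c (by linarith)).trans (by linarith))
    have h4 : (L c) j = t * ((L (e j)) j - (L (e m)) j) := by
      rw [hc, map_smul, map_sub, lp.coeFn_smul, Pi.smul_apply, lp.coeFn_sub, Pi.sub_apply, smul_eq_mul]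
    rw [lp.coeFn_sub, Pi.sub_apply] at h2
    rw [lp.coeFn_sub, Pi.sub_apply, lp.coeFn_sub, Pi.sub_apply] at h3
    have a2 := abs_le.1 h2
    have a3 := abs_le.1 h3
    have a4 := abs_lt.1 hj2
    have a5 := abs_lt.1 hj3
    have a6 := abs_lt.1 hj4
    have h5 : t * (1 / 2 - 1 / 16) ≤ (L c) j := by
      rw [h4]
      refine mul_le_mul_of_nonneg_left ?_ ht.le
      linarith [a5.2, a6.1]
    refine le_trans ?_ (le_abs_self _)
    linarith [a2.2, a3.1, a4.1]
  have hnewp : q * t ^ p.toReal ≤ |u j| ^ p.toReal := by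
    have := Real.rpow_le_rpow (by positivity) hnew hpr.le
    have h2 : (t / 4) ^ p.toReal = q * t ^ p.toReal := by
      rw [hq, ← Real.mul_rpow (by norm_num) ht.le]
      congr 1; ring
    rwa [h2] at this
  -- the sum
  have hsum : ∑ i ∈ insert j (Finset.range N0), |u i| ^ p.toReal ≤ nu u := by
    rw [nu_sum]
    exact (nu_summ u).sum_le_tsum _ (fun i _ => by positivity)
  rw [Finset.sum_insert (by simp; omega)] at hsum
  have hsum2 : ∑ i ∈ Finset.range N0, |y i| ^ p.toReal - σ ≤ ∑ i ∈ Finset.range N0, |u i| ^ p.toReal := by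
    have h2 : ∑ i ∈ Finset.range N0, (|y i| ^ p.toReal - σ / (N0 + 1)) ≤
        ∑ i ∈ Finset.range N0, |u i| ^ p.toReal := Finset.sum_le_sum fun i hi => by
      have := hj1 i hi
      rwa [hu, lp.coeFn_add, Pi.add_apply]
    rw [Finset.sum_sub_distrib, Finset.sum_const, Finset.card_range, nsmul_eq_mul] at h2
    have h3 : (N0:ℝ) * (σ / (N0 + 1)) ≤ σ := by
      rw [← mul_div_assoc, div_le_iff₀ (by positivity)]
      nlinarith
    linarith
  have hqt : 0 < q * t ^ p.toReal := by positivity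
  have hσ2 : σ = q * t ^ p.toReal / 16 := hσ
  have hgoal : q / 2 * t ^ p.toReal = q * t ^ p.toReal / 2 := by ring
  rw [hgoal]
  linarith

/-- no trap where the diagonal limit is at least `1/2` -/
lemma no_trap_blid (hodd : ∀ k : ℕ, (k:ℝ) = p.toReal → Odd k) {n : ℕ} (hn1 : 1 ≤ n)
    (hpn : p.toReal ≤ n) (hnp : (n:ℝ) < p.toReal + 1) {H : LP p → LP p} (hH : ContDiff ℝ (n + 1) H)
    {M : ℝ} (hM : ∀ x, ‖H x‖ ≤ M) {lam : ℝ} (hlam : 0 < lam) (x : LP p)
    (hx : 1 / 2 ≤ Lam (fderiv ℝ H x)) :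
    ¬ Trap (fun x => -min (Lam (fderiv ℝ H x)) 1 - lam * nu (H x) +
      lam * ((1 / 4) ^ p.toReal / 2) / 8 * nu x) x := by
  rintro ⟨ε, hε, T, hTf, hT, δ, hδ, htrap⟩
  have hpr := pr_pos (p := p)
  set q : ℝ := (1 / 4) ^ p.toReal / 2 with hq
  have hq0 : 0 < q := by positivity
  have hd : ContDiff ℝ n (fun x => Lam (fderiv ℝ H x)) :=
    Lam.contDiff.comp (hH.fderiv_right (by exact_mod_cast le_rfl))
  have hHn : ContDiff ℝ n H := hH.of_le (by exact_mod_cast Nat.le_succ n)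
  obtain ⟨r1, hr1, h1⟩ := small_change hodd hn1 hpn hnp hd x (ε := lam * q / 8) (by positivity)
  obtain ⟨r2, hr2, h2⟩ := growth hodd hn1 hpn hnp hHn hM x hx
  set t : ℝ := min (min r1 r2) (min (1 / 2) (δ / 2)) with ht
  have ht0 : 0 < t := lt_min (lt_min hr1 hr2) (lt_min (by norm_num) (by positivity))
  have ht1 : t ≤ r1 := (min_le_left _ _).trans (min_le_left _ _)
  have ht2 : t ≤ r2 := (min_le_left _ _).trans (min_le_right _ _)
  have ht3 : t ≤ 1 / 2 := (min_le_right _ _).trans (min_le_left _ _)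
  have ht4 : t ≤ δ / 2 := (min_le_right _ _).trans (min_le_right _ _)
  have htp : 0 < t ^ p.toReal := Real.rpow_pos_of_pos ht0 _
  obtain ⟨N, hN⟩ := htrap t ht0
  obtain ⟨N2, hN2⟩ := nu_cross x htp
  have hL : ∀ᶠ m in UU, ∀ᶠ j in UU, ∀ P ∈ T, |P (t • (e j - e m))| ≤ ε * (2 * t ^ p.toReal) := by
    have h3 : ∀ᶠ m in UU, ∀ P ∈ T, ∀ᶠ j in UU, |P (t • (e j - e m))| ≤ ε * (2 * t ^ p.toReal) := by
      rw [Filter.eventually_all_finite hTf]
      intro P hP
      exact ps_cub (hT P hP) t ht0 ht3 _ (by positivity)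
    filter_upwards [h3] with m hm
    rw [Filter.eventually_all_finite hTf]
    exact hm
  obtain ⟨m, hm1, hm2, hm3, hm4, hm5⟩ := ((h1 t ht0 ht1).and ((h2 t ht0 ht2).and
    (hL.and ((UU_ge N).and (UU_ge N2))))).exists
  obtain ⟨j, hj1, hj2, hj3, hj4, hj5, hj6⟩ := (hm1.and (hm2.and (hm3.and ((UU_ge N).and
    ((UU_ge N2).and (UU_ge (m + 1))))))).exists
  set c : LP p := t • (e j - e m) with hc
  have hnc : nu c = 2 * t ^ p.toReal := nu_pair hj6 ht0
  have hfin := hN c (pair_Tl hj4 hm4 t) (by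
    rw [← le_nu_iff ht0.le, hnc]; linarith) ((pair_norm ht0).trans (by linarith)) (by
    intro P hP
    rw [hnc]
    exact hj3 P hP)
  have hx2 := hN2 c (pair_CT hj5 hm5 t) (pair_norm1 ht0 ht3)
  rw [hnc] at hfin hx2
  simp only at hfin
  have h5 := (abs_le.1 hx2).2
  have h6 := (abs_le.1 hj1).1
  have h7 : min (Lam (fderiv ℝ H x)) 1 - lam * q / 8 * t ^ p.toReal ≤
      min (Lam (fderiv ℝ H (x + c))) 1 := by
    have h8 : 0 < lam * q / 8 * t ^ p.toReal := by positivity
    refine le_min ?_ ?_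
    · have := min_le_left (Lam (fderiv ℝ H x)) 1
      linarith
    · have := min_le_right (Lam (fderiv ℝ H x)) 1
      linarith
  have h9 : lam * (nu (H x) + q * t ^ p.toReal) ≤ lam * nu (H (x + c)) := by
    gcongr
  have h10 : lam * q / 8 * nu (x + c) ≤ lam * q / 8 * (nu x + 3 * t ^ p.toReal) := by
    gcongr
    linarith
  have h11 : 0 < lam * q * t ^ p.toReal := by positivity
  have h12 : 0 < ε * (2 * t ^ p.toReal) := by positivity
  have e1 : lam * (nu (H x) + q * t ^ p.toReal) = lam * nu (H x) + lam * q * t ^ p.toReal := by ring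
  have e2 : lam * q / 8 * (nu x + 3 * t ^ p.toReal) =
    lam * q / 8 * nu x + 3 / 8 * (lam * q * t ^ p.toReal) := by ring
  have e3 : lam * q / 8 * t ^ p.toReal = 1 / 8 * (lam * q * t ^ p.toReal) := by ring
  linarith

/-- **main theorem**: no bounded local identity of class `C^{⌈p⌉+1}` on `ℓ_p`, `p` not even -/
theorem no_blid (hp : ∀ k : ℕ, p.toReal ≠ 2 * k) {N : ℕ} (hN : p.toReal + 1 ≤ N)
    {H : LP p → LP p} (hH : ContDiff ℝ N H) {M : ℝ} (hM : ∀ x, ‖H x‖ ≤ M)
    (hid : ∀ᶠ x in 𝓝 (0 : LP p), H x = x) : False := by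
  have hpr := pr_pos (p := p)
  have hp1 := pr1 (p := p)
  set n : ℕ := ⌈p.toReal⌉₊ with hn
  have hpn : p.toReal ≤ n := Nat.le_ceil _
  have hnp : (n:ℝ) < p.toReal + 1 := Nat.ceil_lt_add_one hpr.le
  have hn1 : 1 ≤ n := by
    have : (1:ℝ) ≤ n := hp1.trans hpn
    exact_mod_cast this
  have hnN : n + 1 ≤ N := by
    have : (n:ℝ) < N := lt_of_lt_of_le hnp hN
    exact_mod_cast this
  have hodd : ∀ k : ℕ, (k:ℝ) = p.toReal → Odd k := by
    intro k hk
    rw [← Nat.not_even_iff_odd]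
    rintro ⟨m, hm⟩
    apply hp m
    rw [← hk, hm]
    push_cast
    ring
  have hH' : ContDiff ℝ (n + 1) H := hH.of_le (by exact_mod_cast hnN)
  have hM0 : 0 ≤ M := (norm_nonneg _).trans (hM 0)
  have hnuM : ∀ x, nu (H x) ≤ M ^ p.toReal := fun x => (nu_le_iff hM0).2 (hM x)
  have hMp : 0 ≤ M ^ p.toReal := by positivity
  set lam : ℝ := 1 / (2 * (M ^ p.toReal + 1)) with hlam
  have hlam0 : 0 < lam := by positivity
  have hlamM : ∀ x, lam * nu (H x) ≤ 1 / 2 := by
    intro x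
    calc lam * nu (H x) ≤ lam * (M ^ p.toReal + 1) := by
          gcongr; linarith [hnuM x]
      _ = 1 / 2 := by rw [hlam]; field_simp
  set a : ℝ := lam * ((1 / 4) ^ p.toReal / 2) / 8 with ha
  have ha0 : 0 < a := by positivity
  set f : LP p → ℝ := fun x => -min (Lam (fderiv ℝ H x)) 1 - lam * nu (H x) + a * nu x with hf
  have hcd : Continuous fun x => Lam (fderiv ℝ H x) :=
    Lam.continuous.comp (hH'.continuous_fderiv (by
      have : (1 : WithTop ℕ∞) ≤ ((n : WithTop ℕ∞) + 1) := by exact_mod_cast Nat.le_add_left 1 n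
      intro h0
      rw [h0] at this
      simp at this))
  have hfc : Continuous f :=
    (((hcd.min continuous_const).neg).sub (continuous_const.mul (nu_cont.comp hH.continuous))).add
      (continuous_const.mul nu_cont)
  have hf0 : f 0 = -1 := by
    have h1 : H 0 = 0 := hid.self_of_nhds
    have h2 : fderiv ℝ H 0 = ContinuousLinearMap.id ℝ (LP p) := by
      have h3 : H =ᶠ[𝓝 0] id := hid
      rw [h3.fderiv_eq, fderiv_id]
    simp only [hf]
    rw [h2, Lam_id, h1, nu_zero]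
    simp
  obtain ⟨w, hw1, hw2, hw3, hw4, -⟩ := walk hfc (0 : LP p) 0 (η := a / 2) (κ := 1) (τ := 1)
    (S := 1 / a) (by positivity) one_pos le_rfl one_pos (by positivity)
    (L := (∅ : Set (LP p → ℝ))) Set.finite_empty (fun P hP => absurd hP (Set.notMem_empty _))
    (by
      intro w _ _ hw _
      rw [zero_add] at hw ⊢
      apply no_trap_blid hodd hn1 hpn hnp hH' hM hlam0
      rw [hf0] at hw
      simp only [hf] at hw
      have h1 := hlamM w
      have h2 := nu_nonneg w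
      have h3 := min_le_left (Lam (fderiv ℝ H w)) 1
      nlinarith)
  rw [zero_add, hf0] at hw4
  simp only [hf] at hw4
  have h1 := hlamM w
  have h3 := min_le_right (Lam (fderiv ℝ H w)) 1
  have h4 : a / 2 * (1 / a) < a / 2 * nu w := by gcongr
  have h5 : a / 2 * (1 / a) = 1 / 2 := by field_simp
  rw [h5] at h4
  linarith

end R273Bl
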