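import Mathlib

/-! Calderon's complex interpolation spaces for a couple `X₁ ⊂ X₀`. -/

namespace Pool.Agent.R273.Ci

open Filter Topology

/-- Let `X₁` be continuously embedded in `X₀` by the (injective) continuous linear map `j`.
`CalderonPair j f g` says that `f` belongs to Calderon's space `F(X₀, X₁)` (note
`X₀ + X₁ = X₀`): `f` is continuous and bounded on the closed strip `0 ≤ Re z ≤ 1` and holomorphic
in the open strip, with values in `X₀`; `f(it)` tends to `0` in `X₀` as `|t| → ∞`;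
`f(1+it) = j (g t)` lies in `X₁`, with `g : ℝ → X₁` continuous and tending to `0` in `X₁`
as `|t| → ∞`. -/
structure CalderonPair {X₀ X₁ : Type} [NormedAddCommGroup X₀] [NormedSpace ℂ X₀]
    [NormedAddCommGroup X₁] [NormedSpace ℂ X₁] (j : X₁ →L[ℂ] X₀) (f : ℂ → X₀) (g : ℝ → X₁) :
    Prop where
  continuousOn : ContinuousOn f {z : ℂ | 0 ≤ z.re ∧ z.re ≤ 1}
  bounded : ∃ C : ℝ, ∀ z : ℂ, 0 ≤ z.re → z.re ≤ 1 → ‖f z‖ ≤ C
  holomorphic : DifferentiableOn ℂ f {z : ℂ | 0 < z.re ∧ z.re < 1}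
  left : Tendsto (fun t : ℝ => f (t * Complex.I)) (cocompact ℝ) (𝓝 0)
  trace : ∀ t : ℝ, f (1 + t * Complex.I) = j (g t)
  trace_continuous : Continuous g
  right : Tendsto g (cocompact ℝ) (𝓝 0)

/-- Calderon's complex interpolation space `[X₀, X₁]_θ`, as a subset of `X₀`: the set of the
values `f(θ)` of the functions `f` of Calderon's space `F(X₀, X₁)`. -/
def interpSpace {X₀ X₁ : Type} [NormedAddCommGroup X₀] [NormedSpace ℂ X₀]
    [NormedAddCommGroup X₁] [NormedSpace ℂ X₁] (j : X₁ →L[ℂ] X₀) (θ : ℝ) : Set X₀ :=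
  {x | ∃ (f : ℂ → X₀) (g : ℝ → X₁), CalderonPair j f g ∧ f θ = x}

end Pool.Agent.R273.Ci
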