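import Mathlib

/-! Scalar estimates for the counterexample to Lipschitz complex interpolation. -/

namespace Pool.Agent.R273.Ci

open Real

/-- `k_a(s) = s^2 / sqrt (a^2 + s^2)`. -/
noncomputable def kf (a s : ℝ) : ℝ := s ^ 2 / Real.sqrt (a ^ 2 + s ^ 2)

theorem kf_nonneg (a s : ℝ) : 0 ≤ kf a s := by unfold kf; positivity

theorem kf_zero (a : ℝ) : kf a 0 = 0 := by simp [kf]

theorem kf_sq {a : ℝ} (ha : 0 < a) (s : ℝ) : kf a s ^ 2 = s ^ 4 / (a ^ 2 + s ^ 2) := by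
  unfold kf
  rw [div_pow, Real.sq_sqrt (by positivity)]
  ring

theorem kf_le {a : ℝ} (ha : 0 < a) {s : ℝ} (hs : 0 ≤ s) : kf a s ≤ s := by
  have h1 : 0 < a ^ 2 + s ^ 2 := by positivity
  have : kf a s ^ 2 ≤ s ^ 2 := by
    rw [kf_sq ha, div_le_iff₀ h1]
    nlinarith [mul_nonneg (sq_nonneg s) (sq_nonneg a)]
  exact (sq_le_sq₀ (kf_nonneg a s) hs).1 this

theorem kf_lower {a : ℝ} (ha : 0 < a) {s : ℝ} (hs : a / 2 ≤ s) : a / 5 ≤ kf a s := by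
  have h1 : 0 < a ^ 2 + s ^ 2 := by positivity
  have h2 : a ^ 2 / 4 ≤ s ^ 2 := by nlinarith
  have : (a / 5) ^ 2 ≤ kf a s ^ 2 := by
    rw [kf_sq ha, le_div_iff₀ h1]
    nlinarith [mul_nonneg (sq_nonneg s) (sub_nonneg.2 h2), mul_nonneg (sq_nonneg a) (sub_nonneg.2 h2)]
  exact (sq_le_sq₀ (by positivity) (kf_nonneg a s)).1 this

theorem sqrt_lip (a s t : ℝ) :
    |Real.sqrt (a ^ 2 + s ^ 2) - Real.sqrt (a ^ 2 + t ^ 2)| ≤ |s - t| := by
  have e1 : Real.sqrt (a ^ 2 + s ^ 2) = ‖(⟨a, s⟩ : ℂ)‖ := by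
    rw [Complex.norm_def, Complex.normSq_mk]; ring_nf
  have e2 : Real.sqrt (a ^ 2 + t ^ 2) = ‖(⟨a, t⟩ : ℂ)‖ := by
    rw [Complex.norm_def, Complex.normSq_mk]; ring_nf
  rw [e1, e2]
  refine (abs_norm_sub_norm_le _ _).trans ?_
  have : (⟨a, s⟩ : ℂ) - ⟨a, t⟩ = ((s - t : ℝ) : ℂ) * Complex.I := by
    apply Complex.ext <;> simp
  rw [this, norm_mul, Complex.norm_I, mul_one, Complex.norm_real, Real.norm_eq_abs]

theorem kf_lip {a : ℝ} (ha : 0 < a) (s t : ℝ) : |kf a s - kf a t| ≤ 2 * |s - t| := by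
  set m := Real.sqrt (a ^ 2 + s ^ 2) with hm
  set l := Real.sqrt (a ^ 2 + t ^ 2) with hl
  have hma : a ≤ m := by
    rw [hm]; apply Real.le_sqrt_of_sq_le; nlinarith [sq_nonneg s]
  have hla : a ≤ l := by
    rw [hl]; apply Real.le_sqrt_of_sq_le; nlinarith [sq_nonneg t]
  have hm0 : 0 < m := lt_of_lt_of_le ha hma
  have hl0 : 0 < l := lt_of_lt_of_le ha hla
  have hm2 : m ^ 2 = a ^ 2 + s ^ 2 := Real.sq_sqrt (by positivity)
  have hl2 : l ^ 2 = a ^ 2 + t ^ 2 := Real.sq_sqrt (by positivity)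
  have k1 : kf a s = m - a ^ 2 / m := by
    unfold kf; rw [← hm]; field_simp; linarith
  have k2 : kf a t = l - a ^ 2 / l := by
    unfold kf; rw [← hl]; field_simp; linarith
  have h1 : |m - l| ≤ |s - t| := sqrt_lip a s t
  have h2 : kf a s - kf a t = (m - l) * (1 + a ^ 2 / (m * l)) := by
    rw [k1, k2]; field_simp; ring
  have h3 : a ^ 2 / (m * l) ≤ 1 := by
    rw [div_le_one (by positivity)]; nlinarith
  have h4 : 0 ≤ a ^ 2 / (m * l) := by positivity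
  rw [h2, abs_mul, abs_of_nonneg (by linarith : 0 ≤ 1 + a ^ 2 / (m * l))]
  calc |m - l| * (1 + a ^ 2 / (m * l)) ≤ |m - l| * 2 := by
        apply mul_le_mul_of_nonneg_left (by linarith) (abs_nonneg _)
    _ ≤ |s - t| * 2 := by linarith
    _ = 2 * |s - t| := by ring

/-- `F'_a(y)` for `F_a(y) = y^2/(a^2+y)`. -/
noncomputable def Fp (a y : ℝ) : ℝ := y * (2 * a ^ 2 + y) / (a ^ 2 + y) ^ 2

theorem Fp_nonneg {a y : ℝ} (hy : 0 ≤ y) : 0 ≤ Fp a y := by unfold Fp; positivity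

theorem Fp_le_one {a y : ℝ} (ha : 0 < a) (hy : 0 ≤ y) : Fp a y ≤ 1 := by
  unfold Fp
  rw [div_le_one (by positivity)]
  nlinarith [sq_nonneg (a ^ 2)]

/-- Taylor remainder for `F_a`. -/
theorem F_taylor {a y y' : ℝ} (ha : 0 < a) (hy : 0 ≤ y) (hy' : 0 ≤ y') :
    y' ^ 2 / (a ^ 2 + y') - y ^ 2 / (a ^ 2 + y) - Fp a y * (y' - y) =
      a ^ 4 * (y' - y) ^ 2 / ((a ^ 2 + y) ^ 2 * (a ^ 2 + y')) := by
  unfold Fp
  have h1 : a ^ 2 + y ≠ 0 := by positivity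
  have h2 : a ^ 2 + y' ≠ 0 := by positivity
  field_simp
  ring

/-- The quadratic remainder estimate, with `s = |d|`, `s' = |d+h|`, `|s' - s| ≤ u = |h|`. -/
theorem F_rem {a s s' u : ℝ} (ha : 0 < a) (h : |s' - s| ≤ u) :
    |(s' ^ 4 / (a ^ 2 + s' ^ 2) - s ^ 4 / (a ^ 2 + s ^ 2) - Fp a (s ^ 2) * (s' ^ 2 - s ^ 2))|
      ≤ 4 * u ^ 2 := by
  have e := F_taylor (y := s ^ 2) (y' := s' ^ 2) ha (by positivity) (by positivity)
  have e' : s' ^ 4 / (a ^ 2 + s' ^ 2) - s ^ 4 / (a ^ 2 + s ^ 2) - Fp a (s ^ 2) * (s' ^ 2 - s ^ 2) =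
      a ^ 4 * (s' ^ 2 - s ^ 2) ^ 2 / ((a ^ 2 + s ^ 2) ^ 2 * (a ^ 2 + s' ^ 2)) := by
    rw [← e]; ring
  rw [e', abs_of_nonneg (by positivity), div_le_iff₀ (by positivity)]
  have h1 : (s' ^ 2 - s ^ 2) ^ 2 ≤ u ^ 2 * (2 * (s ^ 2 + s' ^ 2)) := by
    have : (s' ^ 2 - s ^ 2) ^ 2 = (s' - s) ^ 2 * (s' + s) ^ 2 := by ring
    rw [this]
    have h2 : (s' - s) ^ 2 ≤ u ^ 2 := sq_le_sq' (by linarith [abs_le.1 h]) (abs_le.1 h).2
    have h3 : (s' + s) ^ 2 ≤ 2 * (s ^ 2 + s' ^ 2) := by nlinarith [sq_nonneg (s' - s)]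
    exact mul_le_mul h2 h3 (by positivity) (by positivity)
  have h6 : a ^ 4 * (2 * (s ^ 2 + s' ^ 2)) ≤ 4 * ((a ^ 2 + s ^ 2) ^ 2 * (a ^ 2 + s' ^ 2)) := by
    have e2 : 4 * ((a ^ 2 + s ^ 2) ^ 2 * (a ^ 2 + s' ^ 2)) - a ^ 4 * (2 * (s ^ 2 + s' ^ 2)) =
        4 * (a ^ 2) ^ 3 + 2 * ((a ^ 2) ^ 2 * s' ^ 2) + 6 * ((a ^ 2) ^ 2 * s ^ 2)
          + 8 * (a ^ 2 * s ^ 2 * s' ^ 2) + 4 * (a ^ 2 * (s ^ 2) ^ 2)
          + 4 * ((s ^ 2) ^ 2 * s' ^ 2) := by ring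
    have e3 : 0 ≤ 4 * (a ^ 2) ^ 3 + 2 * ((a ^ 2) ^ 2 * s' ^ 2) + 6 * ((a ^ 2) ^ 2 * s ^ 2)
          + 8 * (a ^ 2 * s ^ 2 * s' ^ 2) + 4 * (a ^ 2 * (s ^ 2) ^ 2)
          + 4 * ((s ^ 2) ^ 2 * s' ^ 2) := by positivity
    linarith
  calc a ^ 4 * (s' ^ 2 - s ^ 2) ^ 2 ≤ a ^ 4 * (u ^ 2 * (2 * (s ^ 2 + s' ^ 2))) := by
        apply mul_le_mul_of_nonneg_left h1 (by positivity)
    _ = u ^ 2 * (a ^ 4 * (2 * (s ^ 2 + s' ^ 2))) := by ring
    _ ≤ u ^ 2 * (4 * ((a ^ 2 + s ^ 2) ^ 2 * (a ^ 2 + s' ^ 2))) := by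
        apply mul_le_mul_of_nonneg_left h6 (by positivity)
    _ = _ := by ring

/-- The one-coordinate expansion in the complex variable. -/
theorem q_expand {a : ℝ} (ha : 0 < a) (d h : ℂ) :
    |(kf a ‖d + h‖ ^ 2 - kf a ‖d‖ ^ 2
        - (inner ℂ (((2 * Fp a (‖d‖ ^ 2) : ℝ) : ℂ) * d) h : ℂ).re)| ≤ 5 * ‖h‖ ^ 2 := by
  have h1 := F_rem (s := ‖d‖) (s' := ‖d + h‖) (u := ‖h‖) ha (by
    have := abs_norm_sub_norm_le (d + h) d
    simpa using this)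
  rw [kf_sq ha, kf_sq ha]
  have h2 : ‖d + h‖ ^ 2 = ‖d‖ ^ 2 + 2 * (inner ℂ d h : ℂ).re + ‖h‖ ^ 2 := by
    have := @norm_add_sq ℂ ℂ _ _ _ d h
    simpa using this
  have h3 : (inner ℂ (((2 * Fp a (‖d‖ ^ 2) : ℝ) : ℂ) * d) h : ℂ).re =
      2 * Fp a (‖d‖ ^ 2) * (inner ℂ d h : ℂ).re := by
    rw [← smul_eq_mul, inner_smul_left, Complex.conj_ofReal, Complex.re_ofReal_mul]
  rw [h3]
  have h4 : 2 * (inner ℂ d h : ℂ).re = ‖d + h‖ ^ 2 - ‖d‖ ^ 2 - ‖h‖ ^ 2 := by rw [h2]; ring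
  have h5 : 2 * Fp a (‖d‖ ^ 2) * (inner ℂ d h : ℂ).re =
      Fp a (‖d‖ ^ 2) * (‖d + h‖ ^ 2 - ‖d‖ ^ 2) - Fp a (‖d‖ ^ 2) * ‖h‖ ^ 2 := by
    rw [show 2 * Fp a (‖d‖ ^ 2) * (inner ℂ d h : ℂ).re =
      Fp a (‖d‖ ^ 2) * (2 * (inner ℂ d h : ℂ).re) by ring, h4]; ring
  rw [h5]
  have h6 : 0 ≤ Fp a (‖d‖ ^ 2) * ‖h‖ ^ 2 := mul_nonneg (Fp_nonneg (by positivity)) (by positivity)
  have h7 : Fp a (‖d‖ ^ 2) * ‖h‖ ^ 2 ≤ ‖h‖ ^ 2 := by
    have := mul_le_mul_of_nonneg_right (Fp_le_one (a := a) ha (y := ‖d‖ ^ 2) (by positivity))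
      (by positivity : 0 ≤ ‖h‖ ^ 2)
    linarith
  rw [abs_le] at h1 ⊢
  constructor <;> linarith [h1.1, h1.2]

/-! The bump functions. -/

/-- `p(s) = max(0,s)^2`. -/
noncomputable def pp (s : ℝ) : ℝ := (max 0 s) ^ 2

theorem hasDerivAt_pp (s : ℝ) : HasDerivAt pp (2 * max 0 s) s := by
  rcases lt_trichotomy s 0 with h | h | h
  · have : pp =ᶠ[nhds s] fun _ => (0:ℝ) := by
      filter_upwards [Iio_mem_nhds h] with u hu
      simp [pp, max_eq_left (le_of_lt (Set.mem_Iio.1 hu))]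
    rw [max_eq_left h.le, mul_zero]
    exact (hasDerivAt_const s (0:ℝ)).congr_of_eventuallyEq this
  · subst h
    rw [max_self, mul_zero]
    rw [hasDerivAt_iff_isLittleO_nhds_zero]
    have : (fun h : ℝ => pp (0 + h) - pp 0 - h • (0:ℝ)) =O[nhds 0] fun h => h ^ 2 := by
      apply Asymptotics.IsBigO.of_bound 1
      filter_upwards with u
      simp only [pp, zero_add, max_self, smul_eq_mul, mul_zero, sub_zero, ne_eq, OfNat.ofNat_ne_zero,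
        not_false_eq_true, zero_pow, one_mul, Real.norm_eq_abs, abs_pow]
      apply pow_le_pow_left₀ (abs_nonneg _)
      rcases le_total 0 u with hu | hu
      · rw [max_eq_right hu]
      · rw [max_eq_left hu]; simp
    refine this.trans_isLittleO ?_
    have := Asymptotics.isLittleO_pow_id (𝕜 := ℝ) (one_lt_two)
    simpa using this
  · have : pp =ᶠ[nhds s] fun u => u ^ 2 := by
      filter_upwards [Ioi_mem_nhds h] with u hu
      simp [pp, max_eq_right (le_of_lt (Set.mem_Ioi.1 hu))]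
    rw [max_eq_right h.le]
    have h2 : HasDerivAt (fun u : ℝ => u ^ 2) (2 * s) s := by
      simpa using hasDerivAt_pow 2 s
    exact h2.congr_of_eventuallyEq this

/-- `h_a(r) = a * max(0, 1 - 25 r^2/a^2)^2`. -/
noncomputable def hf (a r : ℝ) : ℝ := a * pp (1 - 25 * r ^ 2 / a ^ 2)

/-- derivative of `h_a`. -/
noncomputable def hf' (a r : ℝ) : ℝ := -(100 * (r / a)) * max 0 (1 - 25 * r ^ 2 / a ^ 2)

theorem hasDerivAt_hf {a : ℝ} (ha : 0 < a) (r : ℝ) : HasDerivAt (hf a) (hf' a r) r := by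
  have h1 : HasDerivAt (fun r : ℝ => 1 - 25 * r ^ 2 / a ^ 2) (-(50 * r / a ^ 2)) r := by
    have : HasDerivAt (fun r : ℝ => r ^ 2) (2 * r) r := by simpa using hasDerivAt_pow 2 r
    have h2 := ((this.const_mul 25).div_const (a ^ 2)).const_sub 1
    exact h2.congr_deriv (by ring)
  have h3 := ((hasDerivAt_pp (1 - 25 * r ^ 2 / a ^ 2)).comp r h1).const_mul a
  unfold hf hf'
  refine h3.congr_deriv ?_
  have ha' : a ≠ 0 := ha.ne'
  have e : a * (50 * r / a ^ 2) = 50 * (r / a) := by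
    rw [pow_two]; field_simp
  calc a * (2 * max 0 (1 - 25 * r ^ 2 / a ^ 2) * -(50 * r / a ^ 2)) =
      -(2 * (a * (50 * r / a ^ 2))) * max 0 (1 - 25 * r ^ 2 / a ^ 2) := by ring
    _ = -(100 * (r / a)) * max 0 (1 - 25 * r ^ 2 / a ^ 2) := by rw [e]; ring

theorem hf_nonneg {a : ℝ} (ha : 0 < a) (r : ℝ) : 0 ≤ hf a r := by unfold hf pp; positivity

theorem hf_zero (a : ℝ) : hf a 0 = a := by simp [hf, pp]

theorem hf_eq_zero {a r : ℝ} (ha : 0 < a) (h : a ≤ 5 * r) : hf a r = 0 := by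
  have : 1 - 25 * r ^ 2 / a ^ 2 ≤ 0 := by
    rw [sub_nonpos, le_div_iff₀ (by positivity)]
    nlinarith
  simp [hf, pp, max_eq_left this]

theorem hf_le {a : ℝ} (ha : 0 < a) (r : ℝ) : hf a r ≤ a := by
  have h1 : max 0 (1 - 25 * r ^ 2 / a ^ 2) ≤ 1 := by
    apply max_le (by norm_num)
    have : 0 ≤ 25 * r ^ 2 / a ^ 2 := by positivity
    linarith
  have h2 : pp (1 - 25 * r ^ 2 / a ^ 2) ≤ 1 := by
    unfold pp
    have := pow_le_pow_left₀ (le_max_left 0 (1 - 25 * r ^ 2 / a ^ 2)) h1 2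
    simpa using this
  calc hf a r = a * pp (1 - 25 * r ^ 2 / a ^ 2) := rfl
    _ ≤ a * 1 := mul_le_mul_of_nonneg_left h2 ha.le
    _ = a := mul_one a

theorem abs_hf'_le {a r : ℝ} (ha : 0 < a) (hr : 0 ≤ r) :
    |hf' a r| ≤ 20 * (if 5 * r < a then 5 * r / a else 0) := by
  unfold hf'
  split_ifs with h
  · rw [abs_mul, abs_neg, abs_of_nonneg (by positivity : 0 ≤ 100 * (r / a)),
      abs_of_nonneg (le_max_left _ _)]
    have h1 : max 0 (1 - 25 * r ^ 2 / a ^ 2) ≤ 1 := by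
      apply max_le (by norm_num)
      have : 0 ≤ 25 * r ^ 2 / a ^ 2 := by positivity
      linarith
    calc 100 * (r / a) * max 0 (1 - 25 * r ^ 2 / a ^ 2) ≤ 100 * (r / a) * 1 :=
          mul_le_mul_of_nonneg_left h1 (by positivity)
      _ = _ := by ring
  · have : 1 - 25 * r ^ 2 / a ^ 2 ≤ 0 := by
      rw [sub_nonpos, le_div_iff₀ (by positivity)]
      nlinarith
    simp [max_eq_left this]

/-- Geometric sums. -/
theorem sum_geom_le {b : ℕ → ℝ} {ρ : ℝ} (hρ0 : 0 ≤ ρ) (hρ : ρ < 1) (hb0 : ∀ n, 0 ≤ b n)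
    (hb : ∀ n, b n ≤ ρ * b (n + 1)) (m : ℕ) :
    ∑ n ∈ Finset.range (m + 1), b n ≤ b m / (1 - ρ) := by
  have h1 : 0 < 1 - ρ := by linarith
  induction m with
  | zero =>
    simp only [zero_add, Finset.range_one, Finset.sum_singleton]
    rw [le_div_iff₀ h1]
    nlinarith [hb0 0]
  | succ m ih =>
    rw [Finset.sum_range_succ]
    calc ∑ n ∈ Finset.range (m + 1), b n + b (m + 1) ≤ b m / (1 - ρ) + b (m + 1) := by linarith
      _ ≤ (ρ * b (m + 1)) / (1 - ρ) + b (m + 1) := by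
          gcongr
          exact hb m
      _ = b (m + 1) / (1 - ρ) := by field_simp; ring

theorem sum_trunc_le {b : ℕ → ℝ} {ρ : ℝ} (hρ0 : 0 ≤ ρ) (hρ : ρ < 1) (hb0 : ∀ n, 0 ≤ b n)
    (hb : ∀ n, b n ≤ ρ * b (n + 1)) (N : ℕ) :
    ∑ n ∈ Finset.range N, (if b n < 1 then b n else 0) ≤ 1 / (1 - ρ) := by
  have h1 : 0 < 1 - ρ := by linarith
  induction N with
  | zero => simp; linarith
  | succ m ih =>
    by_cases hm : b m < 1
    · calc ∑ n ∈ Finset.range (m + 1), (if b n < 1 then b n else 0)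
          ≤ ∑ n ∈ Finset.range (m + 1), b n := by
            apply Finset.sum_le_sum
            intro n _
            split_ifs
            · exact le_rfl
            · exact hb0 n
        _ ≤ b m / (1 - ρ) := sum_geom_le hρ0 hρ hb0 hb m
        _ ≤ 1 / (1 - ρ) := by gcongr
    · rw [Finset.sum_range_succ, if_neg hm, add_zero]
      exact ih

/-- The Lipschitz estimate for the partial sums. -/
theorem sum_hf_lip {a : ℕ → ℝ} {ρ : ℝ} (ha : ∀ n, 0 < a n) (hρ0 : 0 ≤ ρ) (hρ : ρ < 1)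
    (hdec : ∀ n, a (n + 1) ≤ ρ * a n) (N : ℕ) {r s : ℝ} (hr : 0 ≤ r) (hrs : r ≤ s) :
    ∑ n ∈ Finset.range N, |hf (a n) r - hf (a n) s| ≤ 20 / (1 - ρ) * (s - r) := by
  have h1 : 0 < 1 - ρ := by linarith
  have hmono : ∀ n, hf (a n) s ≤ hf (a n) r := by
    intro n
    unfold hf pp
    apply mul_le_mul_of_nonneg_left _ (ha n).le
    apply pow_le_pow_left₀ (le_max_left _ _)
    apply max_le_max le_rfl
    have : 25 * r ^ 2 / a n ^ 2 ≤ 25 * s ^ 2 / a n ^ 2 := by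
      have := ha n
      gcongr
    linarith
  have h2 : ∑ n ∈ Finset.range N, |hf (a n) r - hf (a n) s| =
      ∑ n ∈ Finset.range N, hf (a n) r - ∑ n ∈ Finset.range N, hf (a n) s := by
    rw [← Finset.sum_sub_distrib]
    apply Finset.sum_congr rfl
    intro n _
    exact abs_of_nonneg (by linarith [hmono n])
  rw [h2]
  have hder : ∀ u : ℝ, HasDerivAt (fun u => ∑ n ∈ Finset.range N, hf (a n) u)
      (∑ n ∈ Finset.range N, hf' (a n) u) u := fun u =>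
    HasDerivAt.fun_sum fun n _ => hasDerivAt_hf (ha n) u
  have hbd : ∀ u : ℝ, 0 ≤ u → ‖∑ n ∈ Finset.range N, hf' (a n) u‖ ≤ 20 / (1 - ρ) := by
    intro u hu
    have hs := sum_trunc_le (b := fun n => 5 * u / a n) hρ0 hρ
      (fun n => by have := ha n; positivity) (fun n => by
        have h3 := ha n
        have h4 := ha (n + 1)
        rw [← mul_div_assoc, div_le_div_iff₀ h3 h4]
        have := mul_le_mul_of_nonneg_left (hdec n) (by positivity : 0 ≤ 5 * u)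
        linarith) N
    calc ‖∑ n ∈ Finset.range N, hf' (a n) u‖ ≤ ∑ n ∈ Finset.range N, |hf' (a n) u| :=
          norm_sum_le _ _
      _ ≤ ∑ n ∈ Finset.range N, 20 * (if 5 * u < a n then 5 * u / a n else 0) :=
          Finset.sum_le_sum fun n _ => abs_hf'_le (ha n) hu
      _ = 20 * ∑ n ∈ Finset.range N, (if 5 * u / a n < 1 then 5 * u / a n else 0) := by
          rw [Finset.mul_sum]
          apply Finset.sum_congr rfl
          intro n _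
          simp only [div_lt_one (ha n)]
      _ ≤ 20 * (1 / (1 - ρ)) := by gcongr
      _ = 20 / (1 - ρ) := by ring
  have hmv := norm_image_sub_le_of_norm_deriv_le_segment' (a := r) (b := s)
    (f := fun u => ∑ n ∈ Finset.range N, hf (a n) u)
    (f' := fun u => ∑ n ∈ Finset.range N, hf' (a n) u) (C := 20 / (1 - ρ))
    (fun u _ => (hder u).hasDerivWithinAt) (fun u hu => hbd u (hr.trans hu.1)) s
    ⟨hrs, le_rfl⟩
  rw [Real.norm_eq_abs, abs_le] at hmv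
  linarith [hmv.1]

end Pool.Agent.R273.Ci
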