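import Pool.Agent.R273.Ci1

/-! The scalar function `R` on `ℓ₂`. -/

namespace Pool.Agent.R273.Ci

open scoped ENNReal Topology
open Filter

/-- complex `ℓ₂`. -/
noncomputable abbrev E2 := lp (fun _ : ℕ => ℂ) 2
/-- complex `ℓ₁`. -/
noncomputable abbrev E1 := lp (fun _ : ℕ => ℂ) 1

theorem norm_sq_hasSum (x : E2) : HasSum (fun n => ‖x n‖ ^ 2) (‖x‖ ^ 2) := by
  have := lp.hasSum_norm (p := 2) (by norm_num) x
  simpa using this

theorem norm_hasSum (x : E1) : HasSum (fun n => ‖x n‖) ‖x‖ := by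
  have := lp.hasSum_norm (p := 1) (by norm_num) x
  simpa using this

/-- the map `x ↦ (k_{a_n}(|x_n - A_n|))_n`. -/
noncomputable def G (a : ℕ → ℝ) (ha : ∀ n, 0 < a n) (A x : E2) : E2 :=
  ⟨fun n => ((kf (a n) ‖(x - A) n‖ : ℝ) : ℂ), (lp.memℓp (x - A)).mono' fun n => by
    rw [Complex.norm_real, Real.norm_of_nonneg (kf_nonneg _ _)]
    exact kf_le (ha n) (norm_nonneg _)⟩

variable {a : ℕ → ℝ} (ha : ∀ n, 0 < a n) (A : E2)

theorem G_apply (x : E2) (n : ℕ) : G a ha A x n = ((kf (a n) ‖(x - A) n‖ : ℝ) : ℂ) := rfl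

theorem norm_G_apply (x : E2) (n : ℕ) : ‖G a ha A x n‖ = kf (a n) ‖(x - A) n‖ := by
  rw [G_apply, Complex.norm_real, Real.norm_of_nonneg (kf_nonneg _ _)]

theorem G_lip (x y : E2) : ‖G a ha A x - G a ha A y‖ ≤ 2 * ‖x - y‖ := by
  have h : ‖G a ha A x - G a ha A y‖ ≤ ‖(2 : ℂ) • (x - y)‖ := by
    apply lp.norm_mono (by norm_num)
    intro n
    have e1 : (G a ha A x - G a ha A y) n =
        ((kf (a n) ‖(x - A) n‖ - kf (a n) ‖(y - A) n‖ : ℝ) : ℂ) := by
      rw [lp.coeFn_sub, Pi.sub_apply, G_apply, G_apply]; push_cast; rfl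
    rw [e1, Complex.norm_real, Real.norm_eq_abs, lp.coeFn_smul, Pi.smul_apply, norm_smul,
      Complex.norm_ofNat]
    refine (kf_lip (ha n) _ _).trans ?_
    gcongr
    refine (abs_norm_sub_norm_le _ _).trans ?_
    apply le_of_eq
    congr 1
    simp only [lp.coeFn_sub, Pi.sub_apply]
    ring
  refine h.trans (le_of_eq ?_)
  rw [norm_smul, Complex.norm_ofNat]

/-- `R(x) = ‖G(x)‖`. -/
noncomputable def R (a : ℕ → ℝ) (ha : ∀ n, 0 < a n) (A x : E2) : ℝ := ‖G a ha A x‖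

theorem R_nonneg (x : E2) : 0 ≤ R a ha A x := norm_nonneg _

theorem R_lip (x y : E2) : |R a ha A x - R a ha A y| ≤ 2 * ‖x - y‖ :=
  (abs_norm_sub_norm_le _ _).trans (G_lip ha A x y)

theorem kf_pos {a s : ℝ} (ha : 0 < a) (hs : 0 < s) : 0 < kf a s := by
  unfold kf; positivity

theorem R_eq_zero {x : E2} (h : R a ha A x = 0) : x = A := by
  have h1 : G a ha A x = 0 := norm_eq_zero.1 h
  rw [← sub_eq_zero]
  apply lp.ext
  funext n
  have h2 : ‖G a ha A x n‖ = 0 := by rw [h1]; simp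
  rw [norm_G_apply] at h2
  by_contra hne
  have h3 : 0 < ‖(x - A) n‖ := by
    rw [norm_pos_iff]; simpa using hne
  exact absurd h2 (kf_pos (ha n) h3).ne'

theorem R_self : R a ha A A = 0 := by
  unfold R
  rw [norm_eq_zero]
  apply lp.ext
  funext n
  rw [G_apply]
  simp [kf_zero]

theorem kf_le_R (x : E2) (n : ℕ) : kf (a n) ‖(x - A) n‖ ≤ R a ha A x := by
  rw [← norm_G_apply ha A]
  exact lp.norm_apply_le_norm (by norm_num) _ n

theorem R_sq_hasSum (x : E2) :
    HasSum (fun n => kf (a n) ‖(x - A) n‖ ^ 2) (R a ha A x ^ 2) := by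
  have := norm_sq_hasSum (G a ha A x)
  simp only [norm_G_apply] at this
  exact this

/-- gradient vector of `R²`. -/
noncomputable def V (a : ℕ → ℝ) (ha : ∀ n, 0 < a n) (A x : E2) : E2 :=
  ⟨fun n => ((2 * Fp (a n) (‖(x - A) n‖ ^ 2) : ℝ) : ℂ) * (x - A) n,
    (lp.memℓp ((2 : ℂ) • (x - A))).mono' fun n => by
    rw [norm_mul, Complex.norm_real, lp.coeFn_smul, Pi.smul_apply, norm_smul, Complex.norm_ofNat,
      Real.norm_of_nonneg (by have := Fp_nonneg (a := a n) (sq_nonneg ‖(x - A) n‖); positivity)]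
    have := Fp_le_one (ha n) (sq_nonneg ‖(x - A) n‖)
    gcongr
    linarith⟩

theorem V_apply (x : E2) (n : ℕ) :
    V a ha A x n = ((2 * Fp (a n) (‖(x - A) n‖ ^ 2) : ℝ) : ℂ) * (x - A) n := rfl

/-- real-linear functional `h ↦ Re ⟨v, h⟩`. -/
noncomputable def reInner (v : E2) : E2 →L[ℝ] ℝ :=
  Complex.reCLM.comp ((innerSL ℂ v).restrictScalars ℝ)

theorem reInner_apply (v h : E2) : reInner v h = (inner ℂ v h : ℂ).re := rfl

theorem Q_rem (x h : E2) :
    |R a ha A (x + h) ^ 2 - R a ha A x ^ 2 - reInner (V a ha A x) h| ≤ 5 * ‖h‖ ^ 2 := by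
  have s1 := R_sq_hasSum ha A (x + h)
  have s2 := R_sq_hasSum ha A x
  have s3 : HasSum (fun n => (inner ℂ (V a ha A x n) (h n) : ℂ).re) (reInner (V a ha A x) h) := by
    have := lp.hasSum_inner (𝕜 := ℂ) (V a ha A x) h
    exact Complex.reCLM.hasSum this
  have s4 := (norm_sq_hasSum h).mul_left 5
  have := ((s1.sub s2).sub s3).norm_le_of_bounded s4 (fun n => by
    have e := q_expand (ha n) ((x - A) n) (h n)
    have e2 : (x + h - A) n = (x - A) n + h n := by
      simp only [lp.coeFn_sub, lp.coeFn_add, Pi.sub_apply, Pi.add_apply]; ring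
    rw [V_apply, e2, Real.norm_eq_abs]
    exact e)
  rwa [Real.norm_eq_abs] at this

theorem hasFDerivAt_Q (x : E2) :
    HasFDerivAt (fun x => R a ha A x ^ 2) (reInner (V a ha A x)) x := by
  rw [hasFDerivAt_iff_isLittleO_nhds_zero]
  have : (fun h : E2 => R a ha A (x + h) ^ 2 - R a ha A x ^ 2 - reInner (V a ha A x) h)
      =O[𝓝 0] fun h => ‖h‖ ^ 2 := by
    apply Asymptotics.IsBigO.of_bound 5
    filter_upwards with h
    rw [Real.norm_eq_abs, Real.norm_of_nonneg (by positivity)]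
    exact Q_rem ha A x h
  refine this.trans_isLittleO ?_
  have h2 := (Asymptotics.isLittleO_pow_id (𝕜 := ℝ) (one_lt_two)).comp_tendsto
    (tendsto_norm_zero (E := E2))
  exact h2.norm_right.congr_right (fun h => by simp) |>.of_norm_right

theorem hasFDerivAt_R {x : E2} (hx : R a ha A x ≠ 0) :
    HasFDerivAt (fun x => R a ha A x) ((1 / (2 * R a ha A x)) • reInner (V a ha A x)) x := by
  have h1 := (hasFDerivAt_Q ha A x).sqrt (by positivity)
  have e : (fun x => √(R a ha A x ^ 2)) = fun x => R a ha A x := by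
    funext y; exact Real.sqrt_sq (R_nonneg ha A y)
  rw [e, Real.sqrt_sq (R_nonneg ha A x)] at h1
  exact h1

end Pool.Agent.R273.Ci
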