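import Pool.Agent.R273.Ci2

/-! The curve `Φ` in `ℓ₁` and the map `U = Φ ∘ R`. -/

namespace Pool.Agent.R273.Ci

open scoped ENNReal Topology
open Filter

theorem memE1_of_sum_le {f : ℕ → ℂ} {C : ℝ} (h : ∀ N, ∑ n ∈ Finset.range N, ‖f n‖ ≤ C) :
    Memℓp f 1 := by
  apply memℓp_gen' (C := C)
  intro s
  simp only [ENNReal.toReal_one, Real.rpow_one]
  obtain ⟨N, hN⟩ := s.exists_nat_subset_range
  exact (Finset.sum_le_sum_of_subset_of_nonneg hN (fun _ _ _ => norm_nonneg _)).trans (h N)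

theorem E1_norm_le {f : E1} {C : ℝ} (hC : 0 ≤ C) (h : ∀ N, ∑ n ∈ Finset.range N, ‖f n‖ ≤ C) :
    ‖f‖ ≤ C := by
  apply lp.norm_le_of_forall_sum_le (by norm_num) hC
  intro s
  simp only [ENNReal.toReal_one, Real.rpow_one]
  obtain ⟨N, hN⟩ := s.exists_nat_subset_range
  exact (Finset.sum_le_sum_of_subset_of_nonneg hN (fun _ _ _ => norm_nonneg _)).trans (h N)

theorem E1_sum_le (f : E1) (N : ℕ) : ∑ n ∈ Finset.range N, ‖f n‖ ≤ ‖f‖ :=
  sum_le_hasSum _ (fun _ _ => norm_nonneg _) (norm_hasSum f)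

variable {a : ℕ → ℝ} {ρ : ℝ}

theorem memE1_a (hs : Summable a) (ha : ∀ n, 0 < a n) : Memℓp (fun n => (a n : ℂ)) 1 := by
  apply memℓp_gen
  simpa [abs_of_pos (ha _)] using hs

/-- `Φ(r) = (h_{a_n}(r))_n`. -/
noncomputable def Phi (a : ℕ → ℝ) (hs : Summable a) (ha : ∀ n, 0 < a n) (r : ℝ) : E1 :=
  ⟨fun n => ((hf (a n) r : ℝ) : ℂ), (memE1_a hs ha).mono' fun n => by
    rw [Complex.norm_real, Real.norm_of_nonneg (hf_nonneg (ha n) r), Complex.norm_real,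
      Real.norm_of_nonneg (ha n).le]
    exact hf_le (ha n) r⟩

theorem Phi_apply (hs : Summable a) (ha : ∀ n, 0 < a n) (r : ℝ) (n : ℕ) :
    Phi a hs ha r n = ((hf (a n) r : ℝ) : ℂ) := rfl

theorem Phi_lip' (hs : Summable a) (ha : ∀ n, 0 < a n) (hρ0 : 0 ≤ ρ) (hρ : ρ < 1)
    (hdec : ∀ n, a (n + 1) ≤ ρ * a n) {r s : ℝ} (hr : 0 ≤ r) (hrs : r ≤ s) :
    ‖Phi a hs ha r - Phi a hs ha s‖ ≤ 20 / (1 - ρ) * (s - r) := by
  have h1 : 0 < 1 - ρ := by linarith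
  apply E1_norm_le (by have : 0 ≤ s - r := by linarith
                       positivity)
  intro N
  refine le_trans (le_of_eq ?_) (sum_hf_lip ha hρ0 hρ hdec N hr hrs)
  apply Finset.sum_congr rfl
  intro n _
  rw [lp.coeFn_sub, Pi.sub_apply, Phi_apply, Phi_apply, ← Complex.ofReal_sub, Complex.norm_real,
    Real.norm_eq_abs]

theorem Phi_lip (hs : Summable a) (ha : ∀ n, 0 < a n) (hρ0 : 0 ≤ ρ) (hρ : ρ < 1)
    (hdec : ∀ n, a (n + 1) ≤ ρ * a n) {r s : ℝ} (hr : 0 ≤ r) (hs' : 0 ≤ s) :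
    ‖Phi a hs ha r - Phi a hs ha s‖ ≤ 20 / (1 - ρ) * |r - s| := by
  rcases le_total r s with h | h
  · rw [abs_sub_comm, abs_of_nonneg (by linarith : 0 ≤ s - r)]
    exact Phi_lip' hs ha hρ0 hρ hdec hr h
  · rw [norm_sub_rev, abs_of_nonneg (by linarith : 0 ≤ r - s)]
    exact Phi_lip' hs ha hρ0 hρ hdec hs' h

theorem Phi_deriv (hs : Summable a) (ha : ∀ n, 0 < a n) {r : ℝ} (hr : 0 < r) :
    ∃ D : E1, HasDerivAt (Phi a hs ha) D r := by
  have h0 : Tendsto a atTop (𝓝 0) := hs.tendsto_atTop_zero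
  obtain ⟨N, hN⟩ := (h0.eventually (Iic_mem_nhds (by positivity : 0 < 5 * (r / 2)))).exists_forall_of_atTop
  have e : Phi a hs ha =ᶠ[𝓝 r] fun s => ∑ n ∈ Finset.range N,
      lp.single (E := fun _ : ℕ => ℂ) 1 n ((hf (a n) s : ℝ) : ℂ) := by
    filter_upwards [Ioi_mem_nhds (by linarith : r / 2 < r)] with s hs'
    have hs'' : r / 2 < s := hs'
    apply lp.ext
    funext n
    rw [Phi_apply, lp.coeFn_sum, Finset.sum_apply]
    by_cases hn : n < N
    · rw [Finset.sum_eq_single n]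
      · rw [lp.single_apply_self]
      · intro m _ hm
        rw [lp.single_apply_ne _ _ _ hm.symm]
      · intro h; exact absurd (Finset.mem_range.2 hn) h
    · rw [hf_eq_zero (ha n) ((hN n (not_lt.1 hn)).trans (by linarith))]
      rw [Finset.sum_eq_zero]
      · simp
      · intro m hm
        have : n ≠ m := by
          rintro rfl; exact hn (Finset.mem_range.1 hm)
        rw [lp.single_apply_ne _ _ _ this]
  refine ⟨∑ n ∈ Finset.range N, lp.single (E := fun _ : ℕ => ℂ) 1 n ((hf' (a n) r : ℝ) : ℂ), ?_⟩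
  refine HasDerivAt.congr_of_eventuallyEq ?_ e
  apply HasDerivAt.fun_sum
  intro n _
  have h1 := hasDerivAt_hf (ha n) r
  have h2 := (((lp.singleContinuousLinearMap ℂ (fun _ : ℕ => ℂ) 1 n).restrictScalars ℝ).comp
    Complex.ofRealCLM).hasFDerivAt.comp_hasDerivAt r h1
  exact h2

/-- The map `U`. -/
noncomputable def U (a : ℕ → ℝ) (hs : Summable a) (ha : ∀ n, 0 < a n) (A x : E2) : E1 :=
  Phi a hs ha (R a ha A x)

theorem U_lip (hs : Summable a) (ha : ∀ n, 0 < a n) (hρ0 : 0 ≤ ρ) (hρ : ρ < 1)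
    (hdec : ∀ n, a (n + 1) ≤ ρ * a n) (A x y : E2) :
    ‖U a hs ha A x - U a hs ha A y‖ ≤ (40 / (1 - ρ)) * ‖x - y‖ := by
  have h1 : 0 < 1 - ρ := by linarith
  calc ‖U a hs ha A x - U a hs ha A y‖ ≤ 20 / (1 - ρ) * |R a ha A x - R a ha A y| :=
        Phi_lip hs ha hρ0 hρ hdec (R_nonneg ha A x) (R_nonneg ha A y)
    _ ≤ 20 / (1 - ρ) * (2 * ‖x - y‖) := by
        gcongr
        exact R_lip ha A x y
    _ = _ := by ring

theorem R_line_sq (ha : ∀ n, 0 < a n) (A h : E2) {t : ℝ} (ht : t ≠ 0) :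
    HasSum (fun n => t ^ 2 * ‖h n‖ ^ 4 / (a n ^ 2 + t ^ 2 * ‖h n‖ ^ 2))
      ((|t|⁻¹ * R a ha A (A + t • h)) ^ 2) := by
  have h1 := (R_sq_hasSum ha A (A + t • h)).mul_left ((|t|⁻¹) ^ 2)
  rw [← mul_pow] at h1
  have hfun : (fun n => t ^ 2 * ‖h n‖ ^ 4 / (a n ^ 2 + t ^ 2 * ‖h n‖ ^ 2)) =
      fun n => |t|⁻¹ ^ 2 * kf (a n) ‖(A + t • h - A) n‖ ^ 2 := ?_
  · rw [hfun]; exact h1
  funext n
  have e : (A + t • h - A) n = (t : ℂ) * h n := by
    rw [add_sub_cancel_left]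
    simp [lp.coeFn_smul]
  rw [e, norm_mul, Complex.norm_real, Real.norm_eq_abs, kf_sq (ha n)]
  have h2 : 0 < a n ^ 2 + t ^ 2 * ‖h n‖ ^ 2 := by have := ha n; positivity
  rw [mul_pow, mul_pow, sq_abs, inv_pow, sq_abs]
  have h3 : |t| ^ 4 = t ^ 4 := by
    rw [show (4:ℕ) = 2 * 2 by norm_num, pow_mul, pow_mul, sq_abs]
  rw [h3]
  field_simp

theorem R_line_tendsto (ha : ∀ n, 0 < a n) (A h : E2) :
    Tendsto (fun t : ℝ => (|t|⁻¹ * R a ha A (A + t • h)) ^ 2) (𝓝[≠] 0) (𝓝 0) := by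
  have h1 : Tendsto (fun t : ℝ => ∑' n, t ^ 2 * ‖h n‖ ^ 4 / (a n ^ 2 + t ^ 2 * ‖h n‖ ^ 2))
      (𝓝[≠] 0) (𝓝 (∑' _ : ℕ, (0:ℝ))) := by
    apply tendsto_tsum_of_dominated_convergence (bound := fun n => ‖h n‖ ^ 2)
      (norm_sq_hasSum h).summable
    · intro n
      have hc : ContinuousAt (fun t : ℝ => t ^ 2 * ‖h n‖ ^ 4 / (a n ^ 2 + t ^ 2 * ‖h n‖ ^ 2)) 0 := by
        apply ContinuousAt.div (by fun_prop) (by fun_prop)
        have := ha n
        positivity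
      have := hc.tendsto.mono_left (nhdsWithin_le_nhds (s := {0}ᶜ))
      simpa using this
    · filter_upwards with t n
      have h2 : 0 < a n ^ 2 + t ^ 2 * ‖h n‖ ^ 2 := by have := ha n; positivity
      rw [Real.norm_of_nonneg (by positivity), div_le_iff₀ h2]
      have : 0 ≤ ‖h n‖ ^ 2 * a n ^ 2 := by positivity
      nlinarith
  rw [tsum_zero] at h1
  refine h1.congr' ?_
  filter_upwards [self_mem_nhdsWithin] with t ht
  exact (R_line_sq ha A h ht).tsum_eq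

theorem U_gateaux (hs : Summable a) (ha : ∀ n, 0 < a n) (hρ0 : 0 ≤ ρ) (hρ : ρ < 1)
    (hdec : ∀ n, a (n + 1) ≤ ρ * a n) (A x : E2) :
    ∃ L : E2 →L[ℝ] E1, ∀ h : E2,
      Tendsto (fun t : ℝ => t⁻¹ • (U a hs ha A (x + t • h) - U a hs ha A x)) (𝓝[≠] 0)
        (𝓝 (L h)) := by
  have h1ρ : 0 < 1 - ρ := by linarith
  by_cases hx : R a ha A x = 0
  · have hxA := R_eq_zero ha A hx
    subst hxA
    refine ⟨0, fun h => ?_⟩
    rw [zero_apply, tendsto_zero_iff_norm_tendsto_zero]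
    have h1 := ((R_line_tendsto ha x h).sqrt).const_mul (20 / (1 - ρ))
    rw [Real.sqrt_zero, mul_zero] at h1
    refine squeeze_zero (fun _ => norm_nonneg _) (fun t => ?_) h1
    have hR := R_nonneg ha x (x + t • h)
    rw [Real.sqrt_sq (by positivity), norm_smul, norm_inv, Real.norm_eq_abs]
    have h2 := Phi_lip hs ha hρ0 hρ hdec hR (R_nonneg ha x x)
    rw [R_self, sub_zero, abs_of_nonneg hR] at h2
    calc |t|⁻¹ * ‖U a hs ha x (x + t • h) - U a hs ha x x‖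
        ≤ |t|⁻¹ * (20 / (1 - ρ) * R a ha x (x + t • h)) := by
          gcongr
          unfold U
          rw [R_self]
          exact h2
      _ = _ := by ring
  · have hx' : 0 < R a ha A x := lt_of_le_of_ne (R_nonneg ha A x) (Ne.symm hx)
    obtain ⟨D, hD⟩ := Phi_deriv hs ha hx'
    have h1 := hD.hasFDerivAt.comp x (hasFDerivAt_R ha A hx)
    refine ⟨(ContinuousLinearMap.toSpanSingleton ℝ D).comp
      ((1 / (2 * R a ha A x)) • reInner (V a ha A x)), fun h => ?_⟩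
    have h2 := (h1.hasLineDerivAt h)
    have h3 := (hasDerivAt_iff_tendsto_slope_zero.1 h2)
    simp only [zero_add, zero_smul, add_zero] at h3
    exact h3

end Pool.Agent.R273.Ci
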