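import Pool.Agent.R273.Ci0
import Pool.Agent.R273.Ci3

/-! The couples, condition 2, and the two membership statements. -/

namespace Pool.Agent.R273.Ci

open scoped ENNReal Topology
open Filter

/-- the weight `exp(-λ n)`. -/
noncomputable def wt (lam : ℝ) (n : ℕ) : ℝ := Real.exp (-(lam * n))

theorem wt_pos (lam : ℝ) (n : ℕ) : 0 < wt lam n := Real.exp_pos _

theorem wt_le_one {lam : ℝ} (hl : 0 ≤ lam) (n : ℕ) : wt lam n ≤ 1 := by
  unfold wt
  rw [Real.exp_le_one_iff]
  have : 0 ≤ lam * n := by positivity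
  linarith

/-- The diagonal map `(y_n) ↦ (exp(-λ n) y_n)` on `ℓ_p`. -/
noncomputable def jmap (p : ℝ≥0∞) [Fact (1 ≤ p)] (lam : ℝ) (hl : 0 ≤ lam) :
    lp (fun _ : ℕ => ℂ) p →L[ℂ] lp (fun _ : ℕ => ℂ) p :=
  LinearMap.mkContinuous
    { toFun := fun x => ⟨fun n => (wt lam n : ℂ) * x n, (lp.memℓp x).mono' fun n => by
        rw [norm_mul, Complex.norm_real, Real.norm_of_nonneg (wt_pos lam n).le]
        have := wt_le_one hl n
        exact mul_le_of_le_one_left (norm_nonneg _) this⟩
      map_add' := fun x y => by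
        apply lp.ext; funext n
        simp only [lp.coeFn_add, Pi.add_apply]
        ring
      map_smul' := fun c x => by
        apply lp.ext; funext n
        simp only [lp.coeFn_smul, Pi.smul_apply, smul_eq_mul, RingHom.id_apply]
        ring } 1 (fun x => by
      rw [one_mul]
      apply lp.norm_mono (zero_lt_one.trans_le Fact.out).ne'
      intro n
      change ‖(wt lam n : ℂ) * x n‖ ≤ ‖x n‖
      rw [norm_mul, Complex.norm_real, Real.norm_of_nonneg (wt_pos lam n).le]
      have := wt_le_one hl n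
      exact mul_le_of_le_one_left (norm_nonneg _) this)

theorem jmap_apply (p : ℝ≥0∞) [Fact (1 ≤ p)] (lam : ℝ) (hl : 0 ≤ lam)
    (x : lp (fun _ : ℕ => ℂ) p) (n : ℕ) : jmap p lam hl x n = (wt lam n : ℂ) * x n := rfl

theorem jmap_injective (p : ℝ≥0∞) [Fact (1 ≤ p)] (lam : ℝ) (hl : 0 ≤ lam) :
    Function.Injective (jmap p lam hl) := by
  intro x y h
  apply lp.ext; funext n
  have h1 : jmap p lam hl x n = jmap p lam hl y n := by rw [h]
  rw [jmap_apply, jmap_apply] at h1
  have h2 : (wt lam n : ℂ) ≠ 0 := by exact_mod_cast (wt_pos lam n).ne'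
  exact mul_left_cancel₀ h2 h1

variable {a : ℕ → ℝ} {ρ : ℝ}

/-- Condition 2. -/
theorem U_cond2 (hs : Summable a) (ha : ∀ n, 0 < a n) {lam : ℝ} (hl : 0 ≤ lam) (A : E2)
    (hA : ∀ n, A n = (a n : ℂ))
    (hgrow : ∀ n : ℕ, Real.exp (lam * n) * a n ≤
      (1 / 2) * (Real.exp (lam * (n + 1 : ℕ)) * a (n + 1))) (y : E2) :
    ∃ z : E1, jmap 1 lam hl z = U a hs ha A (jmap 2 lam hl y) ∧ ‖z‖ ≤ 4 * ‖y‖ := by
  set x := jmap 2 lam hl y with hx
  set r := R a ha A x with hr
  have hr0 : 0 ≤ r := R_nonneg ha A x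
  have key : ∀ N, ∑ n ∈ Finset.range N, Real.exp (lam * n) * hf (a n) r ≤ 4 * ‖y‖ := by
    intro N
    induction N with
    | zero => simp
    | succ m ih =>
      by_cases hm : a m ≤ 5 * r
      · rw [Finset.sum_range_succ, hf_eq_zero (ha m) hm, mul_zero, add_zero]
        exact ih
      · push Not at hm
        have h1 := sum_geom_le (b := fun n : ℕ => Real.exp (lam * n) * a n) (ρ := 1 / 2)
          (by norm_num) (by norm_num) (fun n => by have := ha n; positivity) hgrow m
        have h2 : kf (a m) ‖(x - A) m‖ < a m / 5 :=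
          lt_of_le_of_lt (kf_le_R ha A x m) (by rw [← hr]; linarith)
        have h3 : ‖(x - A) m‖ < a m / 2 := by
          by_contra hcon
          push Not at hcon
          exact absurd (kf_lower (ha m) hcon) (not_le.2 h2)
        have h4 : a m / 2 < ‖x m‖ := by
          have e : (x - A) m = x m - A m := by rw [lp.coeFn_sub, Pi.sub_apply]
          have h5 : ‖A m‖ ≤ ‖x m‖ + ‖(x - A) m‖ := by
            rw [e]
            calc ‖A m‖ = ‖x m - (x m - A m)‖ := by congr 1; ring
              _ ≤ _ := norm_sub_le _ _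
          rw [hA, Complex.norm_real, Real.norm_of_nonneg (ha m).le] at h5
          linarith
        have h6 : ‖x m‖ = wt lam m * ‖y m‖ := by
          rw [hx, jmap_apply, norm_mul, Complex.norm_real, Real.norm_of_nonneg (wt_pos lam m).le]
        have h7 : Real.exp (lam * m) * wt lam m = 1 := by
          unfold wt; rw [← Real.exp_add]; simp
        have h8 : Real.exp (lam * m) * a m ≤ 2 * ‖y‖ := by
          have h9 : Real.exp (lam * m) * (a m / 2) ≤ Real.exp (lam * m) * ‖x m‖ := by gcongr
          rw [h6, ← mul_assoc, h7, one_mul] at h9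
          have h10 : ‖y m‖ ≤ ‖y‖ := lp.norm_apply_le_norm (by norm_num) y m
          linarith
        calc ∑ n ∈ Finset.range (m + 1), Real.exp (lam * n) * hf (a n) r
            ≤ ∑ n ∈ Finset.range (m + 1), Real.exp (lam * n) * a n := by
              apply Finset.sum_le_sum
              intro n _
              have := hf_le (ha n) r
              gcongr
          _ ≤ Real.exp (lam * m) * a m / (1 - 1 / 2) := h1
          _ ≤ 4 * ‖y‖ := by rw [div_le_iff₀ (by norm_num)]; linarith
  have key' : ∀ N, ∑ n ∈ Finset.range N, ‖((Real.exp (lam * n) * hf (a n) r : ℝ) : ℂ)‖ ≤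
      4 * ‖y‖ := by
    intro N
    refine le_trans (le_of_eq ?_) (key N)
    apply Finset.sum_congr rfl
    intro n _
    rw [Complex.norm_real, Real.norm_of_nonneg (mul_nonneg (Real.exp_pos _).le
      (hf_nonneg (ha n) r))]
  refine ⟨⟨fun n => ((Real.exp (lam * n) * hf (a n) r : ℝ) : ℂ), memE1_of_sum_le key'⟩, ?_,
    E1_norm_le (by positivity) key'⟩
  apply lp.ext; funext n
  rw [jmap_apply]
  change (wt lam n : ℂ) * ((Real.exp (lam * n) * hf (a n) r : ℝ) : ℂ) = ((hf (a n) r : ℝ) : ℂ)
  rw [← Complex.ofReal_mul]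
  congr 1
  unfold wt
  rw [← mul_assoc, ← Real.exp_add]
  simp

end Pool.Agent.R273.Ci
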