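import Pool.Agent.R273.Ci4

/-! Membership `a ∈ [A₀, A₁]_θ`. -/

namespace Pool.Agent.R273.Ci

open scoped ENNReal Topology
open Filter Complex

/-- `exp(-λ n z)`. -/
noncomputable def ez (lam : ℝ) (n : ℕ) (z : ℂ) : ℂ := Complex.exp (-((lam * n : ℝ) : ℂ) * z)

theorem norm_ez (lam : ℝ) (n : ℕ) (z : ℂ) : ‖ez lam n z‖ = Real.exp (-(lam * n) * z.re) := by
  unfold ez
  rw [Complex.norm_exp]
  congr 1
  rw [← Complex.ofReal_neg, Complex.re_ofReal_mul]

theorem norm_ez_le {lam : ℝ} (hl : 0 ≤ lam) (n : ℕ) {z : ℂ} (hz : 0 ≤ z.re) :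
    ‖ez lam n z‖ ≤ 1 := by
  rw [norm_ez, Real.exp_le_one_iff]
  have : 0 ≤ lam * n * z.re := by positivity
  linarith

theorem differentiable_ez (lam : ℝ) (n : ℕ) : Differentiable ℂ (ez lam n) := by
  unfold ez
  fun_prop

/-- The function `z ↦ (exp(-λ n z) c_n)_n` (zero outside the closed right half plane). -/
noncomputable def FF (lam : ℝ) (hl : 0 ≤ lam) (c : E2) (z : ℂ) : E2 :=
  ⟨fun n => (if 0 ≤ z.re then ez lam n z else 0) * c n, (lp.memℓp c).mono' fun n => by
    rw [norm_mul]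
    split_ifs with h
    · exact mul_le_of_le_one_left (norm_nonneg _) (norm_ez_le hl n h)
    · simp⟩

theorem FF_apply {lam : ℝ} (hl : 0 ≤ lam) (c : E2) {z : ℂ} (hz : 0 ≤ z.re) (n : ℕ) :
    FF lam hl c z n = ez lam n z * c n := by
  change (if 0 ≤ z.re then ez lam n z else 0) * c n = _
  rw [if_pos hz]

theorem FF_norm_le {lam : ℝ} (hl : 0 ≤ lam) (c : E2) {z : ℂ} (hz : 0 ≤ z.re) :
    ‖FF lam hl c z‖ ≤ ‖c‖ := by
  apply lp.norm_mono (by norm_num)
  intro n
  rw [FF_apply hl c hz, norm_mul]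
  exact mul_le_of_le_one_left (norm_nonneg _) (norm_ez_le hl n hz)

/-- Partial sums. -/
noncomputable def FN (lam : ℝ) (c : E2) (N : ℕ) (z : ℂ) : E2 :=
  ∑ n ∈ Finset.range N, lp.single (E := fun _ : ℕ => ℂ) 2 n (ez lam n z * c n)

theorem single_sum_apply (f : ℕ → ℂ) (N n : ℕ) :
    (∑ m ∈ Finset.range N, lp.single (E := fun _ : ℕ => ℂ) 2 m (f m) : E2) n =
      if n < N then f n else 0 := by
  rw [lp.coeFn_sum, Finset.sum_apply]
  split_ifs with hn
  · rw [Finset.sum_eq_single n]
    · rw [lp.single_apply_self]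
    · intro m _ hm
      rw [lp.single_apply_ne _ _ _ hm.symm]
    · intro h; exact absurd (Finset.mem_range.2 hn) h
  · apply Finset.sum_eq_zero
    intro m hm
    have : n ≠ m := by
      rintro rfl; exact hn (Finset.mem_range.1 hm)
    rw [lp.single_apply_ne _ _ _ this]

theorem differentiable_FN (lam : ℝ) (c : E2) (N : ℕ) : Differentiable ℂ (FN lam c N) := by
  unfold FN
  apply Differentiable.fun_sum
  intro n _
  have h1 : Differentiable ℂ (fun z => ez lam n z * c n) := (differentiable_ez lam n).mul_const _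
  exact (lp.singleContinuousLinearMap ℂ (fun _ : ℕ => ℂ) 2 n).differentiable.comp h1

theorem FF_sub_FN_le {lam : ℝ} (hl : 0 ≤ lam) (c : E2) (N : ℕ) {z : ℂ} (hz : 0 ≤ z.re) :
    ‖FF lam hl c z - FN lam c N z‖ ≤
      ‖c - ∑ n ∈ Finset.range N, lp.single (E := fun _ : ℕ => ℂ) 2 n (c n)‖ := by
  apply lp.norm_mono (by norm_num)
  intro n
  unfold FN
  rw [lp.coeFn_sub, Pi.sub_apply, lp.coeFn_sub, Pi.sub_apply, single_sum_apply,
    single_sum_apply, FF_apply hl c hz]
  split_ifs with h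
  · simp
  · simp only [sub_zero, norm_mul]
    exact mul_le_of_le_one_left (norm_nonneg _) (norm_ez_le hl n hz)

theorem tendstoUniformlyOn_FN {lam : ℝ} (hl : 0 ≤ lam) (c : E2) :
    TendstoUniformlyOn (FN lam c) (FF lam hl c) atTop {z : ℂ | 0 ≤ z.re} := by
  have h1 : Tendsto (fun N => ∑ n ∈ Finset.range N, lp.single (E := fun _ : ℕ => ℂ) 2 n (c n))
      atTop (𝓝 c) := (lp.hasSum_single (by norm_num) c).tendsto_sum_nat
  have h2 : Tendsto (fun N => ‖c - ∑ n ∈ Finset.range N,
      lp.single (E := fun _ : ℕ => ℂ) 2 n (c n)‖) atTop (𝓝 0) := by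
    have := (tendsto_const_nhds (x := c)).sub h1
    rw [sub_self] at this
    simpa using this.norm
  rw [Metric.tendstoUniformlyOn_iff]
  intro ε hε
  filter_upwards [h2.eventually (Iio_mem_nhds hε)] with N hN z hz
  rw [dist_eq_norm]
  exact lt_of_le_of_lt (FF_sub_FN_le hl c N hz) hN

theorem continuousOn_FF {lam : ℝ} (hl : 0 ≤ lam) (c : E2) :
    ContinuousOn (FF lam hl c) {z : ℂ | 0 ≤ z.re} :=
  (tendstoUniformlyOn_FN hl c).continuousOn
    (Frequently.of_forall fun N => (differentiable_FN lam c N).continuous.continuousOn)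

theorem differentiableOn_FF {lam : ℝ} (hl : 0 ≤ lam) (c : E2) :
    DifferentiableOn ℂ (FF lam hl c) {z : ℂ | 0 < z.re} := by
  have h1 : TendstoLocallyUniformlyOn (FN lam c) (FF lam hl c) atTop {z : ℂ | 0 < z.re} :=
    ((tendstoUniformlyOn_FN hl c).mono (s' := {z : ℂ | 0 < z.re})
      (fun z (hz : 0 < z.re) => le_of_lt hz)).tendstoLocallyUniformlyOn
  exact h1.differentiableOn
    (Eventually.of_forall fun N => (differentiable_FN lam c N).differentiableOn)
    (isOpen_lt continuous_const Complex.continuous_re)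

/-- the Gaussian factor. -/
noncomputable def gz (θ : ℝ) (z : ℂ) : ℂ := Complex.exp (z ^ 2 - (θ : ℂ) ^ 2)

theorem differentiable_gz (θ : ℝ) : Differentiable ℂ (gz θ) := by unfold gz; fun_prop

theorem norm_gz (θ : ℝ) (z : ℂ) : ‖gz θ z‖ = Real.exp (z.re ^ 2 - z.im ^ 2 - θ ^ 2) := by
  unfold gz
  rw [Complex.norm_exp]
  congr 1
  rw [pow_two, pow_two, Complex.sub_re, Complex.mul_re, ← Complex.ofReal_mul, Complex.ofReal_re]
  ring

theorem mem_interp {θ : ℝ} (hθ : 0 < θ) {lam : ℝ} (hl : 0 ≤ lam) (c : E2) :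
    FF lam hl c θ ∈ interpSpace (jmap 2 lam hl) θ := by
  refine ⟨fun z => gz θ z • FF lam hl c z,
    fun t => gz θ (1 + t * I) • FF lam hl c (t * I), ?_, ?_⟩
  swap
  · simp [gz]
  have hgauss : ∀ x : ℝ, Tendsto (fun t : ℝ => Real.exp (x - t ^ 2)) (cocompact ℝ) (𝓝 0) := by
    intro x
    apply Real.tendsto_exp_atBot.comp
    have h1 : Tendsto (fun t : ℝ => t ^ 2) (cocompact ℝ) atTop := by
      have := (tendsto_pow_atTop (two_ne_zero)).comp (tendsto_norm_cocompact_atTop (E := ℝ))
      refine this.congr fun t => ?_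
      simp
    exact (tendsto_atBot_add_const_left _ x (tendsto_neg_atTop_atBot.comp h1)).congr
      fun t => by simp [sub_eq_add_neg]
  have hcontI : Continuous (fun t : ℝ => FF lam hl c (t * I)) := by
    apply (continuousOn_FF hl c).comp_continuous (by fun_prop)
    intro t
    simp
  constructor
  · apply ContinuousOn.smul (differentiable_gz θ).continuous.continuousOn
    exact (continuousOn_FF hl c).mono fun z hz => hz.1
  · refine ⟨Real.exp 1 * ‖c‖, fun z h0 h1 => ?_⟩
    rw [norm_smul]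
    apply mul_le_mul _ (FF_norm_le hl c h0) (norm_nonneg _) (Real.exp_pos _).le
    rw [norm_gz, Real.exp_le_exp]
    nlinarith [sq_nonneg z.im, sq_nonneg θ]
  · apply DifferentiableOn.smul (differentiable_gz θ).differentiableOn
    exact (differentiableOn_FF hl c).mono fun z hz => hz.1
  · rw [tendsto_zero_iff_norm_tendsto_zero]
    have h1 := (hgauss (-θ ^ 2)).mul_const ‖c‖
    rw [zero_mul] at h1
    refine squeeze_zero (fun _ => norm_nonneg _) (fun t => ?_) h1
    rw [norm_smul]
    apply mul_le_mul _ (FF_norm_le hl c (by simp)) (norm_nonneg _) (Real.exp_pos _).le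
    rw [norm_gz]
    apply le_of_eq
    congr 1
    simp
    ring
  · intro t
    rw [map_smul]
    congr 1
    apply lp.ext; funext n
    rw [jmap_apply, FF_apply hl c (by simp), FF_apply hl c (by simp), ← mul_assoc]
    congr 1
    unfold ez wt
    rw [Complex.ofReal_exp, ← Complex.exp_add]
    congr 1
    push_cast
    ring
  · have hc1 : Continuous fun t : ℝ => gz θ (1 + t * I) :=
      (differentiable_gz θ).continuous.comp (by fun_prop)
    exact hc1.smul hcontI
  · rw [tendsto_zero_iff_norm_tendsto_zero]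
    have h1 := (hgauss (1 - θ ^ 2)).mul_const ‖c‖
    rw [zero_mul] at h1
    refine squeeze_zero (fun _ => norm_nonneg _) (fun t => ?_) h1
    rw [norm_smul]
    apply mul_le_mul _ (FF_norm_le hl c (by simp)) (norm_nonneg _) (Real.exp_pos _).le
    rw [norm_gz]
    apply le_of_eq
    congr 1
    simp
    ring

end Pool.Agent.R273.Ci
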