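import Pool.Agent.R273.Ci5

/-! `U a ∉ [B₀, B₁]_θ`. -/

namespace Pool.Agent.R273.Ci

open scoped ENNReal Topology
open Filter Complex

theorem bounded_of_tendsto {X : Type} [NormedAddCommGroup X] {g : ℝ → X} (hg : Continuous g)
    (h0 : Tendsto g (cocompact ℝ) (𝓝 0)) : ∃ C : ℝ, ∀ t, ‖g t‖ ≤ C := by
  have h1 : ∀ᶠ t in cocompact ℝ, ‖g t‖ < 1 := by
    have := (tendsto_zero_iff_norm_tendsto_zero.1 h0).eventually (Iio_mem_nhds one_pos)
    exact this
  obtain ⟨K, hK, hsub⟩ := mem_cocompact.1 h1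
  obtain ⟨C, hC⟩ := hK.exists_bound_of_continuousOn hg.continuousOn
  refine ⟨max C 1, fun t => ?_⟩
  by_cases ht : t ∈ K
  · exact (hC t ht).trans (le_max_left _ _)
  · have h2 : ‖g t‖ < 1 := hsub ht
    exact h2.le.trans (le_max_right _ _)

/-- `Σ_{n<N} exp(λ n z) f(z)_n`. -/
noncomputable def phi (lam : ℝ) (f : ℂ → E1) (N : ℕ) (z : ℂ) : ℂ :=
  ∑ n ∈ Finset.range N, ez (-lam) n z * f z n

theorem phi_norm_le {lam : ℝ} (f : ℂ → E1) (N : ℕ) (z : ℂ) :
    ‖phi lam f N z‖ ≤ ∑ n ∈ Finset.range N, Real.exp (lam * n * z.re) * ‖f z n‖ := by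
  unfold phi
  refine (norm_sum_le _ _).trans (le_of_eq ?_)
  apply Finset.sum_congr rfl
  intro n _
  rw [norm_mul, norm_ez]
  congr 2
  ring

theorem phi_bound {lam : ℝ} (hl : 0 ≤ lam) {f : ℂ → E1} {g : ℝ → E1}
    (h : CalderonPair (jmap 1 lam hl) f g) : ∃ M : ℝ, ∀ N : ℕ, ∀ θ : ℝ, 0 ≤ θ → θ ≤ 1 →
      ‖phi lam f N θ‖ ≤ M := by
  obtain ⟨C, hC⟩ := h.bounded
  obtain ⟨D, hD⟩ := bounded_of_tendsto h.trace_continuous h.right
  have hC0 : 0 ≤ C := (norm_nonneg _).trans (hC 0 (by simp) (by simp))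
  refine ⟨max C D, fun N θ h0 h1 => ?_⟩
  have hM : 0 ≤ max C D := hC0.trans (le_max_left _ _)
  have hcoord : ∀ (z : ℂ), 0 ≤ z.re → z.re ≤ 1 → ∀ n, ‖f z n‖ ≤ C := fun z hz0 hz1 n =>
    (lp.norm_apply_le_norm (by norm_num) (f z) n).trans (hC z hz0 hz1)
  have hd : DiffContOnCl ℂ (phi lam f N) (Complex.HadamardThreeLines.verticalStrip 0 1) := by
    refine ⟨?_, ?_⟩
    · have : DifferentiableOn ℂ (phi lam f N) {z : ℂ | 0 < z.re ∧ z.re < 1} := by
        unfold phi
        apply DifferentiableOn.fun_sum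
        intro n _
        apply DifferentiableOn.mul (differentiable_ez _ n).differentiableOn
        exact (lp.evalCLM ℂ (fun _ : ℕ => ℂ) 1 n).differentiable.comp_differentiableOn
          h.holomorphic
      exact this
    · have hcl : closure (Complex.HadamardThreeLines.verticalStrip 0 1) ⊆
          {z : ℂ | 0 ≤ z.re ∧ z.re ≤ 1} := by
        apply closure_minimal
        · intro z hz
          have hz' : 0 < z.re ∧ z.re < 1 := hz
          exact ⟨hz'.1.le, hz'.2.le⟩
        · exact (isClosed_le continuous_const Complex.continuous_re).inter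
            (isClosed_le Complex.continuous_re continuous_const)
      have : ContinuousOn (phi lam f N) {z : ℂ | 0 ≤ z.re ∧ z.re ≤ 1} := by
        unfold phi
        apply continuousOn_finsetSum
        intro n _
        apply ContinuousOn.mul (differentiable_ez _ n).continuous.continuousOn
        exact (lp.evalCLM ℂ (fun _ : ℕ => ℂ) 1 n).continuous.comp_continuousOn h.continuousOn
      exact this.mono hcl
  have hB : BddAbove ((norm ∘ phi lam f N) '' Complex.HadamardThreeLines.verticalClosedStrip 0 1) := by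
    refine ⟨∑ n ∈ Finset.range N, Real.exp (lam * n) * C, ?_⟩
    rintro _ ⟨z, hz, rfl⟩
    have hz' : 0 ≤ z.re ∧ z.re ≤ 1 := hz
    refine (phi_norm_le f N z).trans ?_
    apply Finset.sum_le_sum
    intro n _
    apply mul_le_mul _ (hcoord z hz'.1 hz'.2 n) (norm_nonneg _) (Real.exp_pos _).le
    rw [Real.exp_le_exp]
    have : 0 ≤ lam * n := by positivity
    nlinarith [hz'.2]
  have ha : ∀ z ∈ Complex.re ⁻¹' {0}, ‖phi lam f N z‖ ≤ max C D := by
    intro z hz
    have hz' : z.re = 0 := hz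
    calc ‖phi lam f N z‖ ≤ ∑ n ∈ Finset.range N, Real.exp (lam * n * z.re) * ‖f z n‖ :=
          phi_norm_le f N z
      _ = ∑ n ∈ Finset.range N, ‖f z n‖ := by rw [hz']; simp
      _ ≤ ‖f z‖ := E1_sum_le _ _
      _ ≤ C := hC z hz'.ge (by rw [hz']; norm_num)
      _ ≤ max C D := le_max_left _ _
  have hb : ∀ z ∈ Complex.re ⁻¹' {1}, ‖phi lam f N z‖ ≤ max C D := by
    intro z hz
    have hz' : z.re = 1 := hz
    have hzt : z = 1 + (z.im : ℂ) * I := by
      apply Complex.ext <;> simp [hz']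
    have htr : ∀ n, ‖f z n‖ = wt lam n * ‖g z.im n‖ := by
      intro n
      rw [hzt, h.trace, jmap_apply, norm_mul, Complex.norm_real,
        Real.norm_of_nonneg (wt_pos lam n).le]
      simp
    calc ‖phi lam f N z‖ ≤ ∑ n ∈ Finset.range N, Real.exp (lam * n * z.re) * ‖f z n‖ :=
          phi_norm_le f N z
      _ = ∑ n ∈ Finset.range N, ‖g z.im n‖ := by
          apply Finset.sum_congr rfl
          intro n _
          rw [htr, hz', mul_one, ← mul_assoc]
          unfold wt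
          rw [← Real.exp_add]; simp
      _ ≤ ‖g z.im‖ := E1_sum_le _ _
      _ ≤ D := hD _
      _ ≤ max C D := le_max_right _ _
  have h3 := Complex.HadamardThreeLines.norm_le_interp_of_mem_verticalClosedStrip₀₁'
    (phi lam f N) (z := (θ : ℂ)) (a := max C D) (b := max C D) ⟨by simpa using h0, by simpa using h1⟩
    hd hB ha hb
  refine h3.trans (le_of_eq ?_)
  rw [Complex.ofReal_re]
  rcases eq_or_lt_of_le hM with hz | hz
  · rcases eq_or_lt_of_le h0 with h00 | h00
    · rw [← h00]; simp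
    · rw [← hz, Real.zero_rpow h00.ne', mul_zero]
  · rw [← Real.rpow_add hz]; simp

/-- The sequence `a_n = exp(-θ λ n)/(n+1)`. -/
noncomputable def aa (θ lam : ℝ) (n : ℕ) : ℝ := Real.exp (-(lam * n) * θ) / (n + 1)

theorem aa_pos (θ lam : ℝ) (n : ℕ) : 0 < aa θ lam n := by unfold aa; positivity

theorem not_mem_interp {θ : ℝ} (h0 : 0 < θ) (h1 : θ < 1) {lam : ℝ} (hl : 0 ≤ lam) {y : E1}
    (hy : ∀ n, y n = (aa θ lam n : ℂ)) : y ∉ interpSpace (jmap 1 lam hl) θ := by
  rintro ⟨f, g, h, hfθ⟩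
  obtain ⟨M, hM⟩ := phi_bound hl h
  have h2 : ∀ N : ℕ, ∑ n ∈ Finset.range N, (1 : ℝ) / (n + 1) ≤ M := by
    intro N
    have h3 := hM N θ h0.le h1.le
    have h4 : phi lam f N θ = ((∑ n ∈ Finset.range N, (1 : ℝ) / (n + 1) : ℝ) : ℂ) := by
      unfold phi
      rw [hfθ, Complex.ofReal_sum]
      apply Finset.sum_congr rfl
      intro n _
      rw [hy]
      unfold ez aa
      rw [← Complex.ofReal_neg, ← Complex.ofReal_mul, ← Complex.ofReal_exp, ← Complex.ofReal_mul]
      congr 1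
      rw [← mul_div_assoc, ← Real.exp_add]
      congr 1
      rw [show -(-lam * (n:ℝ)) * θ + -(lam * n) * θ = 0 by ring, Real.exp_zero]
    rw [h4, Complex.norm_real] at h3
    exact (le_abs_self _).trans h3
  have h3 := Real.tendsto_sum_range_one_div_nat_succ_atTop
  obtain ⟨N, hN⟩ := (h3.eventually (eventually_gt_atTop M)).exists
  exact absurd (h2 N) (not_le.2 hN)

theorem summable_aa {θ lam : ℝ} (hθ : 0 < θ) (hl : 0 < lam) : Summable (aa θ lam) := by
  have h1 : Summable (fun n : ℕ => (Real.exp (-(lam * θ))) ^ n) :=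
    summable_geometric_of_lt_one (Real.exp_pos _).le (by
      rw [Real.exp_lt_one_iff]; nlinarith [mul_pos hl hθ])
  refine Summable.of_nonneg_of_le (fun n => (aa_pos θ lam n).le) (fun n => ?_) h1
  unfold aa
  rw [← Real.exp_nat_mul]
  calc Real.exp (-(lam * n) * θ) / (n + 1) ≤ Real.exp (-(lam * n) * θ) / 1 := by
        gcongr
        have : (0:ℝ) ≤ n := by positivity
        linarith
    _ = Real.exp (n * -(lam * θ)) := by rw [div_one]; congr 1; ring

theorem aa_dec {θ lam : ℝ} (n : ℕ) :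
    aa θ lam (n + 1) ≤ Real.exp (-(lam * θ)) * aa θ lam n := by
  unfold aa
  rw [← mul_div_assoc, ← Real.exp_add]
  have e : -(lam * ((n + 1 : ℕ) : ℝ)) * θ = -(lam * θ) + -(lam * n) * θ := by push_cast; ring
  rw [e]
  push_cast
  gcongr
  linarith

theorem aa_grow {θ lam : ℝ} (hlam : (1 - θ) * lam = Real.log 4) (n : ℕ) :
    Real.exp (lam * n) * aa θ lam n ≤
      (1 / 2) * (Real.exp (lam * (n + 1 : ℕ)) * aa θ lam (n + 1)) := by
  unfold aa
  rw [← mul_div_assoc, ← Real.exp_add, ← mul_div_assoc, ← Real.exp_add]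
  have e1 : lam * n + -(lam * n) * θ = n * Real.log 4 := by rw [← hlam]; ring
  have e2 : lam * ((n + 1 : ℕ) : ℝ) + -(lam * ((n + 1 : ℕ) : ℝ)) * θ =
      n * Real.log 4 + Real.log 4 := by rw [← hlam]; push_cast; ring
  rw [e1, e2, Real.exp_add, Real.exp_log (by norm_num : (0:ℝ) < 4)]
  have hE : 0 < Real.exp (n * Real.log 4) := Real.exp_pos _
  push_cast
  rw [← mul_div_assoc, div_le_div_iff₀ (by positivity) (by positivity)]
  have hn : (0:ℝ) ≤ n := by positivity
  nlinarith [mul_nonneg hE.le hn]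

end Pool.Agent.R273.Ci
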