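import Mathlib

/-!
MP_8bcfe8_an: the optimal constant of a convolution, abstractly.
-/

namespace R273.Dv

open MeasureTheory Set Real Filter Topology

variable {H : Type*} [NormedAddCommGroup H] [InnerProductSpace ℝ H] [CompleteSpace H]

/-- A strongly continuous, symmetric, exponentially decaying family of operators. -/
structure Fam (P : ℝ → H →L[ℝ] H) (δ M : ℝ) : Prop where
  δpos : 0 < δ
  Mnonneg : 0 ≤ M
  bound : ∀ t, 0 ≤ t → ∀ v, ‖P t v‖ ≤ M * exp (-δ * t) * ‖v‖
  bound' : ∀ t v, ‖P t v‖ ≤ M * ‖v‖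
  symm : ∀ t v w, inner ℝ (P t v) w = inner ℝ v (P t w)
  cont : ∀ v, Continuous fun t => P t v

variable {P : ℝ → H →L[ℝ] H} {δ M : ℝ}

omit [CompleteSpace H] in
lemma Fam.cont2 (hP : Fam P δ M) : Continuous fun q : ℝ × H => P q.1 q.2 := by
  rw [continuous_iff_continuousAt]
  rintro ⟨t, v⟩
  have h1 : Tendsto (fun q : ℝ × H => P q.1 v) (𝓝 (t, v)) (𝓝 (P t v)) :=
    ((hP.cont v).comp continuous_fst).tendsto' _ _ rfl
  have h2 : Tendsto (fun q : ℝ × H => P q.1 (q.2 - v)) (𝓝 (t, v)) (𝓝 0) := by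
    refine squeeze_zero_norm (a := fun q : ℝ × H => M * ‖q.2 - v‖) (fun q => hP.bound' _ _) ?_
    have h3 : Continuous fun q : ℝ × H => M * ‖q.2 - v‖ := by fun_prop
    exact h3.tendsto' _ _ (by simp)
  have h4 := h1.add h2
  simp only [add_zero] at h4
  refine h4.congr fun q => ?_
  rw [map_sub]; abel

omit [CompleteSpace H] in
lemma Fam.integrable_norm (hP : Fam P δ M) (v : H) :
    IntegrableOn (fun s => ‖P s v‖) (Ioi 0) := by
  have h1 : IntegrableOn (fun s => M * ‖v‖ * exp (-δ * s)) (Ioi 0) :=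
    (integrableOn_exp_mul_Ioi (by have := hP.δpos; linarith) 0).const_mul _
  refine Integrable.mono' h1 (hP.cont v).norm.aestronglyMeasurable ?_
  refine (ae_restrict_iff' measurableSet_Ioi).2 (Eventually.of_forall fun s hs => ?_)
  rw [norm_norm]
  have := hP.bound s (le_of_lt hs) v
  linarith

omit [CompleteSpace H] in
lemma Fam.integrable_conv (hP : Fam P δ M) {f : ℝ → H} {t₀ T : ℝ} (t : ℝ)
    (hf : IntegrableOn f (Ioc t₀ T)) :
    IntegrableOn (fun s => P (t - s) (f s)) (Ioc t₀ T) := by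
  have hm : AEStronglyMeasurable (fun s => P (t - s) (f s)) (volume.restrict (Ioc t₀ T)) := by
    have h1 : AEStronglyMeasurable (fun s => (t - s, f s)) (volume.restrict (Ioc t₀ T)) :=
      (by fun_prop : Measurable fun s : ℝ => t - s).aestronglyMeasurable.prodMk
        hf.aestronglyMeasurable
    exact hP.cont2.comp_aestronglyMeasurable h1
  refine (Integrable.norm hf |>.const_mul M).mono' hm (Eventually.of_forall fun s => ?_)
  exact hP.bound' _ _

omit [CompleteSpace H] in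
/-- A vector is bounded by its pairings with the unit ball. -/
lemma norm_le_of_inner_le {y : H} {C : ℝ} (hC : 0 ≤ C)
    (h : ∀ w : H, ‖w‖ ≤ 1 → inner ℝ w y ≤ C) : ‖y‖ ≤ C := by
  by_cases hy : y = 0
  · simpa [hy] using hC
  · have hy' : ‖y‖ ≠ 0 := norm_ne_zero_iff.2 hy
    have h1 := h (‖y‖⁻¹ • y) (by rw [norm_smul, norm_inv, norm_norm, inv_mul_cancel₀ hy'])
    rw [inner_smul_left, real_inner_self_eq_norm_sq] at h1
    simp only [conj_trivial] at h1
    have h2 : ‖y‖⁻¹ * ‖y‖ ^ 2 = ‖y‖ := by field_simp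
    linarith

lemma Fam.conv_tail (hP : Fam P δ M) {k : ℝ} (hk0 : 0 ≤ k)
    (hk : ∀ w : H, ‖w‖ ≤ 1 → ∫ s in Ioi (0:ℝ), ‖P s w‖ ≤ k) {f : ℝ → H} {T t B : ℝ}
    (hTt : T ≤ t) (hB : 0 ≤ B) (hf : IntegrableOn f (Ioc T t))
    (hfB : ∀ᵐ s, T ≤ s → ‖f s‖ ≤ B) :
    ‖∫ s in T..t, P (t - s) (f s)‖ ≤ k * B := by
  refine norm_le_of_inner_le (by positivity) fun w hw => ?_
  have hint := hP.integrable_conv t hf
  rw [intervalIntegral.integral_of_le hTt, ← integral_inner hint w]
  have h1 : ∫ s in Ioc T t, inner ℝ w (P (t - s) (f s)) ≤ ∫ s in Ioc T t, ‖P (t - s) w‖ * B := by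
    have hc : Continuous fun s => ‖P (t - s) w‖ :=
      ((hP.cont w).comp (by fun_prop : Continuous fun s : ℝ => t - s)).norm
    refine integral_mono_ae (hint.const_inner w) ?_ ?_
    · exact ((hc.integrableOn_Icc (a := T) (b := t)).mono_set Ioc_subset_Icc_self).mul_const B
    · have h2 : ∀ᵐ s ∂(volume.restrict (Ioc T t)), ‖f s‖ ≤ B := by
        rw [ae_restrict_iff' measurableSet_Ioc]
        filter_upwards [hfB] with s hs hs' using hs hs'.1.le
      filter_upwards [h2] with s hs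
      change inner ℝ w (P (t - s) (f s)) ≤ ‖P (t - s) w‖ * B
      rw [← hP.symm]
      exact (real_inner_le_norm _ _).trans (by gcongr)
  have h2 : ∫ s in Ioc T t, ‖P (t - s) w‖ * B = (∫ r in (0:ℝ)..(t - T), ‖P r w‖) * B := by
    rw [integral_mul_const, ← intervalIntegral.integral_of_le hTt,
      intervalIntegral.integral_comp_sub_left (fun r => ‖P r w‖) t, sub_self]
  have h3 : (∫ r in (0:ℝ)..(t - T), ‖P r w‖) ≤ ∫ s in Ioi (0:ℝ), ‖P s w‖ := by
    rw [intervalIntegral.integral_of_le (by linarith)]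
    exact setIntegral_mono_set (hP.integrable_norm w)
      (Eventually.of_forall fun s => norm_nonneg _) (Ioc_subset_Ioi_self.eventuallyLE)
  calc _ ≤ _ := h1
    _ = _ := h2
    _ ≤ k * B := by gcongr; exact h3.trans (hk w hw)

lemma Fam.conv_bound (hP : Fam P δ M) {k : ℝ} (hk0 : 0 ≤ k)
    (hk : ∀ w : H, ‖w‖ ≤ 1 → ∫ s in Ioi (0:ℝ), ‖P s w‖ ≤ k) {f : ℝ → H} {t₀ T t B : ℝ}
    (ht₀ : t₀ ≤ T) (hTt : T ≤ t) (hB : 0 ≤ B) (hf : ∀ T, IntegrableOn f (Ioc t₀ T))
    (hfB : ∀ᵐ s, T ≤ s → ‖f s‖ ≤ B) :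
    ‖∫ s in t₀..t, P (t - s) (f s)‖ ≤
      M * exp (-δ * (t - T)) * (∫ s in Ioc t₀ T, ‖f s‖) + k * B := by
  have hi1 : IntervalIntegrable (fun s => P (t - s) (f s)) volume t₀ T := by
    rw [intervalIntegrable_iff_integrableOn_Ioc_of_le ht₀]
    exact hP.integrable_conv t (hf T)
  have hft : IntegrableOn f (Ioc T t) := (hf t).mono_set (Ioc_subset_Ioc_left ht₀)
  have hi2 : IntervalIntegrable (fun s => P (t - s) (f s)) volume T t := by
    rw [intervalIntegrable_iff_integrableOn_Ioc_of_le hTt]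
    exact hP.integrable_conv t hft
  rw [← intervalIntegral.integral_add_adjacent_intervals hi1 hi2]
  refine (norm_add_le _ _).trans (add_le_add ?_ (hP.conv_tail hk0 hk hTt hB hft hfB))
  rw [intervalIntegral.integral_of_le ht₀, ← integral_const_mul]
  refine norm_integral_le_of_norm_le ((hf T).norm.const_mul _) ?_
  refine (ae_restrict_iff' measurableSet_Ioc).2 (Eventually.of_forall fun s hs => ?_)
  refine (hP.bound (t - s) (by linarith [hs.2]) (f s)).trans ?_
  have h1 := hP.δpos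
  have h2 := hP.Mnonneg
  have h3 : exp (-δ * (t - s)) ≤ exp (-δ * (t - T)) := by
    apply exp_le_exp.2
    have := hs.2
    nlinarith
  gcongr

/-- The upper bound for the limit superior. -/
theorem Fam.upper (hP : Fam P δ M) {k : ℝ} (hk0 : 0 ≤ k)
    (hk : ∀ w : H, ‖w‖ ≤ 1 → ∫ s in Ioi (0:ℝ), ‖P s w‖ ≤ k) {z f : ℝ → H} {t₀ : ℝ}
    (hz : Tendsto z atTop (𝓝 0)) (hf : ∀ T, IntegrableOn f (Ioc t₀ T))
    (hlim : limsup (fun t => ‖f t‖ₑ) (atTop ⊓ ae volume) < ⊤) :
    limsup (fun t => ‖z t + ∫ s in t₀..t, P (t - s) (f s)‖ₑ) atTop ≤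
      ENNReal.ofReal k * limsup (fun t => ‖f t‖ₑ) (atTop ⊓ ae volume) := by
  set F := limsup (fun t => ‖f t‖ₑ) (atTop ⊓ ae volume) with hF
  have hFr : ENNReal.ofReal F.toReal = F := ENNReal.ofReal_toReal hlim.ne
  -- the bound for every larger constant
  have main : ∀ ε, 0 < ε → limsup (fun t => ‖z t + ∫ s in t₀..t, P (t - s) (f s)‖ₑ) atTop ≤
      ENNReal.ofReal (k * (F.toReal + ε) + ε) := by
    intro ε hε
    set B := F.toReal + ε with hB
    have hB0 : 0 ≤ B := by have := ENNReal.toReal_nonneg (a := F); linarith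
    have h1 : F < ENNReal.ofReal B := by
      rw [← hFr, ENNReal.ofReal_lt_ofReal_iff (by
        have := ENNReal.toReal_nonneg (a := F); linarith)]
      linarith
    have h2 : ∀ᶠ t in atTop ⊓ ae volume, ‖f t‖ₑ < ENNReal.ofReal B :=
      eventually_lt_of_limsup_lt h1
    rw [eventually_inf] at h2
    obtain ⟨s1, hs1, s2, hs2, h3⟩ := h2
    obtain ⟨T₁, hT₁⟩ := mem_atTop_sets.1 hs1
    set T := max T₁ t₀ with hT
    have hfB : ∀ᵐ s, T ≤ s → ‖f s‖ ≤ B := by
      filter_upwards [hs2] with s hs hTs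
      have h4 := h3 s ⟨hT₁ s ((le_max_left _ _).trans hTs), hs⟩
      rw [← ofReal_norm, ENNReal.ofReal_lt_ofReal_iff_of_nonneg (norm_nonneg _)] at h4
      exact h4.le
    set I := ∫ s in Ioc t₀ T, ‖f s‖ with hI
    have h5 : Tendsto (fun t => ‖z t‖ + M * exp (-δ * (t - T)) * I) atTop (𝓝 0) := by
      have h6 : Tendsto (fun t : ℝ => -δ * (t - T)) atTop atBot :=
        (tendsto_id.atTop_add tendsto_const_nhds).const_mul_atTop_of_neg
          (by have := hP.δpos; linarith)
      have h7 := ((tendsto_exp_atBot.comp h6).const_mul M).mul_const I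
      have h8 := (tendsto_norm_zero.comp hz).add h7
      simpa using h8
    refine limsup_le_of_le (by isBoundedDefault) ?_
    filter_upwards [h5.eventually (gt_mem_nhds hε), eventually_ge_atTop T] with t ht hTt
    rw [← ofReal_norm]
    refine ENNReal.ofReal_le_ofReal ?_
    have h9 := hP.conv_bound hk0 hk (le_max_right T₁ t₀) hTt hB0 hf hfB
    calc ‖z t + ∫ s in t₀..t, P (t - s) (f s)‖
        ≤ ‖z t‖ + ‖∫ s in t₀..t, P (t - s) (f s)‖ := norm_add_le _ _
      _ ≤ ‖z t‖ + (M * exp (-δ * (t - T)) * I + k * B) := by gcongr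
      _ ≤ k * B + ε := by linarith
  have h10 : ENNReal.ofReal k * F = ENNReal.ofReal (k * F.toReal) := by
    rw [ENNReal.ofReal_mul hk0, hFr]
  rw [h10]
  have h11 : Tendsto (fun ε : ℝ => ENNReal.ofReal (k * (F.toReal + ε) + ε)) (𝓝[>] 0)
      (𝓝 (ENNReal.ofReal (k * F.toReal))) := by
    have h12 : Continuous fun ε : ℝ => ENNReal.ofReal (k * (F.toReal + ε) + ε) :=
      ENNReal.continuous_ofReal.comp (by fun_prop)
    exact (h12.tendsto' 0 _ (by simp)).mono_left nhdsWithin_le_nhds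
  refine ge_of_tendsto h11 ?_
  filter_upwards [self_mem_nhdsWithin] with ε hε
  exact main ε hε

/-- The lower bound for the limit superior. -/
theorem Fam.lower (hP : Fam P δ M) {k : ℝ} (hk0 : 0 ≤ k)
    (hadm : ∀ f : ℝ → H, StronglyMeasurable f → (∀ t, ‖f t‖ ≤ 1) →
      limsup (fun t => ‖∫ s in (0:ℝ)..t, P (t - s) (f s)‖ₑ) atTop ≤ ENNReal.ofReal k)
    {v : H} (hv : ‖v‖ ≤ 1) : ∫ s in Ioi (0:ℝ), ‖P s v‖ ≤ k := by
  -- the forcing
  set e : ℝ → H := fun s => ‖P s v‖⁻¹ • P s v with he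
  have hem : StronglyMeasurable e :=
    ((hP.cont v).norm.measurable.inv.stronglyMeasurable).smul (hP.cont v).stronglyMeasurable
  have he1 : ∀ s, ‖e s‖ ≤ 1 := by
    intro s
    simp only [he]
    rw [norm_smul, norm_inv, norm_norm]
    exact inv_mul_le_one
  set f : ℝ → H := fun t => e ((⌈√t⌉₊ : ℝ) ^ 2 - t) with hf
  have hfm : StronglyMeasurable f := by
    refine hem.comp_measurable ?_
    have h1 : Measurable fun t : ℝ => (⌈√t⌉₊ : ℝ) :=
      (measurable_from_top (f := fun n : ℕ => (n : ℝ))).comp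
        (Nat.measurable_ceil.comp measurable_id.sqrt)
    exact (h1.pow_const 2).sub measurable_id
  have hf1 : ∀ t, ‖f t‖ ≤ 1 := fun t => he1 _
  have hlim := hadm f hfm hf1
  set L := ∫ s in Ioi (0:ℝ), ‖P s v‖ with hL
  set g : ℝ → ℝ := fun r => ‖P r v‖ with hg
  have hgc : Continuous g := (hP.cont v).norm
  have hgi : ∀ x y : ℝ, IntervalIntegrable g volume x y := fun x y => hgc.intervalIntegrable x y
  -- lower bound at the times `(n + 1) ^ 2`
  have hlow : ∀ n : ℕ, 2 * (∫ r in (0:ℝ)..(2 * n + 1), g r) - L ≤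
      ‖∫ s in (0:ℝ)..((n + 1) ^ 2), P ((n + 1) ^ 2 - s) (f s)‖ := by
    intro n
    set t : ℝ := ((n:ℝ) + 1) ^ 2 with ht
    have hn0 : (0:ℝ) ≤ (n:ℝ) ^ 2 := by positivity
    have hnt : (n:ℝ) ^ 2 ≤ t := by rw [ht]; nlinarith [Nat.cast_nonneg (α := ℝ) n]
    have hfi : ∀ x y : ℝ, IntegrableOn f (Ioc x y) := fun x y =>
      (integrable_const (1:ℝ)).mono' hfm.aestronglyMeasurable (Eventually.of_forall fun s => by
        simpa using hf1 s)
    have hci : ∀ x y : ℝ, x ≤ y → IntervalIntegrable (fun s => P (t - s) (f s)) volume x y := by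
      intro x y hxy
      rw [intervalIntegrable_iff_integrableOn_Ioc_of_le hxy]
      exact hP.integrable_conv t (hfi x y)
    have hin : ∀ x y : ℝ, x ≤ y → inner ℝ v (∫ s in x..y, P (t - s) (f s)) =
        ∫ s in x..y, inner ℝ (P (t - s) v) (f s) := by
      intro x y hxy
      rw [intervalIntegral.integral_of_le hxy, intervalIntegral.integral_of_le hxy,
        ← integral_inner (hP.integrable_conv t (hfi x y)) v]
      refine integral_congr_ae (Eventually.of_forall fun s => ?_)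
      exact (hP.symm _ _ _).symm
    have h1 : inner ℝ v (∫ s in (0:ℝ)..t, P (t - s) (f s)) ≤
        ‖∫ s in (0:ℝ)..t, P (t - s) (f s)‖ := by
      refine (real_inner_le_norm _ _).trans ?_
      calc ‖v‖ * _ ≤ 1 * ‖∫ s in (0:ℝ)..t, P (t - s) (f s)‖ := by gcongr
        _ = _ := one_mul _
    have h2 : inner ℝ v (∫ s in (0:ℝ)..t, P (t - s) (f s)) =
        inner ℝ v (∫ s in (0:ℝ)..((n:ℝ) ^ 2), P (t - s) (f s)) +
        inner ℝ v (∫ s in ((n:ℝ) ^ 2)..t, P (t - s) (f s)) := by
      rw [← inner_add_right, intervalIntegral.integral_add_adjacent_intervals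
        (hci _ _ hn0) (hci _ _ hnt)]
    have h3 : inner ℝ v (∫ s in ((n:ℝ) ^ 2)..t, P (t - s) (f s)) =
        ∫ r in (0:ℝ)..(2 * n + 1), g r := by
      rw [hin _ _ hnt]
      have h4 : (2 * (n:ℝ) + 1) = t - (n:ℝ) ^ 2 := by rw [ht]; ring
      rw [h4, ← sub_self t, ← intervalIntegral.integral_comp_sub_left g t]
      refine intervalIntegral.integral_congr_ae (Eventually.of_forall fun s hs => ?_)
      rw [uIoc_of_le hnt] at hs
      have hs0 : 0 ≤ s := hn0.trans hs.1.le
      have h5 : ⌈√s⌉₊ = n + 1 := by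
        rw [Nat.ceil_eq_iff (by omega)]
        constructor
        · have : (n:ℝ) < √s := by
            rw [lt_sqrt (Nat.cast_nonneg n)]
            exact hs.1
          simpa using this
        · rw [sqrt_le_iff]
          push_cast
          exact ⟨by positivity, by simpa [ht] using hs.2⟩
      have h6 : f s = e (t - s) := by
        simp only [hf, h5]
        congr 1
        push_cast
        rw [ht]
      rw [h6]
      simp only [he, hg]
      rw [inner_smul_right, real_inner_self_eq_norm_sq]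
      by_cases h7 : ‖P (t - s) v‖ = 0
      · simp [h7]
      · field_simp
    have h4 : -(L - ∫ r in (0:ℝ)..(2 * n + 1), g r) ≤
        inner ℝ v (∫ s in (0:ℝ)..((n:ℝ) ^ 2), P (t - s) (f s)) := by
      rw [hin _ _ hn0]
      have h5 : ∫ s in (0:ℝ)..((n:ℝ) ^ 2), -g (t - s) ≤
          ∫ s in (0:ℝ)..((n:ℝ) ^ 2), inner ℝ (P (t - s) v) (f s) := by
        rw [intervalIntegral.integral_of_le hn0, intervalIntegral.integral_of_le hn0]
        refine integral_mono_ae ?_ ?_ ?_
        · exact ((hgc.comp (by fun_prop : Continuous fun s : ℝ => t - s)).neg.integrableOn_Icc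
            (a := 0) (b := (n:ℝ) ^ 2)).mono_set Ioc_subset_Icc_self
        · refine ((hP.integrable_conv t (hfi 0 ((n:ℝ) ^ 2))).const_inner v).congr
            (Eventually.of_forall fun s => ?_)
          exact (hP.symm _ _ _).symm
        · refine Eventually.of_forall fun s => ?_
          change -‖P (t - s) v‖ ≤ inner ℝ (P (t - s) v) (f s)
          have h6 := abs_real_inner_le_norm (P (t - s) v) (f s)
          have h7 := (abs_le.1 h6).1
          have h8 : ‖P (t - s) v‖ * ‖f s‖ ≤ ‖P (t - s) v‖ * 1 := by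
            gcongr; exact hf1 s
          linarith
      have h6 : ∫ s in (0:ℝ)..((n:ℝ) ^ 2), -g (t - s) =
          -∫ r in (2 * (n:ℝ) + 1)..t, g r := by
        rw [intervalIntegral.integral_neg, intervalIntegral.integral_comp_sub_left g t, sub_zero]
        have h4 : t - (n:ℝ) ^ 2 = (2 * (n:ℝ) + 1) := by rw [ht]; ring
        rw [h4]
      have h7 : ∫ r in (2 * (n:ℝ) + 1)..t, g r = (∫ r in (0:ℝ)..t, g r) -
          ∫ r in (0:ℝ)..(2 * n + 1), g r := by
        rw [intervalIntegral.integral_interval_sub_left (hgi _ _) (hgi _ _)]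
      have h8 : ∫ r in (0:ℝ)..t, g r ≤ L := by
        rw [intervalIntegral.integral_of_le (hn0.trans hnt)]
        exact setIntegral_mono_set (hP.integrable_norm v)
          (Eventually.of_forall fun s => norm_nonneg _) (Ioc_subset_Ioi_self.eventuallyLE)
      rw [h6, h7] at h5
      linarith
    linarith
  -- conclusion
  refine le_of_forall_pos_le_add fun ε hε => ?_
  have h1 : limsup (fun t => ‖∫ s in (0:ℝ)..t, P (t - s) (f s)‖ₑ) atTop <
      ENNReal.ofReal (k + ε) := by
    refine hlim.trans_lt ?_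
    rw [ENNReal.ofReal_lt_ofReal_iff (by linarith)]
    linarith
  have h2 : ∀ᶠ t in atTop, ‖∫ s in (0:ℝ)..t, P (t - s) (f s)‖ ≤ k + ε := by
    filter_upwards [eventually_lt_of_limsup_lt h1] with t ht
    rw [← ofReal_norm, ENNReal.ofReal_lt_ofReal_iff_of_nonneg (norm_nonneg _)] at ht
    exact ht.le
  have h3 : Tendsto (fun n : ℕ => ((n:ℝ) + 1) ^ 2) atTop atTop :=
    (tendsto_pow_atTop (by norm_num)).comp
      (tendsto_atTop_add_const_right _ _ tendsto_natCast_atTop_atTop)
  have h4 : Tendsto (fun n : ℕ => 2 * (∫ r in (0:ℝ)..(2 * n + 1), g r) - L) atTop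
      (𝓝 (2 * L - L)) := by
    have h5 : Tendsto (fun n : ℕ => (2 * (n:ℝ) + 1)) atTop atTop :=
      tendsto_atTop_add_const_right _ _ (tendsto_natCast_atTop_atTop.const_mul_atTop (by norm_num))
    exact ((intervalIntegral_tendsto_integral_Ioi 0 (hP.integrable_norm v) h5).const_mul
      2).sub_const L
  have h5 : 2 * L - L ≤ k + ε := by
    refine le_of_tendsto h4 ?_
    filter_upwards [h3.eventually h2] with n hn
    exact (hlow n).trans hn
  linarith

end R273.Dv
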