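import Mathlib

/-!
MP_8bcfe8_an: definitions for the statement.

`H` is the real Hilbert space `L²(μ)` and `A` is the (unbounded) multiplication by a measurable
function `a` with `a ≥ b > 0`.  The equation `u'' + c u' + A u = f` is the first order system
`d/dt (u, u') = G (u, u') + (0, f)`, where `G` acts at the point `x` as the matrix
`gen c (a x) = !![0, 1; -a x, -c]`, and the semigroup generated by `G` acts at the point `x` as
the matrix exponential `prop c (a x) t = exp (t • gen c (a x))`.
-/

namespace R273.Dv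

open MeasureTheory Set Filter

/-- The matrix of the first order system of `u'' + c u' + l u = 0`. -/
def gen (c l : ℝ) : Matrix (Fin 2) (Fin 2) ℝ := !![0, 1; -l, -c]

/-- The propagator of the first order system. -/
noncomputable def prop (c l t : ℝ) : Matrix (Fin 2) (Fin 2) ℝ := NormedSpace.exp (t • gen c l)

variable {X : Type*} [MeasurableSpace X]

/-- The product of the function `g` with the element `v` of `L²(μ)`, when that product is
square integrable (and `0` otherwise). -/
noncomputable def mulOp (μ : Measure X) (g : X → ℝ) (v : Lp ℝ 2 μ) : Lp ℝ 2 μ :=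
  open Classical in if h : MemLp (fun x => g x * v x) 2 μ then h.toLp (fun x => g x * v x) else 0

/-- The velocity at time `t` of the mild solution of `u'' + c u' + A u = f` in `L²(μ)`, where `A`
is the multiplication by `a`, with data `u(t₀) = u₀`, `u'(t₀) = u₁`: the second component of the
variation of constants formula. -/
noncomputable def velocity (μ : Measure X) (a : X → ℝ) (c t₀ : ℝ) (u₀ u₁ : Lp ℝ 2 μ)
    (f : ℝ → Lp ℝ 2 μ) (t : ℝ) : Lp ℝ 2 μ :=
  mulOp μ (fun x => prop c (a x) (t - t₀) 1 0) u₀ +
    mulOp μ (fun x => prop c (a x) (t - t₀) 1 1) u₁ +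
    ∫ s in t₀..t, mulOp μ (fun x => prop c (a x) (t - s) 1 1) (f s)

/-- `K` is an admissible constant: for every starting time `t₀ ≥ 0`, all data `u₀` in the domain
of `A^{1/2}` and `u₁` in `L²(μ)`, and every locally integrable and eventually bounded forcing
`f`, the velocity `u'` of the mild solution satisfies `limsup ‖u'‖ ≤ K limsup ‖f‖`
(the last one is the essential limit superior). -/
def IsAdmissible (μ : Measure X) (a : X → ℝ) (c K : ℝ) : Prop :=
  0 ≤ K ∧ ∀ (t₀ : ℝ) (u₀ u₁ : Lp ℝ 2 μ) (f : ℝ → Lp ℝ 2 μ), 0 ≤ t₀ →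
    MemLp (fun x => √(a x) * u₀ x) 2 μ →
    (∀ T, IntegrableOn f (Ioc t₀ T)) →
    limsup (fun t => ‖f t‖ₑ) (atTop ⊓ ae volume) < ⊤ →
    limsup (fun t => ‖velocity μ a c t₀ u₀ u₁ f t‖ₑ) atTop ≤
      ENNReal.ofReal K * limsup (fun t => ‖f t‖ₑ) (atTop ⊓ ae volume)

/-- The optimal velocity constant `K(A, c)`. -/
noncomputable def velConst (μ : Measure X) (a : X → ℝ) (c : ℝ) : ℝ :=
  sInf {K | IsAdmissible μ a c K}

end R273.Dv
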