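import Pool.Agent.R273.DvScalar
import Pool.Agent.R273.DvDefs

/-!
MP_8bcfe8_an: the propagator of the first order system is a matrix exponential.
-/

namespace R273.Dv

open Real

/-- The propagator, explicitly. -/
noncomputable def prop' (c l t : ℝ) : Matrix (Fin 2) (Fin 2) ℝ :=
  !![ph c l t + c * hh c l t, hh c l t; -l * hh c l t, ph c l t]

section

open scoped Matrix.Norms.Operator

lemma prop'_eq_sum (c l t : ℝ) : prop' c l t =
    ph c l t • !![1, 0; 0, 1] + hh c l t • !![c, 1; -l, 0] := by
  unfold prop'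
  ext i j
  fin_cases i <;> fin_cases j <;> simp <;> ring

lemma hasDerivAt_prop' (c l t : ℝ) : HasDerivAt (prop' c l) (gen c l * prop' c l t) t := by
  have h1 := hasDerivAt_hh c l t
  have h2 := hasDerivAt_ph c l t
  have h3 : prop' c l = fun t => ph c l t • (!![1, 0; 0, 1] : Matrix (Fin 2) (Fin 2) ℝ) +
      hh c l t • (!![c, 1; -l, 0] : Matrix (Fin 2) (Fin 2) ℝ) := funext (prop'_eq_sum c l)
  rw [h3]
  refine ((h2.smul_const _).add (h1.smul_const _)).congr_deriv ?_
  unfold gen
  ext i j
  fin_cases i <;> fin_cases j <;> simp [Matrix.mul_apply, Fin.sum_univ_two] <;> ring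

theorem prop_eq (c l t : ℝ) : prop c l t = prop' c l t := by
  set A := gen c l with hA
  have h1 : ∀ t, HasDerivAt (fun t : ℝ => NormedSpace.exp (t • (-A)))
      (NormedSpace.exp (t • (-A)) * (-A)) t := fun t => hasDerivAt_exp_smul_const (-A) t
  have h2 : ∀ t, HasDerivAt (fun t : ℝ => NormedSpace.exp (t • (-A)) * prop' c l t) 0 t := by
    intro t
    have h3 := (h1 t).mul (hasDerivAt_prop' c l t)
    refine h3.congr_deriv ?_
    rw [← hA]
    noncomm_ring
  have h4 : ∀ t, NormedSpace.exp (t • (-A)) * prop' c l t = 1 := by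
    intro t
    have h5 := is_const_of_deriv_eq_zero
      (f := fun t : ℝ => NormedSpace.exp (t • (-A)) * prop' c l t)
      (fun t => (h2 t).differentiableAt) (fun t => (h2 t).deriv) t 0
    rw [h5]
    have h6 : prop' c l 0 = 1 := by
      unfold prop'
      simp only [ph_zero, hh_zero]
      ext i j
      fin_cases i <;> fin_cases j <;> simp
    simp only [zero_smul, NormedSpace.exp_zero, h6, mul_one]
  have h7 : NormedSpace.exp (t • A) * NormedSpace.exp (t • (-A)) = 1 := by
    have hcomm : Commute (t • A) (-(t • A)) := Commute.neg_right (Commute.refl _)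
    rw [smul_neg, ← Matrix.exp_add_of_commute _ _ hcomm]
    simp
  calc prop c l t = NormedSpace.exp (t • A) * (NormedSpace.exp (t • (-A)) * prop' c l t) := by
        rw [h4, mul_one]; rfl
    _ = (NormedSpace.exp (t • A) * NormedSpace.exp (t • (-A))) * prop' c l t := by
        rw [mul_assoc]
    _ = prop' c l t := by rw [h7, one_mul]

end

lemma prop_one_one (c l t : ℝ) : prop c l t 1 1 = ph c l t := by
  rw [prop_eq]; simp [prop']

lemma prop_one_zero (c l t : ℝ) : prop c l t 1 0 = -l * hh c l t := by
  rw [prop_eq]; simp [prop']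

end R273.Dv
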