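import Mathlib

/-!
MP_8bcfe8_an: the key inequality (the derivative of the length has a sign).
-/

namespace R273.Dv

open MeasureTheory Set Real

/-- The retarded kernel. -/
noncomputable def ker (c r s : ℝ) : ℝ :=
  if r < s then exp (-(c / 2) * (s - r)) * (1 - c * r / 2) else 0

/-- The weight at time `r`: it is nonpositive and its integral over `(0, ∞)` is `-r`. -/
noncomputable def wt (c r s : ℝ) : ℝ := ker c r s - exp (-(c / 2) * s)

lemma wt_nonpos {c r s : ℝ} : wt c r s ≤ 0 := by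
  unfold wt ker
  split_ifs with h
  · have h1 : exp (-(c / 2) * (s - r)) = exp (-(c / 2) * s) * exp (c * r / 2) := by
      rw [← exp_add]; congr 1; ring
    rw [h1]
    have h2 : exp (c * r / 2) * (1 - c * r / 2) ≤ 1 := by
      have h3 : 1 - c * r / 2 ≤ exp (-(c * r / 2)) := by
        have := add_one_le_exp (-(c * r / 2)); linarith
      calc exp (c * r / 2) * (1 - c * r / 2) ≤ exp (c * r / 2) * exp (-(c * r / 2)) :=
            mul_le_mul_of_nonneg_left h3 (exp_pos _).le
        _ = 1 := by rw [← exp_add]; simp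
    have h4 := exp_pos (-(c / 2) * s)
    nlinarith
  · have := exp_pos (-(c / 2) * s)
    linarith

lemma integrableOn_exp_neg {a : ℝ} (ha : 0 < a) (b : ℝ) :
    IntegrableOn (fun s => exp (-a * s)) (Ioi b) :=
  integrableOn_exp_mul_Ioi (by linarith) b

lemma ker_eq_indicator (c r : ℝ) :
    (fun s => ker c r s) =
      (Ioi r).indicator (fun s => exp (c / 2 * r) * (1 - c * r / 2) * exp (-(c / 2) * s)) := by
  ext s
  unfold ker
  by_cases h : r < s
  · rw [if_pos h, indicator_of_mem (mem_Ioi.2 h)]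
    have : exp (-(c / 2) * (s - r)) = exp (c / 2 * r) * exp (-(c / 2) * s) := by
      rw [← exp_add]; congr 1; ring
    rw [this]; ring
  · rw [if_neg h, indicator_of_notMem (by simpa using h)]

lemma integrableOn_ker {c : ℝ} (hc : 0 < c) (r : ℝ) :
    IntegrableOn (fun s => ker c r s) (Ioi 0) := by
  rw [ker_eq_indicator]
  have : IntegrableOn (fun s => exp (c / 2 * r) * (1 - c * r / 2) * exp (-(c / 2) * s)) (Ioi 0) :=
    (integrableOn_exp_neg (by linarith) 0).const_mul _
  exact this.indicator measurableSet_Ioi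

lemma integral_ker {c : ℝ} (hc : 0 < c) {r : ℝ} (hr : 0 ≤ r) :
    ∫ s in Ioi 0, ker c r s = (1 - c * r / 2) * (2 / c) := by
  rw [ker_eq_indicator, setIntegral_indicator measurableSet_Ioi, Ioi_inter_Ioi,
    max_eq_right hr, integral_const_mul, integral_exp_mul_Ioi (by linarith)]
  have h1 : exp (c / 2 * r) * exp (-(c / 2) * r) = 1 := by
    rw [← exp_add]; simp
  have h2 : c ≠ 0 := hc.ne'
  calc exp (c / 2 * r) * (1 - c * r / 2) * (-exp (-(c / 2) * r) / -(c / 2))
      = (exp (c / 2 * r) * exp (-(c / 2) * r)) * ((1 - c * r / 2) * (2 / c)) := by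
        field_simp
    _ = (1 - c * r / 2) * (2 / c) := by rw [h1, one_mul]

lemma integrableOn_wt {c : ℝ} (hc : 0 < c) (r : ℝ) :
    IntegrableOn (fun s => wt c r s) (Ioi 0) :=
  (integrableOn_ker hc r).sub (integrableOn_exp_neg (by linarith) 0)

lemma integral_wt {c : ℝ} (hc : 0 < c) {r : ℝ} (hr : 0 ≤ r) :
    ∫ s in Ioi 0, wt c r s = -r := by
  unfold wt
  rw [integral_sub (integrableOn_ker hc r) (integrableOn_exp_neg (by linarith) 0),
    integral_ker hc hr, integral_exp_mul_Ioi (by linarith)]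
  have h2 : c ≠ 0 := hc.ne'
  simp only [mul_zero, exp_zero]
  field_simp
  ring

lemma measurable_ker (c : ℝ) : Measurable (fun z : ℝ × ℝ => ker c z.2 z.1) := by
  unfold ker
  refine Measurable.ite ?_ ?_ measurable_const
  · exact measurableSet_lt measurable_snd measurable_fst
  · fun_prop

/-- Product bound for the retarded kernel against an exponentially decaying function. -/
lemma ker_bound {c δ : ℝ} (hc : 0 < c) {ε : ℝ} (hε1 : ε ≤ c / 2)
    (hε2 : 2 * ε ≤ δ) {r s : ℝ} (hr : 0 ≤ r) :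
    |ker c r s| * exp (-δ * r) ≤ (1 + c * r / 2) * exp (-ε * r) * exp (-ε * s) := by
  unfold ker
  split_ifs with h
  · rw [abs_mul, abs_of_pos (exp_pos _)]
    have h1 : |1 - c * r / 2| ≤ 1 + c * r / 2 := by
      have : 0 ≤ c * r / 2 := by positivity
      rw [abs_le]; constructor <;> linarith
    have h2 : exp (-(c / 2) * (s - r)) ≤ exp (-ε * (s - r)) := by
      apply exp_le_exp.2
      have : 0 ≤ s - r := by linarith
      nlinarith
    have h3 : exp (-δ * r) ≤ exp (-(2 * ε) * r) := by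
      apply exp_le_exp.2
      nlinarith
    have h4 : exp (-ε * (s - r)) * exp (-(2 * ε) * r) = exp (-ε * r) * exp (-ε * s) := by
      rw [← exp_add, ← exp_add]; congr 1; ring
    calc exp (-(c / 2) * (s - r)) * |1 - c * r / 2| * exp (-δ * r)
        ≤ exp (-ε * (s - r)) * (1 + c * r / 2) * exp (-(2 * ε) * r) := by
          gcongr
      _ = (1 + c * r / 2) * (exp (-ε * (s - r)) * exp (-(2 * ε) * r)) := by ring
      _ = (1 + c * r / 2) * exp (-ε * r) * exp (-ε * s) := by rw [h4]; ring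
  · rw [abs_zero, zero_mul]
    positivity

lemma integrableOn_poly_exp {ε : ℝ} (hε : 0 < ε) (a b : ℝ) :
    IntegrableOn (fun r => (a + b * r) * exp (-ε * r)) (Ioi 0) := by
  have h1 : IntegrableOn (fun r : ℝ => exp (-ε * r)) (Ioi 0) := integrableOn_exp_neg hε 0
  have h2 : IntegrableOn (fun r : ℝ => r * exp (-ε * r)) (Ioi 0) := by
    have h3 : IntegrableOn (fun r : ℝ => 2 / ε * exp (-(ε / 2) * r)) (Ioi 0) :=
      (integrableOn_exp_neg (by linarith) 0).const_mul _
    refine Integrable.mono' h3 (by fun_prop) ?_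
    refine (ae_restrict_iff' measurableSet_Ioi).2 (Filter.Eventually.of_forall fun r hr => ?_)
    have hr' : (0 : ℝ) < r := hr
    rw [norm_eq_abs, abs_of_nonneg (by positivity)]
    have h4 : ε / 2 * r ≤ exp (ε / 2 * r) := by
      have := add_one_le_exp (ε / 2 * r); linarith
    have h5 : exp (-ε * r) = exp (-(ε / 2) * r) * exp (-(ε / 2) * r) := by
      rw [← exp_add]; congr 1; ring
    have h6 : exp (ε / 2 * r) * exp (-(ε / 2) * r) = 1 := by
      rw [← exp_add]; simp
    have h7 : r ≤ 2 / ε * exp (ε / 2 * r) := by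
      rw [div_mul_eq_mul_div, le_div_iff₀ hε]; linarith
    calc r * exp (-ε * r) = r * (exp (-(ε / 2) * r) * exp (-(ε / 2) * r)) := by rw [h5]
      _ ≤ (2 / ε * exp (ε / 2 * r)) * (exp (-(ε / 2) * r) * exp (-(ε / 2) * r)) := by gcongr
      _ = 2 / ε * ((exp (ε / 2 * r) * exp (-(ε / 2) * r)) * exp (-(ε / 2) * r)) := by ring
      _ = 2 / ε * exp (-(ε / 2) * r) := by rw [h6, one_mul]
  have : (fun r : ℝ => (a + b * r) * exp (-ε * r)) =
      fun r => a * exp (-ε * r) + b * (r * exp (-ε * r)) := by ext r; ring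
  rw [this]
  exact (h1.const_mul a).add (h2.const_mul b)

/-- The key inequality. -/
theorem key {c δ M : ℝ} (hc : 0 < c) (hδ : 0 < δ) (hM : 0 ≤ M) {k : ℝ × ℝ → ℝ} {n : ℝ → ℝ}
    (hk : Measurable k) (hn : Measurable n)
    (hkb : ∀ s r, 0 < s → 0 < r → |k (s, r)| ≤ M * exp (-δ * r))
    (hkn : ∀ s r, 0 < s → 0 < r → k (s, r) ≤ n r)
    (hn0 : ∀ r, 0 < r → 0 ≤ n r)
    (hkk : ∀ s, 0 < s → k (s, s) = n s)
    (hz : ∀ s, 0 < s → ∫ r in Ioi (0 : ℝ), k (s, r) = 0) :
    0 ≤ ∫ s in Ioi (0 : ℝ), (s * k (s, s) +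
      ∫ r in Ioi (0 : ℝ), ker c r s * k (s, r)) := by
  set ε := min (c / 2) (δ / 2) with hε
  have hε0 : 0 < ε := lt_min (by linarith) (by linarith)
  have hε1 : ε ≤ c / 2 := min_le_left _ _
  have hε2 : 2 * ε ≤ δ := by have := min_le_right (c / 2) (δ / 2); linarith
  let ν : Measure ℝ := volume.restrict (Ioi 0)
  have hpos : ∀ᵐ z ∂(ν.prod ν), 0 < z.1 ∧ 0 < z.2 := by
    have h1 : ν.prod ν = (volume.prod volume).restrict (Ioi (0 : ℝ) ×ˢ Ioi (0 : ℝ)) :=
      Measure.prod_restrict _ _
    rw [h1]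
    refine (ae_restrict_iff' (measurableSet_Ioi.prod measurableSet_Ioi)).2
      (Filter.Eventually.of_forall fun z hz => ⟨hz.1, hz.2⟩)
  have hpos1 : ∀ᵐ s ∂ν, 0 < s := (ae_restrict_iff' measurableSet_Ioi).2
      (Filter.Eventually.of_forall fun s hs => hs)
  -- integrability of the two kernels
  have hI1 : Integrable (fun z : ℝ × ℝ => ker c z.2 z.1 * k z) (ν.prod ν) := by
    have hdom : Integrable (fun z : ℝ × ℝ => exp (-ε * z.1) *
        (M * ((1 + c / 2 * z.2) * exp (-ε * z.2)))) (ν.prod ν) :=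
      Integrable.mul_prod (f := fun s : ℝ => exp (-ε * s))
        (g := fun r : ℝ => M * ((1 + c / 2 * r) * exp (-ε * r)))
        (integrableOn_exp_neg hε0 0) ((integrableOn_poly_exp hε0 1 (c / 2)).const_mul M)
    refine hdom.mono' ((measurable_ker c).mul hk).aestronglyMeasurable ?_
    filter_upwards [hpos] with z hz
    rw [norm_mul, norm_eq_abs, norm_eq_abs]
    calc |ker c z.2 z.1| * |k z|
        ≤ |ker c z.2 z.1| * (M * exp (-δ * z.2)) :=
          mul_le_mul_of_nonneg_left (hkb z.1 z.2 hz.1 hz.2) (abs_nonneg _)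
      _ = M * (|ker c z.2 z.1| * exp (-δ * z.2)) := by ring
      _ ≤ M * ((1 + c * z.2 / 2) * exp (-ε * z.2) * exp (-ε * z.1)) :=
          mul_le_mul_of_nonneg_left (ker_bound hc hε1 hε2 hz.2.le) hM
      _ = exp (-ε * z.1) * (M * ((1 + c / 2 * z.2) * exp (-ε * z.2))) := by ring
  have hI2 : Integrable (fun z : ℝ × ℝ => exp (-(c / 2) * z.1) * k z)
      (ν.prod ν) := by
    have hdom : Integrable (fun z : ℝ × ℝ => exp (-(c / 2) * z.1) *
        (M * exp (-δ * z.2))) (ν.prod ν) :=
      Integrable.mul_prod (f := fun s : ℝ => exp (-(c / 2) * s))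
        (g := fun r : ℝ => M * exp (-δ * r))
        (integrableOn_exp_neg (by linarith) 0) ((integrableOn_exp_neg hδ 0).const_mul M)
    refine hdom.mono' ((by fun_prop : Measurable fun z : ℝ × ℝ =>
      exp (-(c / 2) * z.1)).mul hk).aestronglyMeasurable ?_
    filter_upwards [hpos] with z hz
    rw [norm_mul, norm_eq_abs, norm_eq_abs, abs_of_pos (exp_pos _)]
    exact mul_le_mul_of_nonneg_left (hkb z.1 z.2 hz.1 hz.2) (exp_pos _).le
  have hI : Integrable (fun z : ℝ × ℝ => wt c z.2 z.1 * k z) (ν.prod ν) := by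
    have := hI1.sub hI2
    refine this.congr (Filter.Eventually.of_forall fun z => ?_)
    simp only [Pi.sub_apply, wt]
    ring
  -- the second kernel contributes nothing
  have hzero : ∀ s, 0 < s → ∫ r in Ioi (0 : ℝ), exp (-(c / 2) * s) * k (s, r) = 0 := by
    intro s hs
    rw [integral_const_mul, hz s hs, mul_zero]
  have hnorm : Integrable (fun s : ℝ => s * n s) ν := by
    have hdom : Integrable (fun s : ℝ => M * ((0 + 1 * s) * exp (-δ * s))) ν :=
      (integrableOn_poly_exp hδ 0 1).const_mul M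
    refine hdom.mono' (measurable_id.mul hn).aestronglyMeasurable ?_
    filter_upwards [hpos1] with s hs
    rw [norm_eq_abs, abs_mul, abs_of_pos hs, ← hkk s hs]
    calc s * |k (s, s)| ≤ s * (M * exp (-δ * s)) :=
          mul_le_mul_of_nonneg_left (hkb s s hs hs) hs.le
      _ = M * ((0 + 1 * s) * exp (-δ * s)) := by ring
  have hinn1 : ∀ᵐ s ∂ν, Integrable (fun r => ker c r s * k (s, r)) ν :=
    hI1.prod_right_ae
  have hinn2 : ∀ᵐ s ∂ν, Integrable (fun r => exp (-(c / 2) * s) * k (s, r)) ν :=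
    hI2.prod_right_ae
  have step1 : ∫ s, (s * k (s, s) + ∫ r, ker c r s * k (s, r) ∂ν) ∂ν =
      ∫ s, (s * n s + ∫ r, wt c r s * k (s, r) ∂ν) ∂ν := by
    refine integral_congr_ae ?_
    filter_upwards [hinn1, hinn2, hpos1] with s h1 h2 h3
    have h4 : ∫ r, wt c r s * k (s, r) ∂ν =
        (∫ r, ker c r s * k (s, r) ∂ν) -
          ∫ r, exp (-(c / 2) * s) * k (s, r) ∂ν := by
      rw [← integral_sub h1 h2]
      refine integral_congr_ae (Filter.Eventually.of_forall fun r => ?_)
      simp only [wt]; ring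
    rw [h4, hzero s h3, sub_zero, hkk s h3]
  have step2 : ∫ s, (s * n s + ∫ r, wt c r s * k (s, r) ∂ν) ∂ν =
      ∫ r, (r * n r + ∫ s, wt c r s * k (s, r) ∂ν) ∂ν := by
    rw [integral_add hnorm hI.integral_prod_left, integral_add hnorm hI.integral_prod_right]
    congr 1
    exact integral_integral_swap hI
  change 0 ≤ ∫ s, (s * k (s, s) + ∫ r, ker c r s * k (s, r) ∂ν) ∂ν
  rw [step1, step2]
  refine setIntegral_nonneg measurableSet_Ioi fun r hr => ?_
  have hr' : (0 : ℝ) < r := hr
  by_cases hint : Integrable (fun s => wt c r s * k (s, r)) ν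
  · have h1 : ∫ s, wt c r s * n r ∂ν ≤ ∫ s, wt c r s * k (s, r) ∂ν := by
      refine integral_mono_ae ((integrableOn_wt hc r).mul_const _) hint ?_
      filter_upwards [hpos1] with s hs
      exact mul_le_mul_of_nonpos_left (hkn s r hs hr') wt_nonpos
    rw [integral_mul_const] at h1
    have h3 : ∫ s, wt c r s ∂ν = -r := integral_wt hc hr'.le
    rw [h3] at h1
    linarith
  · rw [integral_undef hint]
    have := hn0 r hr'
    nlinarith

end R273.Dv
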