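import Pool.Agent.R273.DvModel
import Pool.Agent.R273.DvExp

/-!
MP_8bcfe8_an: mild solutions and the optimal constant, for multiplication operators.
-/

namespace R273.Dv

open MeasureTheory Set Real Filter Topology

variable {X : Type*} [MeasurableSpace X]

variable {μ : Measure X} {a : X → ℝ}

lemma measurable_hh_right (ha : Measurable a) (c s : ℝ) :
    Measurable fun x : X => hh c (a x) s :=
  continuous_hh.measurable.comp (by fun_prop : Measurable fun x : X => (c, a x, s))

/-- The contribution of the initial displacement decays. -/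
lemma norm_initial_le (ha : Measurable a) {δ M c : ℝ} (hpos : ∀ x, 0 < a x)
    (hhh : ∀ x s, 0 ≤ s → |√(a x) * hh c (a x) s| ≤ M * exp (-δ * s)) {u₀ : Lp ℝ 2 μ}
    (hu : MemLp (fun x => √(a x) * u₀ x) 2 μ) {t : ℝ} (ht : 0 ≤ t) :
    ‖mulOp μ (fun x => -a x * hh c (a x) t) u₀‖ ≤ M * exp (-δ * t) * ‖hu.toLp _‖ := by
  have hb : ∀ x, ‖-a x * hh c (a x) t * u₀ x‖ ≤ M * exp (-δ * t) * ‖√(a x) * u₀ x‖ := by
    intro x
    have h1 : -a x * hh c (a x) t * u₀ x = -(√(a x) * hh c (a x) t) * (√(a x) * u₀ x) := by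
      have h2 : √(a x) * √(a x) = a x := mul_self_sqrt (hpos x).le
      nth_rewrite 1 [← h2]; ring
    rw [h1, norm_mul, norm_neg, norm_eq_abs]
    exact mul_le_mul_of_nonneg_right (hhh x t ht) (norm_nonneg _)
  have hmem : MemLp (fun x => -a x * hh c (a x) t * u₀ x) 2 μ :=
    hu.of_le_mul (c := M * exp (-δ * t))
      (((ha.neg.mul (measurable_hh_right ha c t)).mul
        (Lp.stronglyMeasurable u₀).measurable).aestronglyMeasurable)
      (Eventually.of_forall hb)
  refine Lp.norm_le_mul_norm_of_ae_le_mul ?_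
  filter_upwards [coeFn_mulOp hmem, hu.coeFn_toLp] with x h1 h2
  rw [h1, h2]
  exact hb x

lemma intervalIntegral_velocity (ha : Measurable a) {δ M c : ℝ}
    (hph : ∀ x s, 0 ≤ s → |ph c (a x) s| ≤ M * exp (-δ * s)) (f : ℝ → Lp ℝ 2 μ) {t₀ t : ℝ}
    (ht : t₀ ≤ t) : ∫ s in t₀..t, mulOp μ (fun x => prop c (a x) (t - s) 1 1) (f s) =
      ∫ s in t₀..t, Pm μ a c (t - s) (f s) := by
  refine intervalIntegral.integral_congr_ae (Eventually.of_forall fun s hs => ?_)
  rw [uIoc_of_le ht] at hs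
  simp only [prop_one_one]
  rw [Pm_apply ha hph (by linarith [hs.2])]

/-- The admissible constants are the bounds of the lengths. -/
theorem isAdmissible_iff (ha : Measurable a) {b c : ℝ} (hb : 0 < b) (hab : ∀ x, b ≤ a x)
    (hc : 0 < c) (K : ℝ) : IsAdmissible μ a c K ↔
      0 ≤ K ∧ ∀ w : Lp ℝ 2 μ, ‖w‖ ≤ 1 → ∫ s in Ioi (0:ℝ), ‖Pm μ a c s w‖ ≤ K := by
  obtain ⟨δ, M, hδ, hM, hbd⟩ := bounds hb hc le_rfl
  have hph : ∀ x s, 0 ≤ s → |ph c (a x) s| ≤ M * exp (-δ * s) := fun x s hs =>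
    (hbd c (a x) s le_rfl le_rfl (hab x) hs).1
  have hhh : ∀ x s, 0 ≤ s → |√(a x) * hh c (a x) s| ≤ M * exp (-δ * s) := fun x s hs =>
    (hbd c (a x) s le_rfl le_rfl (hab x) hs).2.2
  have hfam : Fam (Pm μ a c) δ M := fam_Pm ha hδ hM hph
  constructor
  · rintro ⟨hK, hadm⟩
    refine ⟨hK, fun w hw => hfam.lower hK (fun f hf hf1 => ?_) hw⟩
    have hlim1 : limsup (fun t => ‖f t‖ₑ) (atTop ⊓ ae volume) ≤ 1 := by
      refine limsup_le_of_le (by isBoundedDefault) (Eventually.of_forall fun t => ?_)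
      rw [← ofReal_norm, ← ENNReal.ofReal_one]
      exact ENNReal.ofReal_le_ofReal (hf1 t)
    have h1 := hadm 0 0 0 f le_rfl ?_ ?_ (hlim1.trans_lt ENNReal.one_lt_top)
    · have h2 : limsup (fun t => ‖velocity μ a c 0 0 0 f t‖ₑ) atTop =
          limsup (fun t => ‖∫ s in (0:ℝ)..t, Pm μ a c (t - s) (f s)‖ₑ) atTop := by
        refine limsup_congr ?_
        filter_upwards [eventually_ge_atTop 0] with t ht
        unfold velocity
        rw [mulOp_zero_right, mulOp_zero_right, zero_add, zero_add,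
          intervalIntegral_velocity ha hph f ht]
      rw [h2] at h1
      refine h1.trans ?_
      calc ENNReal.ofReal K * limsup (fun t => ‖f t‖ₑ) (atTop ⊓ ae volume)
          ≤ ENNReal.ofReal K * 1 := by gcongr
        _ = ENNReal.ofReal K := mul_one _
    · have h0 : (fun x => √(a x) * (0 : Lp ℝ 2 μ) x) =ᵐ[μ] 0 := by
        filter_upwards [Lp.coeFn_zero ℝ 2 μ] with x hx
        rw [hx]; simp
      exact (memLp_congr_ae h0).2 MemLp.zero'
    · intro T
      exact (integrable_const (1:ℝ)).mono' hf.aestronglyMeasurable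
        (Eventually.of_forall fun s => by simpa using hf1 s)
  · rintro ⟨hK, hlen⟩
    refine ⟨hK, fun t₀ u₀ u₁ f ht₀ hu hf hlim => ?_⟩
    set z : ℝ → Lp ℝ 2 μ := fun t => mulOp μ (fun x => prop c (a x) (t - t₀) 1 0) u₀ +
      mulOp μ (fun x => prop c (a x) (t - t₀) 1 1) u₁ with hz
    have hz0 : Tendsto z atTop (𝓝 0) := by
      have h1 : Tendsto (fun t : ℝ => -δ * (t - t₀)) atTop atBot :=
        (tendsto_id.atTop_add tendsto_const_nhds).const_mul_atTop_of_neg (by linarith)
      have h2 := ((tendsto_exp_atBot.comp h1).const_mul M).mul_const (‖hu.toLp _‖ + ‖u₁‖)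
      simp only [mul_zero, zero_mul] at h2
      refine squeeze_zero_norm' ?_ h2
      filter_upwards [eventually_ge_atTop t₀] with t ht
      simp only [hz, prop_one_one, prop_one_zero]
      refine (norm_add_le _ _).trans ?_
      have h3 := norm_initial_le ha (fun x => hb.trans_le (hab x)) hhh hu
        (t := t - t₀) (by linarith)
      have h4 := norm_mulOp_le (μ := μ) (measurable_ph_right ha c (t - t₀))
        (fun x => hph x (t - t₀) (by linarith)) u₁
      simp only [Function.comp_apply]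
      linarith
    have h1 := hfam.upper hK hlen hz0 hf hlim
    have h2 : limsup (fun t => ‖velocity μ a c t₀ u₀ u₁ f t‖ₑ) atTop =
        limsup (fun t => ‖z t + ∫ s in t₀..t, Pm μ a c (t - s) (f s)‖ₑ) atTop := by
      refine limsup_congr ?_
      filter_upwards [eventually_ge_atTop t₀] with t ht
      unfold velocity
      rw [intervalIntegral_velocity ha hph f ht]
    rw [h2]
    exact h1

/-- The optimal constant is attained. -/
theorem isLeast_velConst (ha : Measurable a) {b c : ℝ} (hb : 0 < b) (hab : ∀ x, b ≤ a x)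
    (hc : 0 < c) : IsLeast {K | IsAdmissible μ a c K} (velConst μ a c) := by
  obtain ⟨δ, M, hδ, hM, hbd⟩ := bounds hb hc le_rfl
  have hph : ∀ x s, 0 ≤ s → |ph c (a x) s| ≤ M * exp (-δ * s) := fun x s hs =>
    (hbd c (a x) s le_rfl le_rfl (hab x) hs).1
  have hfam : Fam (Pm μ a c) δ M := fam_Pm ha hδ hM hph
  have hne : {K | IsAdmissible μ a c K}.Nonempty := by
    refine ⟨M * (1 / δ), (isAdmissible_iff ha hb hab hc _).2 ⟨by positivity, fun w hw => ?_⟩⟩
    have h1 : ∫ s in Ioi (0:ℝ), ‖Pm μ a c s w‖ ≤ ∫ s in Ioi (0:ℝ), M * exp (-δ * s) := by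
      refine setIntegral_mono_on (hfam.integrable_norm w)
        ((integrableOn_exp_neg hδ 0).const_mul M) measurableSet_Ioi fun s hs => ?_
      have h2 := hfam.bound s (le_of_lt hs) w
      have h3 : M * exp (-δ * s) * ‖w‖ ≤ M * exp (-δ * s) * 1 := by gcongr
      linarith
    rw [integral_const_mul, integral_exp_mul_Ioi (by linarith)] at h1
    refine h1.trans (le_of_eq ?_)
    rw [mul_zero, exp_zero]; ring
  have hbb : BddBelow {K | IsAdmissible μ a c K} := ⟨0, fun K hK => hK.1⟩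
  refine ⟨?_, fun K hK => csInf_le hbb hK⟩
  refine (isAdmissible_iff ha hb hab hc _).2 ⟨le_csInf hne fun K hK => hK.1, fun w hw => ?_⟩
  exact le_csInf hne fun K hK => ((isAdmissible_iff ha hb hab hc K).1 hK).2 w hw

/-- **Monotonicity.** -/
theorem velConst_antitone (ha : Measurable a) {b c₁ c₂ : ℝ} (hb : 0 < b) (hab : ∀ x, b ≤ a x)
    (hc1 : 0 < c₁) (hcc : c₁ ≤ c₂) : velConst μ a c₂ ≤ velConst μ a c₁ := by
  refine (isLeast_velConst ha hb hab (hc1.trans_le hcc)).2 ?_
  have h1 := (isAdmissible_iff ha hb hab hc1 _).1 (isLeast_velConst (μ := μ) ha hb hab hc1).1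
  exact (isAdmissible_iff ha hb hab (hc1.trans_le hcc) _).2 ⟨h1.1, fun w hw =>
    (integral_norm_Pm_antitone ha hb hab hc1 hcc w).trans (h1.2 w hw)⟩

end R273.Dv
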