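import Pool.Agent.R273.DvMono2
import Pool.Agent.R273.DvAbs
import Pool.Agent.R273.DvDefs

/-!
MP_8bcfe8_an: multiplication operators on `L²(μ)`.
-/

namespace R273.Dv

open MeasureTheory Set Real Filter Topology

variable {X : Type*} [MeasurableSpace X] (μ : Measure X)

variable {μ}

lemma memLp_mul {g : X → ℝ} (hg : Measurable g) {B : ℝ} (hB : ∀ x, |g x| ≤ B) (v : Lp ℝ 2 μ) :
    MemLp (fun x => g x * v x) 2 μ := by
  refine (Lp.memLp v).of_le_mul (c := B)
    (hg.aestronglyMeasurable.mul (Lp.aestronglyMeasurable v)) (Eventually.of_forall fun x => ?_)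
  rw [norm_mul, norm_eq_abs]
  exact mul_le_mul_of_nonneg_right (hB x) (norm_nonneg _)

lemma coeFn_mulOp {g : X → ℝ} {v : Lp ℝ 2 μ} (h : MemLp (fun x => g x * v x) 2 μ) :
    mulOp μ g v =ᵐ[μ] fun x => g x * v x := by
  unfold mulOp
  rw [dif_pos h]
  exact h.coeFn_toLp

lemma coeFn_mulOp' {g : X → ℝ} (hg : Measurable g) {B : ℝ} (hB : ∀ x, |g x| ≤ B)
    (v : Lp ℝ 2 μ) : mulOp μ g v =ᵐ[μ] fun x => g x * v x :=
  coeFn_mulOp (memLp_mul hg hB v)

lemma norm_mulOp_le {g : X → ℝ} (hg : Measurable g) {B : ℝ} (hB : ∀ x, |g x| ≤ B)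
    (v : Lp ℝ 2 μ) : ‖mulOp μ g v‖ ≤ B * ‖v‖ := by
  refine Lp.norm_le_mul_norm_of_ae_le_mul ?_
  filter_upwards [coeFn_mulOp' hg hB v] with x hx
  rw [hx, norm_mul, norm_eq_abs]
  exact mul_le_mul_of_nonneg_right (hB x) (norm_nonneg _)

lemma mulOp_zero_right (g : X → ℝ) : mulOp μ g 0 = 0 := by
  have h0 : (fun x => g x * (0 : Lp ℝ 2 μ) x) =ᵐ[μ] 0 := by
    filter_upwards [Lp.coeFn_zero ℝ 2 μ] with x hx
    rw [hx]; simp
  have h1 : MemLp (fun x => g x * (0 : Lp ℝ 2 μ) x) 2 μ :=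
    (memLp_congr_ae h0).2 MemLp.zero'
  refine Lp.ext ?_
  filter_upwards [coeFn_mulOp h1, h0, Lp.coeFn_zero ℝ 2 μ] with x hx h0x hz
  rw [hx, h0x, hz]

/-- Multiplication by a bounded measurable function, as a bounded operator. -/
noncomputable def mulCLM (μ : Measure X) (g : X → ℝ) : Lp ℝ 2 μ →L[ℝ] Lp ℝ 2 μ :=
  open Classical in
  if h : Measurable g ∧ ∃ B, ∀ x, |g x| ≤ B then
    LinearMap.mkContinuous
      { toFun := mulOp μ g
        map_add' := fun v w => by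
          obtain ⟨hg, B, hB⟩ := h
          refine Lp.ext ?_
          filter_upwards [coeFn_mulOp' hg hB v, coeFn_mulOp' hg hB w,
            coeFn_mulOp' hg hB (v + w), Lp.coeFn_add v w,
            Lp.coeFn_add (mulOp μ g v) (mulOp μ g w)] with x h1 h2 h3 h4 h5
          rw [h3, h4, h5, Pi.add_apply, Pi.add_apply, h1, h2]; ring
        map_smul' := fun r v => by
          obtain ⟨hg, B, hB⟩ := h
          refine Lp.ext ?_
          filter_upwards [coeFn_mulOp' hg hB v, coeFn_mulOp' hg hB (r • v),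
            Lp.coeFn_smul r v, Lp.coeFn_smul r (mulOp μ g v)] with x h1 h2 h3 h4
          simp only [RingHom.id_apply]
          rw [h2, h3, h4, Pi.smul_apply, Pi.smul_apply, h1, smul_eq_mul, smul_eq_mul]; ring }
      h.2.choose (fun v => norm_mulOp_le h.1 h.2.choose_spec v)
  else 0

lemma mulCLM_apply {g : X → ℝ} (hg : Measurable g) {B : ℝ} (hB : ∀ x, |g x| ≤ B)
    (v : Lp ℝ 2 μ) : mulCLM μ g v = mulOp μ g v := by
  unfold mulCLM
  rw [dif_pos ⟨hg, B, hB⟩]
  rfl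

lemma inner_mulOp {g : X → ℝ} (hg : Measurable g) {B : ℝ} (hB : ∀ x, |g x| ≤ B)
    (v w : Lp ℝ 2 μ) : inner ℝ (mulOp μ g v) w = inner ℝ v (mulOp μ g w) := by
  rw [L2.inner_def, L2.inner_def]
  refine integral_congr_ae ?_
  filter_upwards [coeFn_mulOp' hg hB v, coeFn_mulOp' hg hB w] with x h1 h2
  rw [h1, h2]
  simp only [RCLike.inner_apply, conj_trivial]
  ring

lemma norm_sq_eq (v : Lp ℝ 2 μ) : ‖v‖ ^ 2 = ∫ x, v x ^ 2 ∂μ := by
  rw [← real_inner_self_eq_norm_sq, L2.inner_def]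
  refine integral_congr_ae (Eventually.of_forall fun x => ?_)
  simp only [RCLike.inner_apply, conj_trivial]
  ring

lemma norm_mulOp_sq {g : X → ℝ} (hg : Measurable g) {B : ℝ} (hB : ∀ x, |g x| ≤ B)
    (v : Lp ℝ 2 μ) : ‖mulOp μ g v‖ ^ 2 = ∫ x, (g x * v x) ^ 2 ∂μ := by
  rw [norm_sq_eq]
  refine integral_congr_ae ?_
  filter_upwards [coeFn_mulOp' hg hB v] with x h1
  rw [h1]

lemma norm_mulOp_sub_sq {g g' : X → ℝ} (hg : Measurable g) {B : ℝ} (hB : ∀ x, |g x| ≤ B)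
    (hg' : Measurable g') (hB' : ∀ x, |g' x| ≤ B)
    (v : Lp ℝ 2 μ) : ‖mulOp μ g v - mulOp μ g' v‖ ^ 2 =
      ∫ x, ((g x - g' x) * v x) ^ 2 ∂μ := by
  rw [norm_sq_eq]
  refine integral_congr_ae ?_
  filter_upwards [coeFn_mulOp' hg hB v, coeFn_mulOp' hg' hB' v,
    Lp.coeFn_sub (mulOp μ g v) (mulOp μ g' v)] with x h1 h2 h3
  rw [h3, Pi.sub_apply, h1, h2]; ring

/-- The velocity propagator. -/
noncomputable def Pm (μ : Measure X) (a : X → ℝ) (c t : ℝ) : Lp ℝ 2 μ →L[ℝ] Lp ℝ 2 μ :=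
  mulCLM μ (fun x => ph c (a x) (max t 0))

variable {a : X → ℝ}

lemma Pm_apply (ha : Measurable a) {δ M c : ℝ}
    (hph : ∀ x s, 0 ≤ s → |ph c (a x) s| ≤ M * exp (-δ * s)) {t : ℝ} (ht : 0 ≤ t)
    (v : Lp ℝ 2 μ) : Pm μ a c t v = mulOp μ (fun x => ph c (a x) t) v := by
  unfold Pm
  rw [max_eq_left ht]
  exact mulCLM_apply (measurable_ph_right ha c t) (fun x => hph x t ht) v

lemma fam_Pm (ha : Measurable a) {δ M c : ℝ} (hδ : 0 < δ) (hM : 0 ≤ M)
    (hph : ∀ x s, 0 ≤ s → |ph c (a x) s| ≤ M * exp (-δ * s)) : Fam (Pm μ a c) δ M := by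
  have hm : ∀ t, Measurable fun x => ph c (a x) (max t 0) := fun t => measurable_ph_right ha c _
  have hb : ∀ t x, |ph c (a x) (max t 0)| ≤ M := fun t x => by
    refine (hph x _ (le_max_right _ _)).trans ?_
    have h1 : exp (-δ * max t 0) ≤ 1 := by
      apply exp_le_one_iff.2
      have := le_max_right t 0
      nlinarith
    nlinarith
  have happ : ∀ t v, Pm μ a c t v = mulOp μ (fun x => ph c (a x) (max t 0)) v := fun t v =>
    mulCLM_apply (hm t) (hb t) v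
  refine ⟨hδ, hM, fun t ht v => ?_, fun t v => ?_, fun t v w => ?_, fun v => ?_⟩
  · rw [Pm_apply ha hph ht]
    exact norm_mulOp_le (measurable_ph_right ha c t) (fun x => hph x t ht) v
  · rw [happ]
    exact norm_mulOp_le (hm t) (hb t) v
  · rw [happ, happ]
    exact inner_mulOp (hm t) (hb t) v w
  · rw [continuous_iff_continuousAt]
    intro t₁
    rw [ContinuousAt, tendsto_iff_norm_sub_tendsto_zero]
    have h1 : Continuous fun t => ∫ x, ((ph c (a x) (max t 0) - ph c (a x) (max t₁ 0)) *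
        v x) ^ 2 ∂μ := by
      refine continuous_of_dominated (bound := fun x => (2 * M) ^ 2 * v x ^ 2)
        (fun t => ?_) (fun t => Eventually.of_forall fun x => ?_)
        ((Lp.memLp v).integrable_sq.const_mul _) (Eventually.of_forall fun x => ?_)
      · exact ((((hm t).sub (hm t₁)).mul (Lp.stronglyMeasurable v).measurable).pow_const
          2).aestronglyMeasurable
      · rw [norm_eq_abs, abs_pow, abs_mul, mul_pow, sq_abs (v x)]
        have h2 : |ph c (a x) (max t 0) - ph c (a x) (max t₁ 0)| ≤ 2 * M := by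
          refine (abs_sub _ _).trans ?_
          linarith [hb t x, hb t₁ x]
        gcongr
      · have h3 : Continuous fun t : ℝ => ph c (a x) (max t 0) :=
          continuous_ph.comp (by fun_prop : Continuous fun t : ℝ => (c, a x, max t 0))
        exact ((h3.sub continuous_const).mul continuous_const).pow 2
    have h2 := (h1.tendsto' t₁ 0 (by simp)).sqrt
    rw [sqrt_zero] at h2
    refine h2.congr fun t => ?_
    rw [← norm_mulOp_sub_sq (hm t) (hb t) (hm t₁) (hb t₁), sqrt_sq (norm_nonneg _), happ, happ]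

/-- The spectral measure of `v`, pulled back to `X`. -/
noncomputable def dens (v : Lp ℝ 2 μ) : Measure X :=
  μ.withDensity fun x => ENNReal.ofReal (v x ^ 2)

instance (v : Lp ℝ 2 μ) : IsFiniteMeasure (dens v) :=
  isFiniteMeasure_withDensity_ofReal (Lp.memLp v).integrable_sq.2

lemma norm_Pm_eq (ha : Measurable a) {δ M c : ℝ}
    (hph : ∀ x s, 0 ≤ s → |ph c (a x) s| ≤ M * exp (-δ * s)) {t : ℝ} (ht : 0 ≤ t)
    (v : Lp ℝ 2 μ) : ‖Pm μ a c t v‖ = Nf (dens v) a c t := by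
  rw [Pm_apply ha hph ht, ← sqrt_sq (norm_nonneg _),
    norm_mulOp_sq (measurable_ph_right ha c t) (fun x => hph x t ht)]
  unfold Nf dens
  congr 1
  rw [integral_withDensity_eq_integral_toReal_smul
    (((Lp.stronglyMeasurable v).measurable.pow_const 2).ennreal_ofReal)
    (Eventually.of_forall fun x => ENNReal.ofReal_lt_top)]
  refine integral_congr_ae (Eventually.of_forall fun x => ?_)
  simp only [smul_eq_mul]
  rw [ENNReal.toReal_ofReal (sq_nonneg _)]; ring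

lemma integral_norm_Pm (ha : Measurable a) {δ M c : ℝ}
    (hph : ∀ x s, 0 ≤ s → |ph c (a x) s| ≤ M * exp (-δ * s)) (v : Lp ℝ 2 μ) :
    ∫ s in Ioi (0:ℝ), ‖Pm μ a c s v‖ = Lf (dens v) a c := by
  unfold Lf
  refine setIntegral_congr_fun measurableSet_Ioi fun s hs => ?_
  exact norm_Pm_eq ha hph (le_of_lt hs) v

/-- Monotonicity of the length in `L²(μ)`. -/
lemma integral_norm_Pm_antitone (ha : Measurable a) {b c₁ c₂ : ℝ} (hb : 0 < b)
    (hab : ∀ x, b ≤ a x) (hc1 : 0 < c₁) (hcc : c₁ ≤ c₂) (v : Lp ℝ 2 μ) :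
    ∫ s in Ioi (0:ℝ), ‖Pm μ a c₂ s v‖ ≤ ∫ s in Ioi (0:ℝ), ‖Pm μ a c₁ s v‖ := by
  obtain ⟨δ, M, hδ, hM, hbd⟩ := bounds hb hc1 hcc
  rw [integral_norm_Pm ha (fun x s hs => (hbd c₁ (a x) s le_rfl hcc (hab x) hs).1),
    integral_norm_Pm ha (fun x s hs => (hbd c₂ (a x) s hcc le_rfl (hab x) hs).1)]
  exact Lf_antitone ha hb hab hc1 hcc

end R273.Dv
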