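import Pool.Agent.R273.DvScalar

/-!
MP_8bcfe8_an: the length of `s ↦ ph c a s` in `L²(m)` decreases with the damping `c`.
-/

namespace R273.Dv

open MeasureTheory Set Real Filter

variable {X : Type*} [MeasurableSpace X]

/-- Cauchy-Schwarz, in the form used here. -/
lemma cs_le (m : Measure X) {u v : X → ℝ} (hu : Integrable (fun x => u x ^ 2) m)
    (hv : Integrable (fun x => v x ^ 2) m) (hu1 : ∫ x, u x ^ 2 ∂m ≤ 1) :
    |∫ x, u x * v x ∂m| ≤ √(∫ x, v x ^ 2 ∂m) := by
  refine le_of_forall_pos_le_add fun ε hε => ?_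
  set n := √(∫ x, v x ^ 2 ∂m) with hn
  have hv0 : 0 ≤ ∫ x, v x ^ 2 ∂m := integral_nonneg fun x => sq_nonneg _
  have hn2 : n ^ 2 = ∫ x, v x ^ 2 ∂m := sq_sqrt hv0
  have hn0 : 0 ≤ n := sqrt_nonneg _
  have ht : 0 < n + ε := by linarith
  have h1 : ∫ x, ((n + ε) / 2 * u x ^ 2 + 1 / (2 * (n + ε)) * v x ^ 2) ∂m =
      (n + ε) / 2 * ∫ x, u x ^ 2 ∂m + 1 / (2 * (n + ε)) * ∫ x, v x ^ 2 ∂m := by
    rw [integral_add (hu.const_mul _) (hv.const_mul _), integral_const_mul, integral_const_mul]
  have h2 : |∫ x, u x * v x ∂m| ≤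
      ∫ x, ((n + ε) / 2 * u x ^ 2 + 1 / (2 * (n + ε)) * v x ^ 2) ∂m := by
    rw [← norm_eq_abs]
    refine norm_integral_le_of_norm_le ((hu.const_mul _).add (hv.const_mul _))
      (Eventually.of_forall fun x => ?_)
    rw [norm_eq_abs, abs_mul]
    have h3 : (n + ε) / 2 * u x ^ 2 + 1 / (2 * (n + ε)) * v x ^ 2 - |u x| * |v x| =
        ((n + ε) * |u x| - |v x|) ^ 2 / (2 * (n + ε)) := by
      rw [← sq_abs (u x), ← sq_abs (v x)]
      field_simp
      ring
    have h4 : 0 ≤ ((n + ε) * |u x| - |v x|) ^ 2 / (2 * (n + ε)) := by positivity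
    linarith
  rw [h1, ← hn2] at h2
  have h5 : (n + ε) / 2 * ∫ x, u x ^ 2 ∂m ≤ (n + ε) / 2 * 1 := by gcongr
  have h6 : 1 / (2 * (n + ε)) * n ^ 2 ≤ (n + ε) / 2 := by
    rw [div_mul_eq_mul_div, div_le_div_iff₀ (by positivity) (by norm_num)]
    nlinarith
  linarith

/-- The norm of `ph c a s` in `L²(m)`. -/
noncomputable def Nf (m : Measure X) (a : X → ℝ) (c s : ℝ) : ℝ := √(∫ x, ph c (a x) s ^ 2 ∂m)

/-- The length of the curve. -/
noncomputable def Lf (m : Measure X) (a : X → ℝ) (c : ℝ) : ℝ := ∫ s in Ioi 0, Nf m a c s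

/-- The normalised curve. -/
noncomputable def ef (m : Measure X) (a : X → ℝ) (c : ℝ) (z : ℝ × X) : ℝ :=
  ph c (a z.2) z.1 / Nf m a c z.1

section

variable {m : Measure X} [IsFiniteMeasure m] {a : X → ℝ}

lemma measurable_ph_prod (ha : Measurable a) (c : ℝ) :
    Measurable fun z : ℝ × X => ph c (a z.2) z.1 :=
  continuous_ph.measurable.comp (by fun_prop : Measurable fun z : ℝ × X => (c, a z.2, z.1))

lemma measurable_ps_prod (ha : Measurable a) (c : ℝ) :
    Measurable fun z : ℝ × X => ps c (a z.2) z.1 :=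
  continuous_ps.measurable.comp (by fun_prop : Measurable fun z : ℝ × X => (c, a z.2, z.1))

lemma measurable_ph_right (ha : Measurable a) (c s : ℝ) :
    Measurable fun x : X => ph c (a x) s :=
  continuous_ph.measurable.comp (by fun_prop : Measurable fun x : X => (c, a x, s))

lemma measurable_Nf (ha : Measurable a) (c : ℝ) : Measurable (Nf m a c) := by
  unfold Nf
  have h := ((measurable_ph_prod ha c).pow_const 2).stronglyMeasurable.integral_prod_right'
    (ν := m)
  exact h.measurable.sqrt

lemma measurable_ef (ha : Measurable a) (c : ℝ) : Measurable (ef m a c) := by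
  unfold ef
  exact (measurable_ph_prod ha c).div ((measurable_Nf ha c).comp measurable_fst)

omit [IsFiniteMeasure m] in
lemma Nf_nonneg (c s : ℝ) : 0 ≤ Nf m a c s := sqrt_nonneg _

omit [IsFiniteMeasure m] in
lemma Nf_sq (c s : ℝ) : Nf m a c s ^ 2 = ∫ x, ph c (a x) s ^ 2 ∂m :=
  sq_sqrt (integral_nonneg fun _ => sq_nonneg _)

lemma integrable_ph_sq (ha : Measurable a) {c s B : ℝ} (hB : ∀ x, |ph c (a x) s| ≤ B) :
    Integrable (fun x => ph c (a x) s ^ 2) m := by
  refine (integrable_const (B ^ 2)).mono' ((measurable_ph_right ha c s).pow_const 2).aestronglyMeasurable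
    (Eventually.of_forall fun x => ?_)
  rw [norm_eq_abs, abs_pow]
  have := hB x
  gcongr

lemma Nf_le {c s B : ℝ} (hB0 : 0 ≤ B) (hB : ∀ x, |ph c (a x) s| ≤ B) :
    Nf m a c s ≤ B * √(m.real univ) := by
  unfold Nf
  rw [sqrt_le_iff]
  refine ⟨by positivity, ?_⟩
  rw [mul_pow, sq_sqrt measureReal_nonneg]
  have h : ∫ x, ph c (a x) s ^ 2 ∂m ≤ ∫ _, B ^ 2 ∂m := by
    refine integral_mono_of_nonneg (Eventually.of_forall fun x => sq_nonneg _)
      (integrable_const _) (Eventually.of_forall fun x => ?_)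
    change ph c (a x) s ^ 2 ≤ B ^ 2
    rw [← sq_abs]
    have := hB x
    gcongr
  rw [integral_const, smul_eq_mul] at h
  linarith

lemma integrable_ef_sq (ha : Measurable a) {c s B : ℝ} (hB : ∀ x, |ph c (a x) s| ≤ B) :
    Integrable (fun x => ef m a c (s, x) ^ 2) m := by
  unfold ef
  simp only [div_pow]
  exact (integrable_ph_sq ha hB).div_const _

omit [IsFiniteMeasure m] in
lemma integral_ef_sq_le (c s : ℝ) : ∫ x, ef m a c (s, x) ^ 2 ∂m ≤ 1 := by
  unfold ef
  simp only [div_pow]
  rw [integral_div, ← Nf_sq]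
  exact div_self_le_one _

lemma integral_ef_abs_le (ha : Measurable a) {c s B : ℝ} (hB : ∀ x, |ph c (a x) s| ≤ B) :
    Integrable (fun x => ef m a c (s, x)) m ∧
      ∫ x, |ef m a c (s, x)| ∂m ≤ 1 + m.real univ := by
  have h1 := integrable_ef_sq (m := m) ha hB
  have h2 : Integrable (fun x => ef m a c (s, x) ^ 2 + 1) m := h1.add (integrable_const 1)
  have h3 : Measurable fun x => ef m a c (s, x) :=
    (measurable_ef ha c).comp measurable_prodMk_left
  have h4 : ∀ x, |ef m a c (s, x)| ≤ ef m a c (s, x) ^ 2 + 1 := by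
    intro x
    rw [← sq_abs]
    nlinarith [sq_nonneg (|ef m a c (s, x)| - 1)]
  have h5 : Integrable (fun x => ef m a c (s, x)) m :=
    h2.mono' h3.aestronglyMeasurable (Eventually.of_forall fun x => h4 x)
  refine ⟨h5, ?_⟩
  calc ∫ x, |ef m a c (s, x)| ∂m ≤ ∫ x, (ef m a c (s, x) ^ 2 + 1) ∂m :=
        integral_mono h5.abs h2 h4
    _ = ∫ x, ef m a c (s, x) ^ 2 ∂m + m.real univ := by
        rw [integral_add h1 (integrable_const 1)]; simp
    _ ≤ 1 + m.real univ := by linarith [integral_ef_sq_le (m := m) (a := a) c s]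

omit [IsFiniteMeasure m] in
lemma integral_ef_mul_ph (c s : ℝ) : ∫ x, ef m a c (s, x) * ph c (a x) s ∂m = Nf m a c s := by
  unfold ef
  have h : ∀ x, ph c (a x) s / Nf m a c s * ph c (a x) s = ph c (a x) s ^ 2 / Nf m a c s := by
    intro x; ring
  simp_rw [h]
  rw [integral_div, ← Nf_sq, sq, mul_self_div_self]

/-- The weighted integrability of `ef`. -/
lemma integrable_ef_exp (ha : Measurable a) {c δ M : ℝ} (hδ : 0 < δ)
    (hb : ∀ x s, 0 ≤ s → |ph c (a x) s| ≤ M * exp (-δ * s)) :
    Integrable (fun z : ℝ × X => ef m a c z * exp (-δ * z.1))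
      ((volume.restrict (Ioi 0)).prod m) := by
  have hmeas : Measurable (fun z : ℝ × X => ef m a c z * exp (-δ * z.1)) :=
    (measurable_ef ha c).mul (by fun_prop)
  rw [integrable_prod_iff hmeas.aestronglyMeasurable]
  constructor
  · refine (ae_restrict_iff' measurableSet_Ioi).2 (Eventually.of_forall fun s hs => ?_)
    change Integrable (fun y => ef m a c (s, y) * exp (-δ * s)) m
    exact (integral_ef_abs_le (m := m) ha fun x => hb x s (le_of_lt hs)).1.mul_const _
  · have hdom : Integrable (fun s : ℝ => (1 + m.real univ) * exp (-δ * s))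
        (volume.restrict (Ioi 0)) := (integrableOn_exp_neg hδ 0).const_mul _
    refine hdom.mono' hmeas.norm.stronglyMeasurable.integral_prod_right'.aestronglyMeasurable ?_
    refine (ae_restrict_iff' measurableSet_Ioi).2 (Eventually.of_forall fun s hs => ?_)
    have h1 : ∀ x, ‖ef m a c (s, x) * exp (-δ * s)‖ = |ef m a c (s, x)| * exp (-δ * s) := by
      intro x
      rw [norm_mul, norm_eq_abs, norm_eq_abs, abs_of_pos (exp_pos _)]
    simp_rw [h1]
    rw [integral_mul_const, norm_eq_abs, abs_of_nonneg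
      (mul_nonneg (integral_nonneg fun x => abs_nonneg _) (exp_pos _).le)]
    exact mul_le_mul_of_nonneg_right
      (integral_ef_abs_le (m := m) ha fun x => hb x s (le_of_lt hs)).2 (exp_pos _).le

/-- A product with a function of exponential decay is integrable. -/
lemma integrable_ef_mul {c δ M : ℝ} {g : ℝ × X → ℝ} (hg : Measurable g)
    (ha : Measurable a) (hδ : 0 < δ)
    (hb : ∀ x s, 0 ≤ s → |ph c (a x) s| ≤ M * exp (-δ * s))
    (hgb : ∀ x s, 0 < s → |g (s, x)| ≤ M * exp (-δ * s)) :
    Integrable (fun z : ℝ × X => ef m a c z * g z) ((volume.restrict (Ioi 0)).prod m) := by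
  refine ((integrable_ef_exp (m := m) ha hδ hb).abs.const_mul M).mono'
    ((measurable_ef ha c).mul hg).aestronglyMeasurable ?_
  have hpos : ∀ᵐ z ∂((volume.restrict (Ioi (0:ℝ))).prod m), 0 < z.1 := by
    have h1 : (volume.restrict (Ioi (0:ℝ))).prod m =
        (volume.prod m).restrict (Ioi (0 : ℝ) ×ˢ univ) := by
      rw [← Measure.prod_restrict, Measure.restrict_univ]
    rw [h1]
    exact (ae_restrict_iff' (measurableSet_Ioi.prod MeasurableSet.univ)).2
      (Eventually.of_forall fun z hz => hz.1)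
  filter_upwards [hpos] with z hz
  rw [norm_mul, norm_eq_abs, norm_eq_abs, abs_mul, abs_of_pos (exp_pos _)]
  have h1 := hgb z.2 z.1 hz
  calc |ef m a c z| * |g z| ≤ |ef m a c z| * (M * exp (-δ * z.1)) := by gcongr
    _ = M * (|ef m a c z| * exp (-δ * z.1)) := by ring

/-- The functional `G`. -/
noncomputable def Gf (m : Measure X) (a : X → ℝ) (c τ : ℝ) : ℝ :=
  ∫ z, ef m a c z * ps τ (a z.2) z.1 ∂((volume.restrict (Ioi (0:ℝ))).prod m)

/-- `G` is nonnegative on the diagonal. -/
lemma Gf_self_nonneg (ha : Measurable a) {b : ℝ} (hb : 0 < b) (hab : ∀ x, b ≤ a x)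
    {c : ℝ} (hc : 0 < c) : 0 ≤ Gf m a c c := by
  obtain ⟨δ, M, hδ, hM, hbd⟩ := bounds hb hc le_rfl
  have hph : ∀ x s, 0 ≤ s → |ph c (a x) s| ≤ M * exp (-δ * s) := fun x s hs =>
    (hbd c (a x) s le_rfl le_rfl (hab x) hs).1
  have hps : ∀ x s, 0 ≤ s → |ps c (a x) s| ≤ M * exp (-δ * s) := fun x s hs =>
    (hbd c (a x) s le_rfl le_rfl (hab x) hs).2.1
  set ν : Measure ℝ := volume.restrict (Ioi 0) with hν
  set k : ℝ × ℝ → ℝ := fun z => ∫ x, ef m a c (z.1, x) * ph c (a x) z.2 ∂m with hk
  have hkm : Measurable k := by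
    have h1 : Measurable fun q : (ℝ × ℝ) × X => ef m a c (q.1.1, q.2) * ph c (a q.2) q.1.2 :=
      ((measurable_ef ha c).comp (by fun_prop : Measurable fun q : (ℝ × ℝ) × X => (q.1.1, q.2))).mul
        ((measurable_ph_prod ha c).comp
          (by fun_prop : Measurable fun q : (ℝ × ℝ) × X => (q.1.2, q.2)))
    exact (h1.stronglyMeasurable.integral_prod_right' (ν := m)).measurable
  have hkN : ∀ s r, 0 < s → 0 < r → |k (s, r)| ≤ Nf m a c r := fun s r hs hr =>
    cs_le m (integrable_ef_sq ha fun x => hph x s hs.le)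
      (integrable_ph_sq ha fun x => hph x r hr.le) (integral_ef_sq_le c s)
  have hNb : ∀ r, 0 ≤ r → Nf m a c r ≤ M * √(m.real univ) * exp (-δ * r) := by
    intro r hr
    have := Nf_le (m := m) (by positivity : 0 ≤ M * exp (-δ * r)) (fun x => hph x r hr)
    linarith
  have hz : ∀ s, 0 < s → ∫ r in Ioi (0 : ℝ), k (s, r) = 0 := by
    intro s hs
    have hint : Integrable (Function.uncurry fun (r : ℝ) (x : X) =>
        ef m a c (s, x) * ph c (a x) r) (ν.prod m) := by
      have h1 : Integrable (fun q : ℝ × X => (M * exp (-δ * q.1)) * |ef m a c (s, q.2)|)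
          (ν.prod m) :=
        Integrable.mul_prod (f := fun r : ℝ => M * exp (-δ * r))
          (g := fun x : X => |ef m a c (s, x)|)
          ((integrableOn_exp_neg hδ 0).const_mul M)
          (integral_ef_abs_le (m := m) ha fun x => hph x s hs.le).1.abs
      refine h1.mono' (((measurable_ef ha c).comp
        (by fun_prop : Measurable fun q : ℝ × X => (s, q.2))).mul
          (measurable_ph_prod ha c)).aestronglyMeasurable ?_
      have hpos : ∀ᵐ z ∂(ν.prod m), 0 < z.1 := by
        have h1 : ν.prod m = (volume.prod m).restrict (Ioi (0 : ℝ) ×ˢ univ) := by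
          rw [← Measure.prod_restrict, Measure.restrict_univ]
        rw [h1]
        exact (ae_restrict_iff' (measurableSet_Ioi.prod MeasurableSet.univ)).2
          (Eventually.of_forall fun z hz => hz.1)
      filter_upwards [hpos] with z hz
      rw [Function.uncurry, norm_mul, norm_eq_abs, norm_eq_abs, mul_comm]
      exact mul_le_mul_of_nonneg_right (hph z.2 z.1 hz.le) (abs_nonneg _)
    have h2 : ∫ r in Ioi (0 : ℝ), k (s, r) =
        ∫ x, (∫ r in Ioi (0:ℝ), ef m a c (s, x) * ph c (a x) r) ∂m :=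
      integral_integral_swap hint
    rw [h2]
    have h3 : ∀ x, ∫ r in Ioi (0:ℝ), ef m a c (s, x) * ph c (a x) r = 0 := by
      intro x
      rw [integral_const_mul, integral_ph hc (hb.trans_le (hab x)), mul_zero]
    simp_rw [h3]
    simp
  have hkey := key (k := k) (n := Nf m a c) (M := M * √(m.real univ)) hc hδ (by positivity)
    hkm (measurable_Nf ha c)
    (fun s r hs hr => (hkN s r hs hr).trans (hNb r hr.le))
    (fun s r hs hr => (le_abs_self _).trans (hkN s r hs hr))
    (fun r _ => Nf_nonneg c r)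
    (fun s _ => integral_ef_mul_ph c s) hz
  have hG : Gf m a c c = 1 / 2 * ∫ s in Ioi (0 : ℝ), (s * k (s, s) +
      ∫ r in Ioi (0 : ℝ), ker c r s * k (s, r)) := by
    unfold Gf
    rw [integral_prod _ (integrable_ef_mul (measurable_ps_prod ha c) ha hδ hph
      fun x s hs => hps x s hs.le), ← integral_const_mul]
    refine setIntegral_congr_fun measurableSet_Ioi fun s hs => ?_
    have hs' : (0:ℝ) < s := hs
    change ∫ x, ef m a c (s, x) * ps c (a x) s ∂m = _
    have he := (integral_ef_abs_le (m := m) ha fun x => hph x s hs'.le).1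
    have hi1 : Integrable (fun x => ef m a c (s, x) * ph c (a x) s) m := by
      refine (he.abs.mul_const (M * exp (-δ * s))).mono'
        (((measurable_ef ha c).comp measurable_prodMk_left).mul
          (measurable_ph_right ha c s)).aestronglyMeasurable (Eventually.of_forall fun x => ?_)
      rw [norm_mul, norm_eq_abs, norm_eq_abs]
      exact mul_le_mul_of_nonneg_left (hph x s hs'.le) (abs_nonneg _)
    have hi2 : Integrable (Function.uncurry fun (x : X) (r : ℝ) =>
        ef m a c (s, x) * (ker c r s * ph c (a x) r)) (m.prod ν) := by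
      set ε := min (c / 2) (δ / 2) with hε
      have hε0 : 0 < ε := lt_min (by linarith) (by linarith)
      have hε1 : ε ≤ c / 2 := min_le_left _ _
      have hε2 : 2 * ε ≤ δ := by have := min_le_right (c / 2) (δ / 2); linarith
      have h1 : Integrable (fun q : X × ℝ => |ef m a c (s, q.1)| *
          (M * exp (-ε * s) * ((1 + c / 2 * q.2) * exp (-ε * q.2)))) (m.prod ν) :=
        Integrable.mul_prod (f := fun x : X => |ef m a c (s, x)|)
          (g := fun r : ℝ => M * exp (-ε * s) * ((1 + c / 2 * r) * exp (-ε * r)))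
          he.abs ((integrableOn_poly_exp hε0 1 (c / 2)).const_mul _)
      refine h1.mono' (((measurable_ef ha c).comp
        (by fun_prop : Measurable fun q : X × ℝ => (s, q.1))).mul
          (((measurable_ker c).comp (by fun_prop : Measurable fun q : X × ℝ => (s, q.2))).mul
          ((measurable_ph_prod ha c).comp measurable_swap))).aestronglyMeasurable ?_
      have hpos : ∀ᵐ z ∂(m.prod ν), 0 < z.2 := by
        have h1 : m.prod ν = (m.prod volume).restrict (univ ×ˢ Ioi (0 : ℝ)) := by
          rw [← Measure.prod_restrict, Measure.restrict_univ]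
        rw [h1]
        exact (ae_restrict_iff' (MeasurableSet.univ.prod measurableSet_Ioi)).2
          (Eventually.of_forall fun z hz => hz.2)
      filter_upwards [hpos] with z hz
      simp only [Function.uncurry]
      rw [norm_mul, norm_mul, norm_eq_abs, norm_eq_abs, norm_eq_abs]
      refine mul_le_mul_of_nonneg_left ?_ (abs_nonneg _)
      calc |ker c z.2 s| * |ph c (a z.1) z.2| ≤ |ker c z.2 s| * (M * exp (-δ * z.2)) := by
            gcongr; exact hph z.1 z.2 hz.le
        _ = M * (|ker c z.2 s| * exp (-δ * z.2)) := by ring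
        _ ≤ M * ((1 + c * z.2 / 2) * exp (-ε * z.2) * exp (-ε * s)) :=
            mul_le_mul_of_nonneg_left (ker_bound hc hε1 hε2 hz.le) hM
        _ = _ := by ring
    have h4 : ∫ x, ef m a c (s, x) * (∫ r in Ioi (0:ℝ), ker c r s * ph c (a x) r) ∂m =
        ∫ r in Ioi (0:ℝ), ker c r s * k (s, r) := by
      have h5 : ∀ x, ef m a c (s, x) * (∫ r in Ioi (0:ℝ), ker c r s * ph c (a x) r) =
          ∫ r in Ioi (0:ℝ), ef m a c (s, x) * (ker c r s * ph c (a x) r) := fun x =>
        (integral_const_mul _ _).symm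
      simp_rw [h5]
      rw [integral_integral_swap hi2]
      refine integral_congr_ae (Eventually.of_forall fun r => ?_)
      change ∫ x, ef m a c (s, x) * (ker c r s * ph c (a x) r) ∂m =
        ker c r s * ∫ x, ef m a c (s, x) * ph c (a x) r ∂m
      rw [← integral_const_mul]
      refine integral_congr_ae (Eventually.of_forall fun x => ?_)
      change ef m a c (s, x) * (ker c r s * ph c (a x) r) =
        ker c r s * (ef m a c (s, x) * ph c (a x) r)
      ring
    have hi3 : Integrable (fun x => ef m a c (s, x) *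
        (∫ r in Ioi (0:ℝ), ker c r s * ph c (a x) r)) m := by
      have h5 : ∀ x, ef m a c (s, x) * (∫ r in Ioi (0:ℝ), ker c r s * ph c (a x) r) =
          ∫ r in Ioi (0:ℝ), ef m a c (s, x) * (ker c r s * ph c (a x) r) := fun x =>
        (integral_const_mul _ _).symm
      simp_rw [h5]
      exact hi2.integral_prod_left
    have h6 : ∀ x, ef m a c (s, x) * ps c (a x) s =
        s / 2 * (ef m a c (s, x) * ph c (a x) s) +
        1 / 2 * (ef m a c (s, x) * (∫ r in Ioi (0:ℝ), ker c r s * ph c (a x) r)) := by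
      intro x
      rw [ps_eq hs']; ring
    simp_rw [h6]
    rw [integral_add (hi1.const_mul _) (hi3.const_mul _), integral_const_mul,
      integral_const_mul, h4]
    change s / 2 * k (s, s) + _ = 1 / 2 * (s * k (s, s) + _)
    ring
  rw [hG]
  exact mul_nonneg (by norm_num) hkey

end

end R273.Dv
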