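import Pool.Agent.R273.DvMono

/-!
MP_8bcfe8_an: monotonicity of the length.
-/

namespace R273.Dv

open MeasureTheory Set Real Filter

variable {X : Type*} [MeasurableSpace X] {m : Measure X} [IsFiniteMeasure m] {a : X → ℝ}

lemma ae_pos_prod : ∀ᵐ z ∂((volume.restrict (Ioi (0:ℝ))).prod m), 0 < z.1 := by
  have h1 : (volume.restrict (Ioi (0:ℝ))).prod m =
      (volume.prod m).restrict (Ioi (0 : ℝ) ×ˢ univ) := by
    rw [← Measure.prod_restrict, Measure.restrict_univ]
  rw [h1]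
  exact (ae_restrict_iff' (measurableSet_Ioi.prod MeasurableSet.univ)).2
    (Eventually.of_forall fun z hz => hz.1)

/-- `G` is continuous in the damping. -/
lemma continuousOn_Gf (ha : Measurable a) {δ M c₁ c₂ c : ℝ} (hδ : 0 < δ)
    (hc1 : c₁ ≤ c) (hc2 : c ≤ c₂)
    (hph : ∀ τ, c₁ ≤ τ → τ ≤ c₂ → ∀ x s, 0 ≤ s → |ph τ (a x) s| ≤ M * exp (-δ * s))
    (hps : ∀ τ, c₁ ≤ τ → τ ≤ c₂ → ∀ x s, 0 ≤ s → |ps τ (a x) s| ≤ M * exp (-δ * s)) :
    ContinuousOn (Gf m a c) (Icc c₁ c₂) := by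
  unfold Gf
  refine continuousOn_of_dominated (bound := fun z => M * |ef m a c z * exp (-δ * z.1)|)
    (fun τ _ => ((measurable_ef ha c).mul (measurable_ps_prod ha τ)).aestronglyMeasurable)
    (fun τ hτ => ?_) ((integrable_ef_exp (m := m) ha hδ (hph c hc1 hc2)).abs.const_mul M)
    (Eventually.of_forall fun z => ?_)
  · filter_upwards [ae_pos_prod (m := m)] with z hz
    rw [norm_mul, norm_eq_abs, norm_eq_abs, abs_mul, abs_of_pos (exp_pos _)]
    calc |ef m a c z| * |ps τ (a z.2) z.1| ≤ |ef m a c z| * (M * exp (-δ * z.1)) := by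
          gcongr; exact hps τ hτ.1 hτ.2 z.2 z.1 hz.le
      _ = _ := by ring
  · refine Continuous.continuousOn ?_
    exact continuous_const.mul
      (continuous_ps.comp (by fun_prop : Continuous fun τ : ℝ => (τ, a z.2, z.1)))

/-- The length is continuous in the damping. -/
lemma continuousOn_Lf (ha : Measurable a) {δ M c₁ c₂ : ℝ} (hδ : 0 < δ) (hM : 0 ≤ M)
    (hph : ∀ τ, c₁ ≤ τ → τ ≤ c₂ → ∀ x s, 0 ≤ s → |ph τ (a x) s| ≤ M * exp (-δ * s)) :
    ContinuousOn (Lf m a) (Icc c₁ c₂) := by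
  unfold Lf
  refine continuousOn_of_dominated
    (bound := fun s => M * √(m.real univ) * exp (-δ * s))
    (fun τ _ => (measurable_Nf ha τ).aestronglyMeasurable)
    (fun τ hτ => ?_) ((integrableOn_exp_neg hδ 0).const_mul _) ?_
  · refine (ae_restrict_iff' measurableSet_Ioi).2 (Eventually.of_forall fun s hs => ?_)
    rw [norm_eq_abs, abs_of_nonneg (Nf_nonneg _ _)]
    have := Nf_le (m := m) (by positivity : 0 ≤ M * exp (-δ * s))
      (fun x => hph τ hτ.1 hτ.2 x s (le_of_lt hs))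
    linarith
  · refine (ae_restrict_iff' measurableSet_Ioi).2 (Eventually.of_forall fun s hs => ?_)
    unfold Nf
    refine ContinuousOn.sqrt ?_
    refine continuousOn_of_dominated (bound := fun _ => (M * exp (-δ * s)) ^ 2)
      (fun τ _ => ((measurable_ph_right ha τ s).pow_const 2).aestronglyMeasurable)
      (fun τ hτ => Eventually.of_forall fun x => ?_) (integrable_const _)
      (Eventually.of_forall fun x => ?_)
    · rw [norm_eq_abs, abs_pow]
      have := hph τ hτ.1 hτ.2 x s (le_of_lt hs)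
      gcongr
    · refine Continuous.continuousOn ?_
      exact (continuous_ph.comp (by fun_prop : Continuous fun τ : ℝ => (τ, a x, s))).pow 2

lemma integrable_Nf (ha : Measurable a) {δ M c : ℝ} (hδ : 0 < δ) (hM : 0 ≤ M)
    (hph : ∀ x s, 0 ≤ s → |ph c (a x) s| ≤ M * exp (-δ * s)) :
    IntegrableOn (Nf m a c) (Ioi 0) := by
  have h1 : IntegrableOn (fun s => M * √(m.real univ) * exp (-δ * s)) (Ioi 0) :=
    (integrableOn_exp_neg hδ 0).const_mul _
  refine Integrable.mono' h1 (measurable_Nf ha c).aestronglyMeasurable ?_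
  refine (ae_restrict_iff' measurableSet_Ioi).2 (Eventually.of_forall fun s hs => ?_)
  rw [norm_eq_abs, abs_of_nonneg (Nf_nonneg _ _)]
  have := Nf_le (m := m) (by positivity : 0 ≤ M * exp (-δ * s))
    (fun x => hph x s (le_of_lt hs))
  linarith

/-- The difference of two lengths is bounded below by the integral of `G`. -/
lemma le_Lf_sub (ha : Measurable a) {δ M c₁ c₂ c c' : ℝ} (hδ : 0 < δ) (hM : 0 ≤ M)
    (hc1 : 0 < c₁) (h1 : c₁ ≤ c) (h2 : c ≤ c') (h3 : c' ≤ c₂)
    (hph : ∀ τ, c₁ ≤ τ → τ ≤ c₂ → ∀ x s, 0 ≤ s → |ph τ (a x) s| ≤ M * exp (-δ * s))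
    (hps : ∀ τ, c₁ ≤ τ → τ ≤ c₂ → ∀ x s, 0 ≤ s → |ps τ (a x) s| ≤ M * exp (-δ * s)) :
    ∫ τ in c..c', Gf m a c' τ ≤ Lf m a c - Lf m a c' := by
  set ν : Measure ℝ := volume.restrict (Ioi 0) with hν
  have hphc := hph c h1 (h2.trans h3)
  have hphc' := hph c' (h1.trans h2) h3
  have hI : Integrable (fun z : ℝ × X => ef m a c' z * ph c (a z.2) z.1) (ν.prod m) :=
    integrable_ef_mul (measurable_ph_prod ha c) ha hδ hphc' fun x s hs => hphc x s hs.le
  have hI' : Integrable (fun z : ℝ × X => ef m a c' z * ph c' (a z.2) z.1) (ν.prod m) :=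
    integrable_ef_mul (measurable_ph_prod ha c') ha hδ hphc' fun x s hs => hphc' x s hs.le
  have hA : ∫ z, ef m a c' z * ph c (a z.2) z.1 ∂(ν.prod m) ≤ Lf m a c := by
    rw [integral_prod _ hI]
    refine integral_mono_ae hI.integral_prod_left (integrable_Nf ha hδ hM hphc) ?_
    refine (ae_restrict_iff' measurableSet_Ioi).2 (Eventually.of_forall fun s hs => ?_)
    exact (le_abs_self _).trans (cs_le m (integrable_ef_sq ha fun x => hphc' x s (le_of_lt hs))
      (integrable_ph_sq ha fun x => hphc x s (le_of_lt hs)) (integral_ef_sq_le c' s))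
  have hB : ∫ z, ef m a c' z * ph c' (a z.2) z.1 ∂(ν.prod m) = Lf m a c' := by
    rw [integral_prod _ hI']
    refine integral_congr_ae (Eventually.of_forall fun s => ?_)
    exact integral_ef_mul_ph c' s
  have hC : ∫ z, ef m a c' z * ph c (a z.2) z.1 ∂(ν.prod m) -
      ∫ z, ef m a c' z * ph c' (a z.2) z.1 ∂(ν.prod m) = ∫ τ in c..c', Gf m a c' τ := by
    rw [← integral_sub hI hI', intervalIntegral.integral_of_le h2]
    have h4 : ∀ z : ℝ × X, ef m a c' z * ph c (a z.2) z.1 - ef m a c' z * ph c' (a z.2) z.1 =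
        ∫ τ in Ioc c c', ef m a c' z * ps τ (a z.2) z.1 := by
      intro z
      rw [← mul_sub, ← ph_sub_ph (hc1.trans_le h1) h2, integral_const_mul,
        intervalIntegral.integral_of_le h2]
    simp_rw [h4]
    have hint : Integrable (Function.uncurry fun (z : ℝ × X) (τ : ℝ) =>
        ef m a c' z * ps τ (a z.2) z.1) ((ν.prod m).prod (volume.restrict (Ioc c c'))) := by
      have h5 : Integrable (fun q : (ℝ × X) × ℝ => M * |ef m a c' q.1 * exp (-δ * q.1.1)| * 1)
          ((ν.prod m).prod (volume.restrict (Ioc c c'))) :=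
        Integrable.mul_prod (f := fun z : ℝ × X => M * |ef m a c' z * exp (-δ * z.1)|)
          (g := fun _ : ℝ => (1:ℝ))
          ((integrable_ef_exp (m := m) ha hδ hphc').abs.const_mul M) (integrable_const 1)
      refine h5.mono' ?_ ?_
      · refine Measurable.aestronglyMeasurable ?_
        exact ((measurable_ef ha c').comp measurable_fst).mul
          (continuous_ps.measurable.comp
            (by fun_prop : Measurable fun q : (ℝ × X) × ℝ => (q.2, a q.1.2, q.1.1)))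
      · have h6 : ∀ᵐ q ∂((ν.prod m).prod (volume.restrict (Ioc c c'))), 0 < q.1.1 :=
          Measure.quasiMeasurePreserving_fst.ae (ae_pos_prod (m := m))
        have h7 : ∀ᵐ q ∂((ν.prod m).prod (volume.restrict (Ioc c c'))), q.2 ∈ Ioc c c' :=
          Measure.quasiMeasurePreserving_snd.ae (ae_restrict_mem measurableSet_Ioc)
        filter_upwards [h6, h7] with q hq1 hq2
        rw [Function.uncurry, norm_mul, norm_eq_abs, norm_eq_abs, abs_mul,
          abs_of_pos (exp_pos _)]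
        calc |ef m a c' q.1| * |ps q.2 (a q.1.2) q.1.1|
            ≤ |ef m a c' q.1| * (M * exp (-δ * q.1.1)) := by
              gcongr
              exact hps q.2 (h1.trans hq2.1.le) (hq2.2.trans h3) _ _ hq1.le
          _ = _ := by ring
    exact integral_integral_swap hint
  linarith

/-- The local estimate. -/
lemma local_step (ha : Measurable a) {b δ M c₁ c₂ c' : ℝ} (hb : 0 < b) (hab : ∀ x, b ≤ a x)
    (hδ : 0 < δ) (hM : 0 ≤ M) (hc1 : 0 < c₁) (h1 : c₁ ≤ c') (h3 : c' ≤ c₂)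
    (hph : ∀ τ, c₁ ≤ τ → τ ≤ c₂ → ∀ x s, 0 ≤ s → |ph τ (a x) s| ≤ M * exp (-δ * s))
    (hps : ∀ τ, c₁ ≤ τ → τ ≤ c₂ → ∀ x s, 0 ≤ s → |ps τ (a x) s| ≤ M * exp (-δ * s))
    {ε : ℝ} (hε : 0 < ε) :
    ∃ ρ, 0 < ρ ∧ ∀ c, c₁ ≤ c → c ≤ c' → c' - ρ ≤ c →
      Lf m a c' ≤ Lf m a c + ε * (c' - c) := by
  have hG := continuousOn_Gf (m := m) ha hδ h1 h3 hph hps
  have hG0 : 0 ≤ Gf m a c' c' := Gf_self_nonneg ha hb hab (hc1.trans_le h1)
  obtain ⟨ρ, hρ, hρ'⟩ := Metric.continuousOn_iff.1 hG c' ⟨h1, h3⟩ ε hε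
  refine ⟨ρ / 2, by positivity, fun c hc hcc hcρ => ?_⟩
  have h4 := le_Lf_sub (m := m) ha hδ hM hc1 hc hcc h3 hph hps
  have h5 : ∫ _ in c..c', (-ε) ≤ ∫ τ in c..c', Gf m a c' τ := by
    refine intervalIntegral.integral_mono_on hcc (by simp) ?_ ?_
    · refine ContinuousOn.intervalIntegrable ?_
      rw [uIcc_of_le hcc]
      exact hG.mono (Icc_subset_Icc hc h3)
    · intro τ hτ
      have h6 := hρ' τ ⟨hc.trans hτ.1, hτ.2.trans h3⟩ (by
        rw [dist_eq, abs_sub_comm, abs_of_nonneg (by linarith [hτ.2])]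
        linarith [hτ.1])
      rw [dist_eq] at h6
      have := (abs_lt.1 h6).1
      linarith
  rw [intervalIntegral.integral_const, smul_eq_mul] at h5
  linarith

/-- **Monotonicity of the length.** -/
theorem Lf_antitone (ha : Measurable a) {b c₁ c₂ : ℝ} (hb : 0 < b) (hab : ∀ x, b ≤ a x)
    (hc1 : 0 < c₁) (hcc : c₁ ≤ c₂) : Lf m a c₂ ≤ Lf m a c₁ := by
  obtain ⟨δ, M, hδ, hM, hbd⟩ := bounds hb hc1 hcc
  have hph : ∀ τ, c₁ ≤ τ → τ ≤ c₂ → ∀ x s, 0 ≤ s → |ph τ (a x) s| ≤ M * exp (-δ * s) :=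
    fun τ h1 h2 x s hs => (hbd τ (a x) s h1 h2 (hab x) hs).1
  have hps : ∀ τ, c₁ ≤ τ → τ ≤ c₂ → ∀ x s, 0 ≤ s → |ps τ (a x) s| ≤ M * exp (-δ * s) :=
    fun τ h1 h2 x s hs => (hbd τ (a x) s h1 h2 (hab x) hs).2.1
  have hcont := continuousOn_Lf (m := m) ha hδ hM hph
  have main : ∀ ε, 0 < ε → Lf m a c₂ ≤ Lf m a c₁ + ε * (c₂ - c₁) := by
    intro ε hε
    set S : Set ℝ := {x | Lf m a c₂ ≤ Lf m a (c₂ - x) + ε * x} with hS
    have hclosed : IsClosed (S ∩ Icc 0 (c₂ - c₁)) := by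
      have h1 : ContinuousOn (fun x => Lf m a (c₂ - x) + ε * x) (Icc 0 (c₂ - c₁)) := by
        refine ContinuousOn.add (hcont.comp (by fun_prop) ?_) (by fun_prop)
        intro x hx
        exact ⟨by linarith [hx.2], by linarith [hx.1]⟩
      have h2 := h1.preimage_isClosed_of_isClosed isClosed_Icc (isClosed_Ici (a := Lf m a c₂))
      rw [inter_comm]
      exact h2
    have h0 : (0:ℝ) ∈ S := by simp [hS]
    have hsub := hclosed.Icc_subset_of_forall_exists_gt h0 ?_
    · have h4 : c₂ - c₁ ∈ S := hsub ⟨by linarith, le_rfl⟩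
      simp only [hS, Set.mem_ofPred_eq] at h4
      have h5 : c₂ - (c₂ - c₁) = c₁ := by ring
      rw [h5] at h4
      exact h4
    · rintro x ⟨hxS, hx⟩ y hy
      have hy' : x < y := hy
      obtain ⟨ρ, hρ, hρ'⟩ := local_step (m := m) (c' := c₂ - x) ha hb hab hδ hM hc1
        (by linarith [hx.2]) (by linarith [hx.1]) hph hps hε
      set x' := min y (min (x + ρ) (c₂ - c₁)) with hx'
      have h6 : x < x' := lt_min hy' (lt_min (by linarith) hx.2)
      have h7 : x' ≤ y := min_le_left _ _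
      have h8 : x' ≤ x + ρ := (min_le_right _ _).trans (min_le_left _ _)
      have h9 : x' ≤ c₂ - c₁ := (min_le_right _ _).trans (min_le_right _ _)
      refine ⟨x', ?_, h6, h7⟩
      have h10 := hρ' (c₂ - x') (by linarith) (by linarith) (by linarith)
      simp only [hS, Set.mem_ofPred_eq] at hxS ⊢
      linarith
  refine le_of_forall_pos_le_add fun η hη => ?_
  have h := main (η / (c₂ - c₁ + 1)) (by
    have : 0 ≤ c₂ - c₁ := by linarith
    positivity)
  have h2 : η / (c₂ - c₁ + 1) * (c₂ - c₁) ≤ η := by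
    have h3 : 0 ≤ c₂ - c₁ := by linarith
    rw [div_mul_eq_mul_div, div_le_iff₀ (by linarith)]
    nlinarith
  linarith

end R273.Dv
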