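import Pool.Agent.R273.DvKey

/-!
MP_8bcfe8_an: the scalar propagators.
-/

namespace R273.Dv

open MeasureTheory Set Real

/-- `cos (√D s)` for `D ≥ 0` and `cosh (√(-D) s)` for `D ≤ 0`. -/
noncomputable def Cf (D s : ℝ) : ℝ := cos (√D * s) * cosh (√(-D) * s)

/-- The primitive of `Cf D` vanishing at `0`. -/
noncomputable def Sf (D s : ℝ) : ℝ := ∫ r in (0:ℝ)..s, Cf D r

/-- The primitive of `r * Sf D r` vanishing at `0`. -/
noncomputable def Ef (D s : ℝ) : ℝ := ∫ r in (0:ℝ)..s, r * Sf D r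

/-- The solution `h` of `h'' + c h' + l h = 0`, `h 0 = 0`, `h' 0 = 1`. -/
noncomputable def hh (c l s : ℝ) : ℝ := exp (-(c / 2) * s) * Sf (l - c ^ 2 / 4) s

/-- The derivative in time of `hh c l`. -/
noncomputable def ph (c l s : ℝ) : ℝ :=
  exp (-(c / 2) * s) * (Cf (l - c ^ 2 / 4) s - c / 2 * Sf (l - c ^ 2 / 4) s)

/-- Minus the derivative of `ph c l s` in `c`. -/
noncomputable def ps (c l s : ℝ) : ℝ :=
  s / 2 * ph c l s + 1 / 2 * (exp (-(c / 2) * s) *
    (Sf (l - c ^ 2 / 4) s - c * s / 2 * Sf (l - c ^ 2 / 4) s +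
      c ^ 2 / 4 * Ef (l - c ^ 2 / 4) s))

lemma continuous_Cf : Continuous (fun p : ℝ × ℝ => Cf p.1 p.2) := by
  unfold Cf; fun_prop

lemma continuous_Sf : Continuous (fun p : ℝ × ℝ => Sf p.1 p.2) := by
  unfold Sf
  refine intervalIntegral.continuous_parametric_intervalIntegral_of_continuous
    (f := fun (p : ℝ × ℝ) r => Cf p.1 r) ?_ continuous_snd
  exact continuous_Cf.comp (by fun_prop : Continuous fun q : (ℝ × ℝ) × ℝ => (q.1.1, q.2))

lemma continuous_Ef : Continuous (fun p : ℝ × ℝ => Ef p.1 p.2) := by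
  unfold Ef
  refine intervalIntegral.continuous_parametric_intervalIntegral_of_continuous
    (f := fun (p : ℝ × ℝ) r => r * Sf p.1 r) ?_ continuous_snd
  exact continuous_snd.mul
    (continuous_Sf.comp (by fun_prop : Continuous fun q : (ℝ × ℝ) × ℝ => (q.1.1, q.2)))

lemma continuous_Cf_right (D : ℝ) : Continuous (Cf D) :=
  continuous_Cf.comp (by fun_prop : Continuous fun s : ℝ => (D, s))

lemma continuous_Sf_right (D : ℝ) : Continuous (Sf D) :=
  continuous_Sf.comp (by fun_prop : Continuous fun s : ℝ => (D, s))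

@[simp] lemma Sf_zero_right (D : ℝ) : Sf D 0 = 0 := by simp [Sf]
@[simp] lemma Ef_zero_right (D : ℝ) : Ef D 0 = 0 := by simp [Ef]
@[simp] lemma Cf_zero_right (D : ℝ) : Cf D 0 = 1 := by simp [Cf]

lemma hasDerivAt_Sf (D s : ℝ) : HasDerivAt (Sf D) (Cf D s) s := by
  unfold Sf
  exact intervalIntegral.integral_hasDerivAt_right
    ((continuous_Cf_right D).intervalIntegrable _ _)
    ((continuous_Cf_right D).stronglyMeasurableAtFilter _ _)
    (continuous_Cf_right D).continuousAt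

lemma hasDerivAt_Ef (D s : ℝ) : HasDerivAt (Ef D) (s * Sf D s) s := by
  unfold Ef
  have h : Continuous fun r => r * Sf D r := continuous_id.mul (continuous_Sf_right D)
  exact intervalIntegral.integral_hasDerivAt_right (h.intervalIntegrable _ _)
    (h.stronglyMeasurableAtFilter _ _) h.continuousAt

lemma Cf_of_nonneg {D : ℝ} (hD : 0 ≤ D) (s : ℝ) : Cf D s = cos (√D * s) := by
  unfold Cf
  rw [sqrt_eq_zero_of_nonpos (by linarith : -D ≤ 0)]; simp

lemma Cf_of_nonpos {D : ℝ} (hD : D ≤ 0) (s : ℝ) : Cf D s = cosh (√(-D) * s) := by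
  unfold Cf
  rw [sqrt_eq_zero_of_nonpos hD]; simp

lemma Sf_of_pos {D : ℝ} (hD : 0 < D) (s : ℝ) : Sf D s = sin (√D * s) / √D := by
  have hω : 0 < √D := sqrt_pos.2 hD
  unfold Sf
  have h1 : ∀ r ∈ uIcc (0:ℝ) s, HasDerivAt (fun r => sin (√D * r) / √D) (Cf D r) r := by
    intro r _
    have h2 : HasDerivAt (fun r => √D * r) (√D) r := by
      simpa using (hasDerivAt_id r).const_mul (√D)
    have h3 := (h2.sin).div_const (√D)
    refine h3.congr_deriv ?_
    rw [Cf_of_nonneg hD.le]; field_simp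
  rw [intervalIntegral.integral_eq_sub_of_hasDerivAt h1
    ((continuous_Cf_right D).intervalIntegrable _ _)]
  simp

lemma Sf_of_neg {D : ℝ} (hD : D < 0) (s : ℝ) : Sf D s = sinh (√(-D) * s) / √(-D) := by
  have hω : 0 < √(-D) := sqrt_pos.2 (by linarith)
  unfold Sf
  have h1 : ∀ r ∈ uIcc (0:ℝ) s, HasDerivAt (fun r => sinh (√(-D) * r) / √(-D)) (Cf D r) r := by
    intro r _
    have h2 : HasDerivAt (fun r => √(-D) * r) (√(-D)) r := by
      simpa using (hasDerivAt_id r).const_mul (√(-D))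
    have h3 := (h2.sinh).div_const (√(-D))
    refine h3.congr_deriv ?_
    rw [Cf_of_nonpos hD.le]; field_simp
  rw [intervalIntegral.integral_eq_sub_of_hasDerivAt h1
    ((continuous_Cf_right D).intervalIntegrable _ _)]
  simp

lemma hasDerivAt_Cf (D s : ℝ) : HasDerivAt (Cf D) (-D * Sf D s) s := by
  rcases lt_trichotomy D 0 with hD | hD | hD
  · have hω : 0 < √(-D) := sqrt_pos.2 (by linarith)
    have hsq : √(-D) * √(-D) = -D := mul_self_sqrt (by linarith)
    have h0 : Cf D = fun s => cosh (√(-D) * s) := funext fun s => Cf_of_nonpos hD.le s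
    rw [h0, Sf_of_neg hD]
    have h2 : HasDerivAt (fun r => √(-D) * r) (√(-D)) s := by
      simpa using (hasDerivAt_id s).const_mul (√(-D))
    refine h2.cosh.congr_deriv ?_
    have h3 : -D * (sinh (√(-D) * s) / √(-D)) = √(-D) * sinh (√(-D) * s) := by
      nth_rewrite 1 [← hsq]; field_simp
    linarith
  · subst hD
    have h0 : Cf 0 = fun _ => 1 := funext fun s => by simp [Cf]
    rw [h0]; simpa using hasDerivAt_const s (1:ℝ)
  · have hω : 0 < √D := sqrt_pos.2 hD
    have hsq : √D * √D = D := mul_self_sqrt hD.le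
    have h0 : Cf D = fun s => cos (√D * s) := funext fun s => Cf_of_nonneg hD.le s
    rw [h0, Sf_of_pos hD]
    have h2 : HasDerivAt (fun r => √D * r) (√D) s := by
      simpa using (hasDerivAt_id s).const_mul (√D)
    refine h2.cos.congr_deriv ?_
    have h3 : D * (sin (√D * s) / √D) = √D * sin (√D * s) := by
      nth_rewrite 1 [← hsq]; field_simp
    linarith

/-- `D * E = S - s C`. -/
lemma mul_Ef (D s : ℝ) : D * Ef D s = Sf D s - s * Cf D s := by
  have h1 : ∀ r ∈ uIcc (0:ℝ) s,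
      HasDerivAt (fun r => Sf D r - r * Cf D r) (D * (r * Sf D r)) r := by
    intro r _
    have h2 := (hasDerivAt_Sf D r).sub ((hasDerivAt_id r).mul (hasDerivAt_Cf D r))
    refine h2.congr_deriv ?_
    simp only [id]; ring
  have h : Continuous fun r => D * (r * Sf D r) :=
    continuous_const.mul (continuous_id.mul (continuous_Sf_right D))
  have h3 := intervalIntegral.integral_eq_sub_of_hasDerivAt h1 (h.intervalIntegrable _ _)
  rw [intervalIntegral.integral_const_mul] at h3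
  unfold Ef
  rw [h3]; simp

lemma hasDerivAt_Cf_left {D : ℝ} (hD : D ≠ 0) (s : ℝ) :
    HasDerivAt (fun D => Cf D s) (-(s / 2) * Sf D s) D := by
  rcases lt_or_gt_of_ne hD with hD | hD
  · have hω : 0 < √(-D) := sqrt_pos.2 (by linarith)
    have h0 : (fun D => Cf D s) =ᶠ[nhds D] fun D => cosh (√(-D) * s) := by
      filter_upwards [Iio_mem_nhds hD] with x hx
      exact Cf_of_nonpos (le_of_lt hx) s
    refine HasDerivAt.congr_of_eventuallyEq ?_ h0
    rw [Sf_of_neg hD]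
    have h1 : HasDerivAt (fun D : ℝ => √(-D)) (-1 / (2 * √(-D))) D :=
      (hasDerivAt_neg D).sqrt (by linarith)
    refine ((h1.mul_const s).cosh).congr_deriv ?_
    field_simp
  · have hω : 0 < √D := sqrt_pos.2 hD
    have h0 : (fun D => Cf D s) =ᶠ[nhds D] fun D => cos (√D * s) := by
      filter_upwards [Ioi_mem_nhds hD] with x hx
      exact Cf_of_nonneg (le_of_lt hx) s
    refine HasDerivAt.congr_of_eventuallyEq ?_ h0
    rw [Sf_of_pos hD]
    have h1 : HasDerivAt (fun D : ℝ => √D) (1 / (2 * √D)) D :=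
      (hasDerivAt_id D).sqrt (by simpa using hD.ne')
    refine ((h1.mul_const s).cos).congr_deriv ?_
    field_simp

lemma hasDerivAt_Sf_left {D : ℝ} (hD : D ≠ 0) (s : ℝ) :
    HasDerivAt (fun D => Sf D s) (-(1 / 2) * Ef D s) D := by
  have hE : Ef D s = (Sf D s - s * Cf D s) / D := by
    rw [← mul_Ef]; field_simp
  rw [hE]
  rcases lt_or_gt_of_ne hD with hD | hD
  · have hω : 0 < √(-D) := sqrt_pos.2 (by linarith)
    have hsq : √(-D) ^ 2 = -D := sq_sqrt (by linarith)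
    have h0 : (fun D => Sf D s) =ᶠ[nhds D] fun D => sinh (√(-D) * s) / √(-D) := by
      filter_upwards [Iio_mem_nhds hD] with x hx
      exact Sf_of_neg hx s
    refine HasDerivAt.congr_of_eventuallyEq ?_ h0
    rw [Sf_of_neg hD, Cf_of_nonpos hD.le]
    have h1 : HasDerivAt (fun D : ℝ => √(-D)) (-1 / (2 * √(-D))) D :=
      (hasDerivAt_neg D).sqrt (by linarith)
    refine (((h1.mul_const s).sinh).div h1 hω.ne').congr_deriv ?_
    have hD2 : D = -√(-D) ^ 2 := by rw [hsq]; ring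
    generalize √(-D) = w at *
    subst hD2
    field_simp
    ring
  · have hω : 0 < √D := sqrt_pos.2 hD
    have hsq : √D ^ 2 = D := sq_sqrt hD.le
    have h0 : (fun D => Sf D s) =ᶠ[nhds D] fun D => sin (√D * s) / √D := by
      filter_upwards [Ioi_mem_nhds hD] with x hx
      exact Sf_of_pos hx s
    refine HasDerivAt.congr_of_eventuallyEq ?_ h0
    rw [Sf_of_pos hD, Cf_of_nonneg hD.le]
    have h1 : HasDerivAt (fun D : ℝ => √D) (1 / (2 * √D)) D :=
      (hasDerivAt_id D).sqrt (by simpa using hD.ne')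
    refine (((h1.mul_const s).sin).div h1 hω.ne').congr_deriv ?_
    generalize √D = w at *
    subst hsq
    field_simp
    ring

/-! ### The differential equation -/

lemma hasDerivAt_exp_half (c s : ℝ) :
    HasDerivAt (fun s => exp (-(c / 2) * s)) (exp (-(c / 2) * s) * -(c / 2)) s := by
  have h2 : HasDerivAt (fun r => -(c / 2) * r) (-(c / 2)) s := by
    simpa using (hasDerivAt_id s).const_mul (-(c / 2))
  exact h2.exp

lemma hasDerivAt_hh (c l s : ℝ) : HasDerivAt (hh c l) (ph c l s) s := by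
  have h := (hasDerivAt_exp_half c s).mul (hasDerivAt_Sf (l - c ^ 2 / 4) s)
  refine HasDerivAt.congr_deriv (f := hh c l) h ?_
  unfold ph; ring

lemma hasDerivAt_ph (c l s : ℝ) : HasDerivAt (ph c l) (-c * ph c l s - l * hh c l s) s := by
  have h := (hasDerivAt_exp_half c s).mul ((hasDerivAt_Cf (l - c ^ 2 / 4) s).sub
    ((hasDerivAt_Sf (l - c ^ 2 / 4) s).const_mul (c / 2)))
  refine HasDerivAt.congr_deriv (f := ph c l) h ?_
  unfold ph hh; simp only [Pi.sub_apply]; ring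

@[simp] lemma hh_zero (c l : ℝ) : hh c l 0 = 0 := by simp [hh]
@[simp] lemma ph_zero (c l : ℝ) : ph c l 0 = 1 := by simp [ph]

/-! ### Continuity and measurability -/

lemma continuous_ph : Continuous (fun q : ℝ × ℝ × ℝ => ph q.1 q.2.1 q.2.2) := by
  unfold ph
  have h1 : Continuous fun q : ℝ × ℝ × ℝ => (q.2.1 - q.1 ^ 2 / 4, q.2.2) := by fun_prop
  have h2 := continuous_Cf.comp h1
  have h3 := continuous_Sf.comp h1
  simp only [Function.comp_def] at h2 h3
  fun_prop

lemma continuous_hh : Continuous (fun q : ℝ × ℝ × ℝ => hh q.1 q.2.1 q.2.2) := by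
  unfold hh
  have h1 : Continuous fun q : ℝ × ℝ × ℝ => (q.2.1 - q.1 ^ 2 / 4, q.2.2) := by fun_prop
  have h3 := continuous_Sf.comp h1
  simp only [Function.comp_def] at h3
  fun_prop

lemma continuous_ps : Continuous (fun q : ℝ × ℝ × ℝ => ps q.1 q.2.1 q.2.2) := by
  unfold ps
  have h1 : Continuous fun q : ℝ × ℝ × ℝ => (q.2.1 - q.1 ^ 2 / 4, q.2.2) := by fun_prop
  have h2 := continuous_Ef.comp h1
  have h3 := continuous_Sf.comp h1
  have h4 := continuous_ph
  simp only [Function.comp_def] at h2 h3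
  fun_prop

/-! ### The derivative in the damping -/

lemma hasDerivAt_ph_left {c l : ℝ} (hD : l - c ^ 2 / 4 ≠ 0) (s : ℝ) :
    HasDerivAt (fun c => ph c l s) (-ps c l s) c := by
  have hD1 : HasDerivAt (fun c : ℝ => l - c ^ 2 / 4) (-(c / 2)) c := by
    have := ((hasDerivAt_pow 2 c).div_const 4).const_sub l
    refine this.congr_deriv ?_
    norm_num; ring
  have hC : HasDerivAt (fun c => Cf (l - c ^ 2 / 4) s)
      (-(s / 2) * Sf (l - c ^ 2 / 4) s * -(c / 2)) c :=
    HasDerivAt.comp (h₂ := fun D => Cf D s) c (hasDerivAt_Cf_left hD s) hD1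
  have hS : HasDerivAt (fun c => Sf (l - c ^ 2 / 4) s)
      (-(1 / 2) * Ef (l - c ^ 2 / 4) s * -(c / 2)) c :=
    HasDerivAt.comp (h₂ := fun D => Sf D s) c (hasDerivAt_Sf_left hD s) hD1
  have he : HasDerivAt (fun c : ℝ => exp (-(c / 2) * s)) (exp (-(c / 2) * s) * -(s / 2)) c := by
    have h2 : HasDerivAt (fun c : ℝ => -(c / 2) * s) (-(1 / 2) * s) c :=
      (((hasDerivAt_id c).div_const 2).neg).mul_const s
    refine h2.exp.congr_deriv ?_
    ring
  have hc2 : HasDerivAt (fun c : ℝ => c / 2) (1 / 2) c := (hasDerivAt_id c).div_const 2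
  have h := he.mul (hC.sub (hc2.mul hS))
  refine HasDerivAt.congr_deriv (f := fun c => ph c l s) h ?_
  unfold ps ph; simp only [Pi.sub_apply, Pi.mul_apply]; ring

/-- The integrated form of the derivative in the damping. -/
lemma ph_sub_ph {c c' : ℝ} (hc : 0 < c) (hcc : c ≤ c') (l s : ℝ) :
    ∫ τ in c..c', ps τ l s = ph c l s - ph c' l s := by
  have h1 : Continuous fun τ => ph τ l s :=
    continuous_ph.comp (by fun_prop : Continuous fun τ : ℝ => (τ, l, s))
  have h2 : Continuous fun τ => ps τ l s :=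
    continuous_ps.comp (by fun_prop : Continuous fun τ : ℝ => (τ, l, s))
  have h3 := MeasureTheory.integral_eq_of_hasDerivAt_off_countable_of_le
    (f := fun τ => ph τ l s) (f' := fun τ => -ps τ l s) hcc
    (s := {2 * √l}) (countable_singleton _) h1.continuousOn ?_
    (h2.neg.intervalIntegrable _ _)
  · rw [intervalIntegral.integral_neg] at h3
    linarith
  · intro x hx
    refine hasDerivAt_ph_left ?_ s
    intro h0
    apply hx.2
    have hx0 : 0 < x := hc.trans hx.1.1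
    have : l = (x / 2) ^ 2 := by linarith [h0, (by ring : (x / 2) ^ 2 = x ^ 2 / 4)]
    rw [mem_singleton_iff, this, sqrt_sq (by positivity)]; ring

/-- The retarded integral of `ph`. -/
lemma integral_ker_ph {c l s : ℝ} (hs : 0 < s) :
    ∫ r in Ioi 0, ker c r s * ph c l r = exp (-(c / 2) * s) *
      (Sf (l - c ^ 2 / 4) s - c * s / 2 * Sf (l - c ^ 2 / 4) s +
        c ^ 2 / 4 * Ef (l - c ^ 2 / 4) s) := by
  set D := l - c ^ 2 / 4 with hD
  have h1 : ∀ r, ker c r s * ph c l r = (Iio s).indicator (fun r =>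
      exp (-(c / 2) * s) * ((1 - c * r / 2) * (Cf D r - c / 2 * Sf D r))) r := by
    intro r
    unfold ker ph
    by_cases h : r < s
    · rw [if_pos h, indicator_of_mem (mem_Iio.2 h)]
      have : exp (-(c / 2) * (s - r)) * exp (-(c / 2) * r) = exp (-(c / 2) * s) := by
        rw [← exp_add]; congr 1; ring
      rw [← this]; ring
    · rw [if_neg h, indicator_of_notMem (by simpa using h), zero_mul]
  simp_rw [h1]
  rw [setIntegral_indicator measurableSet_Iio]
  have h2 : Ioi (0:ℝ) ∩ Iio s = Ioo 0 s := rfl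
  rw [h2, ← integral_Ioc_eq_integral_Ioo, ← intervalIntegral.integral_of_le hs.le,
    intervalIntegral.integral_const_mul]
  congr 1
  have h3 : ∀ r ∈ uIcc (0:ℝ) s, HasDerivAt
      (fun r => Sf D r - c * r / 2 * Sf D r + c ^ 2 / 4 * Ef D r)
      ((1 - c * r / 2) * (Cf D r - c / 2 * Sf D r)) r := by
    intro r _
    have h5 : HasDerivAt (fun r : ℝ => c * r / 2) (c / 2) r := by
      simpa using ((hasDerivAt_id r).const_mul c).div_const 2
    have h4 := ((hasDerivAt_Sf D r).sub (h5.mul (hasDerivAt_Sf D r))).add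
      ((hasDerivAt_Ef D r).const_mul (c ^ 2 / 4))
    refine h4.congr_deriv ?_
    ring
  rw [intervalIntegral.integral_eq_sub_of_hasDerivAt h3]
  · simp
  · have := continuous_Cf_right D
    have := continuous_Sf_right D
    exact (by fun_prop : Continuous fun r => (1 - c * r / 2) *
      (Cf D r - c / 2 * Sf D r)).intervalIntegrable _ _

lemma ps_eq {c l s : ℝ} (hs : 0 < s) :
    ps c l s = s / 2 * ph c l s + 1 / 2 * ∫ r in Ioi 0, ker c r s * ph c l r := by
  rw [integral_ker_ph hs]; rfl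

/-! ### Bounds -/

lemma abs_Cf_le (D : ℝ) {s : ℝ} (hs : 0 ≤ s) : |Cf D s| ≤ exp (√(-D) * s) := by
  unfold Cf
  rw [abs_mul, abs_of_pos (cosh_pos _)]
  have h1 := abs_cos_le_one (√D * s)
  have h2 : 0 ≤ √(-D) * s := by positivity
  have h3 : cosh (√(-D) * s) ≤ exp (√(-D) * s) := by
    rw [cosh_eq]
    have : exp (-(√(-D) * s)) ≤ exp (√(-D) * s) := exp_le_exp.2 (by linarith)
    linarith
  have h4 := cosh_pos (√(-D) * s)
  nlinarith [abs_nonneg (cos (√D * s))]

lemma abs_Sf_le (D : ℝ) {s : ℝ} (hs : 0 ≤ s) : |Sf D s| ≤ s * exp (√(-D) * s) := by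
  unfold Sf
  have h := intervalIntegral.norm_integral_le_of_norm_le_const
    (a := (0:ℝ)) (b := s) (C := exp (√(-D) * s)) (f := Cf D) ?_
  · rw [norm_eq_abs, sub_zero, abs_of_nonneg hs] at h
    linarith
  · intro r hr
    rw [uIoc_of_le hs] at hr
    rw [norm_eq_abs]
    refine (abs_Cf_le D hr.1.le).trans (exp_le_exp.2 ?_)
    have := sqrt_nonneg (-D)
    have := hr.2
    nlinarith

lemma abs_Ef_le (D : ℝ) {s : ℝ} (hs : 0 ≤ s) : |Ef D s| ≤ s ^ 3 * exp (√(-D) * s) := by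
  unfold Ef
  have h := intervalIntegral.norm_integral_le_of_norm_le_const
    (a := (0:ℝ)) (b := s) (C := s ^ 2 * exp (√(-D) * s)) (f := fun r => r * Sf D r) ?_
  · rw [norm_eq_abs, sub_zero, abs_of_nonneg hs] at h
    linarith
  · intro r hr
    rw [uIoc_of_le hs] at hr
    rw [norm_eq_abs, abs_mul, abs_of_pos hr.1]
    have h1 := abs_Sf_le D hr.1.le
    have h2 : exp (√(-D) * r) ≤ exp (√(-D) * s) := by
      apply exp_le_exp.2
      have := sqrt_nonneg (-D)
      have := hr.2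
      nlinarith
    have h3 := exp_pos (√(-D) * r)
    have h4 := exp_pos (√(-D) * s)
    have h5 := hr.2
    have h6 := hr.1
    calc r * |Sf D r| ≤ r * (r * exp (√(-D) * r)) := by gcongr
      _ ≤ s * (s * exp (√(-D) * s)) := by gcongr
      _ = s ^ 2 * exp (√(-D) * s) := by ring

/-- The rate of decay. -/
lemma sqrt_neg_le {b c₁ c₂ c l δ : ℝ} (h1 : c₁ ≤ c) (h2 : c ≤ c₂)
    (hl : b ≤ l) (hδ0 : 0 < δ) (hδ1 : δ ≤ c₁ / 2) (hδ2 : δ * c₂ ≤ b) :
    √(-(l - c ^ 2 / 4)) ≤ c / 2 - δ := by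
  rw [sqrt_le_iff]
  constructor
  · linarith
  · nlinarith

lemma exp_half_mul_le {b c₁ c₂ c l δ : ℝ} (h1 : c₁ ≤ c) (h2 : c ≤ c₂)
    (hl : b ≤ l) (hδ0 : 0 < δ) (hδ1 : δ ≤ c₁ / 2) (hδ2 : δ * c₂ ≤ b)
    {s : ℝ} (hs : 0 ≤ s) :
    exp (-(c / 2) * s) * exp (√(-(l - c ^ 2 / 4)) * s) ≤ exp (-δ * s) := by
  rw [← exp_add]
  apply exp_le_exp.2
  have := sqrt_neg_le h1 h2 hl hδ0 hδ1 hδ2
  nlinarith

lemma pow_le_exp {x s : ℝ} (hx : 0 < x) (hs : 0 ≤ s) (k : ℕ) :
    s ^ k ≤ k.factorial / x ^ k * exp (x * s) := by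
  have h := pow_div_factorial_le_exp (x * s) (by positivity) k
  rw [div_le_iff₀ (by positivity), mul_pow] at h
  rw [div_mul_eq_mul_div, le_div_iff₀ (by positivity)]
  linarith

lemma poly_le_exp {x : ℝ} (hx : 0 < x) {p0 p1 p2 p3 : ℝ} (h0 : 0 ≤ p0) (h1 : 0 ≤ p1)
    (h2 : 0 ≤ p2) (h3 : 0 ≤ p3) : ∃ M, 0 ≤ M ∧ ∀ s, 0 ≤ s →
    (p0 + p1 * s + p2 * s ^ 2 + p3 * s ^ 3) * exp (-(2 * x) * s) ≤ M * exp (-x * s) := by
  refine ⟨p0 + p1 * (1 / x) + p2 * (2 / x ^ 2) + p3 * (6 / x ^ 3), by positivity, ?_⟩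
  intro s hs
  have k0 : 1 ≤ exp (x * s) := one_le_exp (by positivity)
  have k1 := pow_le_exp hx hs 1
  have k2 := pow_le_exp hx hs 2
  have k3 := pow_le_exp hx hs 3
  norm_num [Nat.factorial] at k1 k2 k3
  have k4 : p0 + p1 * s + p2 * s ^ 2 + p3 * s ^ 3 ≤
      (p0 + p1 * (1 / x) + p2 * (2 / x ^ 2) + p3 * (6 / x ^ 3)) * exp (x * s) := by
    have e0 := mul_le_mul_of_nonneg_left k0 h0
    have e1 := mul_le_mul_of_nonneg_left k1 h1
    have e2 := mul_le_mul_of_nonneg_left k2 h2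
    have e3 := mul_le_mul_of_nonneg_left k3 h3
    have e4 : p1 * (x⁻¹ * exp (x * s)) = p1 * (1 / x) * exp (x * s) := by ring
    nlinarith
  have k5 : exp (x * s) * exp (-(2 * x) * s) = exp (-x * s) := by
    rw [← exp_add]; congr 1; ring
  calc (p0 + p1 * s + p2 * s ^ 2 + p3 * s ^ 3) * exp (-(2 * x) * s)
      ≤ ((p0 + p1 * (1 / x) + p2 * (2 / x ^ 2) + p3 * (6 / x ^ 3)) * exp (x * s)) *
          exp (-(2 * x) * s) := mul_le_mul_of_nonneg_right k4 (exp_pos _).le
    _ = (p0 + p1 * (1 / x) + p2 * (2 / x ^ 2) + p3 * (6 / x ^ 3)) *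
          (exp (x * s) * exp (-(2 * x) * s)) := by ring
    _ = _ := by rw [k5]

/-- Uniform exponential bounds. -/
theorem bounds {b c₁ c₂ : ℝ} (hb : 0 < b) (hc₁ : 0 < c₁) (hcc : c₁ ≤ c₂) :
    ∃ δ M : ℝ, 0 < δ ∧ 0 ≤ M ∧ ∀ c l s, c₁ ≤ c → c ≤ c₂ → b ≤ l → 0 ≤ s →
      |ph c l s| ≤ M * exp (-δ * s) ∧ |ps c l s| ≤ M * exp (-δ * s) ∧
      |√l * hh c l s| ≤ M * exp (-δ * s) := by
  have hc₂ : 0 < c₂ := hc₁.trans_le hcc
  obtain ⟨x, hx0, hx1, hx2⟩ : ∃ x : ℝ, 0 < x ∧ 2 * x ≤ c₁ / 2 ∧ 2 * x * c₂ ≤ b := by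
    refine ⟨min (c₁ / 4) (b / (2 * c₂)), by positivity, ?_, ?_⟩
    · have := min_le_left (c₁ / 4) (b / (2 * c₂)); linarith
    · have := min_le_right (c₁ / 4) (b / (2 * c₂))
      rw [le_div_iff₀ (by positivity)] at this
      linarith
  obtain ⟨M1, hM1, h1⟩ := poly_le_exp hx0 (p0 := 1) (p1 := c₂ / 2) (p2 := 0) (p3 := 0)
    (by norm_num) (by positivity) le_rfl le_rfl
  obtain ⟨M2, hM2, h2⟩ := poly_le_exp hx0 (p0 := 0) (p1 := 1) (p2 := c₂ / 2) (p3 := c₂ ^ 2 / 8)
    le_rfl (by norm_num) (by positivity) (by positivity)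
  refine ⟨x, M1 + M2, hx0, by positivity, ?_⟩
  intro c l s hc1 hc2 hl hs
  have hc : 0 < c := hc₁.trans_le hc1
  set D := l - c ^ 2 / 4 with hD
  have hC := abs_Cf_le D hs
  have hS := abs_Sf_le D hs
  have hE := abs_Ef_le D hs
  have hexp := exp_half_mul_le hc1 hc2 hl (by linarith : 0 < 2 * x) hx1 hx2 hs
  rw [← hD] at hexp
  have hC' : exp (-(c / 2) * s) * |Cf D s| ≤ exp (-(2 * x) * s) :=
    (mul_le_mul_of_nonneg_left hC (exp_pos _).le).trans hexp
  have hS' : exp (-(c / 2) * s) * |Sf D s| ≤ s * exp (-(2 * x) * s) := by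
    calc exp (-(c / 2) * s) * |Sf D s| ≤ exp (-(c / 2) * s) * (s * exp (√(-D) * s)) := by gcongr
      _ = s * (exp (-(c / 2) * s) * exp (√(-D) * s)) := by ring
      _ ≤ _ := by gcongr
  have hE' : exp (-(c / 2) * s) * |Ef D s| ≤ s ^ 3 * exp (-(2 * x) * s) := by
    calc exp (-(c / 2) * s) * |Ef D s| ≤ exp (-(c / 2) * s) * (s ^ 3 * exp (√(-D) * s)) := by gcongr
      _ = s ^ 3 * (exp (-(c / 2) * s) * exp (√(-D) * s)) := by ring
      _ ≤ _ := by gcongr
  have hph : |ph c l s| ≤ (1 + c₂ / 2 * s) * exp (-(2 * x) * s) := by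
    unfold ph
    rw [← hD, abs_mul, abs_of_pos (exp_pos _)]
    have h3 : |Cf D s - c / 2 * Sf D s| ≤ |Cf D s| + c / 2 * |Sf D s| := by
      refine (abs_sub _ _).trans ?_
      rw [abs_mul, abs_of_pos (by positivity : 0 < c / 2)]
    calc exp (-(c / 2) * s) * |Cf D s - c / 2 * Sf D s|
        ≤ exp (-(c / 2) * s) * (|Cf D s| + c / 2 * |Sf D s|) := by gcongr
      _ = exp (-(c / 2) * s) * |Cf D s| + c / 2 * (exp (-(c / 2) * s) * |Sf D s|) := by ring
      _ ≤ exp (-(2 * x) * s) + c₂ / 2 * (s * exp (-(2 * x) * s)) := by gcongr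
      _ = _ := by ring
  have hpos := exp_pos (-x * s)
  refine ⟨?_, ?_, ?_⟩
  · have := h1 s hs
    nlinarith
  · have h4 : |ps c l s| ≤ s / 2 * ((1 + c₂ / 2 * s) * exp (-(2 * x) * s)) +
        1 / 2 * (s * exp (-(2 * x) * s) + c₂ * s / 2 * (s * exp (-(2 * x) * s)) +
          c₂ ^ 2 / 4 * (s ^ 3 * exp (-(2 * x) * s))) := by
      unfold ps
      rw [← hD]
      refine (abs_add_le _ _).trans ?_
      have e1 : |s / 2 * ph c l s| ≤ s / 2 * ((1 + c₂ / 2 * s) * exp (-(2 * x) * s)) := by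
        rw [abs_mul, abs_of_nonneg (by positivity : 0 ≤ s / 2)]
        gcongr
      have e2 : |1 / 2 * (exp (-(c / 2) * s) *
          (Sf D s - c * s / 2 * Sf D s + c ^ 2 / 4 * Ef D s))| ≤
          1 / 2 * (s * exp (-(2 * x) * s) + c₂ * s / 2 * (s * exp (-(2 * x) * s)) +
          c₂ ^ 2 / 4 * (s ^ 3 * exp (-(2 * x) * s))) := by
        rw [abs_mul, abs_mul, abs_of_pos (exp_pos _), abs_of_pos (by norm_num : (0:ℝ) < 1 / 2)]
        have e3 : |Sf D s - c * s / 2 * Sf D s + c ^ 2 / 4 * Ef D s| ≤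
            |Sf D s| + c * s / 2 * |Sf D s| + c ^ 2 / 4 * |Ef D s| := by
          refine (abs_add_le _ _).trans ?_
          refine add_le_add ((abs_sub _ _).trans ?_) ?_
          · rw [abs_mul, abs_of_nonneg (by positivity : 0 ≤ c * s / 2)]
          · rw [abs_mul, abs_of_nonneg (by positivity : 0 ≤ c ^ 2 / 4)]
        calc 1 / 2 * (exp (-(c / 2) * s) * |Sf D s - c * s / 2 * Sf D s + c ^ 2 / 4 * Ef D s|)
            ≤ 1 / 2 * (exp (-(c / 2) * s) *
              (|Sf D s| + c * s / 2 * |Sf D s| + c ^ 2 / 4 * |Ef D s|)) := by gcongr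
          _ = 1 / 2 * (exp (-(c / 2) * s) * |Sf D s| +
              c * s / 2 * (exp (-(c / 2) * s) * |Sf D s|) +
              c ^ 2 / 4 * (exp (-(c / 2) * s) * |Ef D s|)) := by ring
          _ ≤ _ := by gcongr
      linarith
    have h5 := h2 s hs
    have h6 : s / 2 * ((1 + c₂ / 2 * s) * exp (-(2 * x) * s)) +
        1 / 2 * (s * exp (-(2 * x) * s) + c₂ * s / 2 * (s * exp (-(2 * x) * s)) +
          c₂ ^ 2 / 4 * (s ^ 3 * exp (-(2 * x) * s))) =
        (0 + 1 * s + c₂ / 2 * s ^ 2 + c₂ ^ 2 / 8 * s ^ 3) * exp (-(2 * x) * s) := by ring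
    nlinarith
  · have hl0 : 0 < l := hb.trans_le hl
    have h7 : √l ≤ √D + c / 2 := by
      rw [sqrt_le_iff]
      refine ⟨by positivity, ?_⟩
      have h8 : D ≤ √D ^ 2 := by
        rcases le_total 0 D with h | h
        · rw [sq_sqrt h]
        · exact h.trans (sq_nonneg _)
      have h9 := sqrt_nonneg D
      nlinarith
    have h8 : √D * |Sf D s| ≤ exp (√(-D) * s) := by
      have h10 : 1 ≤ exp (√(-D) * s) := one_le_exp (by positivity)
      rcases le_or_gt D 0 with h | h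
      · rw [sqrt_eq_zero_of_nonpos h, zero_mul]; positivity
      · refine le_trans ?_ h10
        have h11 : 0 < √D := sqrt_pos.2 h
        rw [Sf_of_pos h, abs_div, abs_of_pos h11, mul_div_cancel₀ _ h11.ne']
        exact abs_sin_le_one _
    have h9 : |√l * hh c l s| ≤ (1 + c₂ / 2 * s) * exp (-(2 * x) * s) := by
      unfold hh
      rw [← hD, abs_mul, abs_mul, abs_of_pos (exp_pos _), abs_of_nonneg (sqrt_nonneg _)]
      calc √l * (exp (-(c / 2) * s) * |Sf D s|)
          ≤ (√D + c / 2) * (exp (-(c / 2) * s) * |Sf D s|) := by gcongr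
        _ = exp (-(c / 2) * s) * (√D * |Sf D s|) +
            c / 2 * (exp (-(c / 2) * s) * |Sf D s|) := by ring
        _ ≤ exp (-(c / 2) * s) * exp (√(-D) * s) + c₂ / 2 * (s * exp (-(2 * x) * s)) := by gcongr
        _ ≤ exp (-(2 * x) * s) + c₂ / 2 * (s * exp (-(2 * x) * s)) := by gcongr
        _ = _ := by ring
    have := h1 s hs
    nlinarith

lemma abs_hh_le {c l : ℝ} (hc : 0 < c) (hl : 0 < l) :
    ∃ δ M : ℝ, 0 < δ ∧ ∀ s, 0 ≤ s → |hh c l s| ≤ M * exp (-δ * s) := by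
  obtain ⟨δ, M, hδ, hM, h⟩ := bounds hl hc le_rfl
  refine ⟨δ, (√l)⁻¹ * M, hδ, fun s hs => ?_⟩
  have h1 := (h c l s le_rfl le_rfl le_rfl hs).2.2
  have h2 : 0 < √l := sqrt_pos.2 hl
  rw [abs_mul, abs_of_pos h2] at h1
  rw [mul_assoc, inv_mul_eq_div, le_div_iff₀ h2]
  linarith

lemma integrableOn_ph {c l : ℝ} (hc : 0 < c) (hl : 0 < l) :
    IntegrableOn (ph c l) (Ioi 0) := by
  obtain ⟨δ, M, hδ, hM, h⟩ := bounds hl hc le_rfl
  have h1 : Continuous (ph c l) :=
    continuous_ph.comp (by fun_prop : Continuous fun s : ℝ => (c, l, s))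
  refine Integrable.mono' ((integrableOn_exp_neg hδ 0).const_mul M)
    h1.aestronglyMeasurable ?_
  refine (ae_restrict_iff' measurableSet_Ioi).2 (Filter.Eventually.of_forall fun s hs => ?_)
  exact (h c l s le_rfl le_rfl le_rfl (le_of_lt hs)).1

lemma integral_ph {c l : ℝ} (hc : 0 < c) (hl : 0 < l) :
    ∫ s in Ioi 0, ph c l s = 0 := by
  have h := integral_Ioi_of_hasDerivAt_of_tendsto (f := hh c l) (f' := ph c l) (a := 0) (m := 0)
    (hasDerivAt_hh c l 0).continuousAt.continuousWithinAt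
    (fun s _ => hasDerivAt_hh c l s) (integrableOn_ph hc hl) ?_
  · rw [h]; simp
  · obtain ⟨δ, M, hδ, h⟩ := abs_hh_le hc hl
    refine squeeze_zero_norm' (a := fun s => M * exp (-δ * s)) ?_ ?_
    · filter_upwards [Filter.eventually_ge_atTop 0] with s hs
      exact h s hs
    · have h2 : Filter.Tendsto (fun s : ℝ => -δ * s) Filter.atTop Filter.atBot :=
        Filter.tendsto_id.const_mul_atTop_of_neg (by linarith)
      have h3 := (tendsto_exp_atBot.comp h2).const_mul M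
      simpa using h3

end R273.Dv
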