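import Mathlib

/-!
Greedy planar walk (MP_e36abb_an): the unit complex number `u` with real part `-2/3` and the
basic step of the construction.
-/

set_option autoImplicit false

namespace Pool.Agent.R273.GW

open Complex Filter Topology

/-- the unit complex number `(-2 + i √5)/3` -/
noncomputable def u : ℂ := ⟨-2 / 3, √5 / 3⟩

lemma sqrt5 : √5 * √5 = (5 : ℝ) := Real.mul_self_sqrt (by norm_num)

lemma u_mul_conj : u * (starRingEnd ℂ) u = 1 := by
  apply Complex.ext
  · simp [u]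
    nlinarith [sqrt5]
  · simp [u]
    ring

lemma norm_u : ‖u‖ = 1 := by
  have h := u_mul_conj
  rw [Complex.mul_conj] at h
  have h2 : Complex.normSq u = 1 := by exact_mod_cast h
  rw [Complex.normSq_eq_norm_sq] at h2
  nlinarith [norm_nonneg u]

lemma u_sq : u ^ 2 = -(4 / 3) * u - 1 := by
  apply Complex.ext
  · simp [u, pow_two]
    nlinarith [sqrt5]
  · simp [u, pow_two]
    ring

lemma u_ne_zero : u ≠ 0 := by
  intro h
  have := norm_u
  rw [h, norm_zero] at this
  norm_num at this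

lemma norm_pow_u (n : ℕ) : ‖u ^ n‖ = 1 := by rw [norm_pow, norm_u, one_pow]

/-- integer recursion: `(-2 + i√5)^n = a + b i√5` -/
def ab : ℕ → ℤ × ℤ
  | 0 => (1, 0)
  | n + 1 => (-2 * (ab n).1 - 5 * (ab n).2, (ab n).1 - 2 * (ab n).2)

lemma pow_ab (n : ℕ) : ((3 : ℂ) * u) ^ n = ⟨(ab n).1, (ab n).2 * √5⟩ := by
  induction n with
  | zero => apply Complex.ext <;> simp [ab]
  | succ n ih =>
    rw [pow_succ, ih]
    apply Complex.ext
    · simp [ab, u]
      linear_combination (-((ab n).2 : ℝ)) * sqrt5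
    · simp [ab, u]
      ring

lemma ab_mod (n : ℕ) : ((ab (n + 1)).1 % 3 = 1 ∧ (ab (n + 1)).2 % 3 = 1) ∨
    ((ab (n + 1)).1 % 3 = 2 ∧ (ab (n + 1)).2 % 3 = 2) := by
  induction n with
  | zero => left; simp [ab]
  | succ n ih =>
    simp only [ab] at ih ⊢
    omega

lemma pow_ne_one (n : ℕ) (hn : 1 ≤ n) : u ^ n ≠ 1 := by
  obtain ⟨m, rfl⟩ : ∃ m, n = m + 1 := ⟨n - 1, by omega⟩
  intro h
  have h1 := pow_ab (m + 1)
  rw [mul_pow, h, mul_one] at h1
  have h2 := congrArg Complex.im h1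
  have h3 : ((3 : ℂ) ^ (m + 1)).im = 0 := by
    have : ((3 : ℂ) ^ (m + 1)) = (((3 : ℝ) ^ (m + 1) : ℝ) : ℂ) := by push_cast; rfl
    rw [this, Complex.ofReal_im]
  rw [h3] at h2
  simp only at h2
  have h5 : √5 ≠ 0 := by positivity
  have h6 : ((ab (m + 1)).2 : ℝ) = 0 := by
    rcases mul_eq_zero.1 h2.symm with h | h
    · exact h
    · exact absurd h h5
  have h7 : (ab (m + 1)).2 = 0 := by exact_mod_cast h6
  have := ab_mod m
  omega

lemma re_lt_one (n : ℕ) (hn : 1 ≤ n) : (u ^ n).re < 1 := by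
  have h1 : (u ^ n).re ≤ 1 := by
    have := Complex.re_le_norm (u ^ n)
    rwa [norm_pow_u] at this
  rcases h1.lt_or_eq with h | h
  · exact h
  · exfalso
    apply pow_ne_one n hn
    have h2 : Complex.normSq (u ^ n) = 1 := by
      rw [Complex.normSq_eq_norm_sq, norm_pow_u]; norm_num
    rw [Complex.normSq_apply, h] at h2
    have h3 : (u ^ n).im = 0 := by nlinarith
    exact Complex.ext (by simpa using h) (by simpa using h3)

lemma exists_gap (K : ℕ) : ∃ ε : ℝ, 0 < ε ∧ ∀ j, 1 ≤ j → j ≤ K → (u ^ j).re + ε < 1 := by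
  induction K with
  | zero => exact ⟨1, one_pos, fun j h1 h2 => by omega⟩
  | succ K ih =>
    obtain ⟨ε, hε, h⟩ := ih
    have h2 := re_lt_one (K + 1) (by omega)
    refine ⟨min ε ((1 - (u ^ (K + 1)).re) / 2), lt_min hε (by linarith), ?_⟩
    intro j hj1 hj2
    rcases Nat.lt_or_ge j (K + 1) with hj | hj
    · have := h j hj1 (by omega)
      have := min_le_left ε ((1 - (u ^ (K + 1)).re) / 2)
      linarith
    · have : j = K + 1 := by omega
      subst this
      have := min_le_right ε ((1 - (u ^ (K + 1)).re) / 2)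
      linarith

/-- the angle -/
noncomputable def al : ℝ := Real.arccos (-2 / 3) / (2 * Real.pi)

lemma exp_al : Complex.exp (2 * Real.pi * Complex.I * al) = u := by
  have h1 : (2 * Real.pi * Complex.I * al : ℂ) = (Real.arccos (-2 / 3) : ℝ) * Complex.I := by
    unfold al
    have : (Real.pi : ℂ) ≠ 0 := by exact_mod_cast Real.pi_ne_zero
    push_cast
    field_simp
  rw [h1, Complex.exp_mul_I, ← Complex.ofReal_cos, ← Complex.ofReal_sin,
    Real.cos_arccos (by norm_num) (by norm_num), Real.sin_arccos]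
  have h2 : √(1 - (-2 / 3 : ℝ) ^ 2) = √5 / 3 := by
    rw [show (1 - (-2 / 3 : ℝ) ^ 2) = 5 / 3 ^ 2 by norm_num, Real.sqrt_div (by norm_num),
      Real.sqrt_sq (by norm_num)]
  rw [h2]
  apply Complex.ext <;> simp [u]

lemma exp_al_nat (n : ℕ) : Complex.exp (2 * Real.pi * Complex.I * al * n) = u ^ n := by
  rw [← exp_al, ← Complex.exp_nat_mul]
  congr 1
  ring

lemma al_pos : 0 < al := by
  unfold al
  have : 0 < Real.arccos (-2 / 3) := Real.arccos_pos.2 (by norm_num)
  positivity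

lemma al_irrational : Irrational al := by
  rintro ⟨q, hq⟩
  apply pow_ne_one q.den q.pos
  rw [← exp_al_nat, ← hq, Complex.exp_eq_one_iff]
  refine ⟨q.num, ?_⟩
  have h1 : ((q : ℝ) : ℂ) * (q.den : ℂ) = (q.num : ℂ) := by
    have := Rat.mul_den_eq_num q
    have h2 : ((q * q.den : ℚ) : ℂ) = ((q.num : ℚ) : ℂ) := by rw [this]
    push_cast at h2
    push_cast
    exact h2
  calc (2 * Real.pi * Complex.I * ((q : ℝ) : ℂ) * (q.den : ℂ)) =
        2 * Real.pi * Complex.I * (((q : ℝ) : ℂ) * (q.den : ℂ)) := by ring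
    _ = _ := by rw [h1]; ring

/-- density of the powers with large exponent -/
lemma dense_pow (y : ℂ) (hy : ‖y‖ = 1) (O : Set ℂ) (hO : IsOpen O) (hyO : y ∈ O) (K : ℕ) :
    ∃ k, K ≤ k ∧ u ^ k ∈ O := by
  set g : AddCircle (1 : ℝ) → ℂ := fun x => (AddCircle.toCircle x : ℂ) with hg
  have hgc : Continuous g := continuous_subtype_val.comp AddCircle.continuous_toCircle
  have hgn : ∀ n : ℕ, g (n • ((al : ℝ) : AddCircle (1 : ℝ))) = u ^ n := by
    intro n
    have : n • ((al : ℝ) : AddCircle (1 : ℝ)) = ((n * al : ℝ) : AddCircle (1 : ℝ)) := by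
      rw [← AddCircle.coe_nsmul, nsmul_eq_mul]
    rw [this, hg]
    simp only
    rw [AddCircle.toCircle_apply_mk, Circle.coe_exp, ← exp_al_nat]
    congr 1
    push_cast
    ring
  -- a preimage of y
  obtain ⟨θ, hθ⟩ : ∃ θ : ℝ, g ((θ : ℝ) : AddCircle (1 : ℝ)) = y := by
    refine ⟨Complex.arg y / (2 * Real.pi), ?_⟩
    rw [hg]
    simp only
    rw [AddCircle.toCircle_apply_mk, Circle.coe_exp]
    have h1 : ((2 * Real.pi / 1 * (Complex.arg y / (2 * Real.pi)) : ℝ) : ℂ) = (Complex.arg y : ℂ) := by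
      congr 1
      field_simp
    rw [h1]
    have h2 := Complex.norm_mul_exp_arg_mul_I y
    rw [hy] at h2
    simpa using h2
  have hdense : DenseRange (fun n : ℤ => n • ((al : ℝ) : AddCircle (1 : ℝ))) := by
    rw [AddCircle.denseRange_zsmul_coe_iff, div_one]
    exact al_irrational
  have hcl : MapClusterPt ((θ : ℝ) : AddCircle (1 : ℝ)) atTop
      (fun n : ℕ => n • ((al : ℝ) : AddCircle (1 : ℝ))) :=
    ((mapClusterPt_atTop_nsmul_tfae ((θ : ℝ) : AddCircle (1 : ℝ)) ((al : ℝ) : AddCircle (1 : ℝ))).out 0 3).2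
      (hdense _)
  have hU : g ⁻¹' O ∈ 𝓝 ((θ : ℝ) : AddCircle (1 : ℝ)) :=
    (hO.preimage hgc).mem_nhds (by rw [Set.mem_preimage, hθ]; exact hyO)
  have hf := hcl.frequently hU
  obtain ⟨k, hk1, hk2⟩ := (frequently_atTop.1 hf) K
  exact ⟨k, hk1, by rw [← hgn]; exact hk2⟩

end Pool.Agent.R273.GW
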