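import Pool.Agent.R273.GW1

/-!
Greedy planar walk (MP_e36abb_an): step lemma and nested construction.
-/

set_option autoImplicit false

namespace Pool.Agent.R273.GW

open Complex Filter Topology

/-- `tt m w = Re (w * conj (u^m))` -/
noncomputable def tt (m : ℕ) (w : ℂ) : ℝ := (w * (starRingEnd ℂ) (u ^ m)).re

lemma tt_add (m : ℕ) (w v : ℂ) : tt m (w + v) = tt m w + tt m v := by
  unfold tt; rw [add_mul, Complex.add_re]

lemma tt_sub (m : ℕ) (w v : ℂ) : tt m (w - v) = tt m w - tt m v := by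
  unfold tt; rw [sub_mul, Complex.sub_re]

lemma tt_real (m : ℕ) (c : ℝ) (w : ℂ) : tt m ((c : ℂ) * w) = c * tt m w := by
  unfold tt; rw [mul_assoc, Complex.re_ofReal_mul]

lemma abs_tt (m : ℕ) (w : ℂ) : |tt m w| ≤ ‖w‖ := by
  unfold tt
  refine (Complex.abs_re_le_norm _).trans ?_
  rw [norm_mul, Complex.norm_conj, norm_pow_u, mul_one]

lemma conj_pow_mul (m : ℕ) : u ^ m * (starRingEnd ℂ) (u ^ m) = 1 := by
  rw [map_pow, ← mul_pow, u_mul_conj, one_pow]

lemma tt_ahead (m j : ℕ) : tt m (u ^ (m + j)) = (u ^ j).re := by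
  unfold tt
  rw [pow_add, mul_right_comm, conj_pow_mul, one_mul]

lemma tt_behind (m j : ℕ) : tt (m + j) (u ^ m) = (u ^ j).re := by
  unfold tt
  rw [pow_add, map_mul, ← mul_assoc, conj_pow_mul, one_mul, Complex.conj_re]

lemma re_u : u.re = -2 / 3 := rfl

lemma re_u2 : (u ^ 2).re = -1 / 9 := by
  rw [u_sq]
  simp [u]
  norm_num

lemma im_u2 : (u ^ 2).im = -(4 / 9) * √5 := by
  rw [u_sq]
  simp [u]
  ring

/-- there is a unit number close to `-u^2` with larger real part -/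
lemma exists_target (r : ℝ) (hr : 0 < r) (hr1 : r ≤ 1 / 4) : ∃ y : ℂ, ‖y‖ = 1 ∧ ‖y + u ^ 2‖ < r ∧ 0 < (y + u ^ 2).re := by
  set s : ℝ := r / 4 with hs
  have hs0 : 0 < s := by positivity
  have hs1 : s ≤ 1 / 16 := by rw [hs]; linarith
  have h1s : (0 : ℝ) < 1 + s ^ 2 := by positivity
  set v : ℂ := ⟨(1 - s ^ 2) / (1 + s ^ 2), -(2 * s) / (1 + s ^ 2)⟩ with hv
  have hvn : Complex.normSq v = 1 := by
    rw [Complex.normSq_apply, hv]
    simp only
    field_simp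
    ring
  have hvn' : ‖v‖ = 1 := by
    rw [Complex.normSq_eq_norm_sq] at hvn
    nlinarith [norm_nonneg v]
  have hv1 : Complex.normSq (v - 1) = 4 * s ^ 2 / (1 + s ^ 2) := by
    rw [Complex.normSq_apply, hv]
    simp only [Complex.sub_re, Complex.one_re, Complex.sub_im, Complex.one_im]
    field_simp
    ring
  have hv2 : ‖v - 1‖ < r := by
    have h1 : ‖v - 1‖ ^ 2 ≤ (2 * s) ^ 2 := by
      rw [← Complex.normSq_eq_norm_sq, hv1, div_le_iff₀ h1s]
      nlinarith [sq_nonneg s, sq_nonneg (s * s)]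
    have h2 : ‖v - 1‖ ≤ 2 * s := by
      exact abs_le_of_sq_le_sq' h1 (by positivity) |>.2
    rw [hs] at h2
    linarith
  refine ⟨-(u ^ 2) * v, ?_, ?_, ?_⟩
  · rw [norm_mul, norm_neg, norm_pow_u, hvn', one_mul]
  · have : -(u ^ 2) * v + u ^ 2 = -(u ^ 2) * (v - 1) := by ring
    rw [this, norm_mul, norm_neg, norm_pow_u, one_mul]
    exact hv2
  · have : -(u ^ 2) * v + u ^ 2 = -(u ^ 2) * (v - 1) := by ring
    rw [this, Complex.mul_re, Complex.neg_re, Complex.neg_im, re_u2, im_u2, hv]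
    simp only [Complex.sub_re, Complex.one_re, Complex.sub_im, Complex.one_im, sub_zero]
    have h5 : (2 : ℝ) ≤ √5 := by
      rw [show (2 : ℝ) = √4 by rw [show (4 : ℝ) = 2 ^ 2 by norm_num, Real.sqrt_sq (by norm_num)]]
      exact Real.sqrt_le_sqrt (by norm_num)
    have h6 : -(-1 / 9 : ℝ) * ((1 - s ^ 2) / (1 + s ^ 2) - 1) - -(-(4 / 9) * √5) * (-(2 * s) / (1 + s ^ 2)) =
        (s / (1 + s ^ 2)) * ((8 / 9) * √5 - (2 / 9) * s) := by
      field_simp
      ring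
    rw [h6]
    apply mul_pos (by positivity)
    linarith

lemma center_eq (n : ℕ) : (1 / 2 : ℂ) * u ^ n + (2 / 3) * u ^ (n + 1) = -(1 / 2) * u ^ (n + 2) := by
  have : u ^ (n + 2) = u ^ n * u ^ 2 := by rw [pow_add]
  rw [this, u_sq, pow_succ]
  ring

/-- the inductive step of the construction -/
lemma step (n : ℕ) (r : ℝ) (hr : 0 < r) (hr4 : r ≤ 1 / 4) (L : ℕ) :
    ∃ (n' : ℕ) (r' : ℝ), n + 3 + L ≤ n' ∧ 0 < r' ∧ r' ≤ 1 / 4 ∧
      ∀ w' : ℂ, ‖w' - (1 / 2) * u ^ n'‖ ≤ r' →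
        ‖(w' - (2 / 3) * u ^ (n + 1)) - (1 / 2) * u ^ n‖ < r ∧
        1 / 2 < tt n (w' - (2 / 3) * u ^ (n + 1)) ∧
        ∀ m, n + 3 ≤ m → m < n' → tt m w' < 1 / 2 := by
  obtain ⟨y, hy1, hy2, hy3⟩ := exists_target r hr hr4
  have hO : IsOpen {v : ℂ | ‖v + u ^ 2‖ < r ∧ 0 < (v + u ^ 2).re} := by
    have h1 : IsOpen {v : ℂ | ‖v + u ^ 2‖ < r} :=
      isOpen_lt (f := fun v : ℂ => ‖v + u ^ 2‖) (g := fun _ => r) (by fun_prop) (by fun_prop)
    have h2 : IsOpen {v : ℂ | 0 < (v + u ^ 2).re} :=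
      isOpen_lt (f := fun _ : ℂ => (0 : ℝ)) (g := fun v => (v + u ^ 2).re) (by fun_prop) (by fun_prop)
    exact h1.inter h2
  obtain ⟨k, hk, hk1, hk2⟩ := dense_pow y hy1 _ hO ⟨hy2, hy3⟩ (3 + L)
  obtain ⟨ε, hε, hgap⟩ := exists_gap k
  set a : ℝ := ‖u ^ k + u ^ 2‖ with ha
  set b : ℝ := (u ^ k + u ^ 2).re with hb
  have hb0 : 0 < b := hk2
  have har : a < r := hk1
  have ha0 : 0 ≤ a := norm_nonneg _
  set r' : ℝ := min (min (1 / 4) (ε / 4)) (min (r / 4) (b / 4)) with hr'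
  have hr'1 : r' ≤ 1 / 4 := (min_le_left _ _).trans (min_le_left _ _)
  have hr'2 : r' ≤ ε / 4 := (min_le_left _ _).trans (min_le_right _ _)
  have hr'3 : r' ≤ r / 4 := (min_le_right _ _).trans (min_le_left _ _)
  have hr'4 : r' ≤ b / 4 := (min_le_right _ _).trans (min_le_right _ _)
  have hr'0 : 0 < r' := by
    rw [hr']
    refine lt_min (lt_min (by norm_num) (by positivity)) (lt_min (by positivity) (by positivity))
  refine ⟨n + k, r', by omega, hr'0, hr'1, ?_⟩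
  intro w' hw'
  have hsplit : (w' - (2 / 3) * u ^ (n + 1)) - (1 / 2) * u ^ n =
      (w' - (1 / 2) * u ^ (n + k)) + (1 / 2 : ℝ) * (u ^ n * (u ^ k + u ^ 2)) := by
    have h1 := center_eq n
    rw [pow_add, pow_add] at h1
    rw [pow_add u n k, pow_add u n 1]
    push_cast
    linear_combination -h1
  refine ⟨?_, ?_, ?_⟩
  · rw [hsplit]
    refine (norm_add_le _ _).trans_lt ?_
    have h2 : ‖((1 / 2 : ℝ) : ℂ) * (u ^ n * (u ^ k + u ^ 2))‖ = a / 2 := by
      rw [norm_mul, norm_mul, norm_pow_u, Complex.norm_real, Real.norm_eq_abs, abs_of_pos (by norm_num)]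
      ring
    rw [h2]
    linarith
  · have h3 : w' - (2 / 3) * u ^ (n + 1) = (1 / 2 : ℝ) * u ^ n + ((w' - (1 / 2) * u ^ (n + k)) +
        (1 / 2 : ℝ) * (u ^ n * (u ^ k + u ^ 2))) := by
      rw [← hsplit]; push_cast; ring
    rw [h3, tt_add, tt_add, tt_real, tt_real]
    have h4 : tt n (u ^ n) = 1 := by
      have := tt_ahead n 0
      simpa using this
    have h5 : tt n (u ^ n * (u ^ k + u ^ 2)) = b := by
      unfold tt
      rw [mul_right_comm, conj_pow_mul, one_mul]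
    have h6 := neg_le_of_abs_le ((abs_tt n (w' - (1 / 2) * u ^ (n + k))).trans hw')
    rw [h4, h5]
    linarith
  · intro m hm1 hm2
    have h3 : w' = (1 / 2 : ℝ) * u ^ (n + k) + (w' - (1 / 2) * u ^ (n + k)) := by push_cast; ring
    rw [h3, tt_add, tt_real]
    have h4 : n + k = m + (n + k - m) := by omega
    have h5 : tt m (u ^ (n + k)) = (u ^ (n + k - m)).re := by
      conv_lhs => rw [h4]
      exact tt_ahead m _
    rw [h5]
    have h6 := hgap (n + k - m) (by omega) (by omega)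
    have h7 := le_of_abs_le ((abs_tt m (w' - (1 / 2) * u ^ (n + k))).trans hw')
    linarith

/-- states of the construction: time, radius, accumulated displacement -/
structure St where
  n : ℕ
  r : ℝ
  C : ℂ
  hr : 0 < r
  hr4 : r ≤ 1 / 4

/-- next state -/
noncomputable def nextSt (L : ℕ) (S : St) : St where
  n := (step S.n S.r S.hr S.hr4 L).choose
  r := (step S.n S.r S.hr S.hr4 L).choose_spec.choose
  C := S.C + (2 / 3) * u ^ (S.n + 1)
  hr := (step S.n S.r S.hr S.hr4 L).choose_spec.choose_spec.2.1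
  hr4 := (step S.n S.r S.hr S.hr4 L).choose_spec.choose_spec.2.2.1

lemma nextSt_n (L : ℕ) (S : St) : S.n + 3 + L ≤ (nextSt L S).n :=
  (step S.n S.r S.hr S.hr4 L).choose_spec.choose_spec.1

lemma nextSt_spec (L : ℕ) (S : St) (w' : ℂ) (h : ‖w' - (1 / 2) * u ^ (nextSt L S).n‖ ≤ (nextSt L S).r) :
    ‖(w' - (2 / 3) * u ^ (S.n + 1)) - (1 / 2) * u ^ S.n‖ < S.r ∧
        1 / 2 < tt S.n (w' - (2 / 3) * u ^ (S.n + 1)) ∧
        ∀ m, S.n + 3 ≤ m → m < (nextSt L S).n → tt m w' < 1 / 2 :=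
  (step S.n S.r S.hr S.hr4 L).choose_spec.choose_spec.2.2.2 w' h

/-- the sequence of states -/
noncomputable def sq : ℕ → St
  | 0 => ⟨0, 1 / 4, 0, by norm_num, le_refl _⟩
  | k + 1 => nextSt k (sq k)

/-- the nested balls -/
noncomputable def ball' (k : ℕ) : Set ℂ := Metric.closedBall ((1 / 2) * u ^ (sq k).n - (sq k).C) (sq k).r

lemma mem_ball' (k : ℕ) (w : ℂ) : w ∈ ball' k ↔ ‖(w + (sq k).C) - (1 / 2) * u ^ (sq k).n‖ ≤ (sq k).r := by
  unfold ball'
  rw [Metric.mem_closedBall, dist_eq_norm]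
  have : w - ((1 / 2) * u ^ (sq k).n - (sq k).C) = (w + (sq k).C) - (1 / 2) * u ^ (sq k).n := by ring
  rw [this]

lemma C_succ (k : ℕ) : (sq (k + 1)).C = (sq k).C + (2 / 3) * u ^ ((sq k).n + 1) := rfl

lemma nested (k : ℕ) : ball' (k + 1) ⊆ ball' k := by
  intro w hw
  rw [mem_ball'] at hw ⊢
  have h := (nextSt_spec k (sq k) (w + (sq (k + 1)).C) hw).1
  have e : w + (sq (k + 1)).C - (2 / 3) * u ^ ((sq k).n + 1) = w + (sq k).C := by
    rw [C_succ]; ring
  rw [e] at h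
  exact h.le

/-- the starting centre -/
lemma exists_start : ∃ w0 : ℂ, ∀ k,
    ‖(w0 + (sq k).C) - (1 / 2) * u ^ (sq k).n‖ ≤ 1 / 4 ∧ 1 / 2 < tt (sq k).n (w0 + (sq k).C) ∧
    ∀ m, (sq k).n + 3 ≤ m → m < (sq (k + 1)).n → tt m (w0 + (sq (k + 1)).C) < 1 / 2 := by
  have hne : (⋂ k, ball' k).Nonempty := by
    apply IsCompact.nonempty_iInter_of_sequence_nonempty_isCompact_isClosed
    · exact nested
    · intro k
      exact ⟨_, Metric.mem_closedBall_self (sq k).hr.le⟩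
    · exact isCompact_closedBall _ _
    · intro k
      exact Metric.isClosed_closedBall
  obtain ⟨w0, hw0⟩ := hne
  rw [Set.mem_iInter] at hw0
  refine ⟨w0, fun k => ?_⟩
  have h1 := (mem_ball' (k + 1) w0).1 (hw0 (k + 1))
  obtain ⟨h2, h3, h4⟩ := nextSt_spec k (sq k) (w0 + (sq (k + 1)).C) h1
  have e : w0 + (sq (k + 1)).C - (2 / 3) * u ^ ((sq k).n + 1) = w0 + (sq k).C := by
    rw [C_succ]; ring
  rw [e] at h2 h3
  exact ⟨h2.le.trans (sq k).hr4, h3, h4⟩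

lemma n_succ (k : ℕ) : (sq k).n + 3 + k ≤ (sq (k + 1)).n := nextSt_n k (sq k)

end Pool.Agent.R273.GW
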