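import Mathlib

/-!
Definitions for MP_e36abb_an: the greedy planar walk.
-/

set_option autoImplicit false

namespace Pool.Agent.R273.GW

/-- the `n`-th step vector `e^{2πiαn}` -/
noncomputable def stepv (α : ℝ) (n : ℕ) : ℂ := Complex.exp (2 * Real.pi * Complex.I * α * n)

open Classical in
/-- `walk α z n = z_{n-1}` for the starting point `z = z_{-1}`: from `z_{n-1}` the walk moves to
`z_{n-1} + e^{2πiαn}` if this makes the modulus smaller, and to `z_{n-1} - e^{2πiαn}` otherwise. -/
noncomputable def walk (α : ℝ) (z : ℂ) : ℕ → ℂ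
  | 0 => z
  | n + 1 => if ‖walk α z n + stepv α n‖ < ‖walk α z n - stepv α n‖ then walk α z n + stepv α n
      else walk α z n - stepv α n

open Classical in
/-- the sign `ε_n` -/
noncomputable def sign (α : ℝ) (z : ℂ) (n : ℕ) : ℤ :=
  if ‖walk α z n + stepv α n‖ < ‖walk α z n - stepv α n‖ then 1 else -1

/-- no tie ever occurs -/
def Admissible (α : ℝ) (z : ℂ) : Prop :=
  ∀ n, ‖walk α z n + stepv α n‖ ≠ ‖walk α z n - stepv α n‖

/-- eventually periodic sequences -/
def EventuallyPeriodic (s : ℕ → ℤ) : Prop := ∃ N p : ℕ, 1 ≤ p ∧ ∀ n, N ≤ n → s (n + p) = s n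

end Pool.Agent.R273.GW
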