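import Pool.Agent.R273.GW2
import Pool.Agent.R273.GWDefs

/-!
Greedy planar walk (MP_e36abb_an): the dynamics and the final theorem.
-/

set_option autoImplicit false

namespace Pool.Agent.R273.GW

open Complex Filter Topology

/-- `ρ = 1/(u-1)` -/
noncomputable def rho : ℂ := (u - 1)⁻¹

lemma u_sub_one_ne : u - 1 ≠ 0 := by
  intro h
  have := pow_ne_one 1 le_rfl
  rw [pow_one] at this
  exact this (sub_eq_zero.1 h)

lemma rho_eq (n : ℕ) : rho * u ^ n + u ^ n = rho * u ^ (n + 1) := by
  unfold rho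
  have := u_sub_one_ne
  field_simp
  ring

lemma rho_re : rho.re = -1 / 2 := by
  have h5 := sqrt5
  unfold rho
  rw [Complex.inv_re, Complex.normSq_apply]
  simp only [u, Complex.sub_re, Complex.one_re, Complex.sub_im, Complex.one_im, sub_zero]
  have : ((-2 / 3 - 1) * (-2 / 3 - 1) + √5 / 3 * (√5 / 3) : ℝ) = 10 / 3 := by
    nlinarith
  rw [this]
  norm_num

lemma stepv_eq (n : ℕ) : stepv al n = u ^ n := exp_al_nat n

/-- comparison of the two candidates -/
lemma norm_compare (z e : ℂ) : ‖z + e‖ ^ 2 - ‖z - e‖ ^ 2 = 4 * (z * (starRingEnd ℂ) e).re := by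
  rw [← Complex.normSq_eq_norm_sq, ← Complex.normSq_eq_norm_sq, Complex.normSq_apply, Complex.normSq_apply]
  simp
  ring

lemma lt_iff (z e : ℂ) : ‖z + e‖ < ‖z - e‖ ↔ (z * (starRingEnd ℂ) e).re < 0 := by
  have h := norm_compare z e
  constructor
  · intro hlt
    nlinarith [norm_nonneg (z + e), norm_nonneg (z - e)]
  · intro hlt
    have h2 : ‖z + e‖ ^ 2 < ‖z - e‖ ^ 2 := by linarith
    exact lt_of_pow_lt_pow_left₀ 2 (norm_nonneg _) h2

lemma eq_imp (z e : ℂ) (heq : ‖z + e‖ = ‖z - e‖) : (z * (starRingEnd ℂ) e).re = 0 := by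
  have h := norm_compare z e
  rw [heq] at h
  linarith

lemma re_walk (n : ℕ) (w : ℂ) : ((w + rho * u ^ n) * (starRingEnd ℂ) (u ^ n)).re = tt n w - 1 / 2 := by
  rw [add_mul, Complex.add_re, mul_assoc, conj_pow_mul, mul_one, rho_re]
  unfold tt
  ring

/-- the centre of the walk -/
noncomputable def cen (z : ℂ) (n : ℕ) : ℂ := walk al z n - rho * u ^ n

lemma walk_eq_cen (z : ℂ) (n : ℕ) : walk al z n = cen z n + rho * u ^ n := by
  unfold cen; ring

lemma cen_plus (z : ℂ) (n : ℕ) (h : tt n (cen z n) < 1 / 2) : cen z (n + 1) = cen z n ∧ sign al z n = 1 := by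
  have hlt : ‖walk al z n + stepv al n‖ < ‖walk al z n - stepv al n‖ := by
    rw [lt_iff, stepv_eq, walk_eq_cen, re_walk]
    linarith
  constructor
  · have : walk al z (n + 1) = walk al z n + stepv al n := by
      rw [walk, if_pos hlt]
    unfold cen
    rw [this, stepv_eq, ← rho_eq]
    ring
  · unfold sign
    rw [if_pos hlt]

lemma cen_minus (z : ℂ) (n : ℕ) (h : 1 / 2 < tt n (cen z n)) :
    cen z (n + 1) = cen z n - 2 * u ^ n ∧ sign al z n = -1 := by
  have hlt : ¬ ‖walk al z n + stepv al n‖ < ‖walk al z n - stepv al n‖ := by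
    rw [lt_iff, stepv_eq, walk_eq_cen, re_walk]
    linarith
  constructor
  · have : walk al z (n + 1) = walk al z n - stepv al n := by
      rw [walk, if_neg hlt]
    unfold cen
    rw [this, stepv_eq, ← rho_eq]
    ring
  · unfold sign
    rw [if_neg hlt]

lemma no_tie (z : ℂ) (n : ℕ) (h : tt n (cen z n) ≠ 1 / 2) :
    ‖walk al z n + stepv al n‖ ≠ ‖walk al z n - stepv al n‖ := by
  intro heq
  have := eq_imp _ _ heq
  rw [stepv_eq, walk_eq_cen, re_walk] at this
  apply h
  linarith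

lemma conj_re (n : ℕ) : (u ^ n).re = (u ^ n).re := rfl

/-- one event: three flips -/
lemma event (z : ℂ) (n : ℕ) (h1 : ‖cen z n - (1 / 2) * u ^ n‖ ≤ 1 / 4) (h2 : 1 / 2 < tt n (cen z n)) :
    1 / 2 < tt (n + 1) (cen z (n + 1)) ∧ 1 / 2 < tt (n + 2) (cen z (n + 2)) ∧
    cen z (n + 3) = cen z n + (2 / 3) * u ^ (n + 1) := by
  obtain ⟨hc1, -⟩ := cen_minus z n h2
  have e0 : tt (n + 1) (cen z (n + 1)) = tt (n + 1) (cen z n - (1 / 2) * u ^ n) + 1 := by
    have : cen z (n + 1) = (cen z n - (1 / 2) * u ^ n) + ((-3 / 2 : ℝ) : ℂ) * u ^ n := by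
      rw [hc1]; push_cast; ring
    rw [this, tt_add, tt_real, tt_behind, pow_one, re_u]
    norm_num
  have b1 := neg_le_of_abs_le ((abs_tt (n + 1) (cen z n - (1 / 2) * u ^ n)).trans h1)
  have h3 : 1 / 2 < tt (n + 1) (cen z (n + 1)) := by rw [e0]; linarith
  obtain ⟨hc2, -⟩ := cen_minus z (n + 1) h3
  have e1 : tt (n + 2) (cen z (n + 2)) = tt (n + 2) (cen z n - (1 / 2) * u ^ n) + 3 / 2 := by
    have : cen z (n + 2) = (cen z n - (1 / 2) * u ^ n) + (((-3 / 2 : ℝ) : ℂ) * u ^ n +
        ((-2 : ℝ) : ℂ) * u ^ (n + 1)) := by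
      rw [show n + 2 = n + 1 + 1 from rfl, hc2, hc1]; push_cast; ring
    rw [this, tt_add, tt_add, tt_real, tt_real, tt_behind, re_u2]
    have h4 : tt (n + 2) (u ^ (n + 1)) = -2 / 3 := by
      have := tt_behind (n + 1) 1
      rw [pow_one, re_u] at this
      exact this
    rw [h4]
    norm_num
  have b2 := neg_le_of_abs_le ((abs_tt (n + 2) (cen z n - (1 / 2) * u ^ n)).trans h1)
  have h4 : 1 / 2 < tt (n + 2) (cen z (n + 2)) := by rw [e1]; linarith
  obtain ⟨hc3, -⟩ := cen_minus z (n + 2) h4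
  refine ⟨h3, h4, ?_⟩
  rw [show n + 3 = n + 2 + 1 from rfl, hc3, show n + 2 = n + 1 + 1 from rfl, hc2, hc1]
  have h5 : u ^ (n + 1 + 1) = u ^ n * u ^ 2 := by rw [← pow_add]
  rw [h5, u_sq, pow_succ]
  ring

/-- constant stretches -/
lemma stretch (z : ℂ) (a b : ℕ) (c : ℂ) (hc : cen z a = c)
    (h : ∀ m, a ≤ m → m < b → tt m c < 1 / 2) : ∀ m, a ≤ m → m ≤ b → cen z m = c := by
  intro m hm
  induction m, hm using Nat.le_induction with
  | base => intro _; exact hc
  | succ m hm ih =>
    intro hmb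
    have h1 := ih (by omega)
    have h2 := h m hm (by omega)
    rw [← h1] at h2
    rw [(cen_plus z m h2).1, h1]

/-- **Main theorem.** -/
theorem main : ∃ z : ℂ, Admissible al z ∧ ¬ EventuallyPeriodic (sign al z) := by
  obtain ⟨w0, hw⟩ := exists_start
  set z : ℂ := w0 + rho with hz
  have hcen0 : cen z 0 = w0 := by
    unfold cen
    rw [walk, pow_zero, hz]
    ring
  -- centres at the event times
  have hcen : ∀ k, cen z (sq k).n = w0 + (sq k).C := by
    intro k
    induction k with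
    | zero =>
      have h1 : (sq 0).n = 0 := rfl
      have h2 : (sq 0).C = 0 := rfl
      rw [h1, h2, hcen0, add_zero]
    | succ k ih =>
      obtain ⟨h1, h2, h3⟩ := hw k
      rw [← ih] at h1 h2
      obtain ⟨-, -, e3⟩ := event z (sq k).n h1 h2
      have e4 : cen z ((sq k).n + 3) = w0 + (sq (k + 1)).C := by
        rw [e3, ih, C_succ]; ring
      have hn := n_succ k
      exact stretch z _ (sq (k + 1)).n _ e4 h3 (sq (k + 1)).n (by omega) le_rfl
  have hev : ∀ k, 1 / 2 < tt (sq k).n (cen z (sq k).n) ∧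
      1 / 2 < tt ((sq k).n + 1) (cen z ((sq k).n + 1)) ∧
      1 / 2 < tt ((sq k).n + 2) (cen z ((sq k).n + 2)) ∧
      ∀ m, (sq k).n + 3 ≤ m → m < (sq (k + 1)).n → tt m (cen z m) < 1 / 2 := by
    intro k
    obtain ⟨h1, h2, h3⟩ := hw k
    rw [← hcen k] at h1 h2
    obtain ⟨e1, e2, e3⟩ := event z (sq k).n h1 h2
    refine ⟨h2, e1, e2, ?_⟩
    have e4 : cen z ((sq k).n + 3) = w0 + (sq (k + 1)).C := by
      rw [e3, hcen k, C_succ]; ring
    intro m hm1 hm2
    rw [stretch z _ (sq (k + 1)).n _ e4 h3 m hm1 hm2.le]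
    exact h3 m hm1 hm2
  -- the event times tend to infinity
  have hnk : ∀ k, k ≤ (sq k).n := by
    intro k
    induction k with
    | zero => exact Nat.zero_le _
    | succ k ih => have := n_succ k; omega
  -- every time lies in a block
  have hblock : ∀ m, ∃ k, (sq k).n ≤ m ∧ m < (sq (k + 1)).n := by
    intro m
    have hex : ∃ k, m < (sq k).n := ⟨m + 1, lt_of_lt_of_le (Nat.lt_succ_self m) (hnk (m + 1))⟩
    classical
    set k := Nat.find hex with hk
    have h1 : m < (sq k).n := Nat.find_spec hex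
    have h2 : k ≠ 0 := by
      intro h0
      rw [h0] at h1
      have : (sq 0).n = 0 := rfl
      omega
    obtain ⟨j, hj⟩ := Nat.exists_eq_succ_of_ne_zero h2
    refine ⟨j, ?_, ?_⟩
    · by_contra hlt
      push Not at hlt
      have := Nat.find_min hex (m := j) (by rw [← hk, hj]; exact Nat.lt_succ_self j)
      exact this hlt
    · rw [hj] at h1
      exact h1
  have hadm : Admissible al z := by
    intro m
    apply no_tie
    obtain ⟨k, hk1, hk2⟩ := hblock m
    obtain ⟨e0, e1, e2, e3⟩ := hev k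
    rcases Nat.lt_or_ge m ((sq k).n + 3) with h | h
    · have : m = (sq k).n ∨ m = (sq k).n + 1 ∨ m = (sq k).n + 2 := by omega
      rcases this with h | h | h <;> subst h
      · exact ne_of_gt e0
      · exact ne_of_gt e1
      · exact ne_of_gt e2
    · exact ne_of_lt (e3 m h hk2)
  refine ⟨z, hadm, ?_⟩
  rintro ⟨N, p, hp, hper⟩
  -- a long stretch of signs `+1`
  set k := N + p with hk
  have hn := n_succ k
  have hkn := hnk k
  have hplus : ∀ m, (sq k).n + 3 ≤ m → m < (sq k).n + 3 + p → sign al z m = 1 := by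
    intro m hm1 hm2
    exact (cen_plus z m ((hev k).2.2.2 m hm1 (by omega))).2
  have hall : ∀ m, (sq k).n + 3 ≤ m → sign al z m = 1 := by
    intro m
    induction m using Nat.strong_induction_on with
    | _ m ih =>
      intro hm
      rcases Nat.lt_or_ge m ((sq k).n + 3 + p) with h | h
      · exact hplus m hm h
      · have h1 := ih (m - p) (by omega) (by omega)
        have h2 := hper (m - p) (by omega)
        rw [show m - p + p = m by omega] at h2
        rw [h2, h1]
  have h1 := hall (sq (k + 1)).n (by omega)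
  have h2 := (cen_minus z _ (hev (k + 1)).1).2
  rw [h1] at h2
  norm_num at h2

end Pool.Agent.R273.GW
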