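import Pool.Agent.R273.TpDefs

/-!
Core of MP_4ff6b6_an: the gap-lemma argument, in operational form.
-/

namespace R273.Tp

open Set

/-- Operational form of a lower bound `τ` for the thickness. -/
structure Thick (K : Set ℝ) (τ : ℝ) : Prop where
  R : ∀ u v a b, IsGap K u v → IsGap K a b → v ≤ a → v - u ≤ b - a → τ * (v - u) ≤ a - v
  L : ∀ u v a b, IsGap K u v → IsGap K a b → b ≤ u → v - u ≤ b - a → τ * (v - u) ≤ u - b

/-- A point outside a closed set, with points of the set on both sides, lies in a gap. -/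
lemma exists_gap_around {K : Set ℝ} (hK : IsClosed K) {z l r : ℝ} (hz : z ∉ K)
    (hl : l ∈ K) (hlz : l ≤ z) (hr : r ∈ K) (hzr : z ≤ r) :
    ∃ a b, IsGap K a b ∧ a < z ∧ z < b ∧ l ≤ a ∧ b ≤ r := by
  have hA : IsClosed (K ∩ Iic z) := hK.inter isClosed_Iic
  have hB : IsClosed (K ∩ Ici z) := hK.inter isClosed_Ici
  have hAne : (K ∩ Iic z).Nonempty := ⟨l, hl, hlz⟩
  have hBne : (K ∩ Ici z).Nonempty := ⟨r, hr, hzr⟩
  have hAb : BddAbove (K ∩ Iic z) := ⟨z, fun y hy => hy.2⟩
  have hBb : BddBelow (K ∩ Ici z) := ⟨z, fun y hy => hy.2⟩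
  have ha := hA.csSup_mem hAne hAb
  have hb := hB.csInf_mem hBne hBb
  set a := sSup (K ∩ Iic z) with hadef
  set b := sInf (K ∩ Ici z) with hbdef
  have haz : a < z := lt_of_le_of_ne ha.2 (fun h => hz (h ▸ ha.1))
  have hzb : z < b := lt_of_le_of_ne hb.2 (fun h => hz (h ▸ hb.1))
  refine ⟨a, b, ⟨ha.1, hb.1, haz.trans hzb, ?_⟩, haz, hzb, le_csSup hAb ⟨hl, hlz⟩,
    csInf_le hBb ⟨hr, hzr⟩⟩
  rintro x hx ⟨h1, h2⟩
  rcases le_total x z with h | h
  · exact absurd (le_csSup hAb ⟨hx, h⟩) (not_le.mpr h1)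
  · exact absurd (csInf_le hBb ⟨hx, h⟩) (not_le.mpr h2)

/-- The core statement: the gap lemma run next to a gap `(p, q)` that is the largest one in
`[α, β]`, for slopes that are not too small. -/
theorem core {K : Set ℝ} (hK : IsClosed K) {τ : ℝ} (hτ : 1 < τ) (hT : Thick K τ)
    (hadj : ∀ a b c, IsGap K a b → IsGap K b c → False)
    {f : ℝ → ℝ} (hf : Continuous f) (hf0 : f 0 = 0) {m₁ m₂ : ℝ} (hm₁ : 0 < m₁)
    (hlow : ∀ s t, s ≤ t → m₁ * (t - s) ≤ f t - f s)
    (hupp : ∀ s t, s ≤ t → f t - f s ≤ m₂ * (t - s))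
    (hm : m₂ < τ * m₁) (hone : 1 < τ * m₁)
    {α' α p q β γ : ℝ} (h₁ : IsGap K α' α) (hG : IsGap K p q) (h₂ : IsGap K β γ)
    (hαp : α ≤ p) (hqβ : q ≤ β) (hmax : ∀ a b, IsGap K a b → α ≤ a → b ≤ β → b - a ≤ q - p)
    (hg₁ : q - p ≤ α - α') (hg₂ : q - p ≤ γ - β) :
    ∃ t, 0 < t ∧ m₁ * t ≤ max (m₁ * (β - α)) (β - α) ∧ p - t ∈ K ∧ p ∈ K ∧ p + f t ∈ K := by
  classical
  by_contra hcon
  push Not at hcon
  have hpK : p ∈ K := hG.1
  have hqK : q ∈ K := hG.2.1
  have hpq : p < q := hG.2.2.1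
  have hαK : α ∈ K := h₁.2.1
  have hβK : β ∈ K := h₂.1
  have hstrict : StrictMono f := by
    intro s t hst
    have := hlow s t hst.le
    have h2 : 0 < m₁ * (t - s) := mul_pos hm₁ (by linarith)
    linarith
  -- the bridges of `(p, q)`
  have hR₀ : τ * (q - p) ≤ β - q := hT.R p q β γ hG h₂ hqβ hg₂
  have hL₀ : τ * (q - p) ≤ p - α := hT.L p q α' α hG h₁ hαp hg₁
  have hg : 0 < q - p := by linarith
  -- no solution
  have hno1 : ∀ t, 0 < t → t ≤ β - α → p - t ∈ K → p + f t ∉ K := by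
    intro t ht htb h1 h2
    refine hcon t ht ?_ h1 hpK h2
    exact le_max_of_le_left (mul_le_mul_of_nonneg_left htb hm₁.le)
  have hno2 : ∀ t, 0 < t → f t ≤ β - p → p - t ∈ K → p + f t ∉ K := by
    intro t ht htb h1 h2
    refine hcon t ht ?_ h1 hpK h2
    have := hlow 0 t ht.le
    rw [hf0] at this
    exact le_max_of_le_right (by linarith)
  -- surjectivity
  have hsurj : ∀ y, p ≤ y → y ≤ β → ∃ t, 0 ≤ t ∧ f t = y - p := by
    intro y hy1 hy2
    have hpos : 0 ≤ (y - p) / m₁ := div_nonneg (by linarith) hm₁.le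
    have h1 : y - p ≤ f ((y - p) / m₁) := by
      have := hlow 0 ((y - p) / m₁) hpos
      rw [hf0] at this
      have e : m₁ * ((y - p) / m₁ - 0) = y - p := by field_simp; ring
      linarith
    have := intermediate_value_Icc hpos hf.continuousOn (a := 0) (b := (y - p) / m₁)
    obtain ⟨t, ht, hty⟩ := this (⟨by rw [hf0]; linarith, h1⟩ : y - p ∈ Icc (f 0) (f ((y - p) / m₁)))
    exact ⟨t, ht.1, hty⟩
  obtain ⟨s, hs0, hfs⟩ := hsurj q hpq.le hqβ
  have hspos : 0 < s := by
    rcases hs0.lt_or_eq with h | h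
    · exact h
    · rw [← h, hf0] at hfs; linarith
  have hsle : m₁ * s ≤ q - p := by
    have := hlow 0 s hs0
    rw [hf0, hfs] at this; linarith
  have hsτ : s < τ * (q - p) := by
    have h1 : s < (τ * m₁) * s := by nlinarith
    have h2 : (τ * m₁) * s = τ * (m₁ * s) := by ring
    have h3 : τ * (m₁ * s) ≤ τ * (q - p) := mul_le_mul_of_nonneg_left hsle (by linarith)
    linarith

  -- the set of linked pairs
  let S : Set (ℝ × ℝ × ℝ × ℝ) := {x |
    (0 ≤ x.1 ∧ x.1 ≤ x.2.1 ∧ x.2.1 ≤ p - α ∧ p - x.1 ∈ K ∧ p - x.2.1 ∈ K ∧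
      ∀ y ∈ K, y ≤ p - x.2.1 ∨ p - x.1 ≤ y) ∧
    (s ≤ x.2.2.1 ∧ x.2.2.1 ≤ x.2.2.2 ∧ f x.2.2.2 ≤ β - p ∧ p + f x.2.2.1 ∈ K ∧
      p + f x.2.2.2 ∈ K ∧ ∀ y ∈ K, y ≤ p + f x.2.2.1 ∨ p + f x.2.2.2 ≤ y) ∧
    ((x.1 ≤ x.2.2.1 ∧ x.2.2.1 ≤ x.2.1 ∧ x.2.1 ≤ x.2.2.2) ∨
      (x.2.2.1 ≤ x.1 ∧ x.1 ≤ x.2.2.2 ∧ x.2.2.2 ≤ x.2.1))}
  have hSclosed : IsClosed S := by
    have c1 : Continuous fun x : ℝ × ℝ × ℝ × ℝ => x.1 := by fun_prop
    have c2 : Continuous fun x : ℝ × ℝ × ℝ × ℝ => x.2.1 := by fun_prop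
    have c3 : Continuous fun x : ℝ × ℝ × ℝ × ℝ => x.2.2.1 := by fun_prop
    have c4 : Continuous fun x : ℝ × ℝ × ℝ × ℝ => x.2.2.2 := by fun_prop
    have d3 : Continuous fun x : ℝ × ℝ × ℝ × ℝ => f x.2.2.1 := hf.comp c3
    have d4 : Continuous fun x : ℝ × ℝ × ℝ × ℝ => f x.2.2.2 := hf.comp c4
    refine IsClosed.inter ?_ (IsClosed.inter ?_ ?_)
    · refine (isClosed_le continuous_const c1).inter ((isClosed_le c1 c2).inter
        ((isClosed_le c2 continuous_const).inter
        ((hK.preimage (continuous_const.sub c1)).inter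
        ((hK.preimage (continuous_const.sub c2)).inter ?_))))
      have : {x : ℝ × ℝ × ℝ × ℝ | ∀ y ∈ K, y ≤ p - x.2.1 ∨ p - x.1 ≤ y} =
          ⋂ y ∈ K, ({x | y ≤ p - x.2.1} ∪ {x | p - x.1 ≤ y}) := by
        ext x; simp
      change IsClosed {x : ℝ × ℝ × ℝ × ℝ | ∀ y ∈ K, y ≤ p - x.2.1 ∨ p - x.1 ≤ y}
      rw [this]
      exact isClosed_biInter fun y _ =>
        (isClosed_le continuous_const (continuous_const.sub c2)).union
          (isClosed_le (continuous_const.sub c1) continuous_const)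
    · refine (isClosed_le continuous_const c3).inter ((isClosed_le c3 c4).inter
        ((isClosed_le d4 continuous_const).inter
        ((hK.preimage (continuous_const.add d3)).inter
        ((hK.preimage (continuous_const.add d4)).inter ?_))))
      have : {x : ℝ × ℝ × ℝ × ℝ | ∀ y ∈ K, y ≤ p + f x.2.2.1 ∨ p + f x.2.2.2 ≤ y} =
          ⋂ y ∈ K, ({x | y ≤ p + f x.2.2.1} ∪ {x | p + f x.2.2.2 ≤ y}) := by
        ext x; simp
      change IsClosed {x : ℝ × ℝ × ℝ × ℝ | ∀ y ∈ K, y ≤ p + f x.2.2.1 ∨ p + f x.2.2.2 ≤ y}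
      rw [this]
      exact isClosed_biInter fun y _ =>
        (isClosed_le continuous_const (continuous_const.add d3)).union
          (isClosed_le (continuous_const.add d4) continuous_const)
    · exact ((isClosed_le c1 c3).inter ((isClosed_le c3 c2).inter (isClosed_le c2 c4))).union
        ((isClosed_le c3 c1).inter ((isClosed_le c1 c4).inter (isClosed_le c4 c2)))
  have htb : ∀ t, 0 ≤ t → f t ≤ β - p → t ≤ (β - p) / m₁ := by
    intro t ht h
    rw [le_div_iff₀ hm₁]
    have := hlow 0 t ht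
    rw [hf0] at this
    nlinarith
  have hScompact : IsCompact S := by
    have hbox : IsCompact (Icc (0 : ℝ) (p - α) ×ˢ Icc (0 : ℝ) (p - α) ×ˢ
        Icc (0 : ℝ) ((β - p) / m₁) ×ˢ Icc (0 : ℝ) ((β - p) / m₁)) :=
      isCompact_Icc.prod (isCompact_Icc.prod (isCompact_Icc.prod isCompact_Icc))
    refine hbox.of_isClosed_subset hSclosed ?_
    rintro ⟨s1, s2, t1, t2⟩ ⟨⟨a1, a2, a3, -⟩, ⟨b1, b2, b3, -⟩, -⟩
    simp only at a1 a2 a3 b1 b2 b3
    have hb : t2 ≤ (β - p) / m₁ := htb t2 (by linarith) b3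
    exact ⟨⟨a1, a2.trans a3⟩, ⟨a1.trans a2, a3⟩, ⟨hspos.le.trans b1, b2.trans hb⟩,
      ⟨(hspos.le.trans b1).trans b2, hb⟩⟩
  -- the initial pair
  have hSne : S.Nonempty := by
    have hz : p - s ∉ K := by
      intro h
      refine hno2 s hspos (by rw [hfs]; linarith) h ?_
      rw [hfs]; simpa using hqK
    obtain ⟨a1, a2, hA, ha1, ha2, hαa, hap⟩ := exists_gap_around hK hz hαK
      (by linarith) hpK (by linarith)
    have ha2p : a2 < p := lt_of_le_of_ne hap (fun h => hadj a1 a2 q hA (by rw [h]; exact hG))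
    have hAlen : a2 - a1 ≤ q - p := hmax a1 a2 hA hαa (by linarith)
    have hAR : τ * (a2 - a1) ≤ p - a2 := hT.R a1 a2 p q hA hG hap hAlen
    -- `y = p + f (p - a1)`
    have hsa : s < p - a1 := by linarith
    have hy1 : f (p - a1) - f s ≤ m₂ * (p - a1 - s) := hupp s (p - a1) hsa.le
    have hkey : τ * (p - a1 - s) < s := by
      have h1 : τ * (p - a1 - s) < τ * (a2 - a1) := by
        apply mul_lt_mul_of_pos_left _ (by linarith)
        linarith
      linarith
    have hm₂ : 0 < m₂ := by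
      have h1 := hlow 0 1 zero_le_one
      have h2 := hupp 0 1 zero_le_one
      nlinarith
    have hy2 : m₂ * (p - a1 - s) < q - p := by
      have h1 : m₂ * (p - a1 - s) ≤ (τ * m₁) * (p - a1 - s) :=
        mul_le_mul_of_nonneg_right hm.le (by linarith)
      have h2 : m₁ * (τ * (p - a1 - s)) < m₁ * s := mul_lt_mul_of_pos_left hkey hm₁
      nlinarith
    have hyq : q < p + f (p - a1) := by
      have := hstrict hsa
      rw [hfs] at this; linarith
    have hyβ : p + f (p - a1) < β := by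
      rw [hfs] at hy1
      nlinarith
    have hyK : p + f (p - a1) ∉ K := by
      refine hno1 (p - a1) (by linarith) (by linarith) ?_
      simpa using hA.1
    obtain ⟨b1, b2, hB, hb1, hb2, hqb, hbβ⟩ := exists_gap_around hK hyK hqK hyq.le hβK hyβ.le
    obtain ⟨t1, ht10, ht1⟩ := hsurj b1 (by linarith) (by linarith [hB.2.2.1])
    obtain ⟨t2, ht20, ht2⟩ := hsurj b2 (by linarith [hB.2.2.1]) hbβ
    have e1 : p + f t1 = b1 := by rw [ht1]; ring
    have e2 : p + f t2 = b2 := by rw [ht2]; ring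
    have hst1 : s ≤ t1 := by
      rw [← hstrict.le_iff_le, hfs, ht1]; linarith
    have ht12 : t1 ≤ t2 := by
      rw [← hstrict.le_iff_le, ht1, ht2]; linarith [hB.2.2.1]
    have ht1s : t1 < p - a1 := by
      rw [← hstrict.lt_iff_lt, ht1]; linarith
    have hst2 : p - a1 < t2 := by
      rw [← hstrict.lt_iff_lt, ht2]; linarith
    refine ⟨(p - a2, p - a1, t1, t2), ⟨?_, ?_, ?_, ?_, ?_, ?_⟩, ⟨hst1, ht12, ?_, ?_, ?_, ?_⟩, ?_⟩
    · simp only; linarith
    · simp only; linarith [hA.2.2.1]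
    · simp only; linarith
    · simpa using hA.2.1
    · simpa using hA.1
    · intro y hy
      simp only [sub_sub_cancel]
      by_contra hc
      push Not at hc
      exact hA.2.2.2 y hy hc
    · simp only; rw [ht2]; linarith
    · simp only; rw [e1]; exact hB.1
    · simp only; rw [e2]; exact hB.2.1
    · intro y hy
      simp only [e1, e2]
      by_contra hc
      push Not at hc
      exact hB.2.2.2 y hy hc
    · left
      simp only
      exact ⟨by linarith, ht1s.le, hst2.le⟩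
  -- minimal linked pair
  obtain ⟨⟨s1, s2, t1, t2⟩, hxS, hmin⟩ := hScompact.exists_isMinOn hSne
    (f := fun x : ℝ × ℝ × ℝ × ℝ => (x.2.1 - x.1) + (f x.2.2.2 - f x.2.2.1))
    (by fun_prop)
  obtain ⟨⟨hs10, hs12, hs2α, hs1K, hs2K, hsgap⟩, ⟨hst1, ht12, ht2β, ht1K, ht2K, htgap⟩, hlink⟩ := hxS
  simp only at hs10 hs12 hs2α hs1K hs2K hsgap hst1 ht12 ht2β ht1K ht2K htgap hlink
  have ht1pos : 0 < t1 := by linarith
  have ht2pos : 0 < t2 := by linarith
  have hft12 : f t1 ≤ f t2 := hstrict.monotone ht12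
  have hn1 : p - t1 ∉ K := fun h => hno2 t1 ht1pos (by linarith) h ht1K
  have hn2 : p - t2 ∉ K := fun h => hno2 t2 ht2pos (by linarith) h ht2K
  have h11 : t1 ≠ s1 := fun h => hn1 (h ▸ hs1K)
  have h12 : t1 ≠ s2 := fun h => hn1 (h ▸ hs2K)
  have h21 : t2 ≠ s1 := fun h => hn2 (h ▸ hs1K)
  have h22 : t2 ≠ s2 := fun h => hn2 (h ▸ hs2K)
  -- a minimal pair cannot be improved on the left side ...
  have himpA : ∀ c1 c2, IsGap K c1 c2 → α ≤ c1 → c2 ≤ p → c2 - c1 < s2 - s1 →
      ((p - c2 ≤ t1 ∧ t1 ≤ p - c1 ∧ p - c1 ≤ t2) ∨ (t1 ≤ p - c2 ∧ p - c2 ≤ t2 ∧ t2 ≤ p - c1)) →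
      False := by
    intro c1 c2 hC hc1 hc2 hlen hl
    have hin : ((p - c2, p - c1, t1, t2) : ℝ × ℝ × ℝ × ℝ) ∈ S := by
      refine ⟨⟨?_, ?_, ?_, ?_, ?_, ?_⟩, ⟨hst1, ht12, ht2β, ht1K, ht2K, htgap⟩, hl⟩
      · simp only; linarith
      · simp only; linarith [hC.2.2.1]
      · simp only; linarith
      · simpa using hC.2.1
      · simpa using hC.1
      · intro y hy
        simp only [sub_sub_cancel]
        by_contra hc
        push Not at hc
        exact hC.2.2.2 y hy hc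
    have := hmin hin
    simp only [mem_ofPred_eq] at this
    linarith
  -- ... nor on the right side
  have himpB : ∀ d1 d2, IsGap K d1 d2 → q ≤ d1 → d2 ≤ β → d2 - d1 < f t2 - f t1 →
      (∀ r1 r2, f r1 = d1 - p → f r2 = d2 - p →
        ((s1 ≤ r1 ∧ r1 ≤ s2 ∧ s2 ≤ r2) ∨ (r1 ≤ s1 ∧ s1 ≤ r2 ∧ r2 ≤ s2))) → False := by
    intro d1 d2 hD hd1 hd2 hlen hl
    obtain ⟨r1, hr10, hr1⟩ := hsurj d1 (by linarith) (by linarith [hD.2.2.1])
    obtain ⟨r2, hr20, hr2⟩ := hsurj d2 (by linarith [hD.2.2.1]) hd2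
    have e1 : p + f r1 = d1 := by rw [hr1]; ring
    have e2 : p + f r2 = d2 := by rw [hr2]; ring
    have hin : ((s1, s2, r1, r2) : ℝ × ℝ × ℝ × ℝ) ∈ S := by
      refine ⟨⟨hs10, hs12, hs2α, hs1K, hs2K, hsgap⟩, ⟨?_, ?_, ?_, ?_, ?_, ?_⟩, hl r1 r2 hr1 hr2⟩
      · simp only; rw [← hstrict.le_iff_le, hfs, hr1]; linarith
      · simp only; rw [← hstrict.le_iff_le, hr1, hr2]; linarith [hD.2.2.1]
      · simp only; rw [hr2]; linarith
      · simp only; rw [e1]; exact hD.1
      · simp only; rw [e2]; exact hD.2.1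
      · intro y hy
        simp only [e1, e2]
        by_contra hc
        push Not at hc
        exact hD.2.2.2 y hy hc
    have := hmin hin
    simp only [mem_ofPred_eq] at this
    rw [hr1, hr2] at this
    linarith
  -- strict ordering of the two gaps
  have hs12' : s1 < s2 := by
    rcases hlink with ⟨h1, h2, h3⟩ | ⟨h1, h2, h3⟩
    · exact lt_of_lt_of_le (lt_of_le_of_ne h1 (Ne.symm h11)) h2
    · exact lt_of_le_of_lt h2 (lt_of_le_of_ne h3 h22)
  have ht12' : t1 < t2 := by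
    rcases hlink with ⟨h1, h2, h3⟩ | ⟨h1, h2, h3⟩
    · exact lt_of_lt_of_le (lt_of_le_of_ne h2 h12) h3
    · exact lt_of_lt_of_le (lt_of_le_of_ne h1 h11) h2
  have hU : IsGap K (p - s2) (p - s1) :=
    ⟨hs2K, hs1K, by linarith, fun x hx hc => by
      rcases hsgap x hx with h | h <;> linarith [hc.1, hc.2]⟩
  have hft12' : f t1 < f t2 := hstrict ht12'
  have hV : IsGap K (p + f t1) (p + f t2) :=
    ⟨ht1K, ht2K, by linarith, fun x hx hc => by
      rcases htgap x hx with h | h <;> linarith [hc.1, hc.2]⟩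
  have hft1 : q ≤ p + f t1 := by
    have := hstrict.monotone hst1
    rw [hfs] at this; linarith
  -- bridges of the two gaps
  have hUlen : (p - s1) - (p - s2) ≤ q - p := hmax _ _ hU (by linarith) (by linarith)
  have hVlen : (p + f t2) - (p + f t1) ≤ q - p := hmax _ _ hV (by linarith) (by linarith)
  have hUL : τ * ((p - s1) - (p - s2)) ≤ (p - s2) - α :=
    hT.L _ _ α' α hU h₁ (by linarith) (by linarith)
  have hUR : τ * ((p - s1) - (p - s2)) ≤ p - (p - s1) :=
    hT.R _ _ p q hU hG (by linarith) hUlen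
  have hVL : τ * ((p + f t2) - (p + f t1)) ≤ (p + f t1) - q :=
    hT.L _ _ p q hV hG hft1 hVlen
  have hVR : τ * ((p + f t2) - (p + f t1)) ≤ β - (p + f t2) :=
    hT.R _ _ β γ hV h₂ (by linarith) (by linarith)
  have eU : τ * ((p - s1) - (p - s2)) = τ * (s2 - s1) := by ring
  have eV : τ * ((p + f t2) - (p + f t1)) = τ * (f t2 - f t1) := by ring
  rw [eU] at hUL hUR
  rw [eV] at hVL hVR
  have hUpos : 0 < s2 - s1 := by linarith
  have hτU : s2 - s1 < τ * (s2 - s1) := lt_mul_of_one_lt_left hUpos hτ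
  have hm₂ : 0 < m₂ := by
    have h1 := hlow 0 1 zero_le_one
    have h2 := hupp 0 1 zero_le_one
    nlinarith
  -- a displacement smaller than `t2 - t1` moves `f` by less than `τ (f t2 - f t1)`
  have hdisp : ∀ a b, a ≤ b → b - a < t2 - t1 → f b - f a < τ * (f t2 - f t1) := by
    intro a b hab hlt
    have h1 := hupp a b hab
    have h2 : m₂ * (b - a) < m₂ * (t2 - t1) := mul_lt_mul_of_pos_left hlt hm₂
    have h3 : m₂ * (t2 - t1) ≤ τ * m₁ * (t2 - t1) :=
      mul_le_mul_of_nonneg_right hm.le (by linarith)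
    have h4 : τ * (m₁ * (t2 - t1)) ≤ τ * (f t2 - f t1) :=
      mul_le_mul_of_nonneg_left (hlow t1 t2 ht12) (by linarith)
    have h5 : τ * m₁ * (t2 - t1) = τ * (m₁ * (t2 - t1)) := by ring
    linarith
  rcases hlink with ⟨h1, h2, h3⟩ | ⟨h1, h2, h3⟩
  · -- type I : s1 < t1 < s2 < t2
    have g1 : s1 < t1 := lt_of_le_of_ne h1 (Ne.symm h11)
    have g2 : t1 < s2 := lt_of_le_of_ne h2 h12
    have g3 : s2 < t2 := lt_of_le_of_ne h3 (Ne.symm h22)
    rcases le_or_gt (t2 - t1) (s2 - s1) with hc | hc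
    · -- `V` is not longer : replace `U`
      have hzα : α ≤ p - t2 := by linarith
      obtain ⟨c1, c2, hC, hc1, hc2, hαc, hca⟩ := exists_gap_around hK hn2 hαK hzα hs2K
        (by linarith)
      have hlen : c2 - c1 < s2 - s1 := by
        by_contra hcon2
        push Not at hcon2
        have := hT.L _ _ c1 c2 hU hC hca (by linarith)
        rw [eU] at this
        linarith
      exact himpA c1 c2 hC hαc (by linarith) hlen (Or.inr ⟨by linarith, by linarith, by linarith⟩)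
    · -- `V` is longer : replace `V`
      have hdd := hdisp s1 t1 g1.le (by linarith)
      have hy1 : q < p + f s1 := by linarith
      have hs1pos : 0 < s1 := by
        rcases hs10.lt_or_eq with h | h
        · exact h
        · rw [← h, hf0] at hy1; linarith
      have hyK : p + f s1 ∉ K := hno1 s1 hs1pos (by linarith) hs1K
      have hfs1 : f s1 < f t1 := hstrict g1
      obtain ⟨d1, d2, hD, hd1, hd2, hqd, hdb⟩ := exists_gap_around hK hyK hqK hy1.le ht1K
        (by linarith)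
      have hlen : d2 - d1 < f t2 - f t1 := by
        by_contra hcon2
        push Not at hcon2
        have := hT.L _ _ d1 d2 hV hD hdb (by linarith)
        rw [eV] at this
        linarith
      refine himpB d1 d2 hD hqd (by linarith) hlen ?_
      intro r1 r2 hr1 hr2
      right
      refine ⟨?_, ?_, ?_⟩
      · rw [← hstrict.le_iff_le, hr1]; linarith
      · rw [← hstrict.le_iff_le, hr2]; linarith
      · have : r2 ≤ t1 := by rw [← hstrict.le_iff_le, hr2]; linarith
        linarith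
  · -- type II : t1 < s1 < t2 < s2
    have g1 : t1 < s1 := lt_of_le_of_ne h1 h11
    have g2 : s1 < t2 := lt_of_le_of_ne h2 (Ne.symm h21)
    have g3 : t2 < s2 := lt_of_le_of_ne h3 h22
    rcases le_or_gt (t2 - t1) (s2 - s1) with hc | hc
    · obtain ⟨c1, c2, hC, hc1, hc2, hac, hcp⟩ := exists_gap_around hK hn1 hs1K (by linarith) hpK
        (by linarith)
      have hlen : c2 - c1 < s2 - s1 := by
        by_contra hcon2
        push Not at hcon2
        have := hT.R _ _ c1 c2 hU hC hac (by linarith)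
        rw [eU] at this
        linarith
      exact himpA c1 c2 hC (by linarith) hcp hlen (Or.inl ⟨by linarith, by linarith, by linarith⟩)
    · have hdd := hdisp t2 s2 g3.le (by linarith)
      have hy1 : p + f s2 < β := by linarith
      have hyK : p + f s2 ∉ K := hno1 s2 (by linarith) (by linarith) hs2K
      have hfs2 : f t2 < f s2 := hstrict g3
      obtain ⟨d1, d2, hD, hd1, hd2, hbd, hdβ⟩ := exists_gap_around hK hyK ht2K (by linarith) hβK
        hy1.le
      have hlen : d2 - d1 < f t2 - f t1 := by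
        by_contra hcon2
        push Not at hcon2
        have := hT.R _ _ d1 d2 hV hD hbd (by linarith)
        rw [eV] at this
        linarith
      refine himpB d1 d2 hD (by linarith) hdβ hlen ?_
      intro r1 r2 hr1 hr2
      left
      refine ⟨?_, ?_, ?_⟩
      · have : t2 ≤ r1 := by rw [← hstrict.le_iff_le, hr1]; linarith
        linarith
      · rw [← hstrict.le_iff_le, hr1]; linarith
      · rw [← hstrict.le_iff_le, hr2]; linarith

end R273.Tp
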