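import Mathlib

/-!
Definitions for MP_4ff6b6_an: Cantor sets, gaps, bridges and Newhouse thickness.
-/

namespace R273.Tp

/-- A Cantor set: a nonempty, compact, perfect, totally disconnected set of reals. -/
def IsCantorSet (K : Set ℝ) : Prop :=
  K.Nonempty ∧ IsCompact K ∧ Perfect K ∧ IsTotallyDisconnected K

/-- `(u, v)` is a bounded gap of `K`: `u < v` are points of `K` and no point of `K` lies strictly
between them. (For closed `K` these are exactly the bounded components of the complement.) -/
def IsGap (K : Set ℝ) (u v : ℝ) : Prop :=
  u ∈ K ∧ v ∈ K ∧ u < v ∧ ∀ x ∈ K, ¬ (u < x ∧ x < v)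

/-- Right end of the bridge at the right endpoint `v` of the bounded gap `(u, v)`: the left endpoint
of the nearest bounded gap to the right of `v` that stops the bridge, or `max K` if there is none.
`stops g h` says that a gap of length `h` stops the bridges of a gap of length `g`. -/
noncomputable def rightBridgeEnd (stops : ℝ → ℝ → Prop) (K : Set ℝ) (u v : ℝ) : ℝ :=
  sInf ({a | ∃ b, IsGap K a b ∧ v ≤ a ∧ stops (v - u) (b - a)} ∪ {sSup K})

/-- Left end of the bridge at the left endpoint `u` of the bounded gap `(u, v)`: the right endpoint
of the nearest bounded gap to the left of `u` that stops the bridge, or `min K` if there is none. -/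
noncomputable def leftBridgeEnd (stops : ℝ → ℝ → Prop) (K : Set ℝ) (u v : ℝ) : ℝ :=
  sSup ({b | ∃ a, IsGap K a b ∧ b ≤ u ∧ stops (v - u) (b - a)} ∪ {sInf K})

/-- Infimum, over all endpoints of bounded gaps of `K`, of (length of the bridge) / (length of the
gap). -/
noncomputable def bridgeThickness (stops : ℝ → ℝ → Prop) (K : Set ℝ) : ENNReal :=
  ⨅ (u : ℝ) (v : ℝ) (_ : IsGap K u v),
    min (ENNReal.ofReal ((rightBridgeEnd stops K u v - v) / (v - u)))
      (ENNReal.ofReal ((u - leftBridgeEnd stops K u v) / (v - u)))

/-- Newhouse thickness: a bridge of a gap `G` ends at the nearest bounded gap of length at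
least `|G|`. -/
noncomputable def newhouseThickness (K : Set ℝ) : ENNReal :=
  bridgeThickness (fun g h => g ≤ h) K

end R273.Tp
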