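import Pool.Agent.R273.TpDefs

/-!
A self-similar Cantor set with two equal gaps and a tiny middle piece at every stage
(for MP_4ff6b6_an, the reading in which gaps of equal length do not stop a bridge).
-/

namespace R273.Tp

open Set

/-- Inverse branches of the three maps of the iterated function system. -/
def IsChild (ρ κ : ℝ) : Prop :=
  (ρ = 4 ∧ κ = 0) ∨ (ρ = 10000 ∧ κ = 9999 / 2) ∨ (ρ = 4 ∧ κ = 3)

/-- Stages of the construction. -/
def stage : ℕ → Set ℝ
  | 0 => Icc 0 1
  | n + 1 => {x | 4 * x ∈ stage n} ∪ ({x | 10000 * x - 9999 / 2 ∈ stage n} ∪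
      {x | 4 * x - 3 ∈ stage n})

/-- The attractor of `x / 4`, `x / 10000 + 9999 / 20000`, `(x + 3) / 4`. -/
def looseSet : Set ℝ := ⋂ n, stage n

lemma isClosed_stage (n : ℕ) : IsClosed (stage n) := by
  induction n with
  | zero => exact isClosed_Icc
  | succ n ih =>
    refine IsClosed.union (ih.preimage (by fun_prop)) (IsClosed.union ?_ ?_)
    · exact ih.preimage (f := fun x : ℝ => 10000 * x - 9999 / 2) (by fun_prop)
    · exact ih.preimage (f := fun x : ℝ => 4 * x - 3) (by fun_prop)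

lemma stage_sub (n : ℕ) : stage n ⊆ Icc 0 1 := by
  induction n with
  | zero => exact subset_rfl
  | succ n ih =>
    rintro x (h | h | h)
    · have := ih h
      constructor <;> linarith [this.1, this.2]
    · have := ih h
      constructor <;> linarith [this.1, this.2]
    · have := ih h
      constructor <;> linarith [this.1, this.2]

lemma zero_one_mem_stage (n : ℕ) : (0 : ℝ) ∈ stage n ∧ (1 : ℝ) ∈ stage n := by
  induction n with
  | zero => exact ⟨⟨le_rfl, zero_le_one⟩, ⟨zero_le_one, le_rfl⟩⟩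
  | succ n ih =>
    constructor
    · left
      change 4 * (0 : ℝ) ∈ stage n
      rw [mul_zero]; exact ih.1
    · right; right
      change 4 * (1 : ℝ) - 3 ∈ stage n
      have : 4 * (1 : ℝ) - 3 = 1 := by norm_num
      rw [this]; exact ih.2

lemma isClosed_looseSet : IsClosed looseSet := isClosed_iInter isClosed_stage

lemma looseSet_sub : looseSet ⊆ Icc 0 1 := (iInter_subset _ 0)

lemma zero_mem : (0 : ℝ) ∈ looseSet := mem_iInter.2 fun n => (zero_one_mem_stage n).1

lemma one_mem : (1 : ℝ) ∈ looseSet := mem_iInter.2 fun n => (zero_one_mem_stage n).2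

/-- Membership through a child. -/
lemma mem_of_child {ρ κ x : ℝ} (hc : IsChild ρ κ) (h : ρ * x - κ ∈ looseSet) : x ∈ looseSet := by
  have hx : ∀ n, ρ * x - κ ∈ stage n := mem_iInter.1 h
  have h01 := looseSet_sub h
  refine mem_iInter.2 fun n => ?_
  cases n with
  | zero =>
    rcases hc with ⟨rfl, rfl⟩ | ⟨rfl, rfl⟩ | ⟨rfl, rfl⟩ <;>
    constructor <;> linarith [h01.1, h01.2]
  | succ n =>
    rcases hc with ⟨rfl, rfl⟩ | ⟨rfl, rfl⟩ | ⟨rfl, rfl⟩
    · left
      have := hx n
      rwa [sub_zero] at this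
    · right; left; exact hx n
    · right; right; exact hx n

/-- A point of the set in the hull of a child comes from that child. -/
lemma mem_child {ρ κ x : ℝ} (hc : IsChild ρ κ) (h : x ∈ looseSet) (h0 : 0 ≤ ρ * x - κ)
    (h1 : ρ * x - κ ≤ 1) : ρ * x - κ ∈ looseSet := by
  refine mem_iInter.2 fun n => ?_
  have hx : x ∈ stage (n + 1) := mem_iInter.1 h (n + 1)
  rcases hx with hx | hx | hx <;> have h2 := stage_sub n hx <;>
  rcases hc with ⟨rfl, rfl⟩ | ⟨rfl, rfl⟩ | ⟨rfl, rfl⟩
  · rw [sub_zero]; exact hx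
  · exfalso; linarith [h2.1, h2.2]
  · exfalso; linarith [h2.1, h2.2]
  · exfalso; linarith [h2.1, h2.2]
  · exact hx
  · exfalso; linarith [h2.1, h2.2]
  · exfalso; linarith [h2.1, h2.2]
  · exfalso; linarith [h2.1, h2.2]
  · exact hx

lemma exists_child {x : ℝ} (h : x ∈ looseSet) :
    ∃ ρ κ, IsChild ρ κ ∧ 0 ≤ ρ * x - κ ∧ ρ * x - κ ≤ 1 ∧ ρ * x - κ ∈ looseSet := by
  have hx : x ∈ stage 1 := mem_iInter.1 h 1
  rcases hx with hx | hx | hx <;> have h2 := stage_sub 0 hx
  · have hc : IsChild 4 0 := Or.inl ⟨rfl, rfl⟩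
    have h3 : 0 ≤ 4 * x - 0 := by linarith [h2.1]
    have h4 : 4 * x - 0 ≤ 1 := by linarith [h2.2]
    exact ⟨4, 0, hc, h3, h4, mem_child hc h h3 h4⟩
  · have hc : IsChild 10000 (9999 / 2) := Or.inr (Or.inl ⟨rfl, rfl⟩)
    exact ⟨10000, 9999 / 2, hc, h2.1, h2.2, mem_child hc h h2.1 h2.2⟩
  · have hc : IsChild 4 3 := Or.inr (Or.inr ⟨rfl, rfl⟩)
    exact ⟨4, 3, hc, h2.1, h2.2, mem_child hc h h2.1 h2.2⟩

/-- The three positions. -/
lemma trichotomy_loose {x : ℝ} (h : x ∈ looseSet) :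
    (0 ≤ x ∧ x ≤ 1 / 4 ∧ 4 * x ∈ looseSet) ∨
    (9999 / 20000 ≤ x ∧ x ≤ 10001 / 20000 ∧ 10000 * x - 9999 / 2 ∈ looseSet) ∨
    (3 / 4 ≤ x ∧ x ≤ 1 ∧ 4 * x - 3 ∈ looseSet) := by
  obtain ⟨ρ, κ, hc, h0, h1, h2⟩ := exists_child h
  rcases hc with ⟨rfl, rfl⟩ | ⟨rfl, rfl⟩ | ⟨rfl, rfl⟩
  · left
    rw [sub_zero] at h2
    exact ⟨by linarith, by linarith, h2⟩
  · right; left
    exact ⟨by linarith, by linarith, h2⟩
  · right; right
    exact ⟨by linarith, by linarith, h2⟩

lemma child_pos {ρ κ : ℝ} (hc : IsChild ρ κ) : 4 ≤ ρ := by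
  rcases hc with ⟨rfl, rfl⟩ | ⟨rfl, rfl⟩ | ⟨rfl, rfl⟩ <;> norm_num

/-- Endpoints of the hulls of the children belong to the set. -/
lemma child_left_mem {ρ κ : ℝ} (hc : IsChild ρ κ) : κ / ρ ∈ looseSet := by
  have h4 := child_pos hc
  have : ρ * (κ / ρ) - κ = 0 := by
    have : ρ ≠ 0 := by linarith
    field_simp; ring
  exact mem_of_child hc (by rw [this]; exact zero_mem)

lemma child_right_mem {ρ κ : ℝ} (hc : IsChild ρ κ) : (κ + 1) / ρ ∈ looseSet := by
  have h4 := child_pos hc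
  have : ρ * ((κ + 1) / ρ) - κ = 1 := by
    have : ρ ≠ 0 := by linarith
    field_simp; ring
  exact mem_of_child hc (by rw [this]; exact one_mem)

lemma isGap_child {ρ κ u v : ℝ} (hc : IsChild ρ κ) (hg : IsGap looseSet u v)
    (hu : ρ * u - κ ∈ looseSet) (hv : ρ * v - κ ∈ looseSet) :
    IsGap looseSet (ρ * u - κ) (ρ * v - κ) := by
  have h4 := child_pos hc
  refine ⟨hu, hv, by nlinarith [hg.2.2.1], ?_⟩
  rintro x hx ⟨h1, h2⟩
  have e : ρ * ((x + κ) / ρ) - κ = x := by
    have : ρ ≠ 0 := by linarith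
    field_simp; ring
  refine hg.2.2.2 ((x + κ) / ρ) (mem_of_child hc (by rw [e]; exact hx)) ⟨?_, ?_⟩
  · rw [lt_div_iff₀ (by linarith)]; linarith
  · rw [div_lt_iff₀ (by linarith)]; linarith

/-- A gap starting strictly inside the hull of a child (from the left end on) is a gap of it. -/
lemma child_gap_right {ρ κ a b : ℝ} (hc : IsChild ρ κ) (hg : IsGap looseSet a b)
    (h0 : 0 ≤ ρ * a - κ) (h1 : ρ * a - κ < 1) : IsGap looseSet (ρ * a - κ) (ρ * b - κ) := by
  have h4 := child_pos hc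
  have hb : ρ * b - κ ≤ 1 := by
    by_contra hcon
    push Not at hcon
    refine hg.2.2.2 ((κ + 1) / ρ) (child_right_mem hc) ⟨?_, ?_⟩
    · rw [lt_div_iff₀ (by linarith)]; linarith
    · rw [div_lt_iff₀ (by linarith)]; linarith
  have hab : ρ * a < ρ * b := mul_lt_mul_of_pos_left hg.2.2.1 (by linarith)
  exact isGap_child hc hg (mem_child hc hg.1 h0 h1.le) (mem_child hc hg.2.1 (by linarith) hb)

lemma child_gap_left {ρ κ a b : ℝ} (hc : IsChild ρ κ) (hg : IsGap looseSet a b)
    (h0 : 0 < ρ * b - κ) (h1 : ρ * b - κ ≤ 1) : IsGap looseSet (ρ * a - κ) (ρ * b - κ) := by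
  have h4 := child_pos hc
  have ha : 0 ≤ ρ * a - κ := by
    by_contra hcon
    push Not at hcon
    refine hg.2.2.2 (κ / ρ) (child_left_mem hc) ⟨?_, ?_⟩
    · rw [lt_div_iff₀ (by linarith)]; linarith
    · rw [div_lt_iff₀ (by linarith)]; linarith
  have hab : ρ * a < ρ * b := mul_lt_mul_of_pos_left hg.2.2.1 (by linarith)
  exact isGap_child hc hg (mem_child hc hg.1 ha (by linarith)) (mem_child hc hg.2.1 h0.le h1)

/-- Classification of the gaps: the two main gaps, or gaps of a child. -/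
lemma gap_cases {u v : ℝ} (hg : IsGap looseSet u v) :
    (u = 1 / 4 ∧ v = 9999 / 20000) ∨ (u = 10001 / 20000 ∧ v = 3 / 4) ∨
    ∃ ρ κ, IsChild ρ κ ∧ 0 ≤ ρ * u - κ ∧ ρ * v - κ ≤ 1 ∧
      IsGap looseSet (ρ * u - κ) (ρ * v - κ) := by
  obtain ⟨ρ, κ, hc, h0, h1, h2⟩ := exists_child hg.1
  have h4 := child_pos hc
  rcases h1.lt_or_eq with h1 | h1
  · right; right
    have h5 := child_gap_right hc hg h0 h1
    exact ⟨ρ, κ, hc, h0, (looseSet_sub h5.2.1).2, h5⟩
  · -- `u` is the right end of a child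
    have hm1 : (9999 / 20000 : ℝ) ∈ looseSet := by
      have := child_left_mem (ρ := 10000) (κ := 9999 / 2) (Or.inr (Or.inl ⟨rfl, rfl⟩))
      have e : (9999 / 2 : ℝ) / 10000 = 9999 / 20000 := by norm_num
      rwa [e] at this
    have hm2 : (3 / 4 : ℝ) ∈ looseSet :=
      child_left_mem (ρ := 4) (κ := 3) (Or.inr (Or.inr ⟨rfl, rfl⟩))
    have huv := hg.2.2.1
    have hv := looseSet_sub hg.2.1
    rcases hc with ⟨rfl, rfl⟩ | ⟨rfl, rfl⟩ | ⟨rfl, rfl⟩
    · left
      have hu : u = 1 / 4 := by linarith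
      refine ⟨hu, ?_⟩
      rcases lt_trichotomy v (9999 / 20000) with h | h | h
      · exfalso
        rcases trichotomy_loose hg.2.1 with h' | h' | h'
        · linarith [h'.2.1]
        · linarith [h'.1]
        · linarith [h'.1]
      · exact h
      · exact absurd ⟨by rw [hu]; norm_num, h⟩ (hg.2.2.2 _ hm1)
    · right; left
      have hu : u = 10001 / 20000 := by linarith
      refine ⟨hu, ?_⟩
      rcases lt_trichotomy v (3 / 4) with h | h | h
      · exfalso
        rcases trichotomy_loose hg.2.1 with h' | h' | h'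
        · linarith [h'.2.1]
        · linarith [h'.2.1]
        · linarith [h'.1]
      · exact h
      · exact absurd ⟨by rw [hu]; norm_num, h⟩ (hg.2.2.2 _ hm2)
    · exfalso
      linarith [hv.2]

/-- Scale induction for gaps. -/
lemma gap_induction {P : ℝ → ℝ → Prop}
    (h1 : P (1 / 4) (9999 / 20000)) (h2 : P (10001 / 20000) (3 / 4))
    (h3 : ∀ ρ κ u v, IsChild ρ κ → IsGap looseSet u v → 0 ≤ ρ * u - κ → ρ * v - κ ≤ 1 →
      IsGap looseSet (ρ * u - κ) (ρ * v - κ) → P (ρ * u - κ) (ρ * v - κ) → P u v) :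
    ∀ u v, IsGap looseSet u v → P u v := by
  have key : ∀ n : ℕ, ∀ u v, IsGap looseSet u v → 1 < (v - u) * 4 ^ n → P u v := by
    intro n
    induction n with
    | zero =>
      intro u v hg h
      exfalso
      have := looseSet_sub hg.1
      have := looseSet_sub hg.2.1
      simp only [pow_zero, mul_one] at h
      linarith [(looseSet_sub hg.1).1, (looseSet_sub hg.2.1).2]
    | succ n ih =>
      intro u v hg h
      rcases gap_cases hg with ⟨rfl, rfl⟩ | ⟨rfl, rfl⟩ | ⟨ρ, κ, hc, h0, h4, h5⟩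
      · exact h1
      · exact h2
      · refine h3 ρ κ u v hc hg h0 h4 h5 (ih _ _ h5 ?_)
        have h6 := child_pos hc
        have h7 : 0 < v - u := by linarith [hg.2.2.1]
        have h8 : 4 * (v - u) ≤ ρ * (v - u) := mul_le_mul_of_nonneg_right h6 h7.le
        have h9 : (0 : ℝ) < 4 ^ n := by positivity
        calc (1 : ℝ) < (v - u) * 4 ^ (n + 1) := h
          _ = 4 * (v - u) * 4 ^ n := by ring
          _ ≤ ρ * (v - u) * 4 ^ n := mul_le_mul_of_nonneg_right h8 h9.le
          _ = (ρ * v - κ - (ρ * u - κ)) * 4 ^ n := by ring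
  intro u v hg
  have hpos : 0 < v - u := by linarith [hg.2.2.1]
  obtain ⟨n, hn⟩ := pow_unbounded_of_one_lt (1 / (v - u)) (by norm_num : (1 : ℝ) < 4)
  refine key n u v hg ?_
  rw [div_lt_iff₀ hpos] at hn
  linarith

lemma gap_length_le {u v : ℝ} (hg : IsGap looseSet u v) : v - u ≤ 4999 / 20000 := by
  refine gap_induction (P := fun u v => v - u ≤ 4999 / 20000) (by norm_num) (by norm_num) ?_
    u v hg
  intro ρ κ u v hc hg h0 h1 h2 h3
  have h4 := child_pos hc
  have h5 : 0 < v - u := by linarith [hg.2.2.1]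
  nlinarith

/-- All bridges are longer than their gaps by the factor `5000 / 4999`. -/
lemma gap_bridges {u v : ℝ} (hg : IsGap looseSet u v) :
    5000 / 4999 * (v - u) ≤ 1 - v ∧ 5000 / 4999 * (v - u) ≤ u ∧
    (∀ a b, IsGap looseSet a b → v ≤ a → v - u < b - a → 5000 / 4999 * (v - u) ≤ a - v) ∧
    (∀ a b, IsGap looseSet a b → b ≤ u → v - u < b - a → 5000 / 4999 * (v - u) ≤ u - b) := by
  refine gap_induction (P := fun u v => 5000 / 4999 * (v - u) ≤ 1 - v ∧
    5000 / 4999 * (v - u) ≤ u ∧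
    (∀ a b, IsGap looseSet a b → v ≤ a → v - u < b - a → 5000 / 4999 * (v - u) ≤ a - v) ∧
    (∀ a b, IsGap looseSet a b → b ≤ u → v - u < b - a → 5000 / 4999 * (v - u) ≤ u - b))
    ?_ ?_ ?_ u v hg
  · refine ⟨by norm_num, by norm_num, ?_, ?_⟩
    · intro a b hab _ h
      have := gap_length_le hab
      exfalso; linarith
    · intro a b hab _ h
      have := gap_length_le hab
      exfalso; linarith
  · refine ⟨by norm_num, by norm_num, ?_, ?_⟩
    · intro a b hab _ h
      have := gap_length_le hab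
      exfalso; linarith
    · intro a b hab _ h
      have := gap_length_le hab
      exfalso; linarith
  · rintro ρ κ u v hc hg h0 h1 h2 ⟨i1, i2, i3, i4⟩
    have h4 := child_pos hc
    have h5 : 0 < v - u := by linarith [hg.2.2.1]
    have hρ : 0 < ρ := by linarith
    have e1 : 5000 / 4999 * (ρ * v - κ - (ρ * u - κ)) = ρ * (5000 / 4999 * (v - u)) := by ring
    rw [e1] at i1 i2 i3 i4
    -- the hull of the child lies in `[0, 1]`
    have hκ0 : 0 ≤ κ := by
      rcases hc with ⟨rfl, rfl⟩ | ⟨rfl, rfl⟩ | ⟨rfl, rfl⟩ <;> norm_num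
    have hκ1 : κ + 1 ≤ ρ := by
      rcases hc with ⟨rfl, rfl⟩ | ⟨rfl, rfl⟩ | ⟨rfl, rfl⟩ <;> norm_num
    refine ⟨?_, ?_, ?_, ?_⟩
    · have : ρ * (5000 / 4999 * (v - u)) ≤ ρ * (1 - v) := by nlinarith
      exact le_of_mul_le_mul_left this hρ
    · have : ρ * (5000 / 4999 * (v - u)) ≤ ρ * u := by linarith
      exact le_of_mul_le_mul_left this hρ
    · intro a b hab hva hlen
      have hρva : ρ * v ≤ ρ * a := mul_le_mul_of_nonneg_left hva hρ.le
      have huv : ρ * u < ρ * v := mul_lt_mul_of_pos_left hg.2.2.1 hρ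
      rcases lt_or_ge (ρ * a - κ) 1 with h | h
      · have hgap := child_gap_right hc hab (by linarith) h
        have := i3 _ _ hgap (by linarith) (by
          have := mul_lt_mul_of_pos_left hlen hρ
          linarith [show ρ * (v - u) = ρ * v - κ - (ρ * u - κ) by ring,
            show ρ * (b - a) = ρ * b - κ - (ρ * a - κ) by ring])
        have h6 : ρ * (5000 / 4999 * (v - u)) ≤ ρ * (a - v) := by
          linarith [show ρ * (a - v) = ρ * a - κ - (ρ * v - κ) by ring]
        exact le_of_mul_le_mul_left h6 hρ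
      · have h6 : ρ * (5000 / 4999 * (v - u)) ≤ ρ * (a - v) := by
          linarith [show ρ * (a - v) = ρ * a - κ - (ρ * v - κ) by ring]
        exact le_of_mul_le_mul_left h6 hρ
    · intro a b hab hbu hlen
      have hρbu : ρ * b ≤ ρ * u := mul_le_mul_of_nonneg_left hbu hρ.le
      have huv : ρ * u < ρ * v := mul_lt_mul_of_pos_left hg.2.2.1 hρ
      rcases le_or_gt (ρ * b - κ) 0 with h | h
      · have h6 : ρ * (5000 / 4999 * (v - u)) ≤ ρ * (u - b) := by
          linarith [show ρ * (u - b) = ρ * u - κ - (ρ * b - κ) by ring]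
        exact le_of_mul_le_mul_left h6 hρ
      · have hgap := child_gap_left hc hab h (by linarith)
        have := i4 _ _ hgap (by linarith) (by
          have := mul_lt_mul_of_pos_left hlen hρ
          linarith [show ρ * (v - u) = ρ * v - κ - (ρ * u - κ) by ring,
            show ρ * (b - a) = ρ * b - κ - (ρ * a - κ) by ring])
        have h6 : ρ * (5000 / 4999 * (v - u)) ≤ ρ * (u - b) := by
          linarith [show ρ * (u - b) = ρ * u - κ - (ρ * b - κ) by ring]
        exact le_of_mul_le_mul_left h6 hρ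

end R273.Tp
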