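import Pool.Agent.R273.TpCore

/-!
Small pieces of a Cantor set, reflection, and local linearisation (for MP_4ff6b6_an).
-/

namespace R273.Tp

open Set Filter Topology

/-- The longest (possibly degenerate) gap inside `[c, d]`. -/
lemma exists_longest {K : Set ℝ} (hK : IsClosed K) {c d : ℝ}
    (hne : (K ∩ Icc c d).Nonempty) :
    ∃ a b, a ∈ K ∧ b ∈ K ∧ c ≤ a ∧ a ≤ b ∧ b ≤ d ∧ (∀ y ∈ K, ¬ (a < y ∧ y < b)) ∧
      ∀ a' b', IsGap K a' b' → c ≤ a' → b' ≤ d → b' - a' ≤ b - a := by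
  let P : Set (ℝ × ℝ) := {x | x.1 ∈ K ∧ x.2 ∈ K ∧ c ≤ x.1 ∧ x.1 ≤ x.2 ∧ x.2 ≤ d ∧
    ∀ y ∈ K, y ≤ x.1 ∨ x.2 ≤ y}
  have hPclosed : IsClosed P := by
    have c1 : Continuous fun x : ℝ × ℝ => x.1 := continuous_fst
    have c2 : Continuous fun x : ℝ × ℝ => x.2 := continuous_snd
    refine (hK.preimage c1).inter ((hK.preimage c2).inter ((isClosed_le continuous_const c1).inter
      ((isClosed_le c1 c2).inter ((isClosed_le c2 continuous_const).inter ?_))))
    have : {x : ℝ × ℝ | ∀ y ∈ K, y ≤ x.1 ∨ x.2 ≤ y} =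
        ⋂ y ∈ K, ({x | y ≤ x.1} ∪ {x | x.2 ≤ y}) := by
      ext x; simp
    change IsClosed {x : ℝ × ℝ | ∀ y ∈ K, y ≤ x.1 ∨ x.2 ≤ y}
    rw [this]
    exact isClosed_biInter fun y _ =>
      (isClosed_le continuous_const c1).union (isClosed_le c2 continuous_const)
  have hPc : IsCompact P := by
    refine (isCompact_Icc.prod isCompact_Icc : IsCompact (Icc c d ×ˢ Icc c d)).of_isClosed_subset
      hPclosed ?_
    rintro ⟨x, y⟩ ⟨-, -, h1, h2, h3, -⟩
    exact ⟨⟨h1, h2.trans h3⟩, ⟨h1.trans h2, h3⟩⟩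
  have hPne : P.Nonempty := by
    obtain ⟨z, hz, hz1, hz2⟩ := hne
    exact ⟨(z, z), hz, hz, hz1, le_rfl, hz2, fun y _ => le_total y z⟩
  obtain ⟨⟨a, b⟩, ⟨ha, hb, h1, h2, h3, h4⟩, hmax⟩ := hPc.exists_isMaxOn hPne
    (f := fun x : ℝ × ℝ => x.2 - x.1) (by fun_prop)
  refine ⟨a, b, ha, hb, h1, h2, h3, ?_, ?_⟩
  · intro y hy hc
    rcases h4 y hy with h | h
    · exact absurd hc.1 (not_lt.mpr h)
    · exact absurd hc.2 (not_lt.mpr h)
  · intro a' b' hg hca hbd
    have hin : ((a', b') : ℝ × ℝ) ∈ P := by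
      refine ⟨hg.1, hg.2.1, hca, hg.2.2.1.le, hbd, ?_⟩
      intro y hy
      by_contra hc
      push Not at hc
      exact hg.2.2.2 y hy hc
    have := hmax hin
    simpa using this

/-- In a totally disconnected closed set there is a gap between any two points. -/
lemma exists_gap_between {K : Set ℝ} (hK : IsClosed K) (htd : IsTotallyDisconnected K) {c d : ℝ}
    (hc : c ∈ K) (hd : d ∈ K) (hcd : c < d) :
    ∃ a b, IsGap K a b ∧ c ≤ a ∧ b ≤ d := by
  have : ∃ z ∈ Icc c d, z ∉ K := by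
    by_contra h
    push Not at h
    have h1 : (Icc c d).Subsingleton := htd (Icc c d) h isPreconnected_Icc
    exact hcd.ne (h1 (left_mem_Icc.mpr hcd.le) (right_mem_Icc.mpr hcd.le))
  obtain ⟨z, hz, hzK⟩ := this
  obtain ⟨a, b, h1, -, -, h4, h5⟩ := exists_gap_around hK hzK hc hz.1 hd hz.2
  exact ⟨a, b, h1, h4, h5⟩

/-- Right endpoints of gaps are accumulated from the right. -/
lemma acc_right {K : Set ℝ} (hp : Preperfect K) {a b : ℝ} (h : IsGap K a b) {e : ℝ}
    (he : b < e) : ∃ y ∈ K, b < y ∧ y < e := by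
  have h1 := hp b h.2.1
  rw [accPt_iff_nhds] at h1
  obtain ⟨y, ⟨hy1, hy2⟩, hy3⟩ := h1 (Ioo a e) (Ioo_mem_nhds h.2.2.1 he)
  refine ⟨y, hy2, ?_, hy1.2⟩
  rcases lt_trichotomy y b with h' | h' | h'
  · exact absurd ⟨hy1.1, h'⟩ (h.2.2.2 y hy2)
  · exact absurd h' hy3
  · exact h'

/-- Left endpoints of gaps are accumulated from the left. -/
lemma acc_left {K : Set ℝ} (hp : Preperfect K) {a b : ℝ} (h : IsGap K a b) {e : ℝ}
    (he : e < a) : ∃ y ∈ K, e < y ∧ y < a := by
  have h1 := hp a h.1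
  rw [accPt_iff_nhds] at h1
  obtain ⟨y, ⟨hy1, hy2⟩, hy3⟩ := h1 (Ioo e b) (Ioo_mem_nhds he h.2.2.1)
  refine ⟨y, hy2, hy1.1, ?_⟩
  rcases lt_trichotomy y a with h' | h' | h'
  · exact h'
  · exact absurd h' hy3
  · exact absurd ⟨h', hy1.2⟩ (h.2.2.2 y hy2)

lemma no_adjacent {K : Set ℝ} (hp : Preperfect K) (a b c : ℝ) (h1 : IsGap K a b)
    (h2 : IsGap K b c) : False := by
  obtain ⟨y, hy, h3, h4⟩ := acc_right hp h1 h2.2.2.1
  exact h2.2.2.2 y hy ⟨h3, h4⟩

/-- A small piece of a Cantor set, isolated by gaps at least as long as its own gaps. -/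
lemma exists_piece {K : Set ℝ} (hK : IsClosed K) (hp : Preperfect K)
    (htd : IsTotallyDisconnected K) (hne : K.Nonempty) {ρ : ℝ} (hρ : 0 < ρ) :
    ∃ α' α p q β γ, IsGap K α' α ∧ IsGap K p q ∧ IsGap K β γ ∧ α ≤ p ∧ q ≤ β ∧ β - α < ρ ∧
      (∀ a b, IsGap K a b → α ≤ a → b ≤ β → b - a ≤ q - p) ∧ q - p ≤ α - α' ∧
      q - p ≤ γ - β := by
  obtain ⟨z, hz⟩ := hne
  -- a first gap
  have h0 : ∃ α' α, IsGap K α' α := by
    have h1 := hp z hz
    rw [accPt_iff_nhds] at h1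
    obtain ⟨y, ⟨-, hy2⟩, hy3⟩ := h1 univ univ_mem
    rcases lt_or_gt_of_ne hy3 with h | h
    · obtain ⟨a, b, hg, -, -⟩ := exists_gap_between hK htd hy2 hz h
      exact ⟨a, b, hg⟩
    · obtain ⟨a, b, hg, -, -⟩ := exists_gap_between hK htd hz hy2 h
      exact ⟨a, b, hg⟩
  obtain ⟨α', α, h₁⟩ := h0
  have hαα : 0 < α - α' := by linarith [h₁.2.2.1]
  set r := min (ρ / 2) ((α - α') / 2) with hr
  have hr0 : 0 < r := lt_min (by linarith) (by linarith)
  have hr1 : r < ρ := lt_of_le_of_lt (min_le_left _ _) (by linarith)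
  have hr2 : r < α - α' := lt_of_le_of_lt (min_le_right _ _) (by linarith)
  -- the longest gap in `[α, α + r]`
  obtain ⟨β, γ, hβK, hγK, hαβ, hβγ, hγr, hβγK, hβγmax⟩ := exists_longest hK (c := α) (d := α + r)
    ⟨α, h₁.2.1, le_rfl, by linarith⟩
  obtain ⟨y, hyK, hαy, hyr⟩ := acc_right hp h₁ (show α < α + r by linarith)
  obtain ⟨a0, b0, hg0, ha0, hb0⟩ := exists_gap_between hK htd h₁.2.1 hyK hαy
  have hβγ' : β < γ := by
    have := hβγmax a0 b0 hg0 ha0 (by linarith)
    have h2 := hg0.2.2.1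
    linarith
  have h₂ : IsGap K β γ := ⟨hβK, hγK, hβγ', hβγK⟩
  have hαβ' : α < β := by
    rcases hαβ.lt_or_eq with h | h
    · exact h
    · exact (no_adjacent hp α' α γ h₁ (by rw [h]; exact h₂)).elim
  -- the longest gap in `[α, β]`
  obtain ⟨p, q, hpK, hqK, hαp, hpq, hqβ, hpqK, hpqmax⟩ := exists_longest hK (c := α) (d := β)
    ⟨α, h₁.2.1, le_rfl, hαβ⟩
  obtain ⟨a1, b1, hg1, ha1, hb1⟩ := exists_gap_between hK htd h₁.2.1 hβK hαβ'
  have hpq' : p < q := by
    have := hpqmax a1 b1 hg1 ha1 hb1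
    have h2 := hg1.2.2.1
    linarith
  have hG : IsGap K p q := ⟨hpK, hqK, hpq', hpqK⟩
  have hle : q - p ≤ γ - β := hβγmax p q hG hαp (by linarith)
  exact ⟨α', α, p, q, β, γ, h₁, hG, h₂, hαp, hqβ, by linarith, hpqmax, by linarith, hle⟩

/-- Core statement on a small piece, for a globally bi-Lipschitz increasing `f`. -/
theorem core_piece {K : Set ℝ} (hK : IsClosed K) (hp : Preperfect K)
    (htd : IsTotallyDisconnected K) (hne : K.Nonempty) {τ : ℝ} (hτ : 1 < τ) (hT : Thick K τ)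
    {f : ℝ → ℝ} (hf : Continuous f) (hf0 : f 0 = 0) {m₁ m₂ : ℝ} (hm₁ : 0 < m₁)
    (hlow : ∀ s t, s ≤ t → m₁ * (t - s) ≤ f t - f s)
    (hupp : ∀ s t, s ≤ t → f t - f s ≤ m₂ * (t - s))
    (hm : m₂ < τ * m₁) (hone : 1 < τ * m₁) {T : ℝ} (hT0 : 0 < T) :
    ∃ x t, 0 < t ∧ t ≤ T ∧ x - t ∈ K ∧ x ∈ K ∧ x + f t ∈ K := by
  have hρ : 0 < min T (m₁ * T) := lt_min hT0 (mul_pos hm₁ hT0)
  obtain ⟨α', α, p, q, β, γ, h₁, hG, h₂, hαp, hqβ, hlen, hmax, hg₁, hg₂⟩ :=
    exists_piece hK hp htd hne hρ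
  obtain ⟨t, ht0, htT, h3, h4, h5⟩ := core hK hτ hT (no_adjacent hp) hf hf0 hm₁ hlow hupp hm hone
    h₁ hG h₂ hαp hqβ hmax hg₁ hg₂
  refine ⟨p, t, ht0, ?_, h3, h4, h5⟩
  have h6 : β - α < T := lt_of_lt_of_le hlen (min_le_left _ _)
  have h7 : β - α < m₁ * T := lt_of_lt_of_le hlen (min_le_right _ _)
  have h8 : m₁ * t ≤ m₁ * T :=
    htT.trans (max_le (mul_le_mul_of_nonneg_left h6.le hm₁.le) h7.le)
  exact le_of_mul_le_mul_left h8 hm₁

lemma isGap_neg {K : Set ℝ} {u v : ℝ} : IsGap (-K) u v ↔ IsGap K (-v) (-u) := by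
  unfold IsGap
  constructor
  · rintro ⟨h1, h2, h3, h4⟩
    refine ⟨h2, h1, by linarith, ?_⟩
    intro x hx hc
    exact h4 (-x) (by simpa using hx) ⟨by linarith [hc.2], by linarith [hc.1]⟩
  · rintro ⟨h1, h2, h3, h4⟩
    refine ⟨h2, h1, by linarith, ?_⟩
    intro x hx hc
    exact h4 (-x) hx ⟨by linarith [hc.2], by linarith [hc.1]⟩

lemma Thick.neg {K : Set ℝ} {τ : ℝ} (h : Thick K τ) : Thick (-K) τ where
  R := by
    intro u v a b h1 h2 h3 h4
    rw [isGap_neg] at h1 h2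
    have := h.L _ _ _ _ h1 h2 (by linarith) (by linarith)
    linarith [this, show τ * (-u - -v) = τ * (v - u) by ring]
  L := by
    intro u v a b h1 h2 h3 h4
    rw [isGap_neg] at h1 h2
    have := h.R _ _ _ _ h1 h2 (by linarith) (by linarith)
    linarith [this, show τ * (-u - -v) = τ * (v - u) by ring]

lemma preperfect_neg {K : Set ℝ} (h : Preperfect K) : Preperfect (-K) := by
  intro x hx
  have h1 := h (-x) hx
  rw [accPt_iff_nhds] at h1 ⊢
  intro U hU
  have hU' : -U ∈ 𝓝 (-x) := by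
    have := (continuous_neg (G := ℝ)).continuousAt (x := -x) |>.preimage_mem_nhds
      (t := U) (by simpa using hU)
    simpa using this
  obtain ⟨y, ⟨hy1, hy2⟩, hy3⟩ := h1 (-U) hU'
  refine ⟨-y, ⟨by simpa using hy1, by simpa using hy2⟩, ?_⟩
  intro hc
  exact hy3 (by rw [← hc]; simp)

lemma totallyDisconnected_neg {K : Set ℝ} (h : IsTotallyDisconnected K) :
    IsTotallyDisconnected (-K) := by
  intro t ht htc
  have h1 : (-t) ⊆ K := fun y hy => by
    have : -y ∈ -K := ht hy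
    simpa using this
  have h2 : IsPreconnected (-t) := by
    have := htc.image (fun x : ℝ => -x) continuous_neg.continuousOn
    simpa [Set.image_neg_eq_neg] using this
  have h3 := h (-t) h1 h2
  intro a ha b hb
  have := h3 (show -a ∈ -t by simpa using ha) (show -b ∈ -t by simpa using hb)
  linarith

/-- Patterns for globally bi-Lipschitz increasing `f` whose slopes lie in a narrow window. -/
theorem global_pattern {K : Set ℝ} (hK : IsClosed K) (hp : Preperfect K)
    (htd : IsTotallyDisconnected K) (hne : K.Nonempty) {τ : ℝ} (hτ : 1 < τ) (hT : Thick K τ)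
    {f : ℝ → ℝ} (hf : Continuous f) (hf0 : f 0 = 0) {m₁ m₂ : ℝ} (hm₁ : 0 < m₁)
    (hlow : ∀ s t, s ≤ t → m₁ * (t - s) ≤ f t - f s)
    (hupp : ∀ s t, s ≤ t → f t - f s ≤ m₂ * (t - s))
    (hm : m₂ < τ * m₁) (hone : 1 < τ * m₁ ∨ m₂ < τ) {T : ℝ} (hT0 : 0 < T) :
    ∃ x t, 0 < t ∧ t ≤ T ∧ x - t ∈ K ∧ x ∈ K ∧ x + f t ∈ K := by
  rcases hone with hone | hone
  · exact core_piece hK hp htd hne hτ hT hf hf0 hm₁ hlow hupp hm hone hT0
  · -- use the inverse function and the reflected set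
    have hm₂ : 0 < m₂ := by
      have h1 := hlow 0 1 zero_le_one
      have h2 := hupp 0 1 zero_le_one
      nlinarith
    have hstrict : StrictMono f := by
      intro s t hst
      have := hlow s t hst.le
      have h2 : 0 < m₁ * (t - s) := mul_pos hm₁ (by linarith)
      linarith
    have htop : Tendsto f atTop atTop := by
      refine tendsto_atTop_mono' atTop ?_ (tendsto_id.const_mul_atTop hm₁)
      filter_upwards [eventually_ge_atTop (0 : ℝ)] with t ht
      have := hlow 0 t ht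
      simp only [id]
      rw [hf0] at this
      linarith
    have hbot : Tendsto f atBot atBot := by
      refine tendsto_atBot_mono' atBot ?_ (tendsto_id.const_mul_atBot hm₁)
      filter_upwards [eventually_le_atBot (0 : ℝ)] with t ht
      have := hlow t 0 ht
      simp only [id]
      rw [hf0] at this
      linarith
    have hsurj : Function.Surjective f := hf.surjective htop hbot
    let e : ℝ ≃o ℝ := hstrict.orderIsoOfSurjective f hsurj
    have hfe : ∀ y, f (e.symm y) = y := fun y => e.apply_symm_apply y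
    have hef : ∀ t, e.symm (f t) = t := fun t => e.symm_apply_apply t
    have hgc : Continuous e.symm := e.symm.continuous
    have hg0 : e.symm 0 = 0 := by have := hef 0; rwa [hf0] at this
    have hT' : 0 < f T := by
      have := hstrict hT0
      rwa [hf0] at this
    obtain ⟨x, t, ht0, htT, h1, h2, h3⟩ := core_piece (K := -K) (f := e.symm) hK.neg
      (preperfect_neg hp) (totallyDisconnected_neg htd) hne.neg hτ hT.neg hgc hg0
      (m₁ := 1 / m₂) (m₂ := 1 / m₁) (by positivity)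
      (by
        intro s t hst
        have := hupp (e.symm s) (e.symm t) (e.symm.monotone hst)
        rw [hfe, hfe] at this
        rw [div_mul_eq_mul_div, one_mul, div_le_iff₀ hm₂]
        linarith)
      (by
        intro s t hst
        have := hlow (e.symm s) (e.symm t) (e.symm.monotone hst)
        rw [hfe, hfe] at this
        rw [div_mul_eq_mul_div, one_mul, le_div_iff₀ hm₁]
        linarith)
      (by
        rw [mul_one_div, div_lt_div_iff₀ hm₁ hm₂]
        linarith)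
      (by
        rw [mul_one_div, lt_div_iff₀ hm₂]
        linarith) hT'
    refine ⟨-x, e.symm t, ?_, ?_, ?_, ?_, ?_⟩
    · have := e.symm.strictMono ht0
      rwa [hg0] at this
    · have := e.symm.monotone htT
      rwa [hef] at this
    · have : -(x + e.symm t) ∈ K := h3
      rwa [neg_add] at this
    · exact h2
    · rw [hfe]
      have : -(x - t) ∈ K := h1
      rwa [neg_sub', sub_neg_eq_add] at this

/-- Local version: `f` is `C¹` with `f 0 = 0` and positive slope at `0`. -/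
theorem local_pattern {K : Set ℝ} (hK : IsClosed K) (hp : Preperfect K)
    (htd : IsTotallyDisconnected K) (hne : K.Nonempty) {τ : ℝ} (hτ : 1 < τ) (hT : Thick K τ)
    {f : ℝ → ℝ} (hf : ContDiff ℝ 1 f) (hf0 : f 0 = 0) (hf' : 0 < deriv f 0) {T₀ : ℝ}
    (hT₀ : 0 < T₀) :
    ∃ x t, 0 < t ∧ t ≤ T₀ ∧ x - t ∈ K ∧ x ∈ K ∧ x + f t ∈ K := by
  set m := deriv f 0 with hmdef
  -- choose the tolerance
  obtain ⟨ε, hε0, hε1, hετ⟩ : ∃ ε : ℝ, 0 < ε ∧ ε < 1 ∧ 1 + ε < τ * (1 - ε) := by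
    refine ⟨(τ - 1) / (2 * (τ + 1)), div_pos (by linarith) (by linarith), ?_, ?_⟩
    · rw [div_lt_one (by linarith)]; linarith
    · have h1 : (0 : ℝ) < 2 * (τ + 1) := by linarith
      have h2 : (τ - 1) / (2 * (τ + 1)) * (τ + 1) = (τ - 1) / 2 := by
        have h3 : τ + 1 ≠ 0 := by linarith
        field_simp
      nlinarith
  have hcd : Continuous (deriv f) := (contDiff_one_iff_deriv.1 hf).2
  have hfd : Differentiable ℝ f := (contDiff_one_iff_deriv.1 hf).1
  have hεm : 0 < ε * m := mul_pos hε0 hf'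
  obtain ⟨δ, hδ0, hδ⟩ := Metric.continuousAt_iff.1 (hcd.continuousAt (x := (0 : ℝ))) (ε * m) hεm
  set T := min (δ / 2) T₀ with hTdef
  have hT0 : 0 < T := lt_min (by linarith) hT₀
  have hTδ : T < δ := lt_of_le_of_lt (min_le_left _ _) (by linarith)
  have hder : ∀ x ∈ Icc (0 : ℝ) T, m * (1 - ε) ≤ deriv f x ∧ deriv f x ≤ m * (1 + ε) := by
    intro x hx
    have h1 : dist x 0 < δ := by
      rw [Real.dist_eq, sub_zero, abs_of_nonneg hx.1]
      linarith [hx.2]
    have h2 := hδ h1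
    rw [Real.dist_eq, abs_lt] at h2
    constructor <;> nlinarith [h2.1, h2.2]
  have hlowT : ∀ x ∈ Icc (0 : ℝ) T, ∀ y ∈ Icc (0 : ℝ) T, x ≤ y →
      m * (1 - ε) * (y - x) ≤ f y - f x :=
    (convex_Icc 0 T).mul_sub_le_image_sub_of_le_deriv hfd.continuous.continuousOn
      hfd.differentiableOn (fun x hx => (hder x (interior_subset hx)).1)
  have huppT : ∀ x ∈ Icc (0 : ℝ) T, ∀ y ∈ Icc (0 : ℝ) T, x ≤ y →
      f y - f x ≤ m * (1 + ε) * (y - x) :=
    (convex_Icc 0 T).image_sub_le_mul_sub_of_deriv_le hfd.continuous.continuousOn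
      hfd.differentiableOn (fun x hx => (hder x (interior_subset hx)).2)
  -- the linear continuation of `f`
  let c : ℝ → ℝ := fun t => max 0 (min T t)
  have hcmem : ∀ t, c t ∈ Icc (0 : ℝ) T := fun t =>
    ⟨le_max_left _ _, max_le hT0.le (min_le_left _ _)⟩
  have hcmono : ∀ s t, s ≤ t → c s ≤ c t := fun s t h =>
    max_le_max le_rfl (min_le_min le_rfl h)
  have hclip : ∀ s t, s ≤ t → c t - c s ≤ t - s := by
    intro s t h
    simp only [c]
    rcases max_cases 0 (min T t) with ⟨h1, h1'⟩ | ⟨h1, h1'⟩ <;>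
    rcases max_cases 0 (min T s) with ⟨h2, h2'⟩ | ⟨h2, h2'⟩ <;>
    rcases min_cases T t with ⟨h3, h3'⟩ | ⟨h3, h3'⟩ <;>
    rcases min_cases T s with ⟨h4, h4'⟩ | ⟨h4, h4'⟩ <;>
    linarith
  have hcid : ∀ t, 0 ≤ t → t ≤ T → c t = t := by
    intro t h1 h2
    simp only [c]
    rw [min_eq_right h2, max_eq_right h1]
  have hccont : Continuous c := by
    simp only [c]
    fun_prop
  let F : ℝ → ℝ := fun t => f (c t) + m * (t - c t)
  have hF0 : F 0 = 0 := by
    simp only [F]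
    rw [hcid 0 le_rfl hT0.le, hf0]; ring
  have hFcont : Continuous F := by
    have h1 : Continuous fun t => f (c t) := hfd.continuous.comp hccont
    exact h1.add (continuous_const.mul (continuous_id.sub hccont))
  have hm1 : 0 < m * (1 - ε) := mul_pos hf' (by linarith)
  have hFlow : ∀ s t, s ≤ t → m * (1 - ε) * (t - s) ≤ F t - F s := by
    intro s t h
    have h1 := hlowT (c s) (hcmem s) (c t) (hcmem t) (hcmono s t h)
    have h2 := hclip s t h
    simp only [F]
    have h3 : 0 ≤ m * ε * ((t - s) - (c t - c s)) :=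
      mul_nonneg (mul_nonneg hf'.le hε0.le) (by linarith)
    nlinarith
  have hFupp : ∀ s t, s ≤ t → F t - F s ≤ m * (1 + ε) * (t - s) := by
    intro s t h
    have h1 := huppT (c s) (hcmem s) (c t) (hcmem t) (hcmono s t h)
    have h2 := hclip s t h
    simp only [F]
    have h3 : 0 ≤ m * ε * ((t - s) - (c t - c s)) :=
      mul_nonneg (mul_nonneg hf'.le hε0.le) (by linarith)
    nlinarith
  have hmm : m * (1 + ε) < τ * (m * (1 - ε)) := by
    have := mul_lt_mul_of_pos_left hετ hf'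
    linarith [this, show m * (τ * (1 - ε)) = τ * (m * (1 - ε)) by ring]
  have hor : 1 < τ * (m * (1 - ε)) ∨ m * (1 + ε) < τ := by
    rcases le_total 1 m with h | h
    · left
      have h1 : τ * (1 - ε) * 1 ≤ τ * (1 - ε) * m :=
        mul_le_mul_of_nonneg_left h (by linarith)
      linarith [show τ * (1 - ε) * m = τ * (m * (1 - ε)) by ring]
    · right
      have h1 : m * (1 + ε) ≤ 1 * (1 + ε) := mul_le_mul_of_nonneg_right h (by linarith)
      nlinarith
  obtain ⟨x, t, ht0, htT, h1, h2, h3⟩ := global_pattern hK hp htd hne hτ hT hFcont hF0 hm1 hFlow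
    hFupp hmm hor hT0
  refine ⟨x, t, ht0, htT.trans (min_le_right _ _), h1, h2, ?_⟩
  have h4 : F t = f t := by
    simp only [F]
    rw [hcid t ht0.le htT]; ring
  rwa [h4] at h3

end R273.Tp
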